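import Pool.Agent.Lib.MP_a4658c_nt.K5.A2

/-! Piece A4: reduction from the Kakutani map to the accelerated map. -/

namespace K5

private lemma A4_two (a m : ℕ) : kak^[a] (2 ^ a * m) = m := by
  induction a with
  | zero => simp
  | succ a ih =>
    rw [Function.iterate_succ_apply]
    have h : kak (2 ^ (a + 1) * m) = 2 ^ a * m := by
      have e : 2 ^ (a + 1) * m = 2 * (2 ^ a * m) := by ring
      unfold kak
      rw [if_pos ⟨2 ^ a * m, e⟩, e, Nat.mul_div_cancel_left _ (by norm_num)]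
    rw [h, ih]

private lemma A4_three (b m : ℕ) (hm : m % 2 = 1) : kak^[b] (3 ^ b * m) = m := by
  induction b with
  | zero => simp
  | succ b ih =>
    rw [Function.iterate_succ_apply]
    have h : kak (3 ^ (b + 1) * m) = 3 ^ b * m := by
      have e : 3 ^ (b + 1) * m = 3 * (3 ^ b * m) := by ring
      have hodd : ¬ 2 ∣ 3 ^ (b + 1) * m := by
        rw [Nat.prime_two.dvd_mul]
        rintro (h | h)
        · have := Nat.prime_two.dvd_of_dvd_pow h
          omega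
        · omega
      unfold kak
      rw [if_neg hodd, if_pos ⟨3 ^ b * m, e⟩, e, Nat.mul_div_cancel_left _ (by norm_num)]
    rw [h, ih]

private lemma A4_both (a b m : ℕ) (hm : m % 2 = 1) : kak^[b + a] (2 ^ a * 3 ^ b * m) = m := by
  rw [Function.iterate_add_apply, mul_assoc, A4_two, A4_three b m hm]

private lemma A4_step {m : ℕ} (hm : U m) : ∃ k : ℕ, kak^[k] m = S m := by
  refine ⟨(letter m).2 + (letter m).1 + 1, ?_⟩
  rw [Function.iterate_succ_apply]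
  have h1 : kak m = 5 * m + 1 := by
    obtain ⟨h2, h3⟩ := hm
    unfold kak
    rw [if_neg (by omega), if_neg (by omega)]
  have h4 := dd_letter_mul_S hm
  unfold dd at h4
  rw [h1, ← h4]
  exact A4_both _ _ _ (U_S hm).1

/-- Every `n ≥ 1` is `2^a 3^b n'` with `n' ∈ U`, and the kak orbit of `n` contains the `S` orbit
of `n'`. -/
lemma kak_reduction {n : ℕ} (hn : 1 ≤ n) : ∃ a b n' : ℕ, U n' ∧ n = 2 ^ a * 3 ^ b * n' ∧
    ∀ i : ℕ, ∃ k : ℕ, kak^[k] n = S^[i] n' := by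
  obtain ⟨a, n1, h1, h2⟩ := Nat.exists_eq_pow_mul_and_not_dvd (n := n) (by omega) 2 (by norm_num)
  have hn1 : n1 ≠ 0 := by
    rintro rfl
    simp at h1
  obtain ⟨b, n', h3, h4⟩ := Nat.exists_eq_pow_mul_and_not_dvd hn1 3 (by norm_num)
  have hodd : n' % 2 = 1 := by
    have : ¬ 2 ∣ n' := fun h => h1 (by rw [h4]; exact h.mul_left _)
    omega
  have hU : U n' := ⟨hodd, by omega⟩
  have hn' : n = 2 ^ a * 3 ^ b * n' := by rw [h2, h4, mul_assoc]
  refine ⟨a, b, n', hU, hn', fun i => ?_⟩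
  induction i with
  | zero => exact ⟨b + a, by rw [hn']; exact A4_both a b n' hodd⟩
  | succ i ih =>
    obtain ⟨k, hk⟩ := ih
    obtain ⟨k', hk'⟩ := A4_step (U_iter hU i)
    refine ⟨k' + k, ?_⟩
    rw [Function.iterate_add_apply, hk, hk', Function.iterate_succ_apply']

private lemma A4_geo (M : ℕ) : ∑ b ∈ Finset.range M, (1 / 3 : ℝ) ^ b ≤ 3 / 2 := by
  have h : ∑ b ∈ Finset.range M, (1 / 3 : ℝ) ^ b = 3 / 2 - 3 / 2 * (1 / 3 : ℝ) ^ M := by
    induction M with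
    | zero => simp
    | succ M ih =>
      rw [Finset.sum_range_succ, ih, pow_succ]
      ring
  have h2 : 0 ≤ (1 / 3 : ℝ) ^ M := by positivity
  rw [h]
  linarith

open Classical in
/-- Reduction of the count for `kak` to the count for `G`. -/
lemma kak_count {X C : ℝ} (hX : 1 ≤ X) (hC : 0 ≤ C)
    (h : ∀ N : ℕ, (((Finset.Icc 1 N).filter (fun n => G X n)).card : ℝ) ≤ C * N) (N : ℕ) :
    (((Finset.Icc 1 N).filter (fun n => ∀ k : ℕ, X < (kak^[k] n : ℝ))).card : ℝ)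
      ≤ 3 * C * N := by
  have hsub : (Finset.Icc 1 N).filter (fun n => ∀ k : ℕ, X < (kak^[k] n : ℝ)) ⊆
      (Finset.range (N + 1) ×ˢ Finset.range (N + 1)).biUnion fun p : ℕ × ℕ =>
        ((Finset.Icc 1 (N / (2 ^ p.1 * 3 ^ p.2))).filter (fun n => G X n)).image
          fun n' => 2 ^ p.1 * 3 ^ p.2 * n' := by
    intro n hn
    rw [Finset.mem_filter, Finset.mem_Icc] at hn
    obtain ⟨⟨hn1, hnN⟩, hk⟩ := hn
    obtain ⟨a, b, n', hU, he, hi⟩ := kak_reduction hn1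
    have hn'1 : 1 ≤ n' := by have := hU.1; omega
    have h2a : 1 ≤ 2 ^ a := Nat.one_le_pow _ _ (by norm_num)
    have h3b : 1 ≤ 3 ^ b := Nat.one_le_pow _ _ (by norm_num)
    have ha : a < N + 1 := by
      have h1 : a < 2 ^ a := Nat.lt_two_pow_self
      have h2 : 2 ^ a ≤ n := by
        rw [he, mul_assoc]
        exact Nat.le_mul_of_pos_right _ (Nat.mul_pos h3b hn'1)
      omega
    have hb : b < N + 1 := by
      have h1 : b < 3 ^ b := Nat.lt_pow_self (by norm_num)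
      have h2 : 3 ^ b ≤ n := by
        have e : n = 3 ^ b * (2 ^ a * n') := by rw [he]; ring
        rw [e]
        exact Nat.le_mul_of_pos_right _ (Nat.mul_pos h2a hn'1)
      omega
    rw [Finset.mem_biUnion]
    refine ⟨(a, b), Finset.mem_product.2 ⟨Finset.mem_range.2 ha, Finset.mem_range.2 hb⟩, ?_⟩
    rw [Finset.mem_image]
    refine ⟨n', Finset.mem_filter.2 ⟨Finset.mem_Icc.2 ⟨hn'1, ?_⟩, hU, fun i => ?_⟩, he.symm⟩
    · change n' ≤ N / (2 ^ a * 3 ^ b)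
      rw [Nat.le_div_iff_mul_le (Nat.mul_pos h2a h3b)]
      rw [he] at hnN
      linarith
    · obtain ⟨k, hk'⟩ := hi i
      rw [← hk']
      exact hk k
  have hcard := (Finset.card_le_card hsub).trans Finset.card_biUnion_le
  have hterm : ∀ p : ℕ × ℕ, ((((Finset.Icc 1 (N / (2 ^ p.1 * 3 ^ p.2))).filter
      (fun n => G X n)).image fun n' => 2 ^ p.1 * 3 ^ p.2 * n').card : ℝ) ≤
      C * N * ((1 / 2 : ℝ) ^ p.1 * (1 / 3 : ℝ) ^ p.2) := by
    intro p
    have h1 : ((((Finset.Icc 1 (N / (2 ^ p.1 * 3 ^ p.2))).filter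
        (fun n => G X n)).image fun n' => 2 ^ p.1 * 3 ^ p.2 * n').card : ℝ) ≤
        (((Finset.Icc 1 (N / (2 ^ p.1 * 3 ^ p.2))).filter (fun n => G X n)).card : ℝ) := by
      exact_mod_cast Finset.card_image_le
    refine h1.trans ((h _).trans ?_)
    have h2 : ((N / (2 ^ p.1 * 3 ^ p.2) : ℕ) : ℝ) ≤ (N : ℝ) / ((2 ^ p.1 * 3 ^ p.2 : ℕ) : ℝ) :=
      Nat.cast_div_le
    have h3 : (N : ℝ) / ((2 ^ p.1 * 3 ^ p.2 : ℕ) : ℝ) =
        N * ((1 / 2 : ℝ) ^ p.1 * (1 / 3 : ℝ) ^ p.2) := by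
      push_cast
      rw [one_div_pow, one_div_pow]
      field_simp
    rw [mul_assoc]
    exact mul_le_mul_of_nonneg_left (h2.trans h3.le) hC
  have hreal : (((Finset.Icc 1 N).filter (fun n => ∀ k : ℕ, X < (kak^[k] n : ℝ))).card : ℝ) ≤
      ∑ p ∈ Finset.range (N + 1) ×ˢ Finset.range (N + 1),
        C * N * ((1 / 2 : ℝ) ^ p.1 * (1 / 3 : ℝ) ^ p.2) := by
    refine le_trans ?_ (Finset.sum_le_sum fun p _ => hterm p)
    exact_mod_cast hcard
  refine hreal.trans ?_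
  rw [← Finset.mul_sum, Finset.sum_product]
  simp only
  have e : ∑ x ∈ Finset.range (N + 1), ∑ y ∈ Finset.range (N + 1),
      (1 / 2 : ℝ) ^ x * (1 / 3 : ℝ) ^ y =
      (∑ x ∈ Finset.range (N + 1), (1 / 2 : ℝ) ^ x) *
        ∑ y ∈ Finset.range (N + 1), (1 / 3 : ℝ) ^ y := by
    rw [Finset.sum_mul_sum]
  rw [e]
  have g1 : (∑ x ∈ Finset.range (N + 1), (1 / 2 : ℝ) ^ x) ≤ 2 := sum_geometric_two_le _
  have g2 := A4_geo (N + 1)
  have g3 : 0 ≤ ∑ y ∈ Finset.range (N + 1), (1 / 3 : ℝ) ^ y :=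
    Finset.sum_nonneg fun _ _ => by positivity
  have g4 : (∑ x ∈ Finset.range (N + 1), (1 / 2 : ℝ) ^ x) *
      (∑ y ∈ Finset.range (N + 1), (1 / 3 : ℝ) ^ y) ≤ 3 := by
    calc _ ≤ 2 * (∑ y ∈ Finset.range (N + 1), (1 / 3 : ℝ) ^ y) :=
          mul_le_mul_of_nonneg_right g1 g3
      _ ≤ 3 := by linarith
  have g5 : 0 ≤ C * N := by positivity
  calc C * N * _ ≤ C * N * 3 := mul_le_mul_of_nonneg_left g4 g5
    _ = 3 * C * N := by ring

end K5
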