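import Pool.Agent.Lib.MP_a4658c_nt.K5.A1

/-! Piece A2: words and the affine formula (paper (0.1), (0.2), (0.5)). -/

namespace K5

/-- (0.1) -/
lemma fword_eq {n : ℕ} (hn : U n) (k : ℕ) :
    5 ^ k * n + cnum (fword k n) = D (fword k n) * S^[k] n := by
  induction k with
  | zero => simp
  | succ k ih =>
    have h := dd_letter_mul_S (U_iter hn k)
    rw [fword_succ, cnum_cons, D_cons, Function.iterate_succ_apply']
    calc 5 ^ (k + 1) * n + (D (fword k n) + 5 * cnum (fword k n))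
        = 5 * (5 ^ k * n + cnum (fword k n)) + D (fword k n) := by ring
      _ = D (fword k n) * (5 * S^[k] n + 1) := by rw [ih]; ring
      _ = dd (letter (S^[k] n)) * D (fword k n) * S (S^[k] n) := by rw [← h]; ring

private lemma A2_coprime (w : List Let) : Nat.Coprime 5 (D w) := by
  rw [D_eq]
  exact Nat.Coprime.mul_right (Nat.Coprime.pow_right _ (by norm_num))
    (Nat.Coprime.pow_right _ (by norm_num))

/-- (0.2) -/
lemma conv {Λ k m n : ℕ} {w : List Let} (hm : U m) (hw : w ∈ W Λ k (cl m))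
    (h : 5 ^ k * n + cnum w = D w * m) :
    U n ∧ cl n = endc (cl m) w ∧ S^[k] n = m ∧ fword k n = w := by
  induction k generalizing m w with
  | zero =>
    rw [mem_W_zero] at hw
    subst hw
    have hnm : n = m := by simpa using h
    subst hnm
    exact ⟨hm, rfl, rfl, rfl⟩
  | succ k ih =>
    rw [mem_W_succ] at hw
    obtain ⟨l, hl, w', hw', rfl⟩ := hw
    rw [cnum_cons, D_cons] at h
    have h2 := dd_mul_pos hm hl
    obtain ⟨t, ht⟩ : ∃ t, dd l * m = t + 1 := ⟨dd l * m - 1, by omega⟩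
    have h3 : D w' * t = 5 * (5 ^ k * n + cnum w') := by
      have h4 : D w' * (dd l * m) = D w' + 5 * (5 ^ k * n + cnum w') := by
        calc D w' * (dd l * m) = dd l * D w' * m := by ring
          _ = 5 ^ (k + 1) * n + (D w' + 5 * cnum w') := h.symm
          _ = D w' + 5 * (5 ^ k * n + cnum w') := by ring
      rw [ht, Nat.mul_add, mul_one] at h4
      omega
    have h5 : 5 ∣ t := (A2_coprime w').dvd_of_dvd_mul_left ⟨_, h3⟩
    obtain ⟨n1, rfl⟩ := h5
    have h6 : 5 ^ k * n + cnum w' = D w' * n1 := by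
      have h7 : 5 * (D w' * n1) = 5 * (5 ^ k * n + cnum w') := by rw [← h3]; ring
      exact (Nat.eq_of_mul_eq_mul_left (by norm_num) h7).symm
    obtain ⟨hU1, hc1, hS1, hl1⟩ := back_step hm hl ht
    rw [← hc1] at hw'
    obtain ⟨hU, hc, hS, hf⟩ := ih hU1 hw' h6
    refine ⟨hU, ?_, ?_, ?_⟩
    · rw [endc_cons, hc, hc1]
    · rw [Function.iterate_succ_apply', hS, hS1]
    · rw [fword_succ, hS, hl1, hf]

/-- (0.5) -/
lemma fword_mem_W {n Λ : ℕ} (hn : U n) (k : ℕ)
    (h : ∀ l ∈ fword k n, l.1 ≤ Λ ∧ l.2 ≤ Λ) : fword k n ∈ W Λ k (cl (S^[k] n)) := by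
  induction k with
  | zero => simp [W]
  | succ k ih =>
    rw [fword_succ, cons_mem_W, Function.iterate_succ_apply']
    have h1 := h (letter (S^[k] n)) (by simp)
    refine ⟨letter_mem_L (U_iter hn k) h1.1 h1.2, ?_⟩
    rw [nx_letter (U_iter hn k)]
    exact ih fun l hl => h l (by rw [fword_succ]; exact List.mem_cons_of_mem _ hl)

lemma endc_fword {n : ℕ} (hn : U n) (k : ℕ) : endc (cl (S^[k] n)) (fword k n) = cl n := by
  induction k with
  | zero => rfl
  | succ k ih => rw [fword_succ, endc_cons, nx_letter (U_iter hn k), ih]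

/-- `fword (i + j) n = fword i (S^j n) ++ fword j n`. -/
lemma fword_add (i j n : ℕ) : fword (i + j) n = fword i (S^[j] n) ++ fword j n := by
  induction i with
  | zero => simp
  | succ i ih =>
    rw [show i + 1 + j = (i + j) + 1 by ring, fword_succ, fword_succ, List.cons_append, ih,
      Function.iterate_add_apply]

/-- Every letter divides the product, so letters are bounded by `D`. -/
lemma letter_le_D {w : List Let} {l : Let} (h : l ∈ w) : 2 ^ l.1 ≤ D w ∧ 2 ^ l.2 ≤ D w := by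
  induction w with
  | nil => simp at h
  | cons l' w ih =>
    rw [D_cons]
    rcases List.mem_cons.1 h with rfl | h
    · have h1 := D_pos w
      have h2 : 2 ^ l.1 ≤ dd l := by
        unfold dd
        exact Nat.le_mul_of_pos_right _ (by positivity)
      have h3 : 2 ^ l.2 ≤ dd l := by
        unfold dd
        calc 2 ^ l.2 ≤ 3 ^ l.2 := Nat.pow_le_pow_left (by norm_num) _
          _ ≤ 2 ^ l.1 * 3 ^ l.2 := Nat.le_mul_of_pos_left _ (by positivity)
      exact ⟨h2.trans (Nat.le_mul_of_pos_right _ h1), h3.trans (Nat.le_mul_of_pos_right _ h1)⟩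
    · have h1 := dd_pos l'
      obtain ⟨h2, h3⟩ := ih h
      exact ⟨h2.trans (Nat.le_mul_of_pos_left _ h1), h3.trans (Nat.le_mul_of_pos_left _ h1)⟩

/-- Product formula `D(w) S^k n = 5^k n ∏_{i<k} (1 + 1/(5 S^i n))`. -/
lemma prod_formula {n : ℕ} (hn : U n) (k : ℕ) :
    (D (fword k n) : ℝ) * (S^[k] n : ℝ)
      = 5 ^ k * (n : ℝ) * ∏ i ∈ Finset.range k, (1 + 1 / (5 * (S^[i] n : ℝ))) := by
  induction k with
  | zero => simp
  | succ k ih =>
    have h : (dd (letter (S^[k] n)) : ℝ) * (S (S^[k] n) : ℝ) = 5 * (S^[k] n : ℝ) + 1 := by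
      exact_mod_cast dd_letter_mul_S (U_iter hn k)
    have hpos : (0 : ℝ) < (S^[k] n : ℝ) := by
      have := (U_iter hn k).1
      exact_mod_cast (by omega : 0 < S^[k] n)
    rw [Finset.prod_range_succ, fword_succ, D_cons, Function.iterate_succ_apply']
    push_cast
    calc (dd (letter (S^[k] n)) : ℝ) * (D (fword k n) : ℝ) * (S (S^[k] n) : ℝ)
        = (D (fword k n) : ℝ) * ((dd (letter (S^[k] n)) : ℝ) * (S (S^[k] n) : ℝ)) := by ring
      _ = (D (fword k n) : ℝ) * (5 * (S^[k] n : ℝ) + 1) := by rw [h]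
      _ = 5 * ((D (fword k n) : ℝ) * (S^[k] n : ℝ)) * (1 + 1 / (5 * (S^[k] n : ℝ))) := by
          field_simp
      _ = 5 ^ (k + 1) * (n : ℝ) * ((∏ i ∈ Finset.range k, (1 + 1 / (5 * (S^[i] n : ℝ))))
            * (1 + 1 / (5 * (S^[k] n : ℝ)))) := by rw [ih]; ring

lemma G_U {X : ℝ} {n : ℕ} (h : G X n) : U n := h.1

lemma G_iter {X : ℝ} {n : ℕ} (h : G X n) (i : ℕ) : G X (S^[i] n) := by
  refine ⟨U_iter h.1 i, fun j => ?_⟩
  rw [← Function.iterate_add_apply]; exact h.2 _

/-- Backward closure. -/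
lemma G_of_iter {X : ℝ} {n j : ℕ} (hn : U n) (h : G X (S^[j] n)) (h' : ∀ i < j, X < (S^[i] n : ℝ)) :
    G X n := by
  refine ⟨hn, fun i => ?_⟩
  by_cases hi : i < j
  · exact h' i hi
  · have := h.2 (i - j)
    rw [← Function.iterate_add_apply, Nat.sub_add_cancel (not_lt.mp hi)] at this
    exact this

end K5
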