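import Pool.Agent.Lib.MP_a4658c_nt.K5.Defs

/-! Piece K1: the kernel `ker x n = min (1/x) (x/n^2)`, sums over residue classes. -/

namespace K5

lemma ker_nonneg {x : ℝ} (hx : 0 < x) (n : ℕ) : 0 ≤ ker x n :=
  le_min (by positivity) (by positivity)

/-- `ker` is nonincreasing on `n ≥ 1`. -/
lemma ker_anti {x : ℝ} (hx : 0 < x) {m n : ℕ} (hm : 1 ≤ m) (h : m ≤ n) : ker x n ≤ ker x m := by
  unfold ker
  apply min_le_min le_rfl
  have h1 : (0 : ℝ) < m := by exact_mod_cast hm
  have h2 : (m : ℝ) ≤ n := by exact_mod_cast h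
  apply div_le_div_of_nonneg_left hx.le (by positivity)
  exact pow_le_pow_left₀ h1.le h2 2

lemma ker_le_inv {x : ℝ} (hx : 0 < x) (n : ℕ) : ker x n ≤ 1 / x := min_le_left _ _

/-- telescoping -/
private lemma K1_tel {M : ℕ} (hM : 1 ≤ M) (N : ℕ) :
    ∑ n ∈ Finset.Icc (M + 1) N, 1 / (n : ℝ) ^ 2 ≤ 1 / (M : ℝ) := by
  rcases lt_or_ge N M with h | h
  · rw [Finset.Icc_eq_empty (by omega), Finset.sum_empty]
    positivity
  · have key : ∑ n ∈ Finset.Icc (M + 1) N, 1 / (n : ℝ) ^ 2 ≤ 1 / (M : ℝ) - 1 / (N : ℝ) := by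
      induction N, h using Nat.le_induction with
      | base => rw [Finset.Icc_eq_empty (by omega), Finset.sum_empty]; simp
      | succ N hN ih =>
        rw [Finset.sum_Icc_succ_top (by omega)]
        have hN0 : (0 : ℝ) < N := by
          have : 0 < N := by omega
          exact_mod_cast this
        have h1 : 1 / ((N + 1 : ℕ) : ℝ) ^ 2 ≤ 1 / (N : ℝ) - 1 / ((N + 1 : ℕ) : ℝ) := by
          push_cast
          rw [div_sub_div _ _ hN0.ne' (by positivity), div_le_div_iff₀ (by positivity)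
            (by positivity)]
          nlinarith
        linarith
    have h2 : (0 : ℝ) ≤ 1 / (N : ℝ) := by positivity
    linarith

/-- far range, above -/
lemma ker_sum_high {x z : ℝ} (hx : 0 < x) (hz : 1 ≤ z) (N : ℕ) :
    ∑ n ∈ (Finset.Icc 1 N).filter (fun n : ℕ => z < (n : ℝ)), ker x n ≤ 2 * x / z := by
  have hf : 1 ≤ ⌊z⌋₊ := (Nat.le_floor_iff (by linarith)).2 (by simpa using hz)
  have h1 : ∑ n ∈ (Finset.Icc 1 N).filter (fun n : ℕ => z < (n : ℝ)), ker x n ≤
      ∑ n ∈ Finset.Icc (⌊z⌋₊ + 1) N, x * (1 / (n : ℝ) ^ 2) := by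
    calc ∑ n ∈ (Finset.Icc 1 N).filter (fun n : ℕ => z < (n : ℝ)), ker x n
        ≤ ∑ n ∈ Finset.Icc (⌊z⌋₊ + 1) N, ker x n := by
          apply Finset.sum_le_sum_of_subset_of_nonneg
          · intro n hn
            rw [Finset.mem_filter, Finset.mem_Icc] at hn
            rw [Finset.mem_Icc]
            refine ⟨?_, hn.1.2⟩
            have := (Nat.floor_lt (by linarith)).2 hn.2
            omega
          · intro n _ _
            exact ker_nonneg hx n
      _ ≤ ∑ n ∈ Finset.Icc (⌊z⌋₊ + 1) N, x * (1 / (n : ℝ) ^ 2) := by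
          apply Finset.sum_le_sum
          intro n _
          unfold ker
          refine (min_le_right _ _).trans (le_of_eq ?_)
          ring
  rw [← Finset.mul_sum] at h1
  have h2 := K1_tel hf N
  have h3 : 1 / (⌊z⌋₊ : ℝ) ≤ 2 / z := by
    have h4 : z < ⌊z⌋₊ + 1 := Nat.lt_floor_add_one z
    have h5 : (1 : ℝ) ≤ ⌊z⌋₊ := by exact_mod_cast hf
    rw [div_le_div_iff₀ (by linarith) (by linarith)]
    linarith
  calc _ ≤ x * ∑ n ∈ Finset.Icc (⌊z⌋₊ + 1) N, 1 / (n : ℝ) ^ 2 := h1
    _ ≤ x * (2 / z) := mul_le_mul_of_nonneg_left (h2.trans h3) hx.le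
    _ = 2 * x / z := by ring

private lemma K1_card_le {z : ℝ} (hz : 0 ≤ z) (N : ℕ) :
    (((Finset.Icc 1 N).filter (fun n : ℕ => (n : ℝ) ≤ z)).card : ℝ) ≤ z := by
  have h1 : ((Finset.Icc 1 N).filter (fun n : ℕ => (n : ℝ) ≤ z)).card ≤ ⌊z⌋₊ := by
    calc ((Finset.Icc 1 N).filter (fun n : ℕ => (n : ℝ) ≤ z)).card
        ≤ (Finset.Icc 1 ⌊z⌋₊).card := by
          apply Finset.card_le_card
          intro n hn
          rw [Finset.mem_filter, Finset.mem_Icc] at hn
          rw [Finset.mem_Icc]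
          exact ⟨hn.1.1, Nat.le_floor hn.2⟩
      _ = ⌊z⌋₊ := by simp
  calc (((Finset.Icc 1 N).filter (fun n : ℕ => (n : ℝ) ≤ z)).card : ℝ) ≤ (⌊z⌋₊ : ℝ) := by
        exact_mod_cast h1
    _ ≤ z := Nat.floor_le hz

private lemma K1_low {x z : ℝ} (hx : 0 < x) (hz : 0 ≤ z) (N : ℕ) :
    ∑ n ∈ (Finset.Icc 1 N).filter (fun n : ℕ => (n : ℝ) ≤ z), ker x n ≤ z / x := by
  calc ∑ n ∈ (Finset.Icc 1 N).filter (fun n : ℕ => (n : ℝ) ≤ z), ker x n
      ≤ ∑ _n ∈ (Finset.Icc 1 N).filter (fun n : ℕ => (n : ℝ) ≤ z), 1 / x :=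
        Finset.sum_le_sum fun n _ => ker_le_inv hx n
    _ = (((Finset.Icc 1 N).filter (fun n : ℕ => (n : ℝ) ≤ z)).card : ℝ) * (1 / x) := by
        rw [Finset.sum_const, nsmul_eq_mul]
    _ ≤ z * (1 / x) := mul_le_mul_of_nonneg_right (K1_card_le hz N) (by positivity)
    _ = z / x := by ring

/-- far range, below -/
lemma ker_sum_low {x z : ℝ} (hx : 0 < x) (hz : 0 ≤ z) (N : ℕ) :
    ∑ n ∈ (Finset.Icc 1 N).filter (fun n : ℕ => (n : ℝ) < z), ker x n ≤ z / x := by
  refine le_trans ?_ (K1_low hx hz N)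
  apply Finset.sum_le_sum_of_subset_of_nonneg
  · intro n hn
    rw [Finset.mem_filter] at hn ⊢
    exact ⟨hn.1, hn.2.le⟩
  · intro n _ _
    exact ker_nonneg hx n

lemma ker_sum_le {x : ℝ} (hx : 0 < x) (N : ℕ) : ∑ n ∈ Finset.Icc 1 N, ker x n ≤ 3 := by
  rcases le_or_gt 1 x with h | h
  · have h1 := K1_low hx hx.le N
    have h2 := ker_sum_high hx h N
    rw [div_self hx.ne'] at h1
    rw [mul_div_assoc, div_self hx.ne', mul_one] at h2
    have h3 := Finset.sum_filter_add_sum_filter_not (Finset.Icc 1 N)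
      (fun n : ℕ => (n : ℝ) ≤ x) (fun n => ker x n)
    simp only [not_le] at h3
    rw [← h3]
    linarith
  · calc ∑ n ∈ Finset.Icc 1 N, ker x n ≤ ∑ n ∈ Finset.Icc 1 N, x * (1 / (n : ℝ) ^ 2) := by
          apply Finset.sum_le_sum
          intro n _
          unfold ker
          refine (min_le_right _ _).trans (le_of_eq ?_)
          ring
      _ = x * ∑ n ∈ Finset.Icc 1 N, 1 / (n : ℝ) ^ 2 := by rw [Finset.mul_sum]
      _ ≤ x * 2 := by
          apply mul_le_mul_of_nonneg_left _ hx.le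
          rcases Nat.eq_zero_or_pos N with h0 | h0
          · subst h0; simp
          · have h1 := K1_tel le_rfl N
            have h2 : Finset.Icc 1 N = insert 1 (Finset.Icc (1 + 1) N) := by
              ext n
              simp only [Finset.mem_insert, Finset.mem_Icc]
              omega
            rw [h2, Finset.sum_insert (by simp)]
            norm_num at h1 ⊢
            linarith
      _ ≤ 3 := by linarith

/-! ### residue classes -/

private lemma K1_sum (f : ℕ → ℝ) (N : ℕ) :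
    ∑ n ∈ Finset.Icc 1 N, f n = ∑ i ∈ Finset.range N, f (i + 1) := by
  induction N with
  | zero => simp
  | succ N ih => rw [Finset.sum_Icc_succ_top (by omega), ih, Finset.sum_range_succ]

private lemma K1_csum (f : ℕ → ℝ) (q a N : ℕ) :
    ∑ n ∈ (Finset.Icc 1 N).filter (fun n => n % q = a), f n =
      ∑ i ∈ Finset.range N, if (i + 1) % q = a then f (i + 1) else 0 := by
  rw [Finset.sum_filter, K1_sum (fun n => if n % q = a then f n else 0)]

private lemma K1_idx {q a : ℕ} (ha : a < q) :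
    ∃ j₀ < q, ∀ j < q, ∀ k, ((k * q + j + 1) % q = a ↔ j = j₀) := by
  have hmod : ∀ k j, (k * q + j + 1) % q = (j + 1) % q := by
    intro k j
    rw [add_assoc, mul_comm k q, Nat.mul_add_mod]
  rcases Nat.eq_zero_or_pos a with h0 | h0
  · refine ⟨q - 1, by omega, fun j hj k => ?_⟩
    rw [hmod, h0]
    rcases Nat.lt_or_ge (j + 1) q with h1 | h1
    · rw [Nat.mod_eq_of_lt h1]
      omega
    · have h2 : j + 1 = q := by omega
      rw [h2, Nat.mod_self]
      constructor
      · intro _; omega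
      · intro _; rfl
  · refine ⟨a - 1, by omega, fun j hj k => ?_⟩
    rw [hmod]
    rcases Nat.lt_or_ge (j + 1) q with h1 | h1
    · rw [Nat.mod_eq_of_lt h1]
      omega
    · have h2 : j + 1 = q := by omega
      rw [h2, Nat.mod_self]
      constructor
      · intro h3; omega
      · intro h3; omega

private lemma K1_block {f : ℕ → ℝ} {q a j₀ : ℕ}
    (hj : ∀ j < q, ∀ k, ((k * q + j + 1) % q = a ↔ j = j₀)) (k s : ℕ) (hs : s ≤ q) :
    (∑ j ∈ Finset.range s, if (k * q + j + 1) % q = a then f (k * q + j + 1) else 0) =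
      if j₀ < s then f (k * q + j₀ + 1) else 0 := by
  have h1 : (∑ j ∈ Finset.range s, if (k * q + j + 1) % q = a then f (k * q + j + 1) else 0) =
      ∑ j ∈ Finset.range s, if j = j₀ then f (k * q + j + 1) else 0 := by
    apply Finset.sum_congr rfl
    intro j hjs
    have hjq : j < q := (Finset.mem_range.1 hjs).trans_le hs
    by_cases h : j = j₀
    · rw [if_pos h, if_pos ((hj j hjq k).2 h)]
    · rw [if_neg h, if_neg (fun h' => h ((hj j hjq k).1 h'))]
  rw [h1, Finset.sum_ite_eq']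
  simp only [Finset.mem_range]

/-- Residue classes, lower bound. -/
lemma class_sum_ge (f : ℕ → ℝ) (h0 : ∀ n, 0 ≤ f n) (hf : ∀ m n, 1 ≤ m → m ≤ n → f n ≤ f m)
    (q a N : ℕ) (hq : 1 ≤ q) (ha : a < q) :
    1 / (q : ℝ) * ∑ n ∈ Finset.Icc 1 N, f n - f 1
      ≤ ∑ n ∈ (Finset.Icc 1 N).filter (fun n => n % q = a), f n := by
  obtain ⟨j₀, hj₀, hj⟩ := K1_idx ha
  have hq0 : (0 : ℝ) < q := by exact_mod_cast hq
  set A : ℕ → ℝ := fun N => ∑ i ∈ Finset.range N, f (i + 1) with hA
  set B : ℕ → ℝ := fun N => ∑ i ∈ Finset.range N, if (i + 1) % q = a then f (i + 1) else 0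
    with hB
  have hAadd : ∀ k s, s ≤ q → A (k * q + s) ≤ A (k * q) + s * f (k * q + 1) := by
    intro k s _
    simp only [hA]
    rw [Finset.sum_range_add]
    have : ∑ j ∈ Finset.range s, f (k * q + j + 1) ≤ ∑ _j ∈ Finset.range s, f (k * q + 1) :=
      Finset.sum_le_sum fun j _ => hf _ _ (by omega) (by omega)
    rw [Finset.sum_const, Finset.card_range, nsmul_eq_mul] at this
    linarith
  have hBadd : ∀ k s, s ≤ q → B (k * q + s) = B (k * q) +
      if j₀ < s then f (k * q + j₀ + 1) else 0 := by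
    intro k s hs
    simp only [hB]
    rw [Finset.sum_range_add, K1_block hj k s hs]
  have key : ∀ k, A (k * q) ≤ q * B (k * q) + q * f 1 - q * f (k * q + 1) := by
    intro k
    induction k with
    | zero => simp [hA, hB]
    | succ k ih =>
      rw [Nat.succ_mul]
      have h1 := hAadd k q le_rfl
      have h2 := hBadd k q le_rfl
      rw [if_pos hj₀] at h2
      have h3 : f (k * q + q + 1) ≤ f (k * q + j₀ + 1) := hf _ _ (by omega) (by omega)
      rw [h2]
      nlinarith
  have hmain : A N ≤ q * B N + q * f 1 := by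
    have hN : N = N / q * q + N % q := by rw [mul_comm]; exact (Nat.div_add_mod N q).symm
    have hs : N % q ≤ q := (Nat.mod_lt N (by omega)).le
    have h1 := hAadd (N / q) (N % q) hs
    have h2 := hBadd (N / q) (N % q) hs
    rw [← hN] at h1 h2
    have h3 := key (N / q)
    have h4 : (0 : ℝ) ≤ if j₀ < N % q then f (N / q * q + j₀ + 1) else 0 := by
      split_ifs
      · exact h0 _
      · exact le_rfl
    have h5 : ((N % q : ℕ) : ℝ) * f (N / q * q + 1) ≤ q * f (N / q * q + 1) := by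
      apply mul_le_mul_of_nonneg_right _ (h0 _)
      exact_mod_cast hs
    rw [h2]
    nlinarith
  rw [K1_sum, K1_csum]
  have h6 : 1 / (q : ℝ) * A N ≤ B N + f 1 := by
    rw [one_div, inv_mul_le_iff₀ hq0]
    linarith
  linarith

/-- Residue classes, upper bound. -/
lemma class_sum_le (f : ℕ → ℝ) (h0 : ∀ n, 0 ≤ f n) (hf : ∀ m n, 1 ≤ m → m ≤ n → f n ≤ f m)
    (q a N : ℕ) (hq : 1 ≤ q) :
    ∑ n ∈ (Finset.Icc 1 N).filter (fun n => n % q = a), f n
      ≤ 1 / (q : ℝ) * ∑ n ∈ Finset.Icc 1 N, f n + f 1 := by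
  have hq0 : (0 : ℝ) < q := by exact_mod_cast hq
  rcases Nat.lt_or_ge a q with ha | ha
  · obtain ⟨j₀, hj₀, hj⟩ := K1_idx ha
    set A : ℕ → ℝ := fun N => ∑ i ∈ Finset.range N, f (i + 1) with hA
    set B : ℕ → ℝ := fun N => ∑ i ∈ Finset.range N, if (i + 1) % q = a then f (i + 1) else 0
      with hB
    have hAadd : ∀ k s, s ≤ q → A (k * q) + s * f (k * q + s + 1) ≤ A (k * q + s) := by
      intro k s _
      simp only [hA]
      rw [Finset.sum_range_add]
      have : ∑ _j ∈ Finset.range s, f (k * q + s + 1) ≤ ∑ j ∈ Finset.range s, f (k * q + j + 1) :=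
        Finset.sum_le_sum fun j hjs => hf _ _ (by omega) (by
          have := Finset.mem_range.1 hjs
          omega)
      rw [Finset.sum_const, Finset.card_range, nsmul_eq_mul] at this
      linarith
    have hBadd : ∀ k s, s ≤ q → B (k * q + s) = B (k * q) +
        if j₀ < s then f (k * q + j₀ + 1) else 0 := by
      intro k s hs
      simp only [hB]
      rw [Finset.sum_range_add, K1_block hj k s hs]
    have key : ∀ k, q * B (k * q) ≤ A (k * q) + q * f 1 - q * f (k * q + 1) := by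
      intro k
      induction k with
      | zero => simp [hA, hB]
      | succ k ih =>
        rw [Nat.succ_mul]
        have h1 := hAadd k q le_rfl
        have h2 := hBadd k q le_rfl
        rw [if_pos hj₀] at h2
        have h3 : f (k * q + j₀ + 1) ≤ f (k * q + 1) := hf _ _ (by omega) (by omega)
        rw [h2]
        nlinarith
    have hmain : q * B N ≤ A N + q * f 1 := by
      have hN : N = N / q * q + N % q := by rw [mul_comm]; exact (Nat.div_add_mod N q).symm
      have hs : N % q ≤ q := (Nat.mod_lt N (by omega)).le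
      have h1 := hAadd (N / q) (N % q) hs
      have h2 := hBadd (N / q) (N % q) hs
      rw [← hN] at h1 h2
      have h3 := key (N / q)
      have h4 : (if j₀ < N % q then f (N / q * q + j₀ + 1) else 0) ≤ f (N / q * q + 1) := by
        split_ifs
        · exact hf _ _ (by omega) (by omega)
        · exact h0 _
      have h5 : 0 ≤ ((N % q : ℕ) : ℝ) * f (N + 1) := mul_nonneg (Nat.cast_nonneg _) (h0 _)
      rw [h2]
      nlinarith
    rw [K1_sum, K1_csum]
    have h6 : B N ≤ 1 / (q : ℝ) * A N + f 1 := by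
      have h7 : B N = 1 / (q : ℝ) * (q * B N) := by field_simp
      rw [h7]
      calc 1 / (q : ℝ) * (q * B N) ≤ 1 / (q : ℝ) * (A N + q * f 1) :=
            mul_le_mul_of_nonneg_left hmain (by positivity)
        _ = 1 / (q : ℝ) * A N + f 1 := by field_simp
    exact h6
  · have h1 : (Finset.Icc 1 N).filter (fun n => n % q = a) = ∅ := by
      apply Finset.filter_eq_empty_iff.2
      intro n _ h
      have := Nat.mod_lt n (show 0 < q by omega)
      omega
    rw [h1, Finset.sum_empty]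
    have h2 : 0 ≤ ∑ n ∈ Finset.Icc 1 N, f n := Finset.sum_nonneg fun n _ => h0 n
    have h3 := h0 1
    positivity

/-- one step of the harmonic bound -/
private lemma K1_har (q a : ℕ) (hq : 1 ≤ q) {z₁ : ℝ} (h1 : 1 ≤ z₁) (M : ℕ) :
    (z₁ ≤ (M : ℝ) → ∑ m ∈ (Finset.Icc 1 M).filter (fun m : ℕ => m % q = a ∧ z₁ ≤ (m : ℝ)),
      1 / (m : ℝ) ≤ 1 / z₁ + Real.log (M / z₁) / q) := by
  have hq0 : (0 : ℝ) < q := by exact_mod_cast hq
  have hz0 : 0 < z₁ := by linarith
  induction M using Nat.strong_induction_on with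
  | _ M ih =>
  intro hM
  have hM0 : (0 : ℝ) < M := by linarith
  have hlogM : 0 ≤ Real.log (M / z₁) := Real.log_nonneg ((one_le_div hz0).2 hM)
  have hMn : 1 ≤ M := by
    have : (1 : ℝ) ≤ M := h1.trans hM
    exact_mod_cast this
  by_cases hMa : M % q = a
  · by_cases hMq : z₁ ≤ (M : ℝ) - q
    · have hqM : q < M := by
        have : (q : ℝ) < M := by linarith
        exact_mod_cast this
      have hcast : ((M - q : ℕ) : ℝ) = (M : ℝ) - q := by
        rw [Nat.cast_sub hqM.le]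
      have h2 := ih (M - q) (by omega) (by rw [hcast]; exact hMq)
      have hsub : (Finset.Icc 1 M).filter (fun m : ℕ => m % q = a ∧ z₁ ≤ (m : ℝ)) ⊆
          insert M ((Finset.Icc 1 (M - q)).filter (fun m : ℕ => m % q = a ∧ z₁ ≤ (m : ℝ))) := by
        intro m hm
        rw [Finset.mem_filter, Finset.mem_Icc] at hm
        obtain ⟨⟨h3, h4⟩, h5, h6⟩ := hm
        rcases Nat.eq_or_lt_of_le h4 with h7 | h7
        · rw [h7]; exact Finset.mem_insert_self _ _
        · apply Finset.mem_insert_of_mem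
          rw [Finset.mem_filter, Finset.mem_Icc]
          refine ⟨⟨h3, ?_⟩, h5, h6⟩
          have h8 : q ∣ M - m := (Nat.modEq_iff_dvd' h4).1 (h5.trans hMa.symm)
          have := Nat.le_of_dvd (by omega) h8
          omega
      have hnot : M ∉ (Finset.Icc 1 (M - q)).filter (fun m : ℕ => m % q = a ∧ z₁ ≤ (m : ℝ)) := by
        intro h
        rw [Finset.mem_filter, Finset.mem_Icc] at h
        omega
      have h3 : ∑ m ∈ (Finset.Icc 1 M).filter (fun m : ℕ => m % q = a ∧ z₁ ≤ (m : ℝ)),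
          1 / (m : ℝ) ≤ 1 / (M : ℝ) + (1 / z₁ + Real.log ((M - q : ℕ) / z₁) / q) := by
        refine (Finset.sum_le_sum_of_subset_of_nonneg hsub fun m _ _ => by positivity).trans ?_
        rw [Finset.sum_insert hnot]
        linarith
      have h4 : 1 / (M : ℝ) ≤ (Real.log (M / z₁) - Real.log ((M - q : ℕ) / z₁)) / q := by
        rw [hcast, ← Real.log_div (by positivity) (by
          apply div_ne_zero _ hz0.ne'
          linarith)]
        have hMq0 : (0 : ℝ) < (M : ℝ) - q := by linarith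
        have e : (M : ℝ) / z₁ / (((M : ℝ) - q) / z₁) = (((M : ℝ) - q) / M)⁻¹ := by
          field_simp
        rw [e, Real.log_inv, le_div_iff₀ hq0]
        have h5 : 0 < ((M : ℝ) - q) / M := div_pos (by linarith) hM0
        have h6 := Real.log_le_sub_one_of_pos h5
        have e2 : ((M : ℝ) - q) / M - 1 = -(1 / (M : ℝ) * q) := by field_simp; ring
        linarith
      have e3 : (Real.log (M / z₁) - Real.log ((M - q : ℕ) / z₁)) / q =
        Real.log (M / z₁) / q - Real.log ((M - q : ℕ) / z₁) / q := sub_div _ _ _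
      linarith
    · have hsub : (Finset.Icc 1 M).filter (fun m : ℕ => m % q = a ∧ z₁ ≤ (m : ℝ)) ⊆ {M} := by
        intro m hm
        rw [Finset.mem_filter, Finset.mem_Icc] at hm
        obtain ⟨⟨h3, h4⟩, h5, h6⟩ := hm
        rw [Finset.mem_singleton]
        by_contra hne
        have h7 : m < M := by omega
        have h8 : q ∣ M - m := (Nat.modEq_iff_dvd' h4).1 (h5.trans hMa.symm)
        have h9 := Nat.le_of_dvd (by omega) h8
        have h10 : m + q ≤ M := by omega
        have h11 : (m : ℝ) + q ≤ M := by exact_mod_cast h10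
        linarith
      have h3 : ∑ m ∈ (Finset.Icc 1 M).filter (fun m : ℕ => m % q = a ∧ z₁ ≤ (m : ℝ)),
          1 / (m : ℝ) ≤ 1 / (M : ℝ) := by
        refine (Finset.sum_le_sum_of_subset_of_nonneg hsub fun m _ _ => by positivity).trans ?_
        rw [Finset.sum_singleton]
      have h4 : 1 / (M : ℝ) ≤ 1 / z₁ := one_div_le_one_div_of_le hz0 hM
      have h5 : 0 ≤ Real.log (M / z₁) / q := by positivity
      linarith
  · have hsub : (Finset.Icc 1 M).filter (fun m : ℕ => m % q = a ∧ z₁ ≤ (m : ℝ)) ⊆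
        (Finset.Icc 1 (M - 1)).filter (fun m : ℕ => m % q = a ∧ z₁ ≤ (m : ℝ)) := by
      intro m hm
      rw [Finset.mem_filter, Finset.mem_Icc] at hm ⊢
      obtain ⟨⟨h3, h4⟩, h5, h6⟩ := hm
      refine ⟨⟨h3, ?_⟩, h5, h6⟩
      have : m ≠ M := fun h => hMa (h ▸ h5)
      omega
    have h3 := Finset.sum_le_sum_of_subset_of_nonneg hsub
      (f := fun m : ℕ => 1 / (m : ℝ)) fun m _ _ => by positivity
    by_cases hM1 : z₁ ≤ ((M - 1 : ℕ) : ℝ)
    · have h2 := ih (M - 1) (by omega) hM1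
      have h4 : Real.log ((M - 1 : ℕ) / z₁) ≤ Real.log (M / z₁) := by
        apply Real.log_le_log
        · exact div_pos (by linarith) hz0
        · apply div_le_div_of_nonneg_right _ hz0.le
          exact_mod_cast (Nat.sub_le M 1)
      have h5 : Real.log ((M - 1 : ℕ) / z₁) / q ≤ Real.log (M / z₁) / q :=
        div_le_div_of_nonneg_right h4 hq0.le
      linarith
    · have h4 : (Finset.Icc 1 (M - 1)).filter (fun m : ℕ => m % q = a ∧ z₁ ≤ (m : ℝ)) = ∅ := by
        apply Finset.filter_eq_empty_iff.2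
        rintro m hm ⟨_, h6⟩
        rw [Finset.mem_Icc] at hm
        apply hM1
        refine h6.trans ?_
        exact_mod_cast hm.2
      rw [h4, Finset.sum_empty] at h3
      have h5 : 0 ≤ Real.log (M / z₁) / q := by positivity
      have h6 : 0 ≤ 1 / z₁ := by positivity
      linarith

/-- Harmonic sum over a residue class in an interval. -/
lemma class_harmonic (q a N : ℕ) (hq : 1 ≤ q) {z₁ z₂ : ℝ} (h1 : 1 ≤ z₁) (h12 : z₁ ≤ z₂) :
    ∑ m ∈ (Finset.Icc 1 N).filter (fun m : ℕ => m % q = a ∧ z₁ ≤ (m : ℝ) ∧ (m : ℝ) ≤ z₂), 1 / (m : ℝ)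
      ≤ 1 / z₁ + Real.log (z₂ / z₁) / q := by
  have hq0 : (0 : ℝ) < q := by exact_mod_cast hq
  have hz0 : 0 < z₁ := by linarith
  have hsub : (Finset.Icc 1 N).filter (fun m : ℕ => m % q = a ∧ z₁ ≤ (m : ℝ) ∧ (m : ℝ) ≤ z₂) ⊆
      (Finset.Icc 1 ⌊z₂⌋₊).filter (fun m : ℕ => m % q = a ∧ z₁ ≤ (m : ℝ)) := by
    intro m hm
    rw [Finset.mem_filter, Finset.mem_Icc] at hm ⊢
    exact ⟨⟨hm.1.1, Nat.le_floor hm.2.2.2⟩, hm.2.1, hm.2.2.1⟩
  have h3 := Finset.sum_le_sum_of_subset_of_nonneg hsub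
    (f := fun m : ℕ => 1 / (m : ℝ)) fun m _ _ => by positivity
  refine h3.trans ?_
  have hfl : (⌊z₂⌋₊ : ℝ) ≤ z₂ := Nat.floor_le (by linarith)
  by_cases h4 : z₁ ≤ (⌊z₂⌋₊ : ℝ)
  · refine (K1_har q a hq h1 _ h4).trans ?_
    have h5 : Real.log (⌊z₂⌋₊ / z₁) ≤ Real.log (z₂ / z₁) := by
      apply Real.log_le_log (div_pos (by linarith) hz0)
      exact div_le_div_of_nonneg_right hfl hz0.le
    have h6 := div_le_div_of_nonneg_right h5 hq0.le
    linarith
  · have h5 : (Finset.Icc 1 ⌊z₂⌋₊).filter (fun m : ℕ => m % q = a ∧ z₁ ≤ (m : ℝ)) = ∅ := by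
      apply Finset.filter_eq_empty_iff.2
      rintro m hm ⟨_, h6⟩
      rw [Finset.mem_Icc] at hm
      apply h4
      refine h6.trans ?_
      exact_mod_cast hm.2
    rw [h5, Finset.sum_empty]
    have h7 : 0 ≤ Real.log (z₂ / z₁) := Real.log_nonneg ((one_le_div hz0).2 h12)
    positivity

lemma RR_nonneg (X : ℝ) (c : Bool) (N : ℕ) {x : ℝ} (hx : 0 < x) : 0 ≤ RR X c N x :=
  Finset.sum_nonneg fun n _ => ker_nonneg hx n

lemma RR_le_three (X : ℝ) (c : Bool) (N : ℕ) {x : ℝ} (hx : 0 < x) : RR X c N x ≤ 3 := by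
  classical
  refine le_trans ?_ (ker_sum_le hx N)
  unfold RR
  exact Finset.sum_le_sum_of_subset_of_nonneg (Finset.filter_subset _ _)
    fun n _ _ => ker_nonneg hx n

lemma RR_mono (X : ℝ) (c : Bool) {N N' : ℕ} (h : N ≤ N') {x : ℝ} (hx : 0 < x) :
    RR X c N x ≤ RR X c N' x := by
  classical
  unfold RR
  exact Finset.sum_le_sum_of_subset_of_nonneg
    (Finset.filter_subset_filter _ (Finset.Icc_subset_Icc le_rfl h)) fun n _ _ => ker_nonneg hx n

open Classical in
/-- The count from `RR`. -/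
lemma count_le_RR (X : ℝ) (N : ℕ) (hN : 1 ≤ N) :
    (((Finset.Icc 1 N).filter (fun n => G X n)).card : ℝ)
      ≤ N * (RR X true N N + RR X false N N) := by
  have hN0 : (0 : ℝ) < N := by exact_mod_cast hN
  have h1 : RR X true N N + RR X false N N = ∑ n ∈ (Finset.Icc 1 N).filter (fun n => G X n),
      ker (N : ℝ) n := by
    unfold RR
    rw [Finset.sum_filter, Finset.sum_filter, Finset.sum_filter, ← Finset.sum_add_distrib]
    apply Finset.sum_congr rfl
    intro n _
    by_cases hG : G X n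
    · cases hc : cl n <;> simp [hG]
    · simp [hG]
  rw [h1, Finset.mul_sum]
  have h2 : (((Finset.Icc 1 N).filter (fun n => G X n)).card : ℝ) =
      ∑ _n ∈ (Finset.Icc 1 N).filter (fun n => G X n), (1 : ℝ) := by simp
  rw [h2]
  apply Finset.sum_le_sum
  intro n hn
  rw [Finset.mem_filter, Finset.mem_Icc] at hn
  have hn1 : (1 : ℝ) ≤ n := by exact_mod_cast hn.1.1
  have hn2 : (n : ℝ) ≤ N := by exact_mod_cast hn.1.2
  have h3 : 1 / (N : ℝ) ≤ ker (N : ℝ) n := by
    unfold ker
    apply le_min le_rfl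
    rw [div_le_div_iff₀ hN0 (by positivity)]
    nlinarith
  calc (1 : ℝ) = N * (1 / (N : ℝ)) := by field_simp
    _ ≤ N * ker (N : ℝ) n := mul_le_mul_of_nonneg_left h3 hN0.le

/-- pointwise dyadic bound -/
private lemma K1_dyad {x : ℝ} (hx : 1 ≤ x) {n N : ℕ} (hn : 1 ≤ n) (hN : n ≤ N) :
    ker x n ≤ ∑ i ∈ Finset.range (N + 1),
      if (n : ℝ) ≤ 2 ^ i * x then 4 * (1 / 4) ^ i / x else 0 := by
  classical
  have hx0 : 0 < x := by linarith
  have hex : ∃ i : ℕ, (n : ℝ) ≤ 2 ^ i * x := by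
    refine ⟨N, ?_⟩
    have h1 : (n : ℝ) ≤ 2 ^ N := by
      have : n ≤ 2 ^ N := hN.trans (Nat.lt_two_pow_self).le
      exact_mod_cast this
    have h2 : (2 : ℝ) ^ N ≤ 2 ^ N * x := le_mul_of_one_le_right (by positivity) hx
    linarith
  set i := Nat.find hex with hi
  have hi1 : (n : ℝ) ≤ 2 ^ i * x := Nat.find_spec hex
  have hi2 : ∀ j < i, ¬ (n : ℝ) ≤ 2 ^ j * x := fun j hj => Nat.find_min hex hj
  have hiN : i ≤ N := by
    apply Nat.find_min'
    have h1 : (n : ℝ) ≤ 2 ^ N := by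
      have : n ≤ 2 ^ N := hN.trans (Nat.lt_two_pow_self).le
      exact_mod_cast this
    have h2 : (2 : ℝ) ^ N ≤ 2 ^ N * x := le_mul_of_one_le_right (by positivity) hx
    linarith
  have hker : ker x n ≤ 4 * (1 / 4) ^ i / x := by
    rcases Nat.eq_zero_or_pos i with h0 | h0
    · rw [h0, pow_zero, mul_one]
      refine (ker_le_inv hx0 n).trans ?_
      apply div_le_div_of_nonneg_right _ hx0.le
      norm_num
    · have h3 := hi2 (i - 1) (by omega)
      push Not at h3
      have hn0 : (0 : ℝ) < n := by exact_mod_cast hn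
      have e : i = (i - 1) + 1 := by omega
      unfold ker
      refine (min_le_right _ _).trans ?_
      have h4 : (2 ^ (i - 1) * x) ^ 2 ≤ (n : ℝ) ^ 2 :=
        pow_le_pow_left₀ (by positivity) h3.le 2
      calc x / (n : ℝ) ^ 2 ≤ x / (2 ^ (i - 1) * x) ^ 2 :=
            div_le_div_of_nonneg_left hx0.le (by positivity) h4
        _ = (1 / 4) ^ (i - 1) / x := by
            rw [mul_pow, ← pow_mul, mul_comm (i - 1) 2, pow_mul]
            norm_num
            field_simp
            rw [← mul_pow]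
            norm_num
        _ = 4 * (1 / 4) ^ i / x := by
            conv_rhs => rw [e, pow_succ]
            ring
  refine hker.trans ?_
  have h5 : (if (n : ℝ) ≤ 2 ^ i * x then 4 * (1 / 4) ^ i / x else 0) = 4 * (1 / 4) ^ i / x :=
    if_pos hi1
  rw [← h5]
  exact Finset.single_le_sum (f := fun i => if (n : ℝ) ≤ 2 ^ i * x then 4 * (1 / 4) ^ i / x else 0)
    (fun j _ => by
      split_ifs
      · positivity
      · exact le_rfl) (Finset.mem_range.2 (by omega))

private lemma K1_summable : Summable (fun i : ℕ => ((i : ℝ) + 1) ^ 5 * (1 / 2) ^ i) := by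
  have h1 : Summable (fun n : ℕ => (n : ℝ) ^ 5 * (1 / 2 : ℝ) ^ n) :=
    summable_pow_mul_geometric_of_norm_lt_one 5 (by norm_num)
  have h2 := ((summable_nat_add_iff 1).2 h1).mul_left 2
  refine h2.congr fun i => ?_
  push_cast
  rw [pow_succ]
  ring

open Classical in
/-- `RR` from the count: if the counting bound `C N (1 + log N)^5 η` holds, so does the kernel
form (dyadic decomposition). -/
lemma RR_of_count : ∃ C₁ : ℝ, 0 < C₁ ∧ ∀ (X C η : ℝ), 0 ≤ C → 0 ≤ η →
    (∀ N : ℕ, 1 ≤ N → (((Finset.Icc 1 N).filter (fun n => G X n)).card : ℝ)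
      ≤ C * N * (1 + Real.log N) ^ 5 * η) →
    ∀ (c : Bool) (N : ℕ) (x : ℝ), 1 ≤ x →
      RR X c N x ≤ C₁ * C * (1 + Real.log x) ^ 5 * η := by
  set K : ℝ := ∑' i : ℕ, ((i : ℝ) + 1) ^ 5 * (1 / 2) ^ i with hK
  have hK0 : 0 ≤ K := tsum_nonneg fun i => by positivity
  refine ⟨4 * K + 1, by positivity, ?_⟩
  intro X C η hC hη hcount c N x hx
  have hx0 : 0 < x := by linarith
  have hlx : 0 ≤ Real.log x := Real.log_nonneg hx
  -- the number of elements up to a real bound
  have hcnt : ∀ z : ℝ, 1 ≤ z → (((Finset.Icc 1 N).filter (fun n => G X n ∧ (n : ℝ) ≤ z)).card : ℝ)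
      ≤ C * z * (1 + Real.log z) ^ 5 * η := by
    intro z hz
    have hfl : 1 ≤ ⌊z⌋₊ := (Nat.le_floor_iff (by linarith)).2 (by simpa using hz)
    have hfl1 : (1 : ℝ) ≤ ⌊z⌋₊ := by exact_mod_cast hfl
    have hflz : (⌊z⌋₊ : ℝ) ≤ z := Nat.floor_le (by linarith)
    have h1 : ((Finset.Icc 1 N).filter (fun n => G X n ∧ (n : ℝ) ≤ z)).card ≤
        ((Finset.Icc 1 ⌊z⌋₊).filter (fun n => G X n)).card := by
      apply Finset.card_le_card
      intro n hn
      rw [Finset.mem_filter, Finset.mem_Icc] at hn ⊢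
      exact ⟨⟨hn.1.1, Nat.le_floor hn.2.2⟩, hn.2.1⟩
    have h2 := hcount ⌊z⌋₊ hfl
    have h3 : Real.log ⌊z⌋₊ ≤ Real.log z := Real.log_le_log (by linarith) hflz
    have h4 : 0 ≤ Real.log (⌊z⌋₊ : ℝ) := Real.log_nonneg hfl1
    calc (((Finset.Icc 1 N).filter (fun n => G X n ∧ (n : ℝ) ≤ z)).card : ℝ)
        ≤ (((Finset.Icc 1 ⌊z⌋₊).filter (fun n => G X n)).card : ℝ) := by exact_mod_cast h1
      _ ≤ C * ⌊z⌋₊ * (1 + Real.log ⌊z⌋₊) ^ 5 * η := h2
      _ ≤ C * z * (1 + Real.log z) ^ 5 * η := by gcongr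
  have hstep : RR X c N x ≤ ∑ i ∈ Finset.range (N + 1), 4 * (1 / 4) ^ i / x *
      (((Finset.Icc 1 N).filter (fun n => G X n ∧ (n : ℝ) ≤ 2 ^ i * x)).card : ℝ) := by
    calc RR X c N x ≤ ∑ n ∈ (Finset.Icc 1 N).filter (fun n => G X n), ker x n := by
          unfold RR
          apply Finset.sum_le_sum_of_subset_of_nonneg
          · intro n hn
            rw [Finset.mem_filter] at hn ⊢
            exact ⟨hn.1, hn.2.1⟩
          · intro n _ _
            exact ker_nonneg hx0 n
      _ ≤ ∑ n ∈ (Finset.Icc 1 N).filter (fun n => G X n), ∑ i ∈ Finset.range (N + 1),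
          (if (n : ℝ) ≤ 2 ^ i * x then 4 * (1 / 4) ^ i / x else 0) := by
          apply Finset.sum_le_sum
          intro n hn
          rw [Finset.mem_filter, Finset.mem_Icc] at hn
          exact K1_dyad hx hn.1.1 hn.1.2
      _ = ∑ i ∈ Finset.range (N + 1), ∑ n ∈ (Finset.Icc 1 N).filter (fun n => G X n),
          (if (n : ℝ) ≤ 2 ^ i * x then 4 * (1 / 4) ^ i / x else 0) := Finset.sum_comm
      _ = ∑ i ∈ Finset.range (N + 1), 4 * (1 / 4) ^ i / x *
          (((Finset.Icc 1 N).filter (fun n => G X n ∧ (n : ℝ) ≤ 2 ^ i * x)).card : ℝ) := by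
          apply Finset.sum_congr rfl
          intro i _
          rw [← Finset.sum_filter, Finset.filter_filter, Finset.sum_const, nsmul_eq_mul, mul_comm]
  refine hstep.trans ?_
  calc ∑ i ∈ Finset.range (N + 1), 4 * (1 / 4) ^ i / x *
      (((Finset.Icc 1 N).filter (fun n => G X n ∧ (n : ℝ) ≤ 2 ^ i * x)).card : ℝ)
      ≤ ∑ i ∈ Finset.range (N + 1), 4 * C * (1 + Real.log x) ^ 5 * η *
        (((i : ℝ) + 1) ^ 5 * (1 / 2) ^ i) := by
        apply Finset.sum_le_sum
        intro i _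
        have h2i : (1 : ℝ) ≤ 2 ^ i := one_le_pow₀ (by norm_num)
        have hz : 1 ≤ 2 ^ i * x := by nlinarith
        have h1 := hcnt (2 ^ i * x) hz
        have hlog : Real.log (2 ^ i * x) = i * Real.log 2 + Real.log x := by
          rw [Real.log_mul (by positivity) hx0.ne', Real.log_pow]
        have hlog2 : Real.log 2 ≤ 1 := by
          have := Real.log_two_lt_d9
          linarith
        have hlog20 : 0 ≤ Real.log 2 := Real.log_nonneg (by norm_num)
        have h3 : 1 + Real.log (2 ^ i * x) ≤ (1 + Real.log x) * ((i : ℝ) + 1) := by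
          rw [hlog]
          have hi0 : (0 : ℝ) ≤ i := Nat.cast_nonneg i
          nlinarith [mul_nonneg hi0 hlx]
        have h30 : 0 ≤ 1 + Real.log (2 ^ i * x) := by
          have := Real.log_nonneg hz
          linarith
        have h4 : (1 + Real.log (2 ^ i * x)) ^ 5 ≤ ((1 + Real.log x) * ((i : ℝ) + 1)) ^ 5 :=
          pow_le_pow_left₀ h30 h3 5
        have e4 : (1 / 4 : ℝ) ^ i * 2 ^ i = (1 / 2) ^ i := by
          rw [← mul_pow]; norm_num
        calc 4 * (1 / 4) ^ i / x *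
            (((Finset.Icc 1 N).filter (fun n => G X n ∧ (n : ℝ) ≤ 2 ^ i * x)).card : ℝ)
            ≤ 4 * (1 / 4) ^ i / x * (C * (2 ^ i * x) * (1 + Real.log (2 ^ i * x)) ^ 5 * η) :=
              mul_le_mul_of_nonneg_left h1 (by positivity)
          _ ≤ 4 * (1 / 4) ^ i / x *
              (C * (2 ^ i * x) * ((1 + Real.log x) * ((i : ℝ) + 1)) ^ 5 * η) := by
              gcongr
          _ = 4 * C * (1 + Real.log x) ^ 5 * η * (((i : ℝ) + 1) ^ 5 * ((1 / 4 : ℝ) ^ i * 2 ^ i)) := by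
              field_simp
          _ = 4 * C * (1 + Real.log x) ^ 5 * η * (((i : ℝ) + 1) ^ 5 * (1 / 2) ^ i) := by rw [e4]
    _ = 4 * C * (1 + Real.log x) ^ 5 * η * ∑ i ∈ Finset.range (N + 1),
        (((i : ℝ) + 1) ^ 5 * (1 / 2) ^ i) := by rw [Finset.mul_sum]
    _ ≤ 4 * C * (1 + Real.log x) ^ 5 * η * K := by
        apply mul_le_mul_of_nonneg_left _ (by positivity)
        exact K1_summable.sum_le_tsum _ fun i _ => by positivity
    _ ≤ (4 * K + 1) * C * (1 + Real.log x) ^ 5 * η := by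
        have h5 : 0 ≤ C * (1 + Real.log x) ^ 5 * η := by positivity
        nlinarith

end K5
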