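import Pool.Agent.Lib.MP_a4658c_nt.K5.Defs

/-! Piece S1: one-letter sums (paper (0.6)-(0.9), (2.4), (2.7)). All are finite geometric sums;
for each `c` split `L Λ c` into the letters with `b ≥ 1` (all `a`, next class `true`) and `b = 0`
(`a` odd for `c = true`, `a` even for `c = false`, next class `false`). -/

namespace K5

private lemma S1_Icc (Λ : ℕ) (g : ℕ → ℝ) :
    ∑ b ∈ Finset.Icc 1 Λ, g b = ∑ b ∈ Finset.range Λ, g (b + 1) := by
  induction Λ with
  | zero => simp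
  | succ n ih => rw [Finset.sum_Icc_succ_top (by omega), Finset.sum_range_succ, ih]

/-- A general reduction: the sum over `L Λ c` of a function of `l` is the sum over `b ≥ 1` plus
the sum over `b = 0` with the right parity. -/
lemma sum_L_split (Λ : ℕ) (c : Bool) (f : Let → ℝ) :
    ∑ l ∈ L Λ c, f l
      = (∑ a ∈ Finset.Icc 1 Λ, ∑ b ∈ Finset.Icc 1 Λ, f (a, b))
        + ∑ a ∈ (Finset.Icc 1 Λ).filter (fun a => (a % 2 = 1 ↔ c = true)), f (a, 0) := by
  rw [L, Finset.sum_filter, Finset.sum_product, Finset.sum_filter, ← Finset.sum_add_distrib]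
  refine Finset.sum_congr rfl fun a _ => ?_
  rw [Finset.sum_range_succ', S1_Icc Λ (fun b => f (a, b))]
  refine congrArg₂ (· + ·) (Finset.sum_congr rfl fun b _ => ?_) ?_
  · exact if_pos (Or.inl (Nat.succ_le_succ (Nat.zero_le b)))
  · by_cases h : (a % 2 = 1 ↔ c = true)
    · rw [if_pos (Or.inr h), if_pos h]
    · rw [if_neg h, if_neg]
      rintro (h1 | h1)
      · exact absurd h1 (by norm_num)
      · exact h h1

private lemma S1_geom (r : ℝ) (Λ : ℕ) :
    (1 - r) * ∑ a ∈ Finset.Icc 1 Λ, r ^ a = r - r ^ (Λ + 1) := by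
  induction Λ with
  | zero => simp
  | succ n ih =>
    rw [Finset.sum_Icc_succ_top (by omega), mul_add, ih]
    ring

private lemma S1_geom_le {r : ℝ} (h0 : 0 ≤ r) (h1 : r < 1) (Λ : ℕ) :
    ∑ a ∈ Finset.Icc 1 Λ, r ^ a ≤ r / (1 - r) := by
  rw [le_div_iff₀ (by linarith), mul_comm, S1_geom]
  have := pow_nonneg h0 (Λ + 1)
  linarith

private lemma S1_geom_nonneg {r : ℝ} (h0 : 0 ≤ r) (s : Finset ℕ) :
    0 ≤ ∑ a ∈ s, r ^ a := Finset.sum_nonneg fun a _ => pow_nonneg h0 a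

private lemma S1_odd (r : ℝ) (Λ : ℕ) :
    (1 - r ^ 2) * ∑ a ∈ (Finset.Icc 1 Λ).filter (fun a => (a % 2 = 1 ↔ true = true)), r ^ a =
      r - (if Λ % 2 = 1 then r ^ (Λ + 2) else r ^ (Λ + 1)) := by
  induction Λ with
  | zero => simp
  | succ n ih =>
    rw [Finset.sum_filter, Finset.sum_Icc_succ_top (by omega), ← Finset.sum_filter, mul_add, ih]
    rcases Nat.mod_two_eq_zero_or_one n with h | h
    · rw [if_neg (by omega), if_pos (by simp; omega), if_pos (by omega)]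
      ring
    · rw [if_pos h, if_neg (by simp; omega), if_neg (by omega)]
      ring

private lemma S1_even (r : ℝ) (Λ : ℕ) :
    (1 - r ^ 2) * ∑ a ∈ (Finset.Icc 1 Λ).filter (fun a => (a % 2 = 1 ↔ false = true)), r ^ a =
      r ^ 2 - (if Λ % 2 = 1 then r ^ (Λ + 1) else r ^ (Λ + 2)) := by
  induction Λ with
  | zero => simp
  | succ n ih =>
    rw [Finset.sum_filter, Finset.sum_Icc_succ_top (by omega), ← Finset.sum_filter, mul_add, ih]
    rcases Nat.mod_two_eq_zero_or_one n with h | h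
    · rw [if_neg (by omega), if_neg (by simp; omega), if_pos (by omega)]
      ring
    · rw [if_pos h, if_pos (by simp; omega), if_neg (by omega)]
      ring

private lemma S1_par_le {r : ℝ} (h0 : 0 ≤ r) (h1 : r < 1) (Λ : ℕ) (c : Bool) :
    ∑ a ∈ (Finset.Icc 1 Λ).filter (fun a => (a % 2 = 1 ↔ c = true)), r ^ a ≤
      (if c then r else r ^ 2) / (1 - r ^ 2) := by
  have h2 : 0 < 1 - r ^ 2 := by nlinarith
  rw [le_div_iff₀ h2, mul_comm]
  cases c with
  | false =>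
    rw [S1_even]
    have h3 : 0 ≤ (if Λ % 2 = 1 then r ^ (Λ + 1) else r ^ (Λ + 2)) := by
      split_ifs <;> positivity
    simp only [Bool.false_eq_true, if_false]
    linarith
  | true =>
    rw [S1_odd]
    have h3 : 0 ≤ (if Λ % 2 = 1 then r ^ (Λ + 2) else r ^ (Λ + 1)) := by
      split_ifs <;> positivity
    simp only [if_true]
    linarith

private lemma S1_double (Λ : ℕ) (r s : ℝ) :
    ∑ a ∈ Finset.Icc 1 Λ, ∑ b ∈ Finset.Icc 1 Λ, r ^ a * s ^ b =
      (∑ a ∈ Finset.Icc 1 Λ, r ^ a) * ∑ b ∈ Finset.Icc 1 Λ, s ^ b :=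
  (Finset.sum_mul_sum _ _ _ _).symm

/-- the general upper bound -/
private lemma S1_bound {r s : ℝ} (hr : 0 ≤ r) (hr1 : r < 1) (hs : 0 ≤ s) (hs1 : s < 1)
    {A B : ℝ} (hA : 0 ≤ A) (hB : 0 ≤ B) (Λ : ℕ) (c : Bool) (f : Let → ℝ)
    (hf1 : ∀ a, ∀ b, 1 ≤ b → f (a, b) = A * (r ^ a * s ^ b)) (hf0 : ∀ a, f (a, 0) = B * r ^ a) :
    ∑ l ∈ L Λ c, f l ≤ A * (r / (1 - r) * (s / (1 - s))) +
      B * ((if c then r else r ^ 2) / (1 - r ^ 2)) := by
  rw [sum_L_split]
  apply add_le_add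
  · have h1 : ∑ a ∈ Finset.Icc 1 Λ, ∑ b ∈ Finset.Icc 1 Λ, f (a, b) =
        A * ∑ a ∈ Finset.Icc 1 Λ, ∑ b ∈ Finset.Icc 1 Λ, r ^ a * s ^ b := by
      rw [Finset.mul_sum]
      refine Finset.sum_congr rfl fun a _ => ?_
      rw [Finset.mul_sum]
      exact Finset.sum_congr rfl fun b hb => hf1 a b (Finset.mem_Icc.1 hb).1
    rw [h1, S1_double]
    exact mul_le_mul_of_nonneg_left (mul_le_mul (S1_geom_le hr hr1 Λ) (S1_geom_le hs hs1 Λ)
      (S1_geom_nonneg hs _) (div_nonneg hr (by linarith))) hA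
  · have h1 : ∑ a ∈ (Finset.Icc 1 Λ).filter (fun a => (a % 2 = 1 ↔ c = true)), f (a, 0) =
        B * ∑ a ∈ (Finset.Icc 1 Λ).filter (fun a => (a % 2 = 1 ↔ c = true)), r ^ a := by
      rw [Finset.mul_sum]
      exact Finset.sum_congr rfl fun a _ => hf0 a
    rw [h1]
    exact mul_le_mul_of_nonneg_left (S1_par_le hr hr1 Λ c) hB

private lemma S1_kap (a b : ℕ) : kap (a, b) = (1 / 2) ^ a * (1 / 3) ^ b := by
  unfold kap dd
  push_cast
  rw [one_div_pow, one_div_pow, one_div_mul_one_div]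

private lemma S1_nx1 {a b : ℕ} (h : 1 ≤ b) : nx (a, b) = true := by
  simp [nx, h]

private lemma S1_nx0 (a : ℕ) : nx (a, 0) = false := by
  simp [nx]

/-- Harmonicity: `Σ_{l ∈ L(c)} κ(l) v(nx l) ≤ v c` (2+2=4 and 2+1=3). -/
lemma sum_L_v (Λ : ℕ) (c : Bool) : ∑ l ∈ L Λ c, kap l * v (nx l) ≤ v c := by
  have h := S1_bound (r := 1 / 2) (s := 1 / 3) (A := 4) (B := 3) (by norm_num) (by norm_num)
    (by norm_num) (by norm_num) (by norm_num) (by norm_num) Λ c
    (fun l => kap l * v (nx l))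
    (fun a b hb => by
      show kap (a, b) * v (nx (a, b)) = _
      rw [S1_kap, S1_nx1 hb, v_true, mul_comm])
    (fun a => by
      show kap (a, 0) * v (nx (a, 0)) = _
      rw [S1_kap, S1_nx0, v_false, pow_zero, mul_one, mul_comm])
  refine h.trans ?_
  cases c <;> norm_num [v]

/-- Second moment vector. -/
noncomputable def pv (c : Bool) : ℝ := if c then 9 / 4 else 1

lemma pv_pos (c : Bool) : 0 < pv c := by cases c <;> norm_num [pv]
lemma pv_ge (c : Bool) : 1 ≤ pv c := by cases c <;> norm_num [pv]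
lemma pv_le (c : Bool) : pv c ≤ 9 / 4 := by cases c <;> norm_num [pv]

/-- (0.8), one step. (class true: (5/24)(9/4)+4/3 = 1.8021 ≤ 1.8225; false: 0.8021 ≤ 0.81) -/
lemma sum_L_p (Λ : ℕ) (c : Bool) : ∑ l ∈ L Λ c, 5 * kap l ^ 2 * pv (nx l) ≤ 0.81 * pv c := by
  have h := S1_bound (r := 1 / 4) (s := 1 / 9) (A := 5 * (9 / 4)) (B := 5) (by norm_num)
    (by norm_num) (by norm_num) (by norm_num) (by norm_num) (by norm_num) Λ c
    (fun l => 5 * kap l ^ 2 * pv (nx l))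
    (fun a b hb => by
      show 5 * kap (a, b) ^ 2 * pv (nx (a, b)) = _
      rw [S1_kap, S1_nx1 hb, mul_pow, ← pow_mul, ← pow_mul, mul_comm a 2, mul_comm b 2, pow_mul,
        pow_mul, show ((1 : ℝ) / 2) ^ 2 = 1 / 4 by norm_num,
        show ((1 : ℝ) / 3) ^ 2 = 1 / 9 by norm_num, show pv true = 9 / 4 from rfl]
      ring)
    (fun a => by
      show 5 * kap (a, 0) ^ 2 * pv (nx (a, 0)) = _
      rw [S1_kap, S1_nx0, mul_pow, ← pow_mul, ← pow_mul, mul_comm a 2, pow_mul,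
        show ((1 : ℝ) / 2) ^ 2 = 1 / 4 by norm_num, show pv false = 1 from rfl]
      ring)
  refine h.trans ?_
  cases c <;> norm_num [pv]

/-- (0.9), one step (row sums 4.712 and 4.298). -/
lemma sum_L_half (Λ : ℕ) (c : Bool) : ∑ l ∈ L Λ c, 1 / Real.sqrt (dd l : ℝ) ≤ 5 := by
  have h2 : (0 : ℝ) < √2 := by positivity
  have h3 : (0 : ℝ) < √3 := by positivity
  have h2a : (1.414 : ℝ) < √2 := Real.lt_sqrt_of_sq_lt (by norm_num)
  have h2b : √2 < (1.4143 : ℝ) := by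
    rw [Real.sqrt_lt' (by norm_num)]
    norm_num
  have h3a : (1.732 : ℝ) < √3 := Real.lt_sqrt_of_sq_lt (by norm_num)
  have h3b : √3 < (1.7321 : ℝ) := by
    rw [Real.sqrt_lt' (by norm_num)]
    norm_num
  have s2 : √2 * √2 = (2 : ℝ) := Real.mul_self_sqrt (by norm_num)
  have s3 : √3 * √3 = (3 : ℝ) := Real.mul_self_sqrt (by norm_num)
  have hdd : ∀ a b : ℕ, 1 / Real.sqrt (dd (a, b) : ℝ) = (1 / √2) ^ a * (1 / √3) ^ b := by
    intro a b
    unfold dd
    push_cast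
    rw [Real.sqrt_mul (by positivity), Real.sqrt_eq_rpow, Real.sqrt_eq_rpow,
      Real.sqrt_eq_rpow, Real.sqrt_eq_rpow, ← Real.rpow_natCast_mul (by norm_num),
      ← Real.rpow_natCast_mul (by norm_num), one_div_pow, one_div_pow, one_div_mul_one_div,
      ← Real.rpow_mul_natCast (by norm_num), ← Real.rpow_mul_natCast (by norm_num), mul_comm (a : ℝ),
      mul_comm (b : ℝ)]
  have hr1 : 1 / √2 < 1 := by
    rw [div_lt_one h2]
    linarith
  have hs1 : 1 / √3 < 1 := by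
    rw [div_lt_one h3]
    linarith
  have h := S1_bound (r := 1 / √2) (s := 1 / √3) (A := 1) (B := 1) (by positivity)
    hr1 (by positivity) hs1 (by norm_num) (by norm_num) Λ c
    (fun l => 1 / Real.sqrt (dd l : ℝ))
    (fun a b hb => by
      show 1 / Real.sqrt (dd (a, b) : ℝ) = _
      rw [hdd, one_mul])
    (fun a => by
      show 1 / Real.sqrt (dd (a, 0) : ℝ) = _
      rw [hdd, one_mul, pow_zero, mul_one])
  refine h.trans ?_
  have e1 : 1 / √2 / (1 - 1 / √2) = √2 + 1 := by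
    have : √2 - 1 ≠ 0 := by
      intro h0
      linarith
    rw [div_eq_iff (by
      intro h0
      linarith)]
    field_simp
    nlinarith
  have e2 : 1 / √3 / (1 - 1 / √3) = (√3 + 1) / 2 := by
    rw [div_eq_iff (by
      intro h0
      linarith)]
    field_simp
    nlinarith
  have e3 : (1 / √2) ^ 2 = 1 / 2 := by
    rw [one_div_pow, sq, s2]
  have e4 : 1 / √2 = √2 / 2 := by
    rw [div_eq_div_iff h2.ne' (by norm_num), s2]
    norm_num
  rw [e1, e2, e3]
  have e5 : (√2 + 1) * ((√3 + 1) / 2) ≤ 2.4143 * 1.36605 :=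
    mul_le_mul (by linarith) (by linarith) (by positivity) (by norm_num)
  cases c with
  | false =>
    simp only [Bool.false_eq_true, if_false]
    norm_num at e5 ⊢
    linarith
  | true =>
    simp only [if_true]
    rw [e4]
    norm_num at e5 ⊢
    linarith

/-- `Σ κ v(nx l) 2^{-b} ≤ 0.7 v c` (0.8+2 = 2.8; 0.8+1 ≤ 2.1). -/
lemma sum_L_two (Λ : ℕ) (c : Bool) :
    ∑ l ∈ L Λ c, kap l * v (nx l) * (1 / 2) ^ l.2 ≤ 0.7 * v c := by
  have h := S1_bound (r := 1 / 2) (s := 1 / 6) (A := 4) (B := 3) (by norm_num) (by norm_num)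
    (by norm_num) (by norm_num) (by norm_num) (by norm_num) Λ c
    (fun l => kap l * v (nx l) * (1 / 2) ^ l.2)
    (fun a b hb => by
      show kap (a, b) * v (nx (a, b)) * (1 / 2) ^ b = _
      rw [S1_kap, S1_nx1 hb, v_true, show ((1 : ℝ) / 6) = 1 / 3 * (1 / 2) by norm_num, mul_pow]
      ring)
    (fun a => by
      show kap (a, 0) * v (nx (a, 0)) * (1 / 2) ^ 0 = _
      rw [S1_kap, S1_nx0, v_false, pow_zero, pow_zero]
      ring)
  refine h.trans ?_
  cases c <;> norm_num [v]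

private lemma S1_tail {r : ℝ} (h0 : 0 ≤ r) (h1 : r < 1) (Λ a₀ : ℕ) :
    ∑ a ∈ (Finset.Icc 1 Λ).filter (fun a => a₀ < a), r ^ a ≤ r ^ a₀ * (r / (1 - r)) := by
  have h2 : 0 < 1 - r := by linarith
  have key : (1 - r) * ∑ a ∈ (Finset.Icc 1 Λ).filter (fun a => a₀ < a), r ^ a ≤
      r ^ (a₀ + 1) - r ^ (max a₀ Λ + 1) := by
    induction Λ with
    | zero => simp
    | succ n ih =>
      rw [Finset.sum_filter, Finset.sum_Icc_succ_top (by omega), ← Finset.sum_filter, mul_add]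
      split_ifs with h3
      · rcases Nat.lt_or_ge a₀ n with h4 | h4
        · rw [max_eq_right h4.le] at ih
          rw [max_eq_right h3.le]
          have : (1 - r) * r ^ (n + 1) = r ^ (n + 1) - r ^ (n + 1 + 1) := by ring
          linarith
        · have h5 : a₀ = n := by omega
          subst h5
          rw [max_self] at ih
          rw [max_eq_right (by omega : a₀ ≤ a₀ + 1)]
          have : (1 - r) * r ^ (a₀ + 1) = r ^ (a₀ + 1) - r ^ (a₀ + 1 + 1) := by ring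
          linarith
      · rw [max_eq_left (by omega)] at ih
        rw [max_eq_left (by omega)]
        linarith
  rw [← mul_div_assoc, le_div_iff₀ h2, mul_comm]
  have h3 := pow_nonneg h0 (max a₀ Λ + 1)
  rw [← pow_succ]
  linarith

/-- Large letters have small mass. -/
lemma sum_L_large (Λ a₀ : ℕ) (c : Bool) :
    ∑ l ∈ (L Λ c).filter (fun l => ¬ (l.1 ≤ a₀ ∧ l.2 ≤ a₀)), kap l * v (nx l)
      ≤ 3 * (1 / 2) ^ a₀ * v c := by
  have h1 : ∀ l : Let, kap l * v (nx l) ≤ 4 * kap l := fun l => by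
    have := mul_le_mul_of_nonneg_left (v_le (nx l)) (kap_pos l).le
    linarith
  have h2 : ∑ l ∈ (L Λ c).filter (fun l => ¬ (l.1 ≤ a₀ ∧ l.2 ≤ a₀)), kap l * v (nx l) ≤
      ∑ l ∈ (L Λ c).filter (fun l => ¬ (l.1 ≤ a₀ ∧ l.2 ≤ a₀)), 4 * kap l :=
    Finset.sum_le_sum fun l _ => h1 l
  have h3 : (L Λ c).filter (fun l => ¬ (l.1 ≤ a₀ ∧ l.2 ≤ a₀)) ⊆
      (((Finset.Icc 1 Λ).filter (fun a => a₀ < a)) ×ˢ (Finset.range (Λ + 1))) ∪
      ((Finset.Icc 1 Λ) ×ˢ ((Finset.Icc 1 Λ).filter (fun a => a₀ < a))) := by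
    intro l hl
    rw [Finset.mem_filter, mem_L] at hl
    rw [Finset.mem_union, Finset.mem_product, Finset.mem_product, Finset.mem_filter,
      Finset.mem_filter, Finset.mem_Icc, Finset.mem_Icc, Finset.mem_range]
    omega
  have h4 : ∑ l ∈ (L Λ c).filter (fun l => ¬ (l.1 ≤ a₀ ∧ l.2 ≤ a₀)), 4 * kap l ≤
      (∑ l ∈ (((Finset.Icc 1 Λ).filter (fun a => a₀ < a)) ×ˢ (Finset.range (Λ + 1))), 4 * kap l) +
      ∑ l ∈ ((Finset.Icc 1 Λ) ×ˢ ((Finset.Icc 1 Λ).filter (fun a => a₀ < a))), 4 * kap l := by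
    have hnn : ∀ l : Let, 0 ≤ 4 * kap l := fun l => by
      have := kap_pos l
      positivity
    refine (Finset.sum_le_sum_of_subset_of_nonneg h3 fun l _ _ => hnn l).trans ?_
    have h5 := Finset.sum_union_inter
      (s₁ := ((Finset.Icc 1 Λ).filter (fun a => a₀ < a)) ×ˢ (Finset.range (Λ + 1)))
      (s₂ := (Finset.Icc 1 Λ) ×ˢ ((Finset.Icc 1 Λ).filter (fun a => a₀ < a)))
      (f := fun l : Let => 4 * kap l)
    have h6 : 0 ≤ ∑ l ∈ (((Finset.Icc 1 Λ).filter (fun a => a₀ < a)) ×ˢ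
        (Finset.range (Λ + 1))) ∩ ((Finset.Icc 1 Λ) ×ˢ
        ((Finset.Icc 1 Λ).filter (fun a => a₀ < a))), 4 * kap l :=
      Finset.sum_nonneg fun l _ => hnn l
    linarith
  have h5 : ∑ l ∈ (((Finset.Icc 1 Λ).filter (fun a => a₀ < a)) ×ˢ (Finset.range (Λ + 1))),
      4 * kap l ≤ 6 * (1 / 2) ^ a₀ := by
    have e1 : ∑ l ∈ (((Finset.Icc 1 Λ).filter (fun a => a₀ < a)) ×ˢ (Finset.range (Λ + 1))),
        4 * kap l = 4 * ((∑ a ∈ (Finset.Icc 1 Λ).filter (fun a => a₀ < a), (1 / 2 : ℝ) ^ a) *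
          ∑ b ∈ Finset.range (Λ + 1), (1 / 3 : ℝ) ^ b) := by
      rw [← Finset.mul_sum, Finset.sum_product, Finset.sum_mul_sum]
      congr 1
      exact Finset.sum_congr rfl fun a _ => Finset.sum_congr rfl fun b _ => S1_kap a b
    have e2 := S1_tail (r := 1 / 2) (by norm_num) (by norm_num) Λ a₀
    have e3 : ∑ b ∈ Finset.range (Λ + 1), (1 / 3 : ℝ) ^ b ≤ 3 / 2 := by
      rw [Finset.sum_range_succ', ← S1_Icc Λ (fun b => (1 / 3 : ℝ) ^ b), pow_zero]
      have := S1_geom_le (r := 1 / 3) (by norm_num) (by norm_num) Λ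
      norm_num at this ⊢
      linarith
    have e4 : (1 / 2 : ℝ) / (1 - 1 / 2) = 1 := by norm_num
    rw [e4, mul_one] at e2
    rw [e1]
    have e5 := mul_le_mul e2 e3 (Finset.sum_nonneg fun b _ => by positivity)
      (by positivity : (0 : ℝ) ≤ (1 / 2) ^ a₀)
    linarith
  have h6 : ∑ l ∈ ((Finset.Icc 1 Λ) ×ˢ ((Finset.Icc 1 Λ).filter (fun a => a₀ < a))),
      4 * kap l ≤ 2 * (1 / 2) ^ a₀ := by
    have e1 : ∑ l ∈ ((Finset.Icc 1 Λ) ×ˢ ((Finset.Icc 1 Λ).filter (fun a => a₀ < a))),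
        4 * kap l = 4 * ((∑ a ∈ Finset.Icc 1 Λ, (1 / 2 : ℝ) ^ a) *
          ∑ b ∈ (Finset.Icc 1 Λ).filter (fun a => a₀ < a), (1 / 3 : ℝ) ^ b) := by
      rw [← Finset.mul_sum, Finset.sum_product, Finset.sum_mul_sum]
      congr 1
      exact Finset.sum_congr rfl fun a _ => Finset.sum_congr rfl fun b _ => S1_kap a b
    have e2 := S1_tail (r := 1 / 3) (by norm_num) (by norm_num) Λ a₀
    have e3 := S1_geom_le (r := 1 / 2) (by norm_num) (by norm_num) Λ
    have e4 : (1 / 2 : ℝ) / (1 - 1 / 2) = 1 := by norm_num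
    have e6 : (1 / 3 : ℝ) / (1 - 1 / 3) = 1 / 2 := by norm_num
    rw [e4] at e3
    rw [e6] at e2
    have e7 : (1 / 3 : ℝ) ^ a₀ ≤ (1 / 2) ^ a₀ :=
      pow_le_pow_left₀ (by norm_num) (by norm_num) a₀
    rw [e1]
    have e5 := mul_le_mul e3 e2 (Finset.sum_nonneg fun b _ => by positivity)
      (by norm_num : (0 : ℝ) ≤ 1)
    linarith
  have h7 : (0 : ℝ) < (1 / 2) ^ a₀ := by positivity
  have h8 := mul_le_mul_of_nonneg_left (v_ge c) (by positivity : (0 : ℝ) ≤ 3 * (1 / 2) ^ a₀)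
  linarith

private lemma S1_col (Λ : ℕ) (c' : Bool) :
    ∑ c : Bool, ∑ l ∈ (L Λ c).filter (fun l => nx l = c'), kap l =
      if c' then 2 * ((∑ a ∈ Finset.Icc 1 Λ, (1 / 2 : ℝ) ^ a) *
        ∑ b ∈ Finset.Icc 1 Λ, (1 / 3 : ℝ) ^ b) else ∑ a ∈ Finset.Icc 1 Λ, (1 / 2 : ℝ) ^ a := by
  have h1 : ∀ c : Bool, ∑ l ∈ (L Λ c).filter (fun l => nx l = c'), kap l =
      if c' then ((∑ a ∈ Finset.Icc 1 Λ, (1 / 2 : ℝ) ^ a) *
        ∑ b ∈ Finset.Icc 1 Λ, (1 / 3 : ℝ) ^ b) else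
        ∑ a ∈ (Finset.Icc 1 Λ).filter (fun a => (a % 2 = 1 ↔ c = true)), (1 / 2 : ℝ) ^ a := by
    intro c
    rw [Finset.sum_filter, sum_L_split Λ c (fun l => if nx l = c' then kap l else 0)]
    cases c' with
    | true =>
      rw [if_pos rfl, ← S1_double]
      have e1 : ∑ a ∈ (Finset.Icc 1 Λ).filter (fun a => (a % 2 = 1 ↔ c = true)),
          (if nx (a, 0) = true then kap (a, 0) else 0) = 0 :=
        Finset.sum_eq_zero fun a _ => by rw [S1_nx0, if_neg (by simp)]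
      rw [e1, add_zero]
      refine Finset.sum_congr rfl fun a _ => Finset.sum_congr rfl fun b hb => ?_
      rw [S1_nx1 (Finset.mem_Icc.1 hb).1, if_pos rfl, S1_kap]
    | false =>
      rw [if_neg (by simp)]
      have e1 : ∑ a ∈ Finset.Icc 1 Λ, ∑ b ∈ Finset.Icc 1 Λ,
          (if nx (a, b) = false then kap (a, b) else 0) = 0 :=
        Finset.sum_eq_zero fun a _ => Finset.sum_eq_zero fun b hb => by
          rw [S1_nx1 (Finset.mem_Icc.1 hb).1, if_neg (by simp)]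
      rw [e1, zero_add]
      refine Finset.sum_congr rfl fun a _ => ?_
      rw [S1_nx0, if_pos rfl, S1_kap, pow_zero, mul_one]
  rw [Fintype.sum_bool, h1, h1]
  cases c' with
  | true =>
    simp only [if_true]
    ring
  | false =>
    simp only [Bool.false_eq_true, if_false]
    rw [Finset.sum_filter, Finset.sum_filter, ← Finset.sum_add_distrib]
    refine Finset.sum_congr rfl fun a _ => ?_
    by_cases h : a % 2 = 1 <;> simp [h]

/-- Column mass for one letter, upper half. -/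
lemma col_one_le (Λ : ℕ) (c' : Bool) :
    ∑ c : Bool, ∑ l ∈ (L Λ c).filter (fun l => nx l = c'), kap l ≤ 1 := by
  rw [S1_col]
  have e3 := S1_geom_le (r := 1 / 2) (by norm_num) (by norm_num) Λ
  have e2 := S1_geom_le (r := 1 / 3) (by norm_num) (by norm_num) Λ
  have e4 : (1 / 2 : ℝ) / (1 - 1 / 2) = 1 := by norm_num
  have e6 : (1 / 3 : ℝ) / (1 - 1 / 3) = 1 / 2 := by norm_num
  rw [e4] at e3
  rw [e6] at e2
  cases c' with
  | true =>
    simp only [if_true]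
    have e5 := mul_le_mul e3 e2 (Finset.sum_nonneg fun b _ => by positivity)
      (by norm_num : (0 : ℝ) ≤ 1)
    linarith
  | false =>
    simp only [Bool.false_eq_true, if_false]
    exact e3

/-- Column mass for one letter, lower half: into class true `(1-2^-Λ)(1-3^-Λ)`, into class false
`1-2^-Λ`. -/
lemma col_one_ge (Λ : ℕ) (c' : Bool) :
    1 - 2 * (1 / 2 : ℝ) ^ Λ ≤ ∑ c : Bool, ∑ l ∈ (L Λ c).filter (fun l => nx l = c'), kap l := by
  rw [S1_col]
  have e2 := S1_geom (1 / 2) Λ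
  have e3 := S1_geom (1 / 3) Λ
  have e4 : ∑ a ∈ Finset.Icc 1 Λ, (1 / 2 : ℝ) ^ a = 1 - (1 / 2) ^ Λ := by
    rw [pow_succ] at e2
    linarith
  have e5 : ∑ a ∈ Finset.Icc 1 Λ, (1 / 3 : ℝ) ^ a = (1 - (1 / 3) ^ Λ) / 2 := by
    rw [pow_succ] at e3
    linarith
  have e6 : (0 : ℝ) < (1 / 2) ^ Λ := by positivity
  have e8 : (0 : ℝ) < (1 / 3) ^ Λ := by positivity
  have e7 : (1 / 3 : ℝ) ^ Λ ≤ (1 / 2) ^ Λ := pow_le_pow_left₀ (by norm_num) (by norm_num) Λ
  rw [e4, e5]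
  cases c' with
  | true =>
    simp only [if_true]
    have e9 := mul_pos e6 e8
    nlinarith
  | false =>
    simp only [Bool.false_eq_true, if_false]
    linarith

end K5
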