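import Pool.Agent.Lib.MP_a4658c_nt.K5.S1

/-! Piece S3: column sums (paper (0.7)). Induction on `k`, splitting off the LAST letter with
`sum_W_add` (`r = 1`); use `col_one_le`, `col_one_ge`, and `one_add_mul_le_pow`. -/

namespace K5

/-- column sum for words of length `k` -/
private noncomputable def S3M (Λ k : ℕ) (c' : Bool) : ℝ :=
  ∑ c : Bool, ∑ w ∈ (W Λ k c).filter (fun w => endc c w = c'), 1 / (D w : ℝ)

/-- transition mass of one letter -/
private noncomputable def S3T (Λ : ℕ) (c c' : Bool) : ℝ :=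
  ∑ l ∈ (L Λ c).filter (fun l => nx l = c'), kap l

private lemma S3M_zero (Λ : ℕ) (c' : Bool) : S3M Λ 0 c' = 1 := by
  unfold S3M
  simp only [Finset.sum_filter, sum_W_zero, endc_nil, D_nil, Nat.cast_one, div_one]
  cases c' <;> simp

private lemma S3M_nonneg (Λ k : ℕ) (c' : Bool) : 0 ≤ S3M Λ k c' := by
  unfold S3M
  exact Finset.sum_nonneg fun c _ => Finset.sum_nonneg fun w _ => by positivity

private lemma S3T_nonneg (Λ : ℕ) (c c' : Bool) : 0 ≤ S3T Λ c c' := by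
  unfold S3T
  exact Finset.sum_nonneg fun l _ => (kap_pos l).le

private lemma S3_one (Λ k : ℕ) (c c' : Bool) :
    ∑ w ∈ (W Λ (k + 1) c).filter (fun w => endc c w = c'), 1 / (D w : ℝ) =
      ∑ w ∈ W Λ k c, 1 / (D w : ℝ) * S3T Λ (endc c w) c' := by
  rw [Finset.sum_filter, sum_W_add]
  refine Finset.sum_congr rfl fun w _ => ?_
  rw [show (1 : ℕ) = 0 + 1 from rfl, sum_W_succ]
  unfold S3T
  rw [Finset.mul_sum, Finset.sum_filter]
  refine Finset.sum_congr rfl fun l _ => ?_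
  rw [sum_W_zero, endc_append, endc_cons, endc_nil, D_append, D_cons, D_nil, mul_one]
  unfold kap
  push_cast
  split_ifs
  · rw [one_div_mul_one_div]
  · rfl

private lemma S3_step (Λ k : ℕ) (c' : Bool) :
    S3M Λ (k + 1) c' = ∑ c'' : Bool, S3M Λ k c'' * S3T Λ c'' c' := by
  have h1 : S3M Λ (k + 1) c' =
      ∑ c : Bool, ∑ w ∈ W Λ k c, 1 / (D w : ℝ) * S3T Λ (endc c w) c' := by
    unfold S3M
    exact Finset.sum_congr rfl fun c _ => S3_one Λ k c c'
  rw [h1]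
  have h2 : ∀ c : Bool, ∑ w ∈ W Λ k c, 1 / (D w : ℝ) * S3T Λ (endc c w) c' =
      ∑ c'' : Bool, (∑ w ∈ (W Λ k c).filter (fun w => endc c w = c''), 1 / (D w : ℝ)) *
        S3T Λ c'' c' := by
    intro c
    rw [← Finset.sum_fiberwise (W Λ k c) (fun w => endc c w)]
    refine Finset.sum_congr rfl fun c'' _ => ?_
    rw [Finset.sum_mul]
    refine Finset.sum_congr rfl fun w hw => ?_
    rw [(Finset.mem_filter.1 hw).2]
  rw [Finset.sum_congr rfl fun c _ => h2 c, Finset.sum_comm]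
  refine Finset.sum_congr rfl fun c'' _ => ?_
  unfold S3M
  rw [Finset.sum_mul]

lemma col_le (Λ k : ℕ) (c' : Bool) :
    ∑ c : Bool, ∑ w ∈ (W Λ k c).filter (fun w => endc c w = c'), 1 / (D w : ℝ) ≤ 1 := by
  change S3M Λ k c' ≤ 1
  induction k generalizing c' with
  | zero => rw [S3M_zero]
  | succ k ih =>
    rw [S3_step]
    calc ∑ c'' : Bool, S3M Λ k c'' * S3T Λ c'' c' ≤ ∑ c'' : Bool, S3T Λ c'' c' :=
          Finset.sum_le_sum fun c'' _ =>
            mul_le_of_le_one_left (S3T_nonneg Λ c'' c') (ih c'')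
      _ ≤ 1 := col_one_le Λ c'

lemma col_ge (Λ k : ℕ) (hΛ : 1 ≤ Λ) (c' : Bool) :
    1 - k * (2 * (1 / 2 : ℝ) ^ Λ)
      ≤ ∑ c : Bool, ∑ w ∈ (W Λ k c).filter (fun w => endc c w = c'), 1 / (D w : ℝ) := by
  change 1 - k * (2 * (1 / 2 : ℝ) ^ Λ) ≤ S3M Λ k c'
  have he : (0 : ℝ) ≤ 2 * (1 / 2 : ℝ) ^ Λ := by positivity
  set ε : ℝ := 2 * (1 / 2 : ℝ) ^ Λ with hε
  induction k generalizing c' with
  | zero => rw [S3M_zero]; simp
  | succ k ih =>
    have hk : (0 : ℝ) ≤ k := Nat.cast_nonneg k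
    rcases lt_or_ge (1 - k * ε) 0 with h | h
    · refine le_trans ?_ (S3M_nonneg Λ (k + 1) c')
      push_cast
      nlinarith
    · rw [S3_step]
      have h1 : (1 - ε : ℝ) ≤ ∑ c'' : Bool, S3T Λ c'' c' := col_one_ge Λ c'
      calc (1 - ((k + 1 : ℕ) : ℝ) * ε) ≤ (1 - k * ε) * (1 - ε) := by
            push_cast
            nlinarith [mul_nonneg hk (mul_nonneg he he)]
        _ ≤ (1 - k * ε) * ∑ c'' : Bool, S3T Λ c'' c' := mul_le_mul_of_nonneg_left h1 h
        _ = ∑ c'' : Bool, (1 - k * ε) * S3T Λ c'' c' := Finset.mul_sum _ _ _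
        _ ≤ _ := Finset.sum_le_sum fun c'' _ =>
            mul_le_mul_of_nonneg_right (ih c'') (S3T_nonneg Λ c'' c')

end K5
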