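import Mathlib

/-! Parameters of the transfer as functions of `t = log x`. -/

namespace K5

noncomputable def kk (t : ℝ) : ℕ := ⌊t / 100⌋₊
noncomputable def rr (t : ℝ) : ℕ := kk t / 20
noncomputable def lm (t : ℝ) : ℕ := 9 * kk t / 10
noncomputable def LL (t : ℝ) : ℕ := 2 * Nat.log 2 (kk t) + 2
noncomputable def KK (t : ℝ) : ℝ := 6 ^ LL t
noncomputable def YY (t : ℝ) : ℝ := 5 ^ kk t / KK t ^ 3
noncomputable def EE (t : ℝ) : ℝ := Real.exp (t / 4)

end K5
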