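import Pool.Agent.Lib.MP_a4658c_nt.K5.S1

/-! Piece S2: sums over words (paper (0.6), (0.8)-(0.11)). Induction on `k` with `sum_W_succ`,
`sum_W_add`. -/

namespace K5

private lemma S2_Dpos (w : List Let) : (0 : ℝ) < D w := by exact_mod_cast D_pos w

private lemma S2_D_cons (l : Let) (w : List Let) : (D (l :: w) : ℝ) = dd l * D w := by
  rw [D_cons]
  push_cast
  ring

private lemma S2_ddpos (l : Let) : (0 : ℝ) < dd l := by exact_mod_cast dd_pos l

/-- (0.6) -/
lemma sum_W_v (Λ k : ℕ) (c : Bool) : ∑ w ∈ W Λ k c, v (endc c w) / (D w : ℝ) ≤ v c := by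
  induction k generalizing c with
  | zero => rw [sum_W_zero]; simp
  | succ k ih =>
    rw [sum_W_succ]
    refine le_trans (Finset.sum_le_sum fun l _ => ?_) (sum_L_v Λ c)
    calc ∑ w ∈ W Λ k (nx l), v (endc c (l :: w)) / (D (l :: w) : ℝ)
        = kap l * ∑ w ∈ W Λ k (nx l), v (endc (nx l) w) / (D w : ℝ) := by
          rw [Finset.mul_sum]
          refine Finset.sum_congr rfl fun w _ => ?_
          have h1 := S2_Dpos w
          have h2 := S2_ddpos l
          rw [S2_D_cons, endc_cons]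
          unfold kap
          field_simp
      _ ≤ kap l * v (nx l) := mul_le_mul_of_nonneg_left (ih _) (kap_pos l).le

lemma sum_W_le (Λ k : ℕ) (c : Bool) : ∑ w ∈ W Λ k c, 1 / (D w : ℝ) ≤ 4 / 3 := by
  have h : ∑ w ∈ W Λ k c, 3 * (1 / (D w : ℝ)) ≤ ∑ w ∈ W Λ k c, v (endc c w) / (D w : ℝ) := by
    refine Finset.sum_le_sum fun w _ => ?_
    have h1 := S2_Dpos w
    rw [mul_one_div]
    exact div_le_div_of_nonneg_right (v_ge _) h1.le
  rw [← Finset.mul_sum] at h
  have h2 := sum_W_v Λ k c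
  have h3 := v_le c
  linarith

/-- (0.8) -/
lemma sum_W_sq_p (Λ k : ℕ) (c : Bool) :
    ∑ w ∈ W Λ k c, pv (endc c w) / (D w : ℝ) ^ 2 ≤ pv c * (0.81 / 5) ^ k := by
  induction k generalizing c with
  | zero => rw [sum_W_zero]; simp
  | succ k ih =>
    rw [sum_W_succ]
    have h0 := sum_L_p Λ c
    have hp : (0 : ℝ) ≤ (0.81 / 5) ^ k := by positivity
    calc ∑ l ∈ L Λ c, ∑ w ∈ W Λ k (nx l), pv (endc c (l :: w)) / (D (l :: w) : ℝ) ^ 2
        ≤ ∑ l ∈ L Λ c, (5 * kap l ^ 2 * pv (nx l)) * ((0.81 / 5) ^ k / 5) := by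
          refine Finset.sum_le_sum fun l _ => ?_
          calc ∑ w ∈ W Λ k (nx l), pv (endc c (l :: w)) / (D (l :: w) : ℝ) ^ 2
              = kap l ^ 2 * ∑ w ∈ W Λ k (nx l), pv (endc (nx l) w) / (D w : ℝ) ^ 2 := by
                rw [Finset.mul_sum]
                refine Finset.sum_congr rfl fun w _ => ?_
                have h1 := S2_Dpos w
                have h2 := S2_ddpos l
                rw [S2_D_cons, endc_cons]
                unfold kap
                field_simp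
            _ ≤ kap l ^ 2 * (pv (nx l) * (0.81 / 5) ^ k) :=
                mul_le_mul_of_nonneg_left (ih _) (by positivity)
            _ = (5 * kap l ^ 2 * pv (nx l)) * ((0.81 / 5) ^ k / 5) := by ring
      _ = (∑ l ∈ L Λ c, 5 * kap l ^ 2 * pv (nx l)) * ((0.81 / 5) ^ k / 5) := by
          rw [Finset.sum_mul]
      _ ≤ (0.81 * pv c) * ((0.81 / 5) ^ k / 5) :=
          mul_le_mul_of_nonneg_right h0 (by positivity)
      _ = pv c * (0.81 / 5) ^ (k + 1) := by ring

lemma sum_W_sq (Λ k : ℕ) (c : Bool) :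
    ∑ w ∈ W Λ k c, 1 / (D w : ℝ) ^ 2 ≤ 9 / 4 * (0.81 / 5) ^ k := by
  have h : ∑ w ∈ W Λ k c, 1 / (D w : ℝ) ^ 2 ≤ ∑ w ∈ W Λ k c, pv (endc c w) / (D w : ℝ) ^ 2 := by
    refine Finset.sum_le_sum fun w _ => ?_
    exact div_le_div_of_nonneg_right (pv_ge _) (by positivity)
  refine h.trans ((sum_W_sq_p Λ k c).trans ?_)
  exact mul_le_mul_of_nonneg_right (pv_le c) (by positivity)

/-- (0.9) -/
lemma sum_W_half (Λ k : ℕ) (c : Bool) :
    ∑ w ∈ W Λ k c, 1 / Real.sqrt (D w : ℝ) ≤ 5 ^ k := by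
  induction k generalizing c with
  | zero => rw [sum_W_zero]; simp
  | succ k ih =>
    rw [sum_W_succ]
    have h0 := sum_L_half Λ c
    have hp : (0 : ℝ) ≤ 5 ^ k := by positivity
    calc ∑ l ∈ L Λ c, ∑ w ∈ W Λ k (nx l), 1 / Real.sqrt (D (l :: w) : ℝ)
        ≤ ∑ l ∈ L Λ c, (1 / Real.sqrt (dd l : ℝ)) * 5 ^ k := by
          refine Finset.sum_le_sum fun l _ => ?_
          calc ∑ w ∈ W Λ k (nx l), 1 / Real.sqrt (D (l :: w) : ℝ)
              = (1 / Real.sqrt (dd l : ℝ)) * ∑ w ∈ W Λ k (nx l), 1 / Real.sqrt (D w : ℝ) := by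
                rw [Finset.mul_sum]
                refine Finset.sum_congr rfl fun w _ => ?_
                rw [S2_D_cons, Real.sqrt_mul (S2_ddpos l).le, one_div_mul_one_div]
            _ ≤ (1 / Real.sqrt (dd l : ℝ)) * 5 ^ k :=
                mul_le_mul_of_nonneg_left (ih _) (by positivity)
      _ = (∑ l ∈ L Λ c, 1 / Real.sqrt (dd l : ℝ)) * 5 ^ k := by rw [Finset.sum_mul]
      _ ≤ 5 * 5 ^ k := mul_le_mul_of_nonneg_right h0 hp
      _ = 5 ^ (k + 1) := by ring

private lemma sum_W_F_p (Λ k : ℕ) (c : Bool) :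
    ∑ w ∈ W Λ k c, Fr w / (D w : ℝ) ≤ 2 * pv c := by
  induction k generalizing c with
  | zero =>
    rw [sum_W_zero, Fr_nil, zero_div]
    have := pv_pos c
    positivity
  | succ k ih =>
    rw [sum_W_succ]
    have h0 := sum_L_p Λ c
    have hpc := pv_pos c
    calc ∑ l ∈ L Λ c, ∑ w ∈ W Λ k (nx l), Fr (l :: w) / (D (l :: w) : ℝ)
        ≤ ∑ l ∈ L Λ c, (5 * kap l ^ 2 * pv (nx l)) * (4 / 15 + 2) := by
          refine Finset.sum_le_sum fun l _ => ?_
          have hk := kap_pos l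
          have hpl := pv_ge (nx l)
          calc ∑ w ∈ W Λ k (nx l), Fr (l :: w) / (D (l :: w) : ℝ)
              = kap l ^ 2 * (∑ w ∈ W Λ k (nx l), 1 / (D w : ℝ)
                  + 5 * ∑ w ∈ W Λ k (nx l), Fr w / (D w : ℝ)) := by
                rw [Finset.mul_sum, ← Finset.sum_add_distrib, Finset.mul_sum]
                refine Finset.sum_congr rfl fun w _ => ?_
                have h1 := S2_Dpos w
                have h2 := S2_ddpos l
                rw [S2_D_cons, Fr_cons]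
                unfold kap
                field_simp
            _ ≤ kap l ^ 2 * (4 / 3 * pv (nx l) + 5 * (2 * pv (nx l))) := by
                apply mul_le_mul_of_nonneg_left _ (by positivity)
                have h1 := sum_W_le Λ k (nx l)
                have h2 := ih (nx l)
                linarith
            _ = (5 * kap l ^ 2 * pv (nx l)) * (4 / 15 + 2) := by ring
      _ = (∑ l ∈ L Λ c, 5 * kap l ^ 2 * pv (nx l)) * (4 / 15 + 2) := by rw [Finset.sum_mul]
      _ ≤ (0.81 * pv c) * (4 / 15 + 2) := mul_le_mul_of_nonneg_right h0 (by norm_num)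
      _ ≤ 2 * pv c := by linarith

/-- (0.10). Induction: `e_k(c) ≤ pv c` since `e_{k+1}(c) = Σ κ² (Σ_w 1/D + 5 e_k) ` and
`(4/3) Σ κ² + 0.81 pv c ≤ pv c`. -/
lemma sum_W_F (Λ k : ℕ) (c : Bool) : ∑ w ∈ W Λ k c, Fr w / (D w : ℝ) ≤ 20 := by
  have h1 := sum_W_F_p Λ k c
  have h2 := pv_le c
  linarith

/-- (0.10) Markov. -/
lemma mass_F (Λ k : ℕ) (c : Bool) {K : ℝ} (hK : 0 < K) :
    ∑ w ∈ (W Λ k c).filter (fun w => K < Fr w), 1 / (D w : ℝ) ≤ 20 / K := by
  calc ∑ w ∈ (W Λ k c).filter (fun w => K < Fr w), 1 / (D w : ℝ)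
      ≤ ∑ w ∈ (W Λ k c).filter (fun w => K < Fr w), (Fr w / (D w : ℝ)) / K := by
        refine Finset.sum_le_sum fun w hw => ?_
        have hw' := (Finset.mem_filter.1 hw).2
        have h1 := S2_Dpos w
        rw [div_div, div_le_div_iff₀ h1 (by positivity)]
        nlinarith
    _ ≤ ∑ w ∈ W Λ k c, (Fr w / (D w : ℝ)) / K := by
        refine Finset.sum_le_sum_of_subset_of_nonneg (Finset.filter_subset _ _) fun w _ _ => ?_
        have h1 := S2_Dpos w
        have h2 := Fr_nonneg w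
        positivity
    _ = (∑ w ∈ W Λ k c, Fr w / (D w : ℝ)) / K := by rw [Finset.sum_div]
    _ ≤ 20 / K := div_le_div_of_nonneg_right (sum_W_F Λ k c) hK.le

/-- (0.11) -/
lemma mass_small (Λ k l : ℕ) (hl : l ≤ k) (c : Bool) {Y : ℝ} (hY : 0 ≤ Y) :
    ∑ w ∈ (W Λ k c).filter (fun w => (D (w.take l) : ℝ) ≤ Y), 1 / (D w : ℝ)
      ≤ 3 * Y * (0.81 / 5) ^ l := by
  obtain ⟨r, rfl⟩ := Nat.exists_eq_add_of_le hl
  rw [Finset.sum_filter, sum_W_add]
  calc ∑ w₁ ∈ W Λ l c, ∑ w₂ ∈ W Λ r (endc c w₁),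
        (if (D ((w₁ ++ w₂).take l) : ℝ) ≤ Y then 1 / (D (w₁ ++ w₂) : ℝ) else 0)
      ≤ ∑ w₁ ∈ W Λ l c, (4 / 3 * Y) * (1 / (D w₁ : ℝ) ^ 2) := by
        refine Finset.sum_le_sum fun w₁ hw₁ => ?_
        have hlen := length_of_mem_W hw₁
        have h1 := S2_Dpos w₁
        have ht : ∀ w₂ : List Let, (w₁ ++ w₂).take l = w₁ := by
          intro w₂
          rw [← hlen, List.take_left']
          rfl
        by_cases hD : (D w₁ : ℝ) ≤ Y
        · calc ∑ w₂ ∈ W Λ r (endc c w₁),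
                (if (D ((w₁ ++ w₂).take l) : ℝ) ≤ Y then 1 / (D (w₁ ++ w₂) : ℝ) else 0)
              = (1 / (D w₁ : ℝ)) * ∑ w₂ ∈ W Λ r (endc c w₁), 1 / (D w₂ : ℝ) := by
                rw [Finset.mul_sum]
                refine Finset.sum_congr rfl fun w₂ _ => ?_
                rw [ht, if_pos hD, D_append]
                push_cast
                rw [one_div_mul_one_div]
            _ ≤ (1 / (D w₁ : ℝ)) * (4 / 3) :=
                mul_le_mul_of_nonneg_left (sum_W_le Λ r _) (by positivity)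
            _ ≤ (4 / 3 * Y) * (1 / (D w₁ : ℝ) ^ 2) := by
                have e : (4 / 3 * Y) * (1 / (D w₁ : ℝ) ^ 2) = (1 / (D w₁ : ℝ)) * (4 / 3) *
                    (Y / D w₁) := by
                  field_simp
                rw [e]
                have h2 : 1 ≤ Y / (D w₁ : ℝ) := by rwa [one_le_div h1]
                have h3 : 0 ≤ (1 / (D w₁ : ℝ)) * (4 / 3) := by positivity
                nlinarith
        · have h0 : ∑ w₂ ∈ W Λ r (endc c w₁),
                (if (D ((w₁ ++ w₂).take l) : ℝ) ≤ Y then 1 / (D (w₁ ++ w₂) : ℝ) else 0) = 0 := by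
            refine Finset.sum_eq_zero fun w₂ _ => ?_
            rw [ht, if_neg hD]
          rw [h0]
          positivity
    _ = (4 / 3 * Y) * ∑ w₁ ∈ W Λ l c, 1 / (D w₁ : ℝ) ^ 2 := by rw [Finset.mul_sum]
    _ ≤ (4 / 3 * Y) * (9 / 4 * (0.81 / 5) ^ l) :=
        mul_le_mul_of_nonneg_left (sum_W_sq Λ l c) (by positivity)
    _ = 3 * Y * (0.81 / 5) ^ l := by ring

lemma mass_large (Λ k : ℕ) (c : Bool) {E : ℝ} (hE : 0 < E) :
    ∑ w ∈ (W Λ k c).filter (fun w => E < (D w : ℝ)), 1 / (D w : ℝ) ≤ 5 ^ k / Real.sqrt E := by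
  have hsE : 0 < Real.sqrt E := Real.sqrt_pos.2 hE
  calc ∑ w ∈ (W Λ k c).filter (fun w => E < (D w : ℝ)), 1 / (D w : ℝ)
      ≤ ∑ w ∈ (W Λ k c).filter (fun w => E < (D w : ℝ)),
          (1 / Real.sqrt (D w : ℝ)) / Real.sqrt E := by
        refine Finset.sum_le_sum fun w hw => ?_
        have hw' := (Finset.mem_filter.1 hw).2
        have h1 := S2_Dpos w
        have h2 : 0 < Real.sqrt (D w : ℝ) := Real.sqrt_pos.2 h1
        rw [div_div]
        apply one_div_le_one_div_of_le (by positivity)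
        calc Real.sqrt (D w : ℝ) * Real.sqrt E ≤ Real.sqrt (D w : ℝ) * Real.sqrt (D w : ℝ) :=
              mul_le_mul_of_nonneg_left (Real.sqrt_le_sqrt hw'.le) h2.le
          _ = D w := Real.mul_self_sqrt h1.le
    _ ≤ ∑ w ∈ W Λ k c, (1 / Real.sqrt (D w : ℝ)) / Real.sqrt E := by
        refine Finset.sum_le_sum_of_subset_of_nonneg (Finset.filter_subset _ _) fun w _ _ => ?_
        positivity
    _ = (∑ w ∈ W Λ k c, 1 / Real.sqrt (D w : ℝ)) / Real.sqrt E := by rw [Finset.sum_div]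
    _ ≤ 5 ^ k / Real.sqrt E := div_le_div_of_nonneg_right (sum_W_half Λ k c) hsE.le

/-- number of words with bounded divisor -/
lemma card_W_le (Λ k : ℕ) (c : Bool) {E : ℝ} (hE : 0 ≤ E) :
    (((W Λ k c).filter (fun w => (D w : ℝ) ≤ E)).card : ℝ) ≤ 4 / 3 * E := by
  calc (((W Λ k c).filter (fun w => (D w : ℝ) ≤ E)).card : ℝ)
      = ∑ w ∈ (W Λ k c).filter (fun w => (D w : ℝ) ≤ E), (1 : ℝ) := by simp
    _ ≤ ∑ w ∈ (W Λ k c).filter (fun w => (D w : ℝ) ≤ E), E * (1 / (D w : ℝ)) := by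
        refine Finset.sum_le_sum fun w hw => ?_
        have hw' := (Finset.mem_filter.1 hw).2
        have h1 := S2_Dpos w
        rw [mul_one_div, one_le_div h1]
        exact hw'
    _ ≤ ∑ w ∈ W Λ k c, E * (1 / (D w : ℝ)) := by
        refine Finset.sum_le_sum_of_subset_of_nonneg (Finset.filter_subset _ _) fun w _ _ => ?_
        positivity
    _ = E * ∑ w ∈ W Λ k c, 1 / (D w : ℝ) := by rw [Finset.mul_sum]
    _ ≤ E * (4 / 3) := mul_le_mul_of_nonneg_left (sum_W_le Λ k c) hE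
    _ = 4 / 3 * E := by ring

end K5
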