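import Pool.Agent.Lib.MP_a4658c_nt.K5.FDefs

/-! Piece F1: characters, orders, `QB` (paper (2.0)). -/

namespace K5

lemma chi_norm (k : ℕ) (x : ZMod (5 ^ k)) : ‖chi k x‖ = 1 := by
  unfold chi
  rw [ZMod.stdAddChar_apply, Circle.norm_coe]

lemma chi_add (k : ℕ) (x y : ZMod (5 ^ k)) : chi k (x + y) = chi k x * chi k y := by
  unfold chi
  exact AddChar.map_add_eq_mul _ _ _

lemma chi_zero (k : ℕ) : chi k 0 = 1 := by
  unfold chi
  exact AddChar.map_zero_eq_one _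

/-- `χ(N) = exp(2πi N / 5^k)` for integers `N`. -/
lemma chi_int (k : ℕ) (N : ℤ) :
    chi k (N : ZMod (5 ^ k)) = Complex.exp (2 * Real.pi * Complex.I * N / (5 ^ k : ℝ)) := by
  unfold chi
  rw [ZMod.stdAddChar_coe]
  push_cast
  rfl

private lemma F1_cop (k : ℕ) (l : Let) : Nat.Coprime (dd l) (5 ^ k) := by
  unfold dd
  apply Nat.Coprime.pow_right
  apply Nat.Coprime.mul_left
  · exact Nat.Coprime.pow_left _ (by norm_num)
  · exact Nat.Coprime.pow_left _ (by norm_num)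

private lemma F1_copD (k : ℕ) (w : List Let) : Nat.Coprime (D w) (5 ^ k) := by
  rw [D_eq]
  apply Nat.Coprime.pow_right
  apply Nat.Coprime.mul_left
  · exact Nat.Coprime.pow_left _ (by norm_num)
  · exact Nat.Coprime.pow_left _ (by norm_num)

/-- `d(l)` is a unit with inverse `uu`. -/
lemma uu_mul (k : ℕ) (l : Let) : uu k l * ((dd l : ℕ) : ZMod (5 ^ k)) = 1 := by
  unfold uu
  rw [mul_comm]
  exact ZMod.coe_mul_inv_eq_one _ (F1_cop k l)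

lemma two_mul_inv (k : ℕ) : (2 : ZMod (5 ^ k)) * (2 : ZMod (5 ^ k))⁻¹ = 1 := by
  have h := ZMod.coe_mul_inv_eq_one (n := 5 ^ k) 2 (Nat.Coprime.pow_right _ (by norm_num))
  exact_mod_cast h

lemma three_mul_inv (k : ℕ) : (3 : ZMod (5 ^ k)) * (3 : ZMod (5 ^ k))⁻¹ = 1 := by
  have h := ZMod.coe_mul_inv_eq_one (n := 5 ^ k) 3 (Nat.Coprime.pow_right _ (by norm_num))
  exact_mod_cast h

lemma uu_eq (k : ℕ) (l : Let) :
    uu k l = ((2 : ZMod (5 ^ k))⁻¹) ^ l.1 * ((3 : ZMod (5 ^ k))⁻¹) ^ l.2 := by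
  unfold uu
  apply ZMod.inv_eq_of_mul_eq_one
  unfold dd
  push_cast
  have h2 : (2 : ZMod (5 ^ k)) ^ l.1 * ((2 : ZMod (5 ^ k))⁻¹) ^ l.1 = 1 := by
    rw [← mul_pow, two_mul_inv, one_pow]
  have h3 : (3 : ZMod (5 ^ k)) ^ l.2 * ((3 : ZMod (5 ^ k))⁻¹) ^ l.2 = 1 := by
    rw [← mul_pow, three_mul_inv, one_pow]
  calc (2 : ZMod (5 ^ k)) ^ l.1 * 3 ^ l.2 *
        (((2 : ZMod (5 ^ k))⁻¹) ^ l.1 * ((3 : ZMod (5 ^ k))⁻¹) ^ l.2)
      = ((2 : ZMod (5 ^ k)) ^ l.1 * ((2 : ZMod (5 ^ k))⁻¹) ^ l.1) *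
        ((3 : ZMod (5 ^ k)) ^ l.2 * ((3 : ZMod (5 ^ k))⁻¹) ^ l.2) := by ring
    _ = 1 := by rw [h2, h3, one_mul]

lemma D_mul_inv (k : ℕ) (w : List Let) :
    ((D w : ℕ) : ZMod (5 ^ k)) * ((D w : ℕ) : ZMod (5 ^ k))⁻¹ = 1 := by
  exact ZMod.coe_mul_inv_eq_one _ (F1_copD k w)

lemma Ord_step {k R : ℕ} {y : ZMod (5 ^ k)} (l : Let) (h : Ord k (R + 1) y) :
    Ord k R (5 * uu k l * y) := by
  obtain ⟨h1, h2⟩ := h
  have h2' : (5 : ZMod (5 ^ k)) ^ R * y ≠ 0 := by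
    rcases h2 with h2 | h2
    · omega
    · simpa using h2
  refine ⟨?_, ?_⟩
  · calc (5 : ZMod (5 ^ k)) ^ R * (5 * uu k l * y) = uu k l * (5 ^ (R + 1) * y) := by ring
      _ = 0 := by rw [h1, mul_zero]
  · rcases Nat.eq_zero_or_pos R with hR | hR
    · exact Or.inl hR
    · refine Or.inr fun h0 => h2' ?_
      obtain ⟨r, rfl⟩ : ∃ r, R = r + 1 := ⟨R - 1, by omega⟩
      rw [Nat.add_sub_cancel] at h0
      calc (5 : ZMod (5 ^ k)) ^ (r + 1) * y = 1 * (5 ^ (r + 1) * y) := by rw [one_mul]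
        _ = (uu k l * ((dd l : ℕ) : ZMod (5 ^ k))) * (5 ^ (r + 1) * y) := by rw [uu_mul]
        _ = ((dd l : ℕ) : ZMod (5 ^ k)) * (5 ^ r * (5 * uu k l * y)) := by ring
        _ = 0 := by rw [h0, mul_zero]

lemma Ord_ne {k R : ℕ} {y : ZMod (5 ^ k)} (h : Ord k (R + 1) y) : y ≠ 0 := by
  rintro rfl
  rcases h.2 with h2 | h2
  · omega
  · exact h2 (mul_zero _)

/-- Multiplying by a unit keeps the order. -/
lemma Ord_unit {k R : ℕ} {y u : ZMod (5 ^ k)} (hu : IsUnit u) (h : Ord k R y) :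
    Ord k R (u * y) := by
  obtain ⟨h1, h2⟩ := h
  refine ⟨?_, ?_⟩
  · rw [mul_left_comm, h1, mul_zero]
  · rcases h2 with h2 | h2
    · exact Or.inl h2
    · refine Or.inr fun h0 => h2 ?_
      rw [mul_left_comm] at h0
      exact (hu.mul_right_eq_zero).1 h0

/-- Every `y` has some order `5^R`, `R ≤ k`. -/
lemma Ord_exists (k : ℕ) (y : ZMod (5 ^ k)) : ∃ R ≤ k, Ord k R y := by
  classical
  have hk : (5 : ZMod (5 ^ k)) ^ k = 0 := by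
    have h := ZMod.natCast_self (5 ^ k)
    push_cast at h
    exact h
  have hex : ∃ R, (5 : ZMod (5 ^ k)) ^ R * y = 0 := ⟨k, by rw [hk, zero_mul]⟩
  refine ⟨Nat.find hex, Nat.find_min' hex (by rw [hk, zero_mul]), Nat.find_spec hex, ?_⟩
  rcases Nat.eq_zero_or_pos (Nat.find hex) with h0 | h0
  · exact Or.inl h0
  · exact Or.inr (Nat.find_min hex (by omega))

/-- If `y` has order `5^R` and `5^j y ≠ 0`, then `j < R`; if `5^j y = 0` then `R ≤ j`. -/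
lemma Ord_lt {k R j : ℕ} {y : ZMod (5 ^ k)} (h : Ord k R y) :
    ((5 : ZMod (5 ^ k)) ^ j * y ≠ 0 → j < R) ∧ ((5 : ZMod (5 ^ k)) ^ j * y = 0 → R ≤ j) := by
  obtain ⟨h1, h2⟩ := h
  have key : ∀ a b : ℕ, a ≤ b → (5 : ZMod (5 ^ k)) ^ a * y = 0 → (5 : ZMod (5 ^ k)) ^ b * y = 0 := by
    intro a b hab h0
    obtain ⟨e, rfl⟩ := Nat.exists_eq_add_of_le hab
    rw [pow_add, mul_comm ((5 : ZMod (5 ^ k)) ^ a), mul_assoc, h0, mul_zero]
  refine ⟨fun hj => ?_, fun hj => ?_⟩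
  · by_contra hlt
    exact hj (key R j (by omega) h1)
  · by_contra hlt
    rcases h2 with h2 | h2
    · omega
    · exact h2 (key j (R - 1) (by omega) hj)

lemma QB_zero {Λ k : ℕ} {ψ : Bool → ℕ → ℕ → ℂ} (hψ : ∀ c A B, ‖ψ c A B‖ ≤ v c) :
    QB Λ k ψ 0 1 := by
  intro c y A B _
  rw [Gam_zero, mul_one]
  exact hψ c A B

private lemma F1_step (Λ k : ℕ) (ψ : Bool → ℕ → ℕ → ℂ) (R : ℕ) (q : ℝ) (hq : 0 ≤ q) (c : Bool)
    (y : ZMod (5 ^ k)) (A B : ℕ) (h : ∀ l ∈ L Λ c,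
      ‖Gam Λ k ψ R (nx l) (5 * uu k l * y) (A + l.1) (B + l.2)‖ ≤ v (nx l) * q) :
    ‖Gam Λ k ψ (R + 1) c y A B‖ ≤ v c * q := by
  rw [Gam_succ]
  calc ‖∑ l ∈ L Λ c, (kap l : ℂ) * chi k (12 * uu k l * y) *
        Gam Λ k ψ R (nx l) (5 * uu k l * y) (A + l.1) (B + l.2)‖
      ≤ ∑ l ∈ L Λ c, ‖(kap l : ℂ) * chi k (12 * uu k l * y) *
        Gam Λ k ψ R (nx l) (5 * uu k l * y) (A + l.1) (B + l.2)‖ := norm_sum_le _ _
    _ ≤ ∑ l ∈ L Λ c, kap l * v (nx l) * q := by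
        apply Finset.sum_le_sum
        intro l hl
        rw [norm_mul, norm_mul, chi_norm, mul_one, Complex.norm_real, Real.norm_eq_abs,
          abs_of_pos (kap_pos l)]
        exact (mul_le_mul_of_nonneg_left (h l hl) (kap_pos l).le).trans
          (le_of_eq (mul_assoc _ _ _).symm)
    _ = (∑ l ∈ L Λ c, kap l * v (nx l)) * q := by rw [Finset.sum_mul]
    _ ≤ v c * q := mul_le_mul_of_nonneg_right (sum_L_v Λ c) hq

lemma QB_succ {Λ k : ℕ} {ψ : Bool → ℕ → ℕ → ℂ} {R : ℕ} {q : ℝ} (hq : 0 ≤ q)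
    (h : QB Λ k ψ R q) : QB Λ k ψ (R + 1) q := by
  intro c y A B hy
  exact F1_step Λ k ψ R q hq c y A B fun l _ => h _ _ _ _ (Ord_step l hy)

lemma QB_mono {Λ k : ℕ} {ψ : Bool → ℕ → ℕ → ℂ} {R R' : ℕ} {q q' : ℝ} (hq : 0 ≤ q)
    (hR : R ≤ R') (hqq : q ≤ q') (h : QB Λ k ψ R q) : QB Λ k ψ R' q' := by
  have h1 : ∀ n, QB Λ k ψ (R + n) q := by
    intro n
    induction n with
    | zero => exact h
    | succ n ih => exact QB_succ hq ih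
  obtain ⟨n, rfl⟩ := Nat.exists_eq_add_of_le hR
  intro c y A B hy
  exact (h1 n c y A B hy).trans (mul_le_mul_of_nonneg_left hqq (v_pos c).le)

/-- (2.11): if `5^R y = 0` the last `n` steps carry no phase. -/
lemma Gam_reduce {Λ k : ℕ} {ψ : Bool → ℕ → ℕ → ℂ} (R n : ℕ) (c : Bool) (y : ZMod (5 ^ k))
    (A B : ℕ) (hy : (5 : ZMod (5 ^ k)) ^ R * y = 0) :
    Gam Λ k ψ (R + n) c y A B
      = Gam Λ k (fun c A B => Gam Λ k ψ n c 0 A B) R c y A B := by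
  induction R generalizing c y A B with
  | zero =>
    rw [pow_zero, one_mul] at hy
    rw [hy, Nat.zero_add, Gam_zero]
  | succ R ih =>
    rw [show R + 1 + n = (R + n) + 1 by ring, Gam_succ, Gam_succ]
    refine Finset.sum_congr rfl fun l _ => ?_
    rw [ih]
    calc (5 : ZMod (5 ^ k)) ^ R * (5 * uu k l * y) = uu k l * (5 ^ (R + 1) * y) := by ring
      _ = 0 := by rw [hy, mul_zero]

/-- `|Γ_n| ≤ v` for every frequency. -/
lemma Gam_norm_le {Λ k : ℕ} {ψ : Bool → ℕ → ℕ → ℂ} (hψ : ∀ c A B, ‖ψ c A B‖ ≤ v c)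
    (n : ℕ) (c : Bool) (y : ZMod (5 ^ k)) (A B : ℕ) : ‖Gam Λ k ψ n c y A B‖ ≤ v c := by
  induction n generalizing c y A B with
  | zero =>
    rw [Gam_zero]
    exact hψ c A B
  | succ n ih =>
    have h := F1_step Λ k ψ n 1 zero_le_one c y A B fun l _ => by
      rw [mul_one]
      exact ih _ _ _ _
    rwa [mul_one] at h

private lemma F1_inv_mul (k : ℕ) (a b a' b' : ZMod (5 ^ k)) (ha : a * a' = 1) (hb : b * b' = 1) :
    (a * b)⁻¹ = a' * b' := by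
  apply ZMod.inv_eq_of_mul_eq_one
  calc a * b * (a' * b') = (a * a') * (b * b') := by ring
    _ = 1 := by rw [ha, hb, one_mul]

lemma Fm_cons (k : ℕ) (l : Let) (w : List Let) :
    Fm k (l :: w) = uu k l * (1 + 5 * Fm k w) := by
  unfold Fm
  rw [cnum_cons, D_cons]
  have h1 := D_mul_inv k w
  have h2 := uu_mul k l
  push_cast
  rw [F1_inv_mul k _ _ (uu k l) (((D w : ℕ) : ZMod (5 ^ k))⁻¹) (by rw [mul_comm]; exact h2) h1]
  calc (((D w : ℕ) : ZMod (5 ^ k)) + 5 * (cnum w : ZMod (5 ^ k))) *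
        (uu k l * ((D w : ℕ) : ZMod (5 ^ k))⁻¹)
      = uu k l * (((D w : ℕ) : ZMod (5 ^ k)) * ((D w : ℕ) : ZMod (5 ^ k))⁻¹ +
        5 * ((cnum w : ZMod (5 ^ k)) * ((D w : ℕ) : ZMod (5 ^ k))⁻¹)) := by ring
    _ = uu k l * (1 + 5 * ((cnum w : ZMod (5 ^ k)) * ((D w : ℕ) : ZMod (5 ^ k))⁻¹)) := by
        rw [h1]

lemma Fm_append (k : ℕ) (w₁ w₂ : List Let) :
    Fm k (w₁ ++ w₂) = Fm k w₁
      + 5 ^ w₁.length * ((D w₁ : ℕ) : ZMod (5 ^ k))⁻¹ * Fm k w₂ := by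
  unfold Fm
  rw [cnum_append, D_append]
  have h1 := D_mul_inv k w₁
  have h2 := D_mul_inv k w₂
  push_cast
  rw [F1_inv_mul k _ _ (((D w₁ : ℕ) : ZMod (5 ^ k))⁻¹) (((D w₂ : ℕ) : ZMod (5 ^ k))⁻¹) h1 h2]
  calc (((D w₂ : ℕ) : ZMod (5 ^ k)) * (cnum w₁ : ZMod (5 ^ k)) +
          5 ^ w₁.length * (cnum w₂ : ZMod (5 ^ k))) *
        (((D w₁ : ℕ) : ZMod (5 ^ k))⁻¹ * ((D w₂ : ℕ) : ZMod (5 ^ k))⁻¹)
      = (((D w₂ : ℕ) : ZMod (5 ^ k)) * ((D w₂ : ℕ) : ZMod (5 ^ k))⁻¹) *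
          ((cnum w₁ : ZMod (5 ^ k)) * ((D w₁ : ℕ) : ZMod (5 ^ k))⁻¹) +
        5 ^ w₁.length * ((D w₁ : ℕ) : ZMod (5 ^ k))⁻¹ *
          ((cnum w₂ : ZMod (5 ^ k)) * ((D w₂ : ℕ) : ZMod (5 ^ k))⁻¹) := by ring
    _ = _ := by rw [h2, one_mul]

/-- `Γ` as a sum over words. -/
lemma Gam_eq_sum (Λ k : ℕ) (ψ : Bool → ℕ → ℕ → ℂ) (R : ℕ) (c : Bool) (y : ZMod (5 ^ k))
    (A B : ℕ) :
    Gam Λ k ψ R c y A B = ∑ w ∈ W Λ R c, (1 / (D w : ℂ)) * chi k (12 * y * Fm k w) *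
      ψ (endc c w) (A + sA w) (B + sB w) := by
  induction R generalizing c y A B with
  | zero =>
    rw [Gam_zero, sum_W_zero]
    have h0 : Fm k [] = 0 := by simp [Fm]
    rw [h0, mul_zero, chi_zero]
    simp
  | succ R ih =>
    rw [Gam_succ, sum_W_succ]
    refine Finset.sum_congr rfl fun l _ => ?_
    rw [ih, Finset.mul_sum]
    refine Finset.sum_congr rfl fun w _ => ?_
    have e1 : chi k (12 * y * Fm k (l :: w)) =
        chi k (12 * uu k l * y) * chi k (12 * (5 * uu k l * y) * Fm k w) := by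
      rw [← chi_add, Fm_cons]
      congr 1
      ring
    have e2 : ((kap l : ℝ) : ℂ) = 1 / (dd l : ℂ) := by
      unfold kap
      push_cast
      rfl
    rw [e1, e2, D_cons, endc_cons, sA_cons, sB_cons, Nat.add_assoc, Nat.add_assoc, Nat.cast_mul,
      ← one_div_mul_one_div]
    ring

end K5
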