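import Pool.Agent.Lib.MP_a4658c_nt.K5.R2
import Pool.Agent.Lib.MP_a4658c_nt.K5.S2

/-! Piece R4: from the coarse density to `n₁ = S^r n` (paper (4)(v)). -/

namespace K5

/-- `5^r (Fm w - m) = 0` in `ZMod (5^k)` iff `D(w₁) m ≡ cnum(w₁) mod 5^(k-r)`, `w₁ = take (k-r) w`. -/
lemma coarse_iff {k r : ℕ} (hr : r ≤ k) {w : List Let} (hw : w.length = k) (m : ℕ) :
    (5 : ZMod (5 ^ k)) ^ r * (Fm k w - (m : ZMod (5 ^ k))) = 0 ↔
      (5 : ℤ) ^ (k - r) ∣ (D (w.take (k - r)) : ℤ) * m - cnum (w.take (k - r)) := by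
  have hlen : (w.take (k - r)).length = k - r := by simp [hw]
  have h5k : (5 : ZMod (5 ^ k)) ^ k = 0 := by
    have h := ZMod.natCast_self (5 ^ k)
    push_cast at h
    exact h
  have h1 : (5 : ZMod (5 ^ k)) ^ r * Fm k w = 5 ^ r * Fm k (w.take (k - r)) := by
    conv_lhs => rw [← List.take_append_drop (k - r) w, Fm_append, hlen]
    have h2 : (5 : ZMod (5 ^ k)) ^ r * 5 ^ (k - r) = 0 := by
      rw [← pow_add, Nat.add_sub_cancel' hr, h5k]
    calc (5 : ZMod (5 ^ k)) ^ r * (Fm k (w.take (k - r)) + 5 ^ (k - r) *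
          ((D (w.take (k - r)) : ℕ) : ZMod (5 ^ k))⁻¹ * Fm k (w.drop (k - r)))
        = 5 ^ r * Fm k (w.take (k - r)) + (5 ^ r * 5 ^ (k - r)) *
          (((D (w.take (k - r)) : ℕ) : ZMod (5 ^ k))⁻¹ * Fm k (w.drop (k - r))) := by ring
      _ = _ := by rw [h2]; ring
  set w₁ := w.take (k - r) with hw₁
  have hu : IsUnit ((D w₁ : ℕ) : ZMod (5 ^ k)) := IsUnit.of_mul_eq_one _ (D_mul_inv k w₁)
  have h2 : ((D w₁ : ℕ) : ZMod (5 ^ k)) * ((5 : ZMod (5 ^ k)) ^ r * (Fm k w - (m : ZMod (5 ^ k))))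
      = (((5 : ℤ) ^ r * ((cnum w₁ : ℤ) - (D w₁ : ℤ) * m) : ℤ) : ZMod (5 ^ k)) := by
    rw [mul_sub, h1]
    push_cast
    have h3 := D_mul_inv k w₁
    unfold Fm
    calc ((D w₁ : ℕ) : ZMod (5 ^ k)) * (5 ^ r * ((cnum w₁ : ZMod (5 ^ k)) *
          ((D w₁ : ℕ) : ZMod (5 ^ k))⁻¹) - 5 ^ r * (m : ZMod (5 ^ k)))
        = 5 ^ r * ((cnum w₁ : ZMod (5 ^ k)) * (((D w₁ : ℕ) : ZMod (5 ^ k)) *
          ((D w₁ : ℕ) : ZMod (5 ^ k))⁻¹) - ((D w₁ : ℕ) : ZMod (5 ^ k)) * m) := by ring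
      _ = _ := by rw [h3, mul_one]
  have h3 : (5 : ZMod (5 ^ k)) ^ r * (Fm k w - (m : ZMod (5 ^ k))) = 0 ↔
      ((D w₁ : ℕ) : ZMod (5 ^ k)) * ((5 : ZMod (5 ^ k)) ^ r * (Fm k w - (m : ZMod (5 ^ k)))) = 0 :=
    (hu.mul_right_eq_zero).symm
  rw [h3, h2, ZMod.intCast_zmod_eq_zero_iff_dvd]
  have h4 : (((5 ^ k : ℕ) : ℤ)) = 5 ^ r * 5 ^ (k - r) := by
    push_cast
    rw [← pow_add, Nat.add_sub_cancel' hr]
  rw [h4, mul_dvd_mul_iff_left (pow_ne_zero r (by norm_num)), ← dvd_neg, neg_sub]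

private lemma R4_cnum_ge (u : List Let) (hu : u ≠ []) : 5 ^ u.length ≤ 5 * cnum u := by
  induction u with
  | nil => exact absurd rfl hu
  | cons l u ih =>
    simp only [List.length_cons, cnum_cons]
    by_cases h : u = []
    · subst h
      simp
    · have := ih h
      have hD := D_pos u
      rw [pow_succ]
      nlinarith

/-- Going up `j` steps from `m ∈ G`, `m` large: the start is in `G`. -/
lemma up_G {Λ j m n : ℕ} {X K : ℝ} {w : List Let} (hK : 1 ≤ K) (hm : G X m)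
    (hw : w ∈ W Λ j (cl m)) (hF : Fr w ≤ K) (hX : X < ((m : ℝ) - K) / (5 * K))
    (h : 5 ^ j * n + cnum w = D w * m) : G X n ∧ cl n = endc (cl m) w := by
  obtain ⟨hU, hcl, hS, hfw⟩ := conv hm.1 hw h
  refine ⟨G_of_iter hU (by rw [hS]; exact hm) ?_, hcl⟩
  intro i hi
  have hK0 : 0 < K := by linarith
  set u := fword (j - i) (S^[i] n) with hu
  have hsplit : w = u ++ fword i n := by
    rw [hu, ← fword_add, Nat.sub_add_cancel hi.le, hfw]
  have hulen : u.length = j - i := length_fword _ _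
  have hune : u ≠ [] := by
    intro h0
    rw [h0] at hulen
    simp at hulen
    omega
  have hDu : (0 : ℝ) < D u := by exact_mod_cast D_pos u
  have hFu : Fr u ≤ K := by
    have h1 : Fr w = Fr u + 5 ^ u.length / D u * Fr (fword i n) := by rw [hsplit, Fr_append]
    have h2 : 0 ≤ 5 ^ u.length / (D u : ℝ) * Fr (fword i n) :=
      mul_nonneg (by positivity) (Fr_nonneg _)
    linarith
  have heq : 5 ^ (j - i) * S^[i] n + cnum u = D u * m := by
    have h1 := fword_eq (U_iter hU i) (j - i)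
    rw [← hu] at h1
    have h2 : S^[j - i] (S^[i] n) = m := by
      rw [← Function.iterate_add_apply, Nat.sub_add_cancel hi.le, hS]
    rw [h2] at h1
    exact h1
  have hcn : (5 : ℝ) ^ (j - i) ≤ 5 * cnum u := by
    have := R4_cnum_ge u hune
    rw [hulen] at this
    exact_mod_cast this
  have hcK : (cnum u : ℝ) ≤ K * D u := by
    have := hFu
    unfold Fr at this
    rwa [div_le_iff₀ hDu] at this
  have heqR : (5 : ℝ) ^ (j - i) * (S^[i] n : ℝ) + cnum u = D u * m := by exact_mod_cast heq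
  have h5 : (0 : ℝ) < 5 ^ (j - i) := by positivity
  have hn0 : (0 : ℝ) ≤ (S^[i] n : ℝ) := Nat.cast_nonneg _
  rcases le_or_gt K (m : ℝ) with hmK | hmK
  · refine hX.trans_le ?_
    rw [div_le_iff₀ (by positivity)]
    -- 5^(j-i) s = D u m - cnum u ≥ D u (m - K), 5^(j-i) ≤ 5 K D u
    have h6 : (5 : ℝ) ^ (j - i) ≤ 5 * K * D u := by nlinarith
    have h7 : (D u : ℝ) * (m - K) ≤ 5 ^ (j - i) * (S^[i] n : ℝ) := by nlinarith
    have h8 : (5 : ℝ) ^ (j - i) * (S^[i] n : ℝ) ≤ 5 * K * D u * (S^[i] n : ℝ) :=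
      mul_le_mul_of_nonneg_right h6 hn0
    have h9 : (D u : ℝ) * (m - K) ≤ D u * ((S^[i] n : ℝ) * (5 * K)) := by
      calc (D u : ℝ) * (m - K) ≤ 5 * K * D u * (S^[i] n : ℝ) := h7.trans h8
        _ = _ := by ring
    exact le_of_mul_le_mul_left h9 hDu
  · refine hX.trans_le ((div_nonpos_of_nonpos_of_nonneg (by linarith) (by positivity)).trans hn0)


private lemma R4_inj_sum {ι κ : Type*} (A : Finset ι) (B : Finset κ) (f : ι → ℝ) (g : κ → ℝ)
    (φ : ι → κ) (hmap : ∀ a ∈ A, φ a ∈ B) (hinj : Set.InjOn φ A) (hfg : ∀ a ∈ A, f a ≤ g (φ a))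
    (hg : ∀ b ∈ B, 0 ≤ g b) : ∑ a ∈ A, f a ≤ ∑ b ∈ B, g b := by
  classical
  calc ∑ a ∈ A, f a ≤ ∑ a ∈ A, g (φ a) := Finset.sum_le_sum hfg
    _ = ∑ b ∈ A.image φ, g b := by rw [Finset.sum_image hinj]
    _ ≤ ∑ b ∈ B, g b := by
        refine Finset.sum_le_sum_of_subset_of_nonneg ?_ (fun b hb _ => hg b hb)
        intro b hb
        obtain ⟨a, ha, rfl⟩ := Finset.mem_image.1 hb
        exact hmap a ha

/-- One term of the main sum. -/
private lemma R4_term {Λ j r : ℕ} {m : ℕ} {w₁ w₂ : List Let} {X x K z₁ : ℝ}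
    (hx : 0 < x) (hK : 1 ≤ K) (hKz : K < z₁) (hX : X < (z₁ - K) / (5 * K)) (hm : G X m)
    (hmz : z₁ ≤ (m : ℝ)) (hw₁ : w₁ ∈ W Λ j (cl m)) (hF : Fr w₁ ≤ K)
    (hdvd : (5 : ℤ) ^ j ∣ (D w₁ : ℤ) * m - cnum w₁) :
    ∃ n : ℕ, 1 ≤ n ∧ 5 ^ j * n + cnum w₁ = D w₁ * m ∧ G X n ∧ cl n = endc (cl m) w₁ ∧
      (n : ℝ) ≤ m * D w₁ / 5 ^ j ∧
      1 / (m : ℝ) * (5 ^ j / ((D w₁ : ℝ) * D w₂) * kr ((m : ℝ) * (D w₁ * D w₂) / 5 ^ (j + r)) x) ≤
        1 / (1 - K / z₁) * (1 / (D w₂ : ℝ) * ker (x * 5 ^ r / D w₂) n) := by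
  have hK0 : 0 < K := by linarith
  have hm0 : (0 : ℝ) < m := by linarith
  have hD1 : (0 : ℝ) < D w₁ := by exact_mod_cast D_pos w₁
  have hD2 : (0 : ℝ) < D w₂ := by exact_mod_cast D_pos w₂
  have h5 : (0 : ℝ) < 5 ^ j := by positivity
  have hcK : (cnum w₁ : ℝ) ≤ K * D w₁ := by
    have := hF
    unfold Fr at this
    rwa [div_le_iff₀ hD1] at this
  have hlt : (cnum w₁ : ℝ) < D w₁ * m := by nlinarith
  have hltN : cnum w₁ < D w₁ * m := by exact_mod_cast hlt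
  obtain ⟨q, hq⟩ := hdvd
  have h5z : (0 : ℤ) < 5 ^ j := by positivity
  have hq0 : 0 < q := by
    have h1 : (0 : ℤ) < (D w₁ : ℤ) * m - cnum w₁ := by
      have : (cnum w₁ : ℤ) < (D w₁ : ℤ) * m := by exact_mod_cast hltN
      linarith
    rw [hq] at h1
    exact pos_of_mul_pos_right h1 h5z.le
  obtain ⟨n, rfl⟩ := Int.eq_ofNat_of_zero_le hq0.le
  have hn1 : 1 ≤ n := by exact_mod_cast hq0
  have heq : 5 ^ j * n + cnum w₁ = D w₁ * m := by
    have : ((5 ^ j * n + cnum w₁ : ℕ) : ℤ) = ((D w₁ * m : ℕ) : ℤ) := by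
      push_cast
      linarith
    exact_mod_cast this
  have hXm : X < ((m : ℝ) - K) / (5 * K) := by
    refine hX.trans_le ?_
    exact div_le_div_of_nonneg_right (by linarith) (by positivity)
  obtain ⟨hG, hcl⟩ := up_G hK hm hw₁ hF hXm heq
  have heqR : (5 : ℝ) ^ j * n + cnum w₁ = D w₁ * m := by exact_mod_cast heq
  have hn0 : (0 : ℝ) < n := by exact_mod_cast hn1
  have hcn0 : (0 : ℝ) ≤ cnum w₁ := Nat.cast_nonneg _
  have hnle : (n : ℝ) ≤ m * D w₁ / 5 ^ j := by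
    rw [le_div_iff₀ h5]
    nlinarith
  refine ⟨n, hn1, heq, hG, hcl, hnle, ?_⟩
  set y : ℝ := (m : ℝ) * (D w₁ * D w₂) / 5 ^ (j + r) with hy
  set y' : ℝ := (n : ℝ) * (D w₂ / 5 ^ r) with hy'
  have h5r : (0 : ℝ) < 5 ^ r := by positivity
  have hy'0 : 0 < y' := by positivity
  have hyy : y = (m * D w₁ / 5 ^ j) * (D w₂ / 5 ^ r) := by
    rw [hy, pow_add]
    field_simp
  have hy0 : 0 < y := by
    rw [hyy]
    positivity
  have hle : y' ≤ y := by
    rw [hyy, hy']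
    exact mul_le_mul_of_nonneg_right hnle (by positivity)
  have h1K : 0 < 1 - K / z₁ := by
    have : K / z₁ < 1 := by rw [div_lt_one (by linarith)]; exact hKz
    linarith
  have hratio : y / y' ≤ 1 / (1 - K / z₁) := by
    have h2 : y / y' = (m * D w₁) / (5 ^ j * n) := by
      rw [hyy, hy']
      field_simp
    rw [h2, div_le_div_iff₀ (by positivity) h1K, one_mul]
    -- m D (1 - K/z₁) ≤ 5^j n = D m - cnum
    have h3 : K / z₁ * (m * D w₁) ≥ K * D w₁ := by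
      have h4 : (1 : ℝ) ≤ m / z₁ := by rw [le_div_iff₀ (by linarith)]; linarith
      have h5' : K / z₁ * (m * D w₁) = K * D w₁ * (m / z₁) := by ring
      rw [h5']
      exact le_mul_of_one_le_right (by positivity) h4
    have h6 : (m : ℝ) * D w₁ * (1 - K / z₁) = m * D w₁ - K / z₁ * (m * D w₁) := by ring
    rw [h6]
    nlinarith
  have hkr := (kr_lip hy'0 hle hx).1
  have hkr0 : 0 ≤ kr y' x := kr_nonneg hy'0 hx
  have hscale : kr y' x = kr n (x / (D w₂ / 5 ^ r)) := kr_scale hn0 hx (by positivity)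
  have hxs : x / (D w₂ / 5 ^ r) = x * 5 ^ r / D w₂ := by
    field_simp
  have hker := ker_eq (x := x * 5 ^ r / D w₂) (by positivity) hn1
  have hmain : 1 / (m : ℝ) * (5 ^ j / ((D w₁ : ℝ) * D w₂) * kr y x) =
      1 / (D w₂ : ℝ) * ((5 ^ j / (m * D w₁)) * kr y x) := by
    field_simp
  rw [hmain]
  have h7 : (5 : ℝ) ^ j / (m * D w₁) ≤ 1 / n := by
    rw [div_le_div_iff₀ (by positivity) hn0, one_mul]
    nlinarith
  have h8 : kr y x ≤ 1 / (1 - K / z₁) * kr y' x :=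
    hkr.trans (mul_le_mul_of_nonneg_right hratio hkr0)
  have h9 : (5 : ℝ) ^ j / (m * D w₁) * kr y x ≤ 1 / n * (1 / (1 - K / z₁) * kr y' x) :=
    mul_le_mul h7 h8 (kr_nonneg hy0 hx) (by positivity)
  have h10 : 1 / (n : ℝ) * (1 / (1 - K / z₁) * kr y' x) =
      1 / (1 - K / z₁) * ker (x * 5 ^ r / D w₂) n := by
    rw [hker, ← hxs, ← hscale]
    ring
  rw [h10] at h9
  calc 1 / (D w₂ : ℝ) * ((5 ^ j / (m * D w₁)) * kr y x)
      ≤ 1 / (D w₂ : ℝ) * (1 / (1 - K / z₁) * ker (x * 5 ^ r / D w₂) n) :=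
        mul_le_mul_of_nonneg_left h9 (by positivity)
    _ = _ := by ring

open Classical in
/-- Main term. The map `(m, w₁) ↦ n₁` is injective; `5^j/(m D w₁) ≤ 1/n₁` and
`kr (m D w / 5^k) x ≤ (1-K/z₁)⁻¹ kr (n₁ D w₂/5^r) x`, `(1/n₁) kr (n₁ s) x = ker (x/s) n₁`. -/
lemma coarse_main {Λ k r lmax N₂ N' : ℕ} (hr : r ≤ k) {c' : Bool} {X x Y K E z₁ z₂ : ℝ}
    (hx : 0 < x) (hK : 1 ≤ K) (hE : 1 ≤ E) (hKz : K < z₁) (hX : X < (z₁ - K) / (5 * K))
    (hN' : z₂ * E ≤ N') :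
    ∑ c : Bool, ∑ m ∈ Mset X c N₂ z₁ z₂, 1 / (m : ℝ) *
        ∑ w ∈ (TA Λ k lmax Y E c c').filter (fun w =>
          (5 : ZMod (5 ^ k)) ^ r * (Fm k w - (m : ZMod (5 ^ k))) = 0 ∧ Fr (w.take (k - r)) ≤ K),
          5 ^ (k - r) / (D w : ℝ) * kr ((m : ℝ) * D w / 5 ^ k) x
      ≤ 1 / (1 - K / z₁) * ∑ c₁ : Bool, ∑ w₂ ∈ (W Λ r c₁).filter (fun w₂ =>
          endc c₁ w₂ = c' ∧ (D w₂ : ℝ) ≤ E),
          1 / (D w₂ : ℝ) * RR X c₁ N' (x * 5 ^ r / D w₂) := by
  have h1K : 0 < 1 - K / z₁ := by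
    have : K / z₁ < 1 := by rw [div_lt_one (by linarith)]; exact hKz
    linarith
  set A : Finset ((_ : Bool) × (_ : ℕ) × List Let) :=
    Finset.univ.sigma (fun c : Bool => (Mset X c N₂ z₁ z₂).sigma (fun m =>
      (TA Λ k lmax Y E c c').filter (fun w =>
        (5 : ZMod (5 ^ k)) ^ r * (Fm k w - (m : ZMod (5 ^ k))) = 0 ∧ Fr (w.take (k - r)) ≤ K)))
    with hA
  set B : Finset ((_ : Bool) × (_ : List Let) × ℕ) :=
    Finset.univ.sigma (fun c₁ : Bool => ((W Λ r c₁).filter (fun w₂ =>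
      endc c₁ w₂ = c' ∧ (D w₂ : ℝ) ≤ E)).sigma (fun _ =>
        (Finset.Icc 1 N').filter (fun n => G X n ∧ cl n = c₁))) with hB
  set f : ((_ : Bool) × (_ : ℕ) × List Let) → ℝ := fun a =>
    1 / (a.2.1 : ℝ) * (5 ^ (k - r) / (D a.2.2 : ℝ) * kr ((a.2.1 : ℝ) * D a.2.2 / 5 ^ k) x) with hf
  set g : ((_ : Bool) × (_ : List Let) × ℕ) → ℝ := fun b =>
    1 / (1 - K / z₁) * (1 / (D b.2.1 : ℝ) * ker (x * 5 ^ r / D b.2.1) b.2.2) with hg
  have hLHS : ∑ c : Bool, ∑ m ∈ Mset X c N₂ z₁ z₂, 1 / (m : ℝ) *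
        ∑ w ∈ (TA Λ k lmax Y E c c').filter (fun w =>
          (5 : ZMod (5 ^ k)) ^ r * (Fm k w - (m : ZMod (5 ^ k))) = 0 ∧ Fr (w.take (k - r)) ≤ K),
          5 ^ (k - r) / (D w : ℝ) * kr ((m : ℝ) * D w / 5 ^ k) x = ∑ a ∈ A, f a := by
    rw [hA, Finset.sum_sigma]
    refine Finset.sum_congr rfl fun c _ => ?_
    rw [Finset.sum_sigma]
    refine Finset.sum_congr rfl fun m _ => ?_
    rw [Finset.mul_sum]
  have hRHS : 1 / (1 - K / z₁) * ∑ c₁ : Bool, ∑ w₂ ∈ (W Λ r c₁).filter (fun w₂ =>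
          endc c₁ w₂ = c' ∧ (D w₂ : ℝ) ≤ E),
          1 / (D w₂ : ℝ) * RR X c₁ N' (x * 5 ^ r / D w₂) = ∑ b ∈ B, g b := by
    rw [hB, Finset.sum_sigma, Finset.mul_sum]
    refine Finset.sum_congr rfl fun c₁ _ => ?_
    rw [Finset.sum_sigma, Finset.mul_sum]
    refine Finset.sum_congr rfl fun w₂ _ => ?_
    unfold RR
    rw [Finset.mul_sum, Finset.mul_sum]
  rw [hLHS, hRHS]
  -- the properties of the elements of `A`
  have hprop : ∀ a ∈ A, ∃ n : ℕ, 1 ≤ n ∧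
      5 ^ (k - r) * n + cnum (a.2.2.take (k - r)) = D (a.2.2.take (k - r)) * a.2.1 ∧
      G X n ∧ cl n = endc a.1 (a.2.2.take (k - r)) ∧ cl a.2.1 = a.1 ∧ U a.2.1 ∧
      a.2.2.take (k - r) ∈ W Λ (k - r) a.1 ∧
      a.2.2.drop (k - r) ∈ W Λ r (endc a.1 (a.2.2.take (k - r))) ∧
      endc (endc a.1 (a.2.2.take (k - r))) (a.2.2.drop (k - r)) = c' ∧
      (D (a.2.2.drop (k - r)) : ℝ) ≤ E ∧ (n : ℝ) ≤ N' ∧
      f a ≤ 1 / (1 - K / z₁) * (1 / (D (a.2.2.drop (k - r)) : ℝ) *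
        ker (x * 5 ^ r / D (a.2.2.drop (k - r))) n) := by
    rintro ⟨c, m, w⟩ ha
    rw [hA, Finset.mem_sigma, Finset.mem_sigma] at ha
    obtain ⟨-, hm, hw⟩ := ha
    simp only at hm hw
    rw [Mset, Finset.mem_filter] at hm
    obtain ⟨-, hGm, hclm, hz1, hz2⟩ := hm
    rw [Finset.mem_filter, TA, Finset.mem_filter] at hw
    obtain ⟨⟨hwW, hend, hDE, -⟩, hcong, hF⟩ := hw
    have hwlen := length_of_mem_W hwW
    obtain ⟨ht, hd⟩ := take_mem_W hwW (Nat.sub_le k r)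
    rw [Nat.sub_sub_self hr] at hd
    rw [coarse_iff hr hwlen] at hcong
    subst hclm
    have hDsplit : (D w : ℝ) = D (w.take (k - r)) * D (w.drop (k - r)) := by
      conv_lhs => rw [← List.take_append_drop (k - r) w, D_append]
      push_cast
      ring
    have hD1 : (1 : ℝ) ≤ D (w.take (k - r)) := by exact_mod_cast D_pos _
    have hD2 : (1 : ℝ) ≤ D (w.drop (k - r)) := by exact_mod_cast D_pos _
    obtain ⟨n, hn1, heq, hG, hcl, hnle, hterm⟩ :=
      R4_term (r := r) (w₂ := w.drop (k - r)) hx hK hKz hX hGm hz1 ht hF hcong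
    refine ⟨n, hn1, heq, hG, hcl, rfl, hGm.1, ht, hd, ?_, ?_, ?_, ?_⟩
    · rw [← endc_append, List.take_append_drop]
      exact hend
    · refine le_trans ?_ hDE
      rw [hDsplit]
      exact le_mul_of_one_le_left (by linarith) hD1
    · refine hnle.trans (le_trans ?_ hN')
      rw [div_le_iff₀ (by positivity)]
      have h5 : (1 : ℝ) ≤ 5 ^ (k - r) := one_le_pow₀ (by norm_num)
      have hD1E : (D (w.take (k - r)) : ℝ) ≤ E := by
        refine le_trans ?_ hDE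
        rw [hDsplit]
        exact le_mul_of_one_le_right (by linarith) hD2
      have hz20 : 0 ≤ z₂ := by linarith
      have h6 : (m : ℝ) * D (w.take (k - r)) ≤ z₂ * E :=
        mul_le_mul hz2 hD1E (by linarith) hz20
      refine h6.trans ?_
      exact le_mul_of_one_le_right (by positivity) h5
    · simp only [hf]
      rw [hDsplit]
      have hkk : k - r + r = k := Nat.sub_add_cancel hr
      rw [hkk] at hterm
      exact hterm
  choose! nn hnn using hprop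
  refine R4_inj_sum A B f g
    (fun a => ⟨endc a.1 (a.2.2.take (k - r)), a.2.2.drop (k - r), nn a⟩) ?_ ?_ ?_ ?_
  · intro a ha
    obtain ⟨hn1, heq, hG, hcl, hcm, hUm, ht, hd, hend, hDE, hnN, -⟩ := hnn a ha
    rw [hB, Finset.mem_sigma, Finset.mem_sigma]
    refine ⟨Finset.mem_univ _, Finset.mem_filter.2 ⟨hd, hend, hDE⟩, ?_⟩
    exact Finset.mem_filter.2 ⟨Finset.mem_Icc.2 ⟨hn1, by exact_mod_cast hnN⟩, hG, hcl⟩
  · intro a ha b hb hab
    have ha' := hnn a ha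
    have hb' := hnn b hb
    obtain ⟨-, heqa, -, -, hcma, hUma, hta, -, -, -, -, -⟩ := ha'
    obtain ⟨-, heqb, -, -, hcmb, hUmb, htb, -, -, -, -, -⟩ := hb'
    rw [Sigma.mk.injEq] at hab
    obtain ⟨-, hab2⟩ := hab
    have hab3 : (⟨a.2.2.drop (k - r), nn a⟩ : (_ : List Let) × ℕ) =
        ⟨b.2.2.drop (k - r), nn b⟩ := eq_of_heq hab2
    rw [Sigma.mk.injEq] at hab3
    obtain ⟨hdrop, hn⟩ := hab3
    have hn' : nn a = nn b := eq_of_heq hn
    rw [← hcma] at hta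
    rw [← hcmb] at htb
    obtain ⟨-, -, hSa, hfa⟩ := conv hUma hta heqa
    obtain ⟨-, -, hSb, hfb⟩ := conv hUmb htb heqb
    have hm : a.2.1 = b.2.1 := by rw [← hSa, ← hSb, hn']
    have hw1 : a.2.2.take (k - r) = b.2.2.take (k - r) := by rw [← hfa, ← hfb, hn']
    have hw : a.2.2 = b.2.2 := by
      rw [← List.take_append_drop (k - r) a.2.2, ← List.take_append_drop (k - r) b.2.2, hw1,
        hdrop]
    have hc : a.1 = b.1 := by rw [← hcma, ← hcmb, hm]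
    obtain ⟨a1, a2, a3⟩ := a
    obtain ⟨b1, b2, b3⟩ := b
    simp only at hm hw hc
    subst hm hw hc
    rfl
  · intro a ha
    exact (hnn a ha).2.2.2.2.2.2.2.2.2.2.2
  · rintro ⟨c₁, w₂, n⟩ -
    simp only [hg]
    have hD2 : (0 : ℝ) < D w₂ := by exact_mod_cast D_pos w₂
    have := ker_nonneg (x := x * 5 ^ r / D w₂) (by positivity) n
    positivity

/-- Residue class of `m`. -/
private lemma R4_class (j : ℕ) (w₁ : List Let) :
    ∃ a : ℕ, ∀ m : ℕ, (5 : ℤ) ^ j ∣ (D w₁ : ℤ) * m - cnum w₁ → m % 5 ^ j = a := by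
  by_cases h : ∃ m₀ : ℕ, (5 : ℤ) ^ j ∣ (D w₁ : ℤ) * m₀ - cnum w₁
  · obtain ⟨m₀, h₀⟩ := h
    refine ⟨m₀ % 5 ^ j, fun m hm => ?_⟩
    have h1 : (5 : ℤ) ^ j ∣ (D w₁ : ℤ) * ((m : ℤ) - m₀) := by
      have := dvd_sub hm h₀
      have h2 : (D w₁ : ℤ) * m - cnum w₁ - ((D w₁ : ℤ) * m₀ - cnum w₁) =
        (D w₁ : ℤ) * ((m : ℤ) - m₀) := by ring
      rwa [h2] at this
    have hcop : IsCoprime ((5 : ℤ) ^ j) (D w₁ : ℤ) := by
      refine IsCoprime.pow_left ?_
      have h2 : Nat.Coprime 5 (D w₁) := by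
        rw [D_eq]
        refine Nat.Coprime.mul_right ?_ ?_
        · exact Nat.Coprime.pow_right _ (by norm_num)
        · exact Nat.Coprime.pow_right _ (by norm_num)
      exact_mod_cast Nat.isCoprime_iff_coprime.2 h2
    have h3 : (5 : ℤ) ^ j ∣ (m : ℤ) - m₀ := hcop.dvd_of_dvd_mul_left h1
    have h4 : ((m₀ : ℕ) : ℤ) ≡ (m : ℤ) [ZMOD ((5 ^ j : ℕ) : ℤ)] := by
      rw [Int.modEq_iff_dvd]
      push_cast
      exact h3
    have h5 : m₀ ≡ m [MOD 5 ^ j] := (Int.natCast_modEq_iff).1 h4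
    exact h5.symm
  · exact ⟨0, fun m hm => absurd ⟨m, hm⟩ h⟩

open Classical in
/-- The words with `Fr > K` contribute little. -/
lemma coarse_rest {Λ k r lmax N₂ : ℕ} (hr : r ≤ k) {c' : Bool} {X x Y K E z₁ z₂ : ℝ}
    (hx : 0 < x) (hK : 1 ≤ K) (hz₁ : 1 ≤ z₁) (hz : z₁ ≤ z₂) :
    ∑ c : Bool, ∑ m ∈ Mset X c N₂ z₁ z₂, 1 / (m : ℝ) *
        ∑ w ∈ (TA Λ k lmax Y E c c').filter (fun w =>
          (5 : ZMod (5 ^ k)) ^ r * (Fm k w - (m : ZMod (5 ^ k))) = 0 ∧ K < Fr (w.take (k - r))),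
          5 ^ (k - r) / (D w : ℝ) * kr ((m : ℝ) * D w / 5 ^ k) x
      ≤ 54 / K * (5 ^ (k - r) / z₁ + Real.log (z₂ / z₁)) := by
  have hK0 : 0 < K := by linarith
  have hz0 : 0 < z₁ := by linarith
  have hlog : 0 ≤ Real.log (z₂ / z₁) := Real.log_nonneg ((one_le_div hz0).2 hz)
  have h5j : (0 : ℝ) < 5 ^ (k - r) := by positivity
  set H : ℝ := 5 ^ (k - r) / z₁ + Real.log (z₂ / z₁) with hH
  have hH0 : 0 ≤ H := by positivity
  -- one class
  have hc : ∀ c : Bool, ∑ m ∈ Mset X c N₂ z₁ z₂, 1 / (m : ℝ) *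
        ∑ w ∈ (TA Λ k lmax Y E c c').filter (fun w =>
          (5 : ZMod (5 ^ k)) ^ r * (Fm k w - (m : ZMod (5 ^ k))) = 0 ∧ K < Fr (w.take (k - r))),
          5 ^ (k - r) / (D w : ℝ) * kr ((m : ℝ) * D w / 5 ^ k) x ≤ 27 / K * H := by
    intro c
    -- bound `kr ≤ 1` and enlarge the set of words
    have h1 : ∀ m ∈ Mset X c N₂ z₁ z₂, 1 / (m : ℝ) *
        ∑ w ∈ (TA Λ k lmax Y E c c').filter (fun w =>
          (5 : ZMod (5 ^ k)) ^ r * (Fm k w - (m : ZMod (5 ^ k))) = 0 ∧ K < Fr (w.take (k - r))),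
          5 ^ (k - r) / (D w : ℝ) * kr ((m : ℝ) * D w / 5 ^ k) x ≤
        ∑ w ∈ (W Λ k c).filter (fun w => K < Fr (w.take (k - r))),
          5 ^ (k - r) / (D w : ℝ) * (if (5 : ℤ) ^ (k - r) ∣
            (D (w.take (k - r)) : ℤ) * m - cnum (w.take (k - r)) then 1 / (m : ℝ) else 0) := by
      intro m hm
      rw [Mset, Finset.mem_filter, Finset.mem_Icc] at hm
      have hm0 : (0 : ℝ) < m := by linarith [hm.2.2.2.1]
      rw [Finset.mul_sum]
      refine le_trans (Finset.sum_le_sum (g := fun w : List Let =>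
        5 ^ (k - r) / (D w : ℝ) * (if (5 : ℤ) ^ (k - r) ∣
            (D (w.take (k - r)) : ℤ) * m - cnum (w.take (k - r)) then 1 / (m : ℝ) else 0)) ?_) ?_
      · intro w hw
        rw [Finset.mem_filter, TA, Finset.mem_filter] at hw
        obtain ⟨⟨hwW, -⟩, hcong, -⟩ := hw
        rw [coarse_iff hr (length_of_mem_W hwW)] at hcong
        rw [if_pos hcong]
        have hD : (0 : ℝ) < D w := by exact_mod_cast D_pos w
        have h2 : kr ((m : ℝ) * D w / 5 ^ k) x ≤ 1 := kr_le_one (by positivity) hx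
        calc 1 / (m : ℝ) * (5 ^ (k - r) / (D w : ℝ) * kr ((m : ℝ) * D w / 5 ^ k) x)
            ≤ 1 / (m : ℝ) * (5 ^ (k - r) / (D w : ℝ) * 1) := by
              refine mul_le_mul_of_nonneg_left ?_ (by positivity)
              exact mul_le_mul_of_nonneg_left h2 (by positivity)
          _ = _ := by ring
      · refine Finset.sum_le_sum_of_subset_of_nonneg ?_ ?_
        · intro w hw
          rw [Finset.mem_filter, TA, Finset.mem_filter] at hw
          exact Finset.mem_filter.2 ⟨hw.1.1, hw.2.2⟩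
        · intro w _ _
          have hD : (0 : ℝ) < D w := by exact_mod_cast D_pos w
          split_ifs
          · positivity
          · simp
    refine (Finset.sum_le_sum h1).trans ?_
    rw [Finset.sum_comm]
    have h2 : ∀ w ∈ (W Λ k c).filter (fun w => K < Fr (w.take (k - r))),
        ∑ m ∈ Mset X c N₂ z₁ z₂, 5 ^ (k - r) / (D w : ℝ) * (if (5 : ℤ) ^ (k - r) ∣
            (D (w.take (k - r)) : ℤ) * m - cnum (w.take (k - r)) then 1 / (m : ℝ) else 0) ≤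
        H * (1 / (D w : ℝ)) := by
      intro w _
      have hD : (0 : ℝ) < D w := by exact_mod_cast D_pos w
      obtain ⟨a, ha⟩ := R4_class (k - r) (w.take (k - r))
      have h3 : ∑ m ∈ Mset X c N₂ z₁ z₂, (if (5 : ℤ) ^ (k - r) ∣
            (D (w.take (k - r)) : ℤ) * m - cnum (w.take (k - r)) then 1 / (m : ℝ) else 0) ≤
          1 / z₁ + Real.log (z₂ / z₁) / (5 ^ (k - r) : ℕ) := by
        refine le_trans ?_ (class_harmonic (5 ^ (k - r)) a N₂ (Nat.one_le_pow _ _ (by norm_num))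
          hz₁ hz)
        rw [← Finset.sum_filter]
        refine Finset.sum_le_sum_of_subset_of_nonneg ?_ ?_
        · intro m hm
          rw [Finset.mem_filter, Mset, Finset.mem_filter] at hm
          exact Finset.mem_filter.2 ⟨hm.1.1, ha m hm.2, hm.1.2.2.2.1, hm.1.2.2.2.2⟩
        · intro m _ _
          positivity
      rw [← Finset.mul_sum]
      have h4 : 5 ^ (k - r) / (D w : ℝ) * (1 / z₁ + Real.log (z₂ / z₁) / (5 ^ (k - r) : ℕ)) =
          H * (1 / (D w : ℝ)) := by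
        rw [hH]
        push_cast
        field_simp
      rw [← h4]
      exact mul_le_mul_of_nonneg_left h3 (by positivity)
    refine (Finset.sum_le_sum h2).trans ?_
    rw [← Finset.mul_sum]
    -- mass of the words with `Fr (take) > K`
    have h3 : ∑ w ∈ (W Λ k c).filter (fun w => K < Fr (w.take (k - r))), 1 / (D w : ℝ) ≤
        4 / 3 * (20 / K) := by
      have hk : k = (k - r) + r := (Nat.sub_add_cancel hr).symm
      have h4 : ∑ w ∈ (W Λ k c).filter (fun w => K < Fr (w.take (k - r))), 1 / (D w : ℝ) =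
          ∑ w ∈ W Λ ((k - r) + r) c, if K < Fr (w.take (k - r)) then 1 / (D w : ℝ) else 0 := by
        rw [Finset.sum_filter, ← hk]
      rw [h4, sum_W_add]
      have h5 : ∀ w₁ ∈ W Λ (k - r) c, ∑ w₂ ∈ W Λ r (endc c w₁),
          (if K < Fr ((w₁ ++ w₂).take (k - r)) then 1 / (D (w₁ ++ w₂) : ℝ) else 0) ≤
          4 / 3 * (if K < Fr w₁ then 1 / (D w₁ : ℝ) else 0) := by
        intro w₁ hw₁
        have hl := length_of_mem_W hw₁
        have hD1 : (0 : ℝ) < D w₁ := by exact_mod_cast D_pos w₁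
        have h6 : ∀ w₂ ∈ W Λ r (endc c w₁),
            (if K < Fr ((w₁ ++ w₂).take (k - r)) then 1 / (D (w₁ ++ w₂) : ℝ) else 0) =
            (if K < Fr w₁ then 1 / (D w₁ : ℝ) else 0) * (1 / (D w₂ : ℝ)) := by
          intro w₂ _
          rw [List.take_append_of_le_length (by omega), List.take_of_length_le (by omega),
            D_append]
          push_cast
          split_ifs
          · rw [one_div_mul_one_div]
          · simp
        rw [Finset.sum_congr rfl h6, ← Finset.mul_sum, mul_comm]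
        refine mul_le_mul_of_nonneg_right (sum_W_le Λ r _) ?_
        split_ifs
        · positivity
        · exact le_rfl
      refine (Finset.sum_le_sum h5).trans ?_
      rw [← Finset.mul_sum, ← Finset.sum_filter]
      exact mul_le_mul_of_nonneg_left (mass_F Λ (k - r) c hK0) (by norm_num)
    calc H * ∑ w ∈ (W Λ k c).filter (fun w => K < Fr (w.take (k - r))), 1 / (D w : ℝ)
        ≤ H * (4 / 3 * (20 / K)) := mul_le_mul_of_nonneg_left h3 hH0
      _ = (80 / 3) / K * H := by ring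
      _ ≤ 27 / K * H := by
          refine mul_le_mul_of_nonneg_right ?_ hH0
          exact div_le_div_of_nonneg_right (by norm_num) hK0.le
  refine (Finset.sum_le_sum fun c _ => hc c).trans (le_of_eq ?_)
  rw [Finset.sum_const, Finset.card_univ, Fintype.card_bool, nsmul_eq_mul]
  push_cast
  ring

end K5
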