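import Pool.Agent.Lib.MP_a4658c_nt.K5.A2

/-! Piece A3: injectivity of `(D, cnum)` and residue classes (paper (0.3), (0.4)). -/

namespace K5

private lemma a3_cop (k : ℕ) (w : List Let) : Nat.Coprime (5 ^ k) (6 * D w) := by
  apply Nat.Coprime.pow_left
  rw [D_eq]
  exact Nat.Coprime.mul_right (by norm_num) (Nat.Coprime.mul_right
    (Nat.Coprime.pow_right _ (by norm_num)) (Nat.Coprime.pow_right _ (by norm_num)))

private lemma a3_exists (k : ℕ) (c : Bool) (w : List Let) :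
    ∃ a : ℕ, a < 6 * D w ∧ ∀ n : ℕ, n % (6 * D w) = a →
      ∃ m, U m ∧ cl m = c ∧ 5 ^ k * n + cnum w = D w * m := by
  obtain ⟨mc, hmc⟩ : ∃ mc : ℕ, ∀ m, m % 6 = mc % 6 → U m ∧ cl m = c := by
    cases c
    · refine ⟨5, fun m hm => ⟨⟨by omega, by omega⟩, ?_⟩⟩
      unfold cl
      simp only [decide_eq_false_iff_not]
      omega
    · refine ⟨1, fun m hm => ⟨⟨by omega, by omega⟩, ?_⟩⟩
      unfold cl
      simp only [decide_eq_true_eq]
      omega
  obtain ⟨N, hN1, hN2⟩ := Nat.chineseRemainder (a3_cop k w) (cnum w) (D w * mc)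
  have hD := D_pos w
  have hpos : 0 < 6 * D w := by omega
  have hle : cnum w ≤ N + 5 ^ k * (6 * D w) * cnum w := by
    have : cnum w ≤ 5 ^ k * (6 * D w) * cnum w :=
      Nat.le_mul_of_pos_left _ (Nat.mul_pos (by positivity) hpos)
    omega
  have h1 : cnum w ≡ N + 5 ^ k * (6 * D w) * cnum w [MOD 5 ^ k] := by
    have e : N + 5 ^ k * (6 * D w) * cnum w ≡ N + 0 [MOD 5 ^ k] := by
      apply Nat.ModEq.add_left
      rw [Nat.modEq_zero_iff_dvd, mul_assoc]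
      exact dvd_mul_right _ _
    exact (hN1.symm.trans (by simpa using e.symm))
  obtain ⟨a0, ha0⟩ := (Nat.modEq_iff_dvd' hle).1 h1
  have h2 : 5 ^ k * a0 + cnum w = N + 5 ^ k * (6 * D w) * cnum w := by omega
  have h3 : 5 ^ k * a0 + cnum w ≡ D w * mc [MOD 6 * D w] := by
    rw [h2]
    have e : N + 5 ^ k * (6 * D w) * cnum w ≡ N + 0 [MOD 6 * D w] := by
      apply Nat.ModEq.add_left
      rw [Nat.modEq_zero_iff_dvd]
      exact ⟨5 ^ k * cnum w, by ring⟩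
    exact (by simpa using e : N + 5 ^ k * (6 * D w) * cnum w ≡ N [MOD 6 * D w]).trans hN2
  refine ⟨a0 % (6 * D w), Nat.mod_lt _ hpos, ?_⟩
  intro n hn
  have h4 : 5 ^ k * n + cnum w ≡ D w * mc [MOD 6 * D w] :=
    (Nat.ModEq.add_right _ (Nat.ModEq.mul_left _ hn)).trans h3
  have h5 : D w ∣ 5 ^ k * n + cnum w := by
    have := (h4.of_mul_left 6)
    rw [← Nat.modEq_zero_iff_dvd]
    refine this.trans ?_
    rw [Nat.modEq_zero_iff_dvd]
    exact dvd_mul_right _ _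
  obtain ⟨m, hm⟩ := h5
  have h6 : m ≡ mc [MOD 6] := by
    rw [hm, mul_comm 6 (D w)] at h4
    exact Nat.ModEq.mul_left_cancel' hD.ne' h4
  exact ⟨m, (hmc m h6).1, (hmc m h6).2, hm⟩

/-- (0.3) -/
lemma word_inj {Λ k : ℕ} {c : Bool} {w w' : List Let} (hw : w ∈ W Λ k c) (hw' : w' ∈ W Λ k c)
    (hD : D w = D w') (hc : cnum w = cnum w') : w = w' := by
  obtain ⟨a, ha, h⟩ := a3_exists k c w
  obtain ⟨m, hm, hcl, he⟩ := h a (Nat.mod_eq_of_lt ha)
  have h1 := (conv hm (by rw [hcl]; exact hw) he).2.2.2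
  have h2 := (conv hm (by rw [hcl]; exact hw') (by rw [← hD, ← hc]; exact he)).2.2.2
  rw [← h1, ← h2]

/-- (0.4): a residue class mod `6 D(w)` all of whose members have word `w` and `S^k n` of class `c`. -/
lemma residue_class {Λ k : ℕ} {c : Bool} {w : List Let} (hw : w ∈ W Λ k c) :
    ∃ a : ℕ, a < 6 * D w ∧ ∀ n : ℕ, n % (6 * D w) = a →
      U n ∧ cl n = endc c w ∧ fword k n = w ∧ U (S^[k] n) ∧ cl (S^[k] n) = c := by
  obtain ⟨a, ha, h⟩ := a3_exists k c w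
  refine ⟨a, ha, ?_⟩
  intro n hn
  obtain ⟨m, hm, hcl, he⟩ := h n hn
  obtain ⟨h1, h2, h3, h4⟩ := conv hm (by rw [hcl]; exact hw) he
  refine ⟨h1, ?_, h4, ?_, ?_⟩
  · rw [h2, hcl]
  · rw [h3]; exact hm
  · rw [h3]; exact hcl

end K5
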