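import Pool.Agent.Lib.MP_a4658c_nt.K5.RDefs
import Pool.Agent.Lib.MP_a4658c_nt.K5.K1
import Pool.Agent.Lib.MP_a4658c_nt.K5.A3
import Pool.Agent.Lib.MP_a4658c_nt.K5.F1

/-! Piece R2: pushing the good `n` forward to `m = S^k n` (paper (4)(iii)). -/

namespace K5

lemma kr_nonneg {y x : ℝ} (hy : 0 < y) (hx : 0 < x) : 0 ≤ kr y x :=
  le_min (by positivity) (by positivity)

lemma kr_le_one {y x : ℝ} (hy : 0 < y) (hx : 0 < x) : kr y x ≤ 1 := by
  unfold kr
  rcases le_total x y with h | h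
  · exact (min_le_left _ _).trans ((div_le_one hy).2 h)
  · exact (min_le_right _ _).trans ((div_le_one hx).2 h)

lemma ker_eq {x : ℝ} (hx : 0 < x) {n : ℕ} (hn : 1 ≤ n) : ker x n = 1 / (n : ℝ) * kr n x := by
  have hn0 : (0 : ℝ) < n := by exact_mod_cast hn
  unfold ker kr
  rw [mul_min_of_nonneg _ _ (by positivity : (0 : ℝ) ≤ 1 / (n : ℝ)), min_comm]
  congr 1
  · field_simp
  · field_simp

/-- Scaling: `kr (y s) x = kr y (x/s)`. -/
lemma kr_scale {y x s : ℝ} (hy : 0 < y) (hx : 0 < x) (hs : 0 < s) :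
    kr (y * s) x = kr y (x / s) := by
  unfold kr
  congr 1
  · field_simp
  · field_simp

/-- Log-Lipschitz: for `y' ≤ y`, `kr y x ≤ (y/y') kr y' x` and `kr y' x ≤ (y/y') kr y x`. -/
lemma kr_lip {y y' x : ℝ} (hy' : 0 < y') (h : y' ≤ y) (hx : 0 < x) :
    kr y x ≤ y / y' * kr y' x ∧ kr y' x ≤ y / y' * kr y x := by
  have hy : 0 < y := lt_of_lt_of_le hy' h
  have hq : 0 ≤ y / y' := by positivity
  have hsq : y' ^ 2 ≤ y ^ 2 := pow_le_pow_left₀ hy'.le h 2
  unfold kr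
  rw [mul_min_of_nonneg _ _ hq, mul_min_of_nonneg _ _ hq]
  constructor
  · refine le_min ((min_le_left _ _).trans ?_) ((min_le_right _ _).trans ?_)
    · have e : y / y' * (x / y') = x / y * (y ^ 2 / y' ^ 2) := by field_simp
      rw [e]
      refine le_mul_of_one_le_right (by positivity) ?_
      rwa [one_le_div (by positivity)]
    · have e : y / y' * (y' / x) = y / x := by field_simp
      rw [e]
  · refine le_min ((min_le_left _ _).trans ?_) ((min_le_right _ _).trans ?_)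
    · have e : y / y' * (x / y) = x / y' := by field_simp
      rw [e]
    · have e : y / y' * (y / x) = y' / x * (y ^ 2 / y' ^ 2) := by field_simp
      rw [e]
      refine le_mul_of_one_le_right (by positivity) ?_
      rwa [one_le_div (by positivity)]

/-- the pointwise bound -/
private lemma R2_point {K x z₁ P Dw cn : ℝ} {n m : ℕ} (hx : 0 < x) (hz₁ : 0 < z₁)
    (hKz : K < z₁) (hn : 1 ≤ n) (hP : 0 < P) (hD : 0 < Dw) (hcn : 0 ≤ cn) (hF : cn / Dw ≤ K)
    (hm : z₁ ≤ (m : ℝ)) (he : P * n + cn = Dw * m) :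
    ker x n ≤ (1 / (1 - K / z₁)) ^ 2 * (1 / (m : ℝ) * (P / Dw * kr ((m : ℝ) * Dw / P) x)) := by
  have hn0 : (0 : ℝ) < n := by exact_mod_cast hn
  have hm0 : (0 : ℝ) < m := by linarith
  have hK0 : 0 ≤ K := (by positivity : (0 : ℝ) ≤ cn / Dw).trans hF
  set y : ℝ := (m : ℝ) * Dw / P with hy
  have hy0 : 0 < y := by positivity
  have hyn : (n : ℝ) ≤ y := by
    rw [hy, le_div_iff₀ hP]
    linarith
  have hq1 : 0 < 1 - K / z₁ := by
    rw [sub_pos, div_lt_one hz₁]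
    exact hKz
  have hq : y / n ≤ 1 / (1 - K / z₁) := by
    rw [div_le_div_iff₀ hn0 hq1]
    have h1 : cn / Dw / m ≤ K / z₁ := div_le_div₀ hK0 hF hz₁ hm
    have h2 : y * (cn / Dw / m) = cn / P := by
      rw [hy]
      field_simp
    have h3 : y = n + cn / P := by
      rw [hy]
      field_simp
      linarith
    have h4 : y * (cn / Dw / m) ≤ y * (K / z₁) := mul_le_mul_of_nonneg_left h1 hy0.le
    nlinarith
  have hk := (kr_lip hn0 hyn hx).2
  have hkn : 0 ≤ kr y x := kr_nonneg hy0 hx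
  rw [ker_eq hx hn]
  have e1 : 1 / (n : ℝ) = y / n * (1 / (m : ℝ) * (P / Dw)) := by
    rw [hy]
    field_simp
  have hyq : 0 ≤ y / n := by positivity
  calc 1 / (n : ℝ) * kr n x ≤ 1 / (n : ℝ) * (y / n * kr y x) :=
        mul_le_mul_of_nonneg_left hk (by positivity)
    _ = y / n * (1 / (m : ℝ) * (P / Dw)) * (y / n * kr y x) := by rw [← e1]
    _ = (y / n) ^ 2 * (1 / (m : ℝ) * (P / Dw * kr y x)) := by ring
    _ ≤ (1 / (1 - K / z₁)) ^ 2 * (1 / (m : ℝ) * (P / Dw * kr y x)) := by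
        refine mul_le_mul_of_nonneg_right (pow_le_pow_left₀ hyq hq 2) (by positivity)

open Classical in
/-- (4)(iii). -/
lemma push {Λ k lmax N N₂ : ℕ} {c' : Bool} {X x Y K E z z' z₁ z₂ : ℝ} (hx : 0 < x) (hK : 0 ≤ K)
    (hE : 1 ≤ E) (hz₁ : 0 < z₁) (hKz : K < z₁) (h1 : z₁ * E ≤ z) (h2 : 5 ^ k * z' + K ≤ z₂)
    (hN₂ : z₂ ≤ N₂) (hTm : ∀ c, ∀ w ∈ W Λ k c, Pgood lmax Y K E w → Tm k lmax Y w) :
    ∑ n ∈ (Finset.Icc 1 N).filter (fun n => G X n ∧ cl n = c' ∧ z ≤ (n : ℝ) ∧ (n : ℝ) ≤ z' ∧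
        GoodN Λ k lmax Y K E n), ker x n
      ≤ (1 / (1 - K / z₁)) ^ 2 * ∑ c : Bool, ∑ m ∈ Mset X c N₂ z₁ z₂, 1 / (m : ℝ) *
          ∑ w ∈ (TA Λ k lmax Y E c c').filter (fun w => Fm k w = (m : ZMod (5 ^ k))),
            5 ^ k / (D w : ℝ) * kr ((m : ℝ) * D w / 5 ^ k) x := by
  set A := (Finset.Icc 1 N).filter (fun n => G X n ∧ cl n = c' ∧ z ≤ (n : ℝ) ∧ (n : ℝ) ≤ z' ∧
        GoodN Λ k lmax Y K E n) with hA
  set T : Finset (Σ _ : Bool, Σ _ : ℕ, List Let) :=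
    (Finset.univ : Finset Bool).sigma (fun c => (Mset X c N₂ z₁ z₂).sigma (fun m =>
      (TA Λ k lmax Y E c c').filter (fun w => Fm k w = (m : ZMod (5 ^ k))))) with hT
  set g : (Σ _ : Bool, Σ _ : ℕ, List Let) → ℝ := fun p =>
    1 / (p.2.1 : ℝ) * (5 ^ k / (D p.2.2 : ℝ) * kr ((p.2.1 : ℝ) * D p.2.2 / 5 ^ k) x) with hg
  set φ : ℕ → (Σ _ : Bool, Σ _ : ℕ, List Let) :=
    fun n => ⟨cl (S^[k] n), S^[k] n, fword k n⟩ with hφ
  have hrhs : ∑ c : Bool, ∑ m ∈ Mset X c N₂ z₁ z₂, 1 / (m : ℝ) *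
          ∑ w ∈ (TA Λ k lmax Y E c c').filter (fun w => Fm k w = (m : ZMod (5 ^ k))),
            5 ^ k / (D w : ℝ) * kr ((m : ℝ) * D w / 5 ^ k) x = ∑ p ∈ T, g p := by
    rw [hT, Finset.sum_sigma]
    refine Finset.sum_congr rfl fun c _ => ?_
    rw [Finset.sum_sigma]
    refine Finset.sum_congr rfl fun m _ => ?_
    rw [Finset.mul_sum]
  rw [hrhs]
  have hfact : ∀ n ∈ A, φ n ∈ T ∧ ker x n ≤ (1 / (1 - K / z₁)) ^ 2 * g (φ n) := by
    intro n hn
    rw [hA, Finset.mem_filter, Finset.mem_Icc] at hn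
    obtain ⟨⟨hn1, -⟩, hG, hcl, hzn, hnz, hgood⟩ := hn
    obtain ⟨hW, hY, hF, hDE⟩ := hgood
    have hU := hG.1
    have heq := fword_eq hU k
    have hUm := U_iter hU k
    set m : ℕ := S^[k] n with hm
    set w : List Let := fword k n with hw
    have hD0 : (0 : ℝ) < D w := by exact_mod_cast D_pos w
    have hD1 : (1 : ℝ) ≤ D w := by exact_mod_cast D_pos w
    have hP1 : (1 : ℝ) ≤ 5 ^ k := one_le_pow₀ (by norm_num)
    have heqR : (5 : ℝ) ^ k * n + (cnum w : ℝ) = (D w : ℝ) * m := by exact_mod_cast heq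
    have hc0 : (0 : ℝ) ≤ (cnum w : ℝ) := Nat.cast_nonneg _
    have hn0 : (0 : ℝ) < n := by exact_mod_cast hn1
    have hm1 : 1 ≤ m := by
      have := hUm.1
      omega
    have hm0 : (0 : ℝ) ≤ m := Nat.cast_nonneg _
    have hmz₁ : z₁ ≤ (m : ℝ) := by
      have e1 : (n : ℝ) ≤ 5 ^ k * n := le_mul_of_one_le_left hn0.le hP1
      have e2 : (D w : ℝ) * m ≤ E * m := mul_le_mul_of_nonneg_right hDE hm0
      have e3 : z₁ * E ≤ E * m := by linarith
      have e4 : E * z₁ ≤ E * m := by linarith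
      exact le_of_mul_le_mul_left e4 (by linarith)
    have hFK : (cnum w : ℝ) / D w ≤ K := hF
    have hmz₂ : (m : ℝ) ≤ z₂ := by
      have e1 : (m : ℝ) = 5 ^ k * n / D w + (cnum w : ℝ) / D w := by
        field_simp
        linarith
      have e2 : (5 : ℝ) ^ k * n / D w ≤ 5 ^ k * n := div_le_self (by positivity) hD1
      have e3 : (5 : ℝ) ^ k * n ≤ 5 ^ k * z' := mul_le_mul_of_nonneg_left hnz (by positivity)
      linarith
    constructor
    · rw [hT, hφ]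
      simp only [Finset.mem_sigma, Finset.mem_univ, true_and, Finset.mem_filter]
      refine ⟨?_, ?_, ?_⟩
      · rw [Mset, Finset.mem_filter, Finset.mem_Icc]
        refine ⟨⟨hm1, ?_⟩, G_iter hG k, rfl, hmz₁, hmz₂⟩
        exact_mod_cast hmz₂.trans hN₂
      · rw [TA, Finset.mem_filter]
        refine ⟨hW, ?_, hDE, hTm _ _ hW ⟨hY, hF, hDE⟩⟩
        have := endc_fword hU k
        rw [← hm, ← hw] at this
        rw [this, hcl]
      · unfold Fm
        have hz5 : ((5 : ZMod (5 ^ k))) ^ k = 0 := by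
          have := ZMod.natCast_self (5 ^ k)
          exact_mod_cast this
        have e1 : (5 : ZMod (5 ^ k)) ^ k * n + (cnum w : ZMod (5 ^ k))
            = ((D w : ℕ) : ZMod (5 ^ k)) * m := by exact_mod_cast congrArg (Nat.cast) heq
        rw [hz5, zero_mul, zero_add] at e1
        show (cnum w : ZMod (5 ^ k)) * ((D w : ℕ) : ZMod (5 ^ k))⁻¹ = _
        rw [e1, mul_comm, ← mul_assoc, mul_comm _ ((D w : ℕ) : ZMod (5 ^ k)), D_mul_inv, one_mul]
    · exact R2_point hx hz₁ hKz hn1 (by positivity) hD0 hc0 hFK hmz₁ heqR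
  have hinj : Set.InjOn φ (A : Set ℕ) := by
    intro n hn n' hn' hee
    rw [Finset.mem_coe, hA, Finset.mem_filter] at hn hn'
    have e1 := fword_eq hn.2.1.1 k
    have e2 := fword_eq hn'.2.1.1 k
    rw [hφ] at hee
    simp only [Sigma.mk.injEq, heq_eq_eq] at hee
    obtain ⟨-, hmm, hww⟩ := hee
    rw [hmm, hww] at e1
    have e3 : 5 ^ k * n = 5 ^ k * n' := by omega
    exact Nat.eq_of_mul_eq_mul_left (by positivity) e3
  have hg0 : ∀ p ∈ T, 0 ≤ g p := by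
    intro p hp
    rw [hT] at hp
    simp only [Finset.mem_sigma, Finset.mem_univ, true_and, Finset.mem_filter] at hp
    have hm := hp.1
    rw [Mset, Finset.mem_filter] at hm
    have hm0 : (0 : ℝ) < (p.2.1 : ℝ) := lt_of_lt_of_le hz₁ hm.2.2.2.1
    have hD0 : (0 : ℝ) < D p.2.2 := by exact_mod_cast D_pos _
    have := kr_nonneg (by positivity : (0 : ℝ) < (p.2.1 : ℝ) * D p.2.2 / 5 ^ k) hx
    rw [hg]
    positivity
  calc ∑ n ∈ A, ker x n ≤ ∑ n ∈ A, (1 / (1 - K / z₁)) ^ 2 * g (φ n) :=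
        Finset.sum_le_sum fun n hn => (hfact n hn).2
    _ = (1 / (1 - K / z₁)) ^ 2 * ∑ n ∈ A, g (φ n) := by rw [Finset.mul_sum]
    _ = (1 / (1 - K / z₁)) ^ 2 * ∑ p ∈ A.image φ, g p := by rw [Finset.sum_image hinj]
    _ ≤ (1 / (1 - K / z₁)) ^ 2 * ∑ p ∈ T, g p := by
        refine mul_le_mul_of_nonneg_left ?_ (by positivity)
        refine Finset.sum_le_sum_of_subset_of_nonneg ?_ (fun p hp _ => hg0 p hp)
        intro p hp
        rw [Finset.mem_image] at hp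
        obtain ⟨n, hn, rfl⟩ := hp
        exact (hfact n hn).1

end K5
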