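import Pool.Agent.Lib.MP_a4658c_nt.K5.F9d

/-! Piece F10: Fourier decay (paper (2.10)), strong induction on `R`. -/

namespace K5

/-- One step of the induction: the gain `g` beats the loss from `R` to `Rs`. -/
private lemma F10_step {A₀ R Rs : ℕ} {K₀ x g : ℝ} (hK : 0 < K₀) (hx1 : x < 1)
    (hg : g ≤ (1 - x) ^ A₀) (hR : (1 - x) * ((R : ℝ) + 1) ≤ (Rs : ℝ) + 1) :
    g * (K₀ / ((Rs : ℝ) + 1) ^ A₀) ≤ K₀ / ((R : ℝ) + 1) ^ A₀ := by
  have h1 : (0 : ℝ) < (R : ℝ) + 1 := by positivity
  have h2 : (0 : ℝ) < (Rs : ℝ) + 1 := by positivity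
  have h3 : (0 : ℝ) < 1 - x := by linarith
  have h4 : ((1 - x) * ((R : ℝ) + 1)) ^ A₀ ≤ ((Rs : ℝ) + 1) ^ A₀ :=
    pow_le_pow_left₀ (by positivity) hR A₀
  rw [mul_pow] at h4
  rw [← mul_div_assoc, div_le_div_iff₀ (by positivity) (by positivity)]
  calc g * K₀ * ((R : ℝ) + 1) ^ A₀ ≤ (1 - x) ^ A₀ * K₀ * ((R : ℝ) + 1) ^ A₀ := by
        have : (0 : ℝ) ≤ K₀ * ((R : ℝ) + 1) ^ A₀ := by positivity
        nlinarith
    _ = K₀ * ((1 - x) ^ A₀ * ((R : ℝ) + 1) ^ A₀) := by ring
    _ ≤ K₀ * ((Rs : ℝ) + 1) ^ A₀ := mul_le_mul_of_nonneg_left h4 hK.le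

theorem FD (A₀ : ℕ) : ∃ K₀ : ℝ, 0 < K₀ ∧ ∀ (Λ k : ℕ) (ψ : Bool → ℕ → ℕ → ℂ), 2 ≤ Λ →
    (∀ c A B, ‖ψ c A B‖ ≤ v c) → ∀ R : ℕ, QB Λ k ψ R (K₀ / ((R : ℝ) + 1) ^ A₀) := by
  have hd0 := del0_pos
  have hd1 := del0_lt
  -- the loss `x = 5 δ`
  set x : ℝ := 3 / 8 * del0 / ((A₀ : ℝ) + 1) with hx
  have hA : (0 : ℝ) < (A₀ : ℝ) + 1 := by positivity
  have hx0 : 0 < x := by positivity
  have hx1 : x < 1 := by
    rw [hx, div_lt_one hA]
    have : (0 : ℝ) ≤ A₀ := by positivity
    linarith
  have hgx : 1 - 3 / 8 * del0 ≤ (1 - x) ^ A₀ := by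
    have h1 := one_add_mul_le_pow (a := -x) (by linarith) A₀
    have h2 : (A₀ : ℝ) * x ≤ 3 / 8 * del0 := by
      rw [hx, ← mul_div_assoc, div_le_iff₀ hA]
      nlinarith
    calc 1 - 3 / 8 * del0 ≤ 1 + (A₀ : ℝ) * (-x) := by linarith
      _ ≤ (1 + -x) ^ A₀ := h1
      _ = (1 - x) ^ A₀ := by ring
  set δ : ℝ := x / 5 with hδ
  have hδ0 : 0 < δ := by positivity
  obtain ⟨R₀, hgiant⟩ := giant ((1 / 20 : ℝ) ^ A₀) δ (by positivity) hδ0
  set R₁ : ℕ := max R₀ (⌈7 / δ⌉₊ + 1) with hR₁
  refine ⟨((R₁ : ℝ) + 1) ^ A₀, by positivity, ?_⟩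
  intro Λ k ψ hΛ hψ
  set K₀ : ℝ := ((R₁ : ℝ) + 1) ^ A₀ with hK₀
  have hK0 : 0 < K₀ := by positivity
  intro R
  induction R using Nat.strong_induction_on with
  | _ R ih =>
    intro c y A B hy
    rcases Nat.lt_or_ge R₁ R with hR | hR
    · have hR0 : R₀ ≤ R := (le_max_left _ _).trans hR.le
      have hR7 : ⌈7 / δ⌉₊ + 1 ≤ R := (le_max_right _ _).trans hR.le
      have hR7' : 7 ≤ δ * R := by
        have h1 : 7 / δ ≤ (⌈7 / δ⌉₊ : ℝ) := Nat.le_ceil _
        have h2 : (⌈7 / δ⌉₊ : ℝ) ≤ R := by exact_mod_cast (Nat.le_succ _).trans hR7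
        have h3 : 7 / δ ≤ (R : ℝ) := h1.trans h2
        rw [div_le_iff₀ hδ0] at h3
        linarith
      have hR1 : 1 ≤ R := by omega
      by_cases hb : Black k y
      · by_cases hg : δ * R ≤ va k y ∧ δ * R ≤ vb k y
        · -- giant case
          have h20 : R / 20 < R := Nat.div_lt_self hR1 (by norm_num)
          have h1 := hgiant Λ k ψ R _ hΛ hR0 (by positivity) (ih (R / 20) h20) c y A B hy hb
            hg.1 hg.2
          refine h1.trans (mul_le_mul_of_nonneg_left ?_ (v_pos c).le)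
          have h2 : ((R : ℝ) + 1) ≤ 20 * (((R / 20 : ℕ) : ℝ) + 1) := by
            have : R + 1 ≤ 20 * (R / 20 + 1) := by omega
            exact_mod_cast this
          have h3 : ((R : ℝ) + 1) ^ A₀ ≤ 20 ^ A₀ * (((R / 20 : ℕ) : ℝ) + 1) ^ A₀ := by
            rw [← mul_pow]
            exact pow_le_pow_left₀ (by positivity) h2 A₀
          have h4 : (0 : ℝ) < 20 ^ A₀ := by positivity
          rw [one_div, inv_pow, inv_mul_eq_div, div_div,
            div_le_div_iff₀ (by positivity) (by positivity)]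
          exact mul_le_mul_of_nonneg_left (by linarith [h3]) hK0.le
        · -- short black case
          have hsm : (va k y : ℝ) < δ * R ∨ (vb k y : ℝ) < δ * R := by
            by_contra hcon
            push Not at hcon
            exact hg hcon
          set m : ℕ := ⌈4 * (δ * R)⌉₊ with hm
          have hm1 : 4 * (δ * R) ≤ (m : ℝ) := Nat.le_ceil _
          have hm2 : (m : ℝ) < 4 * (δ * R) + 1 := Nat.ceil_lt_add_one (by positivity)
          have hn : va k y + 1 ≤ m + 4 ∨ 4 * vb k y + 4 ≤ m + 4 := by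
            rcases hsm with h | h
            · left
              have h1 : (va k y : ℝ) ≤ (m : ℝ) := by nlinarith
              have h2 : va k y ≤ m := by exact_mod_cast h1
              omega
            · right
              have h1 : (4 : ℝ) * (vb k y : ℝ) ≤ (m : ℝ) := by nlinarith
              have h2 : 4 * vb k y ≤ m := by exact_mod_cast h1
              omega
          have hmR' : (m : ℝ) + 6 ≤ x * R := by
            have : x = 5 * δ := by rw [hδ]; ring
            rw [this]
            nlinarith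
          have hmR : m + 6 ≤ R := by
            have h1 : (m : ℝ) + 6 ≤ R := by
              refine hmR'.trans ?_
              have : (0 : ℝ) ≤ R := by positivity
              nlinarith
            exact_mod_cast h1
          have hlt : R - (m + 6) < R := by omega
          have h1 := black_short hΛ (by positivity) (ih (R - (m + 6)) hlt)
            (R := R) (n := m + 4) (by omega) c y A B hy hb hn
          refine h1.trans (mul_le_mul_of_nonneg_left ?_ (v_pos c).le)
          refine F10_step hK0 hx1 hgx ?_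
          rw [Nat.cast_sub hmR]
          push_cast
          nlinarith
      · -- white case
        have hmR : 2 ≤ R := by
          by_contra hcon
          have h1 : R ≤ 1 := by omega
          have h2 : (R : ℝ) ≤ 1 := by exact_mod_cast h1
          have h3 : δ < 1 := by rw [hδ]; linarith
          nlinarith
        have hlt : R - 2 < R := by omega
        have h1 := white_short hΛ (by positivity) (ih (R - 2) hlt)
          (R := R) (by omega) c y A B hy hb
        refine h1.trans (mul_le_mul_of_nonneg_left ?_ (v_pos c).le)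
        refine F10_step hK0 hx1 (by linarith) ?_
        rw [Nat.cast_sub hmR]
        push_cast
        have : x = 5 * δ := by rw [hδ]; ring
        rw [this]
        nlinarith
    · -- small `R`
      refine (Gam_norm_le hψ R c y A B).trans ?_
      have h1 : (1 : ℝ) ≤ K₀ / ((R : ℝ) + 1) ^ A₀ := by
        rw [one_le_div (by positivity)]
        refine pow_le_pow_left₀ (by positivity) ?_ A₀
        have : (R : ℝ) ≤ R₁ := by exact_mod_cast hR
        linarith
      have := v_pos c
      nlinarith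

end K5
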