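import Pool.Agent.Lib.MP_a4658c_nt.K5.M2
import Pool.Agent.Lib.MP_a4658c_nt.K5.S2

/-! Piece M3: the mixing lemma (paper section 3). Split `TT` by the stopping index `l ≤ lmax`, the
endpoint `(A₀,B₀)` (each `≤ k Λ`) and end class `c₀` of the stopped prefix (first passage index unique);
for every part use part_bound with `ψ c A B = if c = c' ∧ A = Ae ∧ B = Be then 1 else 0`, fine_part and
`Σ_{w₀} 1/D w₀ ≤ 4/3`, `D w₀ > Y`. -/

namespace K5

private lemma M3_sle {Λ l : ℕ} {c : Bool} {w : List Let} (hw : w ∈ W Λ l c) :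
    sA w ≤ l * Λ ∧ sB w ≤ l * Λ := by
  induction l generalizing c w with
  | zero => rw [mem_W_zero] at hw; subst hw; simp
  | succ l ih =>
    rw [mem_W_succ] at hw
    obtain ⟨x, hx, w', hw', rfl⟩ := hw
    have h := ih hw'
    rw [mem_L] at hx
    obtain ⟨⟨h1, h2, h3⟩, _⟩ := hx
    simp only [sA_cons, sB_cons, Nat.add_mul, one_mul]
    omega

/-- splitting a sum by a partition given by a predicate -/
private lemma M3_split {α ι : Type*} (S : Finset α) (T : Finset ι) (P : α → ι → Prop)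
    [∀ t, DecidablePred (fun w => P w t)]
    (h : ∀ w ∈ S, ∃ t ∈ T, P w t ∧ ∀ t' ∈ T, P w t' → t' = t) (g : α → ℝ) :
    ∑ w ∈ S, g w = ∑ t ∈ T, ∑ w ∈ S.filter (fun w => P w t), g w := by
  simp only [Finset.sum_filter]
  rw [Finset.sum_comm]
  refine Finset.sum_congr rfl fun w hw => ?_
  obtain ⟨t, ht, hp, hu⟩ := h w hw
  rw [Finset.sum_eq_single t]
  · rw [if_pos hp]
  · intro t' ht' hne
    rw [if_neg]
    intro hp'
    exact hne (hu t' ht' hp')
  · intro hn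
    exact absurd ht hn

private def M3_P (k : ℕ) (Y : ℝ) (c : Bool) (w : List Let) (t : ℕ × Bool × ℕ × ℕ) : Prop :=
  Stop Y w t.1 ∧ endc c (w.take t.1) = t.2.1 ∧ sA (w.take t.1) = t.2.2.1 ∧
    sB (w.take t.1) = t.2.2.2 ∧ cnum (w.take t.1) < 5 ^ k

private lemma M3_stop_unique {Y : ℝ} {w : List Let} {l l' : ℕ} (h : Stop Y w l)
    (h' : Stop Y w l') : l = l' := by
  rcases lt_trichotomy l l' with hlt | he | hlt
  · exact absurd h.1 (not_lt.2 (h'.2 l hlt))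
  · exact he
  · exact absurd h'.1 (not_lt.2 (h.2 l' hlt))

open Classical in
private lemma M3_parts {Λ k lmax : ℕ} (hlk : lmax ≤ k) {Y : ℝ} (c c' : Bool) (Ae Be : ℕ)
    (g : List Let → ℝ) :
    ∑ w ∈ TT Λ k lmax Y c c' Ae Be, g w =
      ∑ t ∈ Finset.range (lmax + 1) ×ˢ ((Finset.univ : Finset Bool) ×ˢ
        (Finset.range (k * Λ + 1) ×ˢ Finset.range (k * Λ + 1))),
        ∑ w ∈ (TT Λ k lmax Y c c' Ae Be).filter (fun w => M3_P k Y c w t), g w := by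
  apply M3_split
  intro w hw
  unfold TT at hw
  rw [Finset.mem_filter] at hw
  obtain ⟨hwW, _, _, _, l, hl, hst, hcn⟩ := hw
  have ht := take_mem_W hwW (hl.trans hlk)
  have hs := M3_sle ht.1
  have hm : l * Λ ≤ k * Λ := Nat.mul_le_mul_right _ (hl.trans hlk)
  refine ⟨(l, endc c (w.take l), sA (w.take l), sB (w.take l)), ?_, ?_, ?_⟩
  · simp only [Finset.mem_product, Finset.mem_range, Finset.mem_univ, true_and]
    omega
  · exact ⟨hst, rfl, rfl, rfl, hcn⟩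
  · rintro ⟨l', c₁, A₁, B₁⟩ _ ⟨h1, h2, h3, h4, _⟩
    simp only at h1 h2 h3 h4
    have : l' = l := M3_stop_unique h1 hst
    subst this
    rw [h2, h3, h4]

open Classical in
/-- prefixes -/
private noncomputable def M3_S0 (Λ k : ℕ) (Y : ℝ) (c : Bool) (t : ℕ × Bool × ℕ × ℕ) :
    Finset (List Let) :=
  (W Λ t.1 c).filter (fun w => endc c w = t.2.1 ∧ sA w = t.2.2.1 ∧ sB w = t.2.2.2 ∧
    cnum w < 5 ^ k ∧ Y < (D w : ℝ) ∧ ∀ l' < t.1, (D (w.take l') : ℝ) ≤ Y)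

/-- terminal function -/
private def M3_psi (c' : Bool) (Ae Be : ℕ) (c : Bool) (A B : ℕ) : ℝ :=
  if c = c' ∧ A = Ae ∧ B = Be then 1 else 0

open Classical in
private lemma M3_part_eq {Λ k lmax n' : ℕ} {Y : ℝ} (c c' : Bool) (Ae Be : ℕ)
    (t : ℕ × Bool × ℕ × ℕ) (ht : t.1 ≤ lmax) (hk : t.1 + n' = k)
    (g : List Let → ℂ) :
    ∑ w ∈ (TT Λ k lmax Y c c' Ae Be).filter (fun w => M3_P k Y c w t), g w =
      ∑ w₀ ∈ M3_S0 Λ k Y c t, ∑ w ∈ W Λ n' t.2.1,
        (M3_psi c' Ae Be (endc t.2.1 w) (t.2.2.1 + sA w) (t.2.2.2 + sB w) : ℂ) *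
          g (w₀ ++ w) := by
  unfold TT M3_S0
  rw [Finset.filter_filter, Finset.sum_filter, Finset.sum_filter]
  conv_lhs => rw [← hk]
  rw [sum_W_add]
  refine Finset.sum_congr rfl fun w₁ hw₁ => ?_
  have hlen := length_of_mem_W hw₁
  have htake : ∀ w₂ : List Let, (w₁ ++ w₂).take t.1 = w₁ := by
    intro w₂
    rw [← hlen, List.take_left']
    rfl
  have htake' : ∀ (w₂ : List Let), ∀ l' < t.1, (w₁ ++ w₂).take l' = w₁.take l' := by
    intro w₂ l' hl'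
    rw [List.take_append_of_le_length (by omega)]
  split_ifs with hc
  · obtain ⟨h1, h2, h3, h4, h5, h6⟩ := hc
    rw [h1]
    refine Finset.sum_congr rfl fun w₂ _ => ?_
    unfold M3_psi
    have hP : M3_P k Y c (w₁ ++ w₂) t := by
      refine ⟨⟨?_, ?_⟩, ?_, ?_, ?_, ?_⟩
      · rw [htake]; exact h5
      · intro l' hl'
        rw [htake' w₂ l' hl']; exact h6 l' hl'
      · rw [htake]; exact h1
      · rw [htake]; exact h2
      · rw [htake]; exact h3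
      · rw [htake]; exact h4
    have hT : Tm k lmax Y (w₁ ++ w₂) := ⟨t.1, ht, hP.1, hP.2.2.2.2⟩
    by_cases hcond : endc t.2.1 w₂ = c' ∧ t.2.2.1 + sA w₂ = Ae ∧ t.2.2.2 + sB w₂ = Be
    · rw [if_pos hcond, if_pos]
      · simp
      · subst hk
        refine ⟨⟨?_, ?_, ?_, hT⟩, hP⟩
        · rw [endc_append, h1]; exact hcond.1
        · rw [sA_append, h2]; exact hcond.2.1
        · rw [sB_append, h3]; exact hcond.2.2
    · rw [if_neg hcond, if_neg]
      · simp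
      · rintro ⟨⟨e1, e2, e3, _⟩, _⟩
        apply hcond
        rw [endc_append, h1] at e1
        rw [sA_append, h2] at e2
        rw [sB_append, h3] at e3
        exact ⟨e1, e2, e3⟩
  · refine Finset.sum_eq_zero fun w₂ _ => ?_
    rw [if_neg]
    rintro ⟨_, ⟨⟨e1, e2⟩, e3, e4, e5, e6⟩⟩
    subst hk
    apply hc
    rw [htake] at e1 e3 e4 e5 e6
    refine ⟨e3, e4, e5, e6, e1, ?_⟩
    intro l' hl'
    rw [← htake' w₂ l' hl']
    exact e2 l' hl'

private lemma M3_card {Λ k : ℕ} {Y : ℝ} (hY : 0 < Y) (c : Bool) (t : ℕ × Bool × ℕ × ℕ) :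
    ((M3_S0 Λ k Y c t).card : ℝ) / (2 ^ t.2.2.1 * 3 ^ t.2.2.2) ^ 2 ≤ 4 / 3 / Y := by
  have hpos : (0 : ℝ) < 2 ^ t.2.2.1 * 3 ^ t.2.2.2 := by positivity
  rcases (M3_S0 Λ k Y c t).eq_empty_or_nonempty with he | ⟨w, hw⟩
  · rw [he]
    simp only [Finset.card_empty, Nat.cast_zero, zero_div]
    positivity
  · have hD : ∀ w ∈ M3_S0 Λ k Y c t, (D w : ℝ) = 2 ^ t.2.2.1 * 3 ^ t.2.2.2 := by
      intro w hw
      unfold M3_S0 at hw
      rw [Finset.mem_filter] at hw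
      rw [D_eq, hw.2.2.1, hw.2.2.2.1]
      push_cast
      ring
    have hYD : Y < 2 ^ t.2.2.1 * 3 ^ t.2.2.2 := by
      rw [← hD w hw]
      unfold M3_S0 at hw
      rw [Finset.mem_filter] at hw
      exact hw.2.2.2.2.2.1
    have h1 : ((M3_S0 Λ k Y c t).card : ℝ) / (2 ^ t.2.2.1 * 3 ^ t.2.2.2) ≤ 4 / 3 := by
      calc ((M3_S0 Λ k Y c t).card : ℝ) / (2 ^ t.2.2.1 * 3 ^ t.2.2.2)
          = ∑ w ∈ M3_S0 Λ k Y c t, 1 / (D w : ℝ) := by
            rw [Finset.sum_congr rfl (fun w hw => by rw [hD w hw])]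
            rw [Finset.sum_const, nsmul_eq_mul]
            ring
        _ ≤ ∑ w ∈ W Λ t.1 c, 1 / (D w : ℝ) := by
            unfold M3_S0
            refine Finset.sum_le_sum_of_subset_of_nonneg (Finset.filter_subset _ _) fun w _ _ => ?_
            positivity
        _ ≤ 4 / 3 := sum_W_le Λ t.1 c
    calc ((M3_S0 Λ k Y c t).card : ℝ) / (2 ^ t.2.2.1 * 3 ^ t.2.2.2) ^ 2
        = (((M3_S0 Λ k Y c t).card : ℝ) / (2 ^ t.2.2.1 * 3 ^ t.2.2.2)) *
            (1 / (2 ^ t.2.2.1 * 3 ^ t.2.2.2)) := by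
          field_simp
      _ ≤ (4 / 3) * (1 / Y) := by
          apply mul_le_mul h1 _ (by positivity) (by norm_num)
          exact one_div_le_one_div_of_le hY hYD.le
      _ = 4 / 3 / Y := by ring

open Classical in
/-- the bound for one part -/
private lemma M3_one {Λ k r lmax : ℕ} (hr : r ≤ k) (hl : lmax ≤ k - r) {Y q : ℝ} (hY : 0 < Y)
    (hq : 0 ≤ q)
    (hFD : ∀ ψ : Bool → ℕ → ℕ → ℂ, (∀ c A B, ‖ψ c A B‖ ≤ v c) → ∀ R, k - r - lmax ≤ R →
      QB Λ k ψ R q)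
    (c c' : Bool) (Ae Be : ℕ) (t : ℕ × Bool × ℕ × ℕ) (ht : t.1 ≤ lmax)
    (f : ZMod (5 ^ k) → ℝ)
    (hf : ∀ y, f y = ∑ w ∈ (TT Λ k lmax Y c c' Ae Be).filter (fun w => M3_P k Y c w t),
      if Fm k w = y then 1 / (D w : ℝ) else 0) :
    ∑ y : ZMod (5 ^ k), |f y - 1 / 5 ^ r *
        ∑ y' ∈ Finset.univ.filter (fun y' : ZMod (5 ^ k) =>
          (5 : ZMod (5 ^ k)) ^ r * (y' - y) = 0), f y'| ≤ 8 * q * Real.sqrt (5 ^ k / Y) := by
  obtain ⟨n', hn'⟩ : ∃ n', t.1 + n' = k := ⟨k - t.1, by omega⟩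
  have h1 := fine_part k r hr f
  have hpsi : ∀ c A B, |M3_psi c' Ae Be c A B| ≤ v c := by
    intro c A B
    unfold M3_psi
    have := v_ge c
    split_ifs
    · rw [abs_one]; linarith
    · rw [abs_zero]; linarith
  have h2 := part_bound (Λ := Λ) (k := k) (r := r) (l := t.1) (n' := n') hn' hr (by omega) hq
    (fun ψ hψ R hR => hFD ψ hψ R (by omega)) (M3_psi c' Ae Be) hpsi c t.2.1 t.2.2.1 t.2.2.2
    (M3_S0 Λ k Y c t) (by
      intro w hw
      unfold M3_S0 at hw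
      rw [Finset.mem_filter] at hw
      exact ⟨hw.1, hw.2.1, hw.2.2.1, hw.2.2.2.1, hw.2.2.2.2.1⟩)
  have h3 : ∀ ξ : ZMod (5 ^ k), ∑ y : ZMod (5 ^ k), (f y : ℂ) * chi k (ξ * y) =
      ∑ w₀ ∈ M3_S0 Λ k Y c t, ∑ w ∈ W Λ n' t.2.1, ((1 / ((D w₀ : ℝ) * (D w : ℝ)) *
          M3_psi c' Ae Be (endc t.2.1 w) (t.2.2.1 + sA w) (t.2.2.2 + sB w) : ℝ) : ℂ) *
            chi k (ξ * Fm k (w₀ ++ w)) := by
    intro ξ
    have e1 : ∑ y : ZMod (5 ^ k), (f y : ℂ) * chi k (ξ * y) =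
        ∑ w ∈ (TT Λ k lmax Y c c' Ae Be).filter (fun w => M3_P k Y c w t),
          (1 / (D w : ℂ)) * chi k (ξ * Fm k w) := by
      calc ∑ y : ZMod (5 ^ k), (f y : ℂ) * chi k (ξ * y)
          = ∑ y : ZMod (5 ^ k),
              ∑ w ∈ (TT Λ k lmax Y c c' Ae Be).filter (fun w => M3_P k Y c w t),
                (if Fm k w = y then (1 / (D w : ℂ)) * chi k (ξ * y) else 0) := by
            refine Finset.sum_congr rfl fun y _ => ?_
            rw [hf y]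
            push_cast
            rw [Finset.sum_mul]
            refine Finset.sum_congr rfl fun w _ => ?_
            split_ifs <;> simp
        _ = ∑ w ∈ (TT Λ k lmax Y c c' Ae Be).filter (fun w => M3_P k Y c w t),
              ∑ y : ZMod (5 ^ k),
                (if Fm k w = y then (1 / (D w : ℂ)) * chi k (ξ * y) else 0) := Finset.sum_comm
        _ = _ := by
            refine Finset.sum_congr rfl fun w _ => ?_
            rw [Finset.sum_ite_eq]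
            simp
    rw [e1, M3_part_eq c c' Ae Be t ht hn']
    refine Finset.sum_congr rfl fun w₀ _ => Finset.sum_congr rfl fun w _ => ?_
    rw [D_append]
    push_cast
    ring
  simp only [h3] at h1
  have h4 := h1.trans h2
  have hc := M3_card (Λ := Λ) (k := k) hY c t
  have h5 : (4 * q) ^ 2 * 5 ^ k * ((M3_S0 Λ k Y c t).card : ℝ) /
      (2 ^ t.2.2.1 * 3 ^ t.2.2.2) ^ 2 ≤ (8 * q * Real.sqrt (5 ^ k / Y)) ^ 2 := by
    rw [mul_pow (8 * q), Real.sq_sqrt (by positivity)]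
    calc (4 * q) ^ 2 * 5 ^ k * ((M3_S0 Λ k Y c t).card : ℝ) /
        (2 ^ t.2.2.1 * 3 ^ t.2.2.2) ^ 2
        = ((4 * q) ^ 2 * 5 ^ k) * (((M3_S0 Λ k Y c t).card : ℝ) /
          (2 ^ t.2.2.1 * 3 ^ t.2.2.2) ^ 2) := by ring
      _ ≤ ((4 * q) ^ 2 * 5 ^ k) * (4 / 3 / Y) :=
          mul_le_mul_of_nonneg_left hc (by positivity)
      _ = (16 * (4 / 3)) * (q ^ 2 * (5 ^ k / Y)) := by ring
      _ ≤ 64 * (q ^ 2 * (5 ^ k / Y)) :=
          mul_le_mul_of_nonneg_right (by norm_num) (by positivity)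
      _ = (8 * q) ^ 2 * (5 ^ k / Y) := by ring
  exact (sq_le_sq₀ (Finset.sum_nonneg fun _ _ => abs_nonneg _) (by positivity)).1 (h4.trans h5)

theorem mixing {Λ k r lmax : ℕ} (hr : r ≤ k) (hl : lmax ≤ k - r) {Y q : ℝ} (hY : 0 < Y)
    (hq : 0 ≤ q)
    (hFD : ∀ ψ : Bool → ℕ → ℕ → ℂ, (∀ c A B, ‖ψ c A B‖ ≤ v c) → ∀ R, k - r - lmax ≤ R →
      QB Λ k ψ R q)
    (c c' : Bool) (Ae Be : ℕ) :
    ∑ y : ZMod (5 ^ k), |hh k (TT Λ k lmax Y c c' Ae Be) y - ht k r (TT Λ k lmax Y c c' Ae Be) y|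
      ≤ 5 ^ k * (2 * (lmax + 1) * (k * Λ + 1) ^ 2) * (8 * q * Real.sqrt (5 ^ k / Y)) := by
  classical
  set T := Finset.range (lmax + 1) ×ˢ ((Finset.univ : Finset Bool) ×ˢ
        (Finset.range (k * Λ + 1) ×ˢ Finset.range (k * Λ + 1))) with hT
  set f : (ℕ × Bool × ℕ × ℕ) → ZMod (5 ^ k) → ℝ := fun t y =>
    ∑ w ∈ (TT Λ k lmax Y c c' Ae Be).filter (fun w => M3_P k Y c w t),
      if Fm k w = y then 1 / (D w : ℝ) else 0 with hf
  have hkr : (5 : ℝ) ^ k = 5 ^ (k - r) * 5 ^ r := by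
    rw [← pow_add, Nat.sub_add_cancel hr]
  have hh_eq : ∀ y, hh k (TT Λ k lmax Y c c' Ae Be) y = 5 ^ k * ∑ t ∈ T, f t y := by
    intro y
    unfold hh
    rw [Finset.sum_filter, M3_parts (by omega) c c' Ae Be]
  have ht_eq : ∀ y, ht k r (TT Λ k lmax Y c c' Ae Be) y = 5 ^ k * ∑ t ∈ T, (1 / 5 ^ r *
      ∑ y' ∈ Finset.univ.filter (fun y' : ZMod (5 ^ k) =>
          (5 : ZMod (5 ^ k)) ^ r * (y' - y) = 0), f t y') := by
    intro y
    unfold ht
    rw [Finset.sum_filter, M3_parts (by omega) c c' Ae Be, ← Finset.mul_sum, ← mul_assoc]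
    have e5 : (5 : ℝ) ^ k * (1 / 5 ^ r) = 5 ^ (k - r) := by
      rw [hkr]; field_simp
    rw [e5]
    congr 1
    refine Finset.sum_congr rfl fun t _ => ?_
    simp only [hf]
    rw [Finset.sum_comm]
    refine Finset.sum_congr rfl fun w _ => ?_
    rw [Finset.sum_ite_eq]
    simp only [Finset.mem_filter, Finset.mem_univ, true_and]
  calc ∑ y : ZMod (5 ^ k), |hh k (TT Λ k lmax Y c c' Ae Be) y -
        ht k r (TT Λ k lmax Y c c' Ae Be) y|
      ≤ ∑ y : ZMod (5 ^ k), 5 ^ k * ∑ t ∈ T, |f t y - 1 / 5 ^ r *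
          ∑ y' ∈ Finset.univ.filter (fun y' : ZMod (5 ^ k) =>
            (5 : ZMod (5 ^ k)) ^ r * (y' - y) = 0), f t y'| := by
        refine Finset.sum_le_sum fun y _ => ?_
        rw [hh_eq, ht_eq, ← mul_sub, ← Finset.sum_sub_distrib, abs_mul,
          abs_of_nonneg (by positivity : (0 : ℝ) ≤ 5 ^ k)]
        exact mul_le_mul_of_nonneg_left (Finset.abs_sum_le_sum_abs _ _) (by positivity)
    _ = 5 ^ k * ∑ t ∈ T, ∑ y : ZMod (5 ^ k), |f t y - 1 / 5 ^ r *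
          ∑ y' ∈ Finset.univ.filter (fun y' : ZMod (5 ^ k) =>
            (5 : ZMod (5 ^ k)) ^ r * (y' - y) = 0), f t y'| := by
        rw [← Finset.mul_sum, Finset.sum_comm]
    _ ≤ 5 ^ k * ∑ t ∈ T, 8 * q * Real.sqrt (5 ^ k / Y) := by
        refine mul_le_mul_of_nonneg_left (Finset.sum_le_sum fun t ht => ?_) (by positivity)
        rw [hT, Finset.mem_product, Finset.mem_range] at ht
        exact M3_one hr hl hY hq hFD c c' Ae Be t (by omega) (f t) (fun y => rfl)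
    _ = 5 ^ k * (2 * (lmax + 1) * (k * Λ + 1) ^ 2) * (8 * q * Real.sqrt (5 ^ k / Y)) := by
        rw [Finset.sum_const, nsmul_eq_mul, hT]
        simp only [Finset.card_product, Finset.card_range, Finset.card_univ, Fintype.card_bool]
        push_cast
        ring

end K5
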