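import Pool.Agent.Lib.MP_a4658c_nt.K5.RDefs
import Pool.Agent.Lib.MP_a4658c_nt.K5.K1
import Pool.Agent.Lib.MP_a4658c_nt.K5.A3
import Pool.Agent.Lib.MP_a4658c_nt.K5.S2
import Pool.Agent.Lib.MP_a4658c_nt.K5.S3

/-! Piece R1: harmonic mass of the bad starting points (paper (4)(ii)). -/

namespace K5

private lemma R1_class (c' : Bool) :
    ∃ r : ℕ, ∀ n : ℕ, (U n ∧ cl n = c') ↔ n % 6 = r := by
  cases c'
  · refine ⟨5, fun n => ?_⟩
    unfold U cl
    simp only [decide_eq_false_iff_not]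
    omega
  · refine ⟨1, fun n => ?_⟩
    unfold U cl
    simp only [decide_eq_true_eq]
    omega

open Classical in
/-- The class of `n` in `U` is a residue class mod 6 (1 for `true`, 5 for `false`); the good `n` contain
a full residue class mod `6 D(w)` for every good `(c, w)` (residue_class), and these are disjoint. Use
`class_sum_ge`, `class_sum_le`, `ker_sum_le`, `card_W_le`. -/
lemma bad_mass (Λ k N : ℕ) (c' : Bool) (Pg : List Let → Prop) {E x : ℝ} (hE : 0 ≤ E)
    (hx : 0 < x) (hPg : ∀ w, Pg w → (D w : ℝ) ≤ E) :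
    ∑ n ∈ (Finset.Icc 1 N).filter (fun n => U n ∧ cl n = c' ∧
        ¬ (fword k n ∈ W Λ k (cl (S^[k] n)) ∧ Pg (fword k n))), ker x n
      ≤ 1 / 2 * (1 - ∑ c : Bool, ∑ w ∈ (W Λ k c).filter (fun w => endc c w = c' ∧ Pg w),
          1 / (D w : ℝ)) + (1 + 8 / 3 * E) / x := by
  have h0 : ∀ n, 0 ≤ ker x n := ker_nonneg hx
  have hanti : ∀ m n, 1 ≤ m → m ≤ n → ker x n ≤ ker x m := fun m n hm h => ker_anti hx hm h
  obtain ⟨T, hT⟩ : ∃ T, T = ∑ n ∈ Finset.Icc 1 N, ker x n := ⟨_, rfl⟩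
  have hT0 : 0 ≤ T := by rw [hT]; exact Finset.sum_nonneg fun n _ => h0 n
  have hT3 : T ≤ 3 := by rw [hT]; exact ker_sum_le hx N
  obtain ⟨F, hF⟩ : ∃ F : Bool → Finset (List Let),
      F = fun c => (W Λ k c).filter (fun w => endc c w = c' ∧ Pg w) := ⟨_, rfl⟩
  have hres : ∀ c, ∀ w ∈ F c, ∃ a, a < 6 * D w ∧ ∀ n, n % (6 * D w) = a →
      U n ∧ cl n = c' ∧ fword k n = w ∧ cl (S^[k] n) = c := by
    intro c w hw
    rw [hF] at hw
    obtain ⟨hw1, hw2, -⟩ := Finset.mem_filter.1 hw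
    obtain ⟨a, ha, h⟩ := residue_class hw1
    refine ⟨a, ha, fun n hn => ?_⟩
    obtain ⟨g1, g2, g3, -, g5⟩ := h n hn
    exact ⟨g1, g2.trans hw2, g3, g5⟩
  choose! a ha using hres
  -- the good points
  obtain ⟨P, hP⟩ : ∃ P : Finset (Σ _ : Bool, List Let), P = Finset.univ.sigma F := ⟨_, rfl⟩
  obtain ⟨Cl, hCl⟩ : ∃ Cl : (Σ _ : Bool, List Let) → Finset ℕ, Cl = fun p =>
      (Finset.Icc 1 N).filter (fun n => n % (6 * D p.2) = a p.1 p.2) := ⟨_, rfl⟩
  have hPF : ∀ p ∈ P, p.2 ∈ F p.1 := fun p hp => by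
    rw [hP] at hp
    exact (Finset.mem_sigma.1 hp).2
  have hdisj : (P : Set (Σ _ : Bool, List Let)).PairwiseDisjoint Cl := by
    intro p hp p' hp' hne
    rw [Function.onFun, Finset.disjoint_left]
    intro n hn hn'
    rw [hCl] at hn hn'
    have e1 := (ha p.1 p.2 (hPF p hp)).2 n (Finset.mem_filter.1 hn).2
    have e2 := (ha p'.1 p'.2 (hPF p' hp')).2 n (Finset.mem_filter.1 hn').2
    apply hne
    exact Sigma.ext (e1.2.2.2.symm.trans e2.2.2.2)
      (heq_of_eq (e1.2.2.1.symm.trans e2.2.2.1))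
  have hB : ∑ n ∈ P.biUnion Cl, ker x n ≤ ∑ n ∈ (Finset.Icc 1 N).filter (fun n =>
      (U n ∧ cl n = c') ∧ (fword k n ∈ W Λ k (cl (S^[k] n)) ∧ Pg (fword k n))), ker x n := by
    refine Finset.sum_le_sum_of_subset_of_nonneg ?_ fun n _ _ => h0 n
    intro n hn
    obtain ⟨p, hp, hnp⟩ := Finset.mem_biUnion.1 hn
    rw [hCl] at hnp
    obtain ⟨g1, g2⟩ := Finset.mem_filter.1 hnp
    obtain ⟨g3, g4, g5, g6⟩ := (ha p.1 p.2 (hPF p hp)).2 n g2
    have g7 := hPF p hp
    rw [hF] at g7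
    obtain ⟨g8, g9, g10⟩ := Finset.mem_filter.1 g7
    refine Finset.mem_filter.2 ⟨g1, ⟨g3, g4⟩, ?_, ?_⟩
    · rw [g5, g6]; exact g8
    · rw [g5]; exact g10
  rw [Finset.sum_biUnion hdisj] at hB
  have hlow : ∑ p ∈ P, (1 / (D p.2 : ℝ) * (T / 6) - ker x 1) ≤ ∑ p ∈ P, ∑ n ∈ Cl p, ker x n := by
    refine Finset.sum_le_sum fun p hp => ?_
    have hD := D_pos p.2
    have g1 := class_sum_ge (ker x) h0 hanti (6 * D p.2) (a p.1 p.2) N (by omega)
      (ha p.1 p.2 (hPF p hp)).1
    rw [hCl]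
    rw [← hT] at g1
    have hD' : (0 : ℝ) < D p.2 := by exact_mod_cast hD
    have e1 : 1 / (((6 * D p.2 : ℕ)) : ℝ) * T = 1 / (D p.2 : ℝ) * (T / 6) := by
      push_cast
      field_simp
    rw [e1] at g1
    exact g1
  rw [Finset.sum_sub_distrib, ← Finset.sum_mul, Finset.sum_const, nsmul_eq_mul] at hlow
  -- sums over pairs
  obtain ⟨Sg, hSg⟩ : ∃ Sg : ℝ, Sg = ∑ c : Bool, ∑ w ∈ (W Λ k c).filter
      (fun w => endc c w = c' ∧ Pg w), 1 / (D w : ℝ) := ⟨_, rfl⟩
  have hSg' : ∑ p ∈ P, 1 / (D p.2 : ℝ) = Sg := by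
    rw [hP, Finset.sum_sigma, hSg, hF]
  have hcard : (P.card : ℝ) ≤ 8 / 3 * E := by
    have g1 : P.card = ∑ c : Bool, (F c).card := by rw [hP, Finset.card_sigma]
    have g2 : ∀ c, ((F c).card : ℝ) ≤ 4 / 3 * E := by
      intro c
      refine le_trans ?_ (card_W_le Λ k c hE)
      have : (F c).card ≤ ((W Λ k c).filter (fun w => (D w : ℝ) ≤ E)).card := by
        apply Finset.card_le_card
        intro w hw
        rw [hF] at hw
        obtain ⟨g3, g4, g5⟩ := Finset.mem_filter.1 hw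
        exact Finset.mem_filter.2 ⟨g3, hPg w g5⟩
      exact_mod_cast this
    rw [g1, Fintype.sum_bool]
    push_cast
    linarith [g2 true, g2 false]
  have hSg1 : Sg ≤ 1 := by
    refine le_trans ?_ (col_le Λ k c')
    rw [hSg]
    refine Finset.sum_le_sum fun c _ => ?_
    refine Finset.sum_le_sum_of_subset_of_nonneg ?_ fun w _ _ => by positivity
    intro w hw
    obtain ⟨g3, g4, g5⟩ := Finset.mem_filter.1 hw
    exact Finset.mem_filter.2 ⟨g3, g4⟩
  -- the whole class
  obtain ⟨r, hr⟩ := R1_class c'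
  have hA : ∑ n ∈ (Finset.Icc 1 N).filter (fun n => U n ∧ cl n = c'), ker x n ≤
      T / 6 + ker x 1 := by
    have g1 := class_sum_le (ker x) h0 hanti 6 r N (by norm_num)
    have g2 : (Finset.Icc 1 N).filter (fun n => U n ∧ cl n = c') =
        (Finset.Icc 1 N).filter (fun n => n % 6 = r) :=
      Finset.filter_congr fun n _ => hr n
    rw [g2]
    refine g1.trans (le_of_eq ?_)
    rw [← hT]
    push_cast
    ring
  have hsplit := Finset.sum_filter_add_sum_filter_not
    ((Finset.Icc 1 N).filter (fun n => U n ∧ cl n = c'))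
    (fun n => fword k n ∈ W Λ k (cl (S^[k] n)) ∧ Pg (fword k n)) (fun n => ker x n)
  rw [Finset.filter_filter, Finset.filter_filter] at hsplit
  have hL : (Finset.Icc 1 N).filter (fun n => U n ∧ cl n = c' ∧
        ¬ (fword k n ∈ W Λ k (cl (S^[k] n)) ∧ Pg (fword k n))) =
      (Finset.Icc 1 N).filter (fun n => (U n ∧ cl n = c') ∧
        ¬ (fword k n ∈ W Λ k (cl (S^[k] n)) ∧ Pg (fword k n))) :=
    Finset.filter_congr fun n _ => by rw [and_assoc]
  rw [hL, ← hSg]
  rw [hSg'] at hlow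
  have hk1 : ker x 1 ≤ 1 / x := ker_le_inv hx 1
  have hk0 : 0 ≤ ker x 1 := h0 1
  have hfin1 : (P.card : ℝ) * ker x 1 ≤ 8 / 3 * E * ker x 1 :=
    mul_le_mul_of_nonneg_right hcard hk0
  have hfin2 : (1 + 8 / 3 * E) * ker x 1 ≤ (1 + 8 / 3 * E) / x := by
    calc (1 + 8 / 3 * E) * ker x 1 ≤ (1 + 8 / 3 * E) * (1 / x) :=
          mul_le_mul_of_nonneg_left hk1 (by positivity)
      _ = _ := by ring
  have hfin3 : T / 6 * (1 - Sg) ≤ 1 / 2 * (1 - Sg) :=
    mul_le_mul_of_nonneg_right (by linarith) (by linarith)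
  nlinarith

open Classical in
/-- The deficit of the good words. -/
lemma good_deficit (Λ k lmax : ℕ) (hl : lmax ≤ k) (hΛ : 1 ≤ Λ) {Y K E : ℝ} (hY : 0 ≤ Y)
    (hK : 0 < K) (hE : 0 < E) (c' : Bool) :
    1 - ∑ c : Bool, ∑ w ∈ (W Λ k c).filter (fun w => endc c w = c' ∧ Pgood lmax Y K E w),
        1 / (D w : ℝ)
      ≤ k * (2 * (1 / 2 : ℝ) ^ Λ) + 6 * Y * (0.81 / 5) ^ lmax + 40 / K
        + 2 * (5 ^ k / Real.sqrt E) := by
  have h1 := col_ge Λ k hΛ c'
  have h2 : ∀ c : Bool, ∑ w ∈ (W Λ k c).filter (fun w => endc c w = c'), 1 / (D w : ℝ) ≤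
      ∑ w ∈ (W Λ k c).filter (fun w => endc c w = c' ∧ Pgood lmax Y K E w), 1 / (D w : ℝ) +
        (3 * Y * (0.81 / 5) ^ lmax + 20 / K + 5 ^ k / Real.sqrt E) := by
    intro c
    have g1 := mass_small Λ k lmax hl c hY
    have g2 := mass_F Λ k c hK
    have g3 := mass_large Λ k c hE
    have g4 : ∑ w ∈ (W Λ k c).filter (fun w => endc c w = c'), 1 / (D w : ℝ) ≤
        ∑ w ∈ (W Λ k c).filter (fun w => endc c w = c' ∧ Pgood lmax Y K E w), 1 / (D w : ℝ) +
        (∑ w ∈ (W Λ k c).filter (fun w => (D (w.take lmax) : ℝ) ≤ Y), 1 / (D w : ℝ) +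
        ∑ w ∈ (W Λ k c).filter (fun w => K < Fr w), 1 / (D w : ℝ) +
        ∑ w ∈ (W Λ k c).filter (fun w => E < (D w : ℝ)), 1 / (D w : ℝ)) := by
      rw [Finset.sum_filter, Finset.sum_filter, Finset.sum_filter, Finset.sum_filter,
        Finset.sum_filter, ← Finset.sum_add_distrib, ← Finset.sum_add_distrib,
        ← Finset.sum_add_distrib]
      refine Finset.sum_le_sum fun w _ => ?_
      have hD : (0 : ℝ) ≤ 1 / (D w : ℝ) := by positivity
      by_cases e1 : endc c w = c'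
      · by_cases e2 : (D (w.take lmax) : ℝ) ≤ Y
        · rw [if_pos e1, if_pos e2]
          have : (0 : ℝ) ≤ if endc c w = c' ∧ Pgood lmax Y K E w then 1 / (D w : ℝ) else 0 := by
            split_ifs
            · exact hD
            · exact le_rfl
          have : (0 : ℝ) ≤ if K < Fr w then 1 / (D w : ℝ) else 0 := by
            split_ifs
            · exact hD
            · exact le_rfl
          have : (0 : ℝ) ≤ if E < (D w : ℝ) then 1 / (D w : ℝ) else 0 := by
            split_ifs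
            · exact hD
            · exact le_rfl
          linarith
        · by_cases e3 : K < Fr w
          · rw [if_pos e1, if_neg e2, if_pos e3]
            have : (0 : ℝ) ≤ if endc c w = c' ∧ Pgood lmax Y K E w then 1 / (D w : ℝ) else 0 := by
              split_ifs
              · exact hD
              · exact le_rfl
            have : (0 : ℝ) ≤ if E < (D w : ℝ) then 1 / (D w : ℝ) else 0 := by
              split_ifs
              · exact hD
              · exact le_rfl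
            linarith
          · by_cases e4 : E < (D w : ℝ)
            · rw [if_pos e1, if_neg e2, if_neg e3, if_pos e4]
              have : (0 : ℝ) ≤ if endc c w = c' ∧ Pgood lmax Y K E w then 1 / (D w : ℝ)
                  else 0 := by
                split_ifs
                · exact hD
                · exact le_rfl
              linarith
            · have e5 : Pgood lmax Y K E w := ⟨not_le.1 e2, not_lt.1 e3, not_lt.1 e4⟩
              rw [if_pos e1, if_pos ⟨e1, e5⟩, if_neg e2, if_neg e3, if_neg e4]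
              linarith
      · rw [if_neg e1]
        have : (0 : ℝ) ≤ if endc c w = c' ∧ Pgood lmax Y K E w then 1 / (D w : ℝ) else 0 := by
          split_ifs
          · exact hD
          · exact le_rfl
        have : (0 : ℝ) ≤ if (D (w.take lmax) : ℝ) ≤ Y then 1 / (D w : ℝ) else 0 := by
          split_ifs
          · exact hD
          · exact le_rfl
        have : (0 : ℝ) ≤ if K < Fr w then 1 / (D w : ℝ) else 0 := by
          split_ifs
          · exact hD
          · exact le_rfl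
        have : (0 : ℝ) ≤ if E < (D w : ℝ) then 1 / (D w : ℝ) else 0 := by
          split_ifs
          · exact hD
          · exact le_rfl
        linarith
    linarith
  rw [Fintype.sum_bool] at h1 ⊢
  have h3 := h2 true
  have h4 := h2 false
  have h5 : 40 / K = 20 / K + 20 / K := by ring
  rw [h5]
  linarith

/-- Good words have a good stopped prefix. -/
lemma good_Tm {Λ k lmax : ℕ} {c : Bool} {w : List Let} (hw : w ∈ W Λ k c) {Y K E : ℝ}
    (hY : 1 ≤ Y) (hK : 0 ≤ K) (hKY : K * (Y * 6 ^ Λ) < 5 ^ k) (h : Pgood lmax Y K E w) :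
    Tm k lmax Y w := by
  classical
  obtain ⟨h1, h2, -⟩ := h
  have hex : ∃ l : ℕ, Y < (D (w.take l) : ℝ) := ⟨lmax, h1⟩
  obtain ⟨l, hl, hlm⟩ : ∃ l : ℕ, Y < (D (w.take l) : ℝ) ∧ ∀ l' < l, (D (w.take l') : ℝ) ≤ Y :=
    ⟨Nat.find hex, Nat.find_spec hex, fun l' hl' => not_lt.1 (Nat.find_min hex hl')⟩
  have hll : l ≤ lmax := by
    by_contra hcon
    have := hlm lmax (not_le.1 hcon)
    linarith
  have hl0 : l ≠ 0 := by
    rintro rfl
    simp at hl
    linarith
  obtain ⟨j, rfl⟩ := Nat.exists_eq_succ_of_ne_zero hl0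
  have hlen := length_of_mem_W hw
  have hjk : j + 1 ≤ k := by
    by_contra hcon
    have g1 := hlm j (Nat.lt_succ_self j)
    rw [List.take_of_length_le (by omega)] at g1
    rw [List.take_of_length_le (by omega)] at hl
    linarith
  refine ⟨j + 1, hll, ⟨hl, hlm⟩, ?_⟩
  have g1 := (take_mem_W hw hjk).1
  have g2 := take_mem_W g1 (Nat.le_succ j)
  rw [List.take_take, min_eq_left (Nat.le_succ j)] at g2
  obtain ⟨-, g3⟩ := g2
  rw [show j + 1 - j = 0 + 1 by omega, mem_W_succ] at g3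
  obtain ⟨x, hx, w', hw', g4⟩ := g3
  rw [mem_W_zero] at hw'
  subst hw'
  have g5 : (D (w.take (j + 1)) : ℝ) ≤ Y * 6 ^ Λ := by
    have e1 : w.take (j + 1) = (w.take (j + 1)).take j ++ (w.take (j + 1)).drop j :=
      (List.take_append_drop j _).symm
    have e2 : (w.take (j + 1)).take j = w.take j := by
      rw [List.take_take, min_eq_left (Nat.le_succ j)]
    rw [e2, g4] at e1
    rw [e1, D_append]
    have e3 : D [x] = dd x := by simp
    have e4 : (dd x : ℝ) ≤ 6 ^ Λ := by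
      rw [mem_L] at hx
      obtain ⟨⟨-, hx1, hx2⟩, -⟩ := hx
      have : dd x ≤ 6 ^ Λ := by
        unfold dd
        calc 2 ^ x.1 * 3 ^ x.2 ≤ 2 ^ Λ * 3 ^ Λ := Nat.mul_le_mul
              (Nat.pow_le_pow_right (by norm_num) hx1) (Nat.pow_le_pow_right (by norm_num) hx2)
          _ = 6 ^ Λ := by rw [← mul_pow]; norm_num
      exact_mod_cast this
    rw [e3]
    push_cast
    exact mul_le_mul (hlm j (Nat.lt_succ_self j)) e4 (by positivity) (by linarith)
  have g6 : Fr (w.take (j + 1)) ≤ K := by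
    have e1 := Fr_append (w.take (j + 1)) (w.drop (j + 1))
    rw [List.take_append_drop] at e1
    have e2 : 0 ≤ 5 ^ (w.take (j + 1)).length / (D (w.take (j + 1)) : ℝ) *
        Fr (w.drop (j + 1)) := mul_nonneg (by positivity) (Fr_nonneg _)
    linarith
  have hD : (0 : ℝ) < D (w.take (j + 1)) := by exact_mod_cast D_pos _
  have g7 : (cnum (w.take (j + 1)) : ℝ) < 5 ^ k := by
    have e1 : (cnum (w.take (j + 1)) : ℝ) = Fr (w.take (j + 1)) * D (w.take (j + 1)) := by
      unfold Fr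
      field_simp
    rw [e1]
    calc Fr (w.take (j + 1)) * D (w.take (j + 1)) ≤ K * (Y * 6 ^ Λ) :=
          mul_le_mul g6 g5 hD.le hK
      _ < 5 ^ k := hKY
  exact_mod_cast g7

end K5
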