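import Pool.Agent.Lib.MP_a4658c_nt.K5.Defs

/-! Piece A1: arithmetic of one step of the accelerated map. -/

set_option linter.unusedVariables false

namespace K5

private lemma A1_dvd (n : ℕ) : dd (letter n) ∣ 5 * n + 1 := by
  unfold dd letter
  apply Nat.Coprime.mul_dvd_of_dvd_of_dvd
  · exact Nat.Coprime.pow _ _ (by norm_num)
  · exact pow_padicValNat_dvd
  · exact pow_padicValNat_dvd

lemma dd_letter_mul_S {n : ℕ} (hn : U n) : dd (letter n) * S n = 5 * n + 1 :=
  Nat.mul_div_cancel' (A1_dvd n)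

/-- powers of two modulo three -/
private lemma A1_two_pow (a : ℕ) : 2 ^ a % 3 = if a % 2 = 1 then 2 else 1 := by
  induction a with
  | zero => simp
  | succ a ih =>
    rw [pow_succ, Nat.mul_mod, ih]
    split_ifs with h1 h2 h2
    · omega
    · rfl
    · rfl
    · omega

private lemma A1_val {a b m : ℕ} (hm : U m) :
    padicValNat 2 (2 ^ a * 3 ^ b * m) = a ∧ padicValNat 3 (2 ^ a * 3 ^ b * m) = b := by
  obtain ⟨h1, h2⟩ := hm
  have hm0 : m ≠ 0 := by rintro rfl; simp at h1
  have h3 : padicValNat 2 m = 0 := padicValNat.eq_zero_of_not_dvd (by omega)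
  have h4 : padicValNat 3 m = 0 := padicValNat.eq_zero_of_not_dvd (by omega)
  have h5 : padicValNat 2 (3 ^ b) = 0 := by
    apply padicValNat.eq_zero_of_not_dvd
    intro h
    have := Nat.prime_two.dvd_of_dvd_pow h
    omega
  have h6 : padicValNat 3 (2 ^ a) = 0 := by
    apply padicValNat.eq_zero_of_not_dvd
    intro h
    have := Nat.prime_three.dvd_of_dvd_pow h
    omega
  have : Fact (Nat.Prime 2) := ⟨Nat.prime_two⟩
  have : Fact (Nat.Prime 3) := ⟨Nat.prime_three⟩
  constructor
  · rw [padicValNat.mul (by positivity) hm0, padicValNat.mul (by positivity) (by positivity), h3,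
      h5, padicValNat.prime_pow]
    rfl
  · rw [padicValNat.mul (by positivity) hm0, padicValNat.mul (by positivity) (by positivity), h4,
      h6, padicValNat.prime_pow]
    omega

lemma U_S {n : ℕ} (hn : U n) : U (S n) := by
  have : Fact (Nat.Prime 2) := ⟨Nat.prime_two⟩
  have : Fact (Nat.Prime 3) := ⟨Nat.prime_three⟩
  have h := dd_letter_mul_S hn
  have hne : 5 * n + 1 ≠ 0 := by omega
  constructor
  · by_contra hcon
    have h2 : 2 ∣ S n := by omega
    obtain ⟨s, hs⟩ := h2
    have h3 := pow_succ_padicValNat_not_dvd (p := 2) hne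
    apply h3
    refine ⟨3 ^ (padicValNat 3 (5 * n + 1)) * s, ?_⟩
    conv_lhs => rw [← h, hs]
    unfold dd letter
    simp only
    ring
  · intro hcon
    have h2 : 3 ∣ S n := by omega
    obtain ⟨s, hs⟩ := h2
    have h3 := pow_succ_padicValNat_not_dvd (p := 3) hne
    apply h3
    refine ⟨2 ^ (padicValNat 2 (5 * n + 1)) * s, ?_⟩
    conv_lhs => rw [← h, hs]
    unfold dd letter
    simp only
    ring

lemma U_iter {n : ℕ} (hn : U n) (i : ℕ) : U (S^[i] n) := by
  induction i with
  | zero => simpa using hn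
  | succ i ih => rw [Function.iterate_succ_apply']; exact U_S ih

private lemma A1_b_pos {n : ℕ} : 1 ≤ (letter n).2 ↔ n % 3 = 1 := by
  have : Fact (Nat.Prime 3) := ⟨Nat.prime_three⟩
  unfold letter
  simp only
  constructor
  · intro h
    have h1 : 3 ∣ 5 * n + 1 := by
      refine dvd_trans ?_ (pow_padicValNat_dvd (p := 3) (n := 5 * n + 1))
      exact dvd_pow_self 3 (by omega)
    omega
  · intro h
    exact one_le_padicValNat_of_dvd (by omega) (by omega)

/-- The letter of `n` is valid from the class of `S n` (with any bound above its exponents). -/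
lemma letter_mem_L {n Λ : ℕ} (hn : U n) (h1 : (letter n).1 ≤ Λ) (h2 : (letter n).2 ≤ Λ) :
    letter n ∈ L Λ (cl (S n)) := by
  have : Fact (Nat.Prime 2) := ⟨Nat.prime_two⟩
  rw [mem_L]
  refine ⟨⟨?_, h1, h2⟩, ?_⟩
  · exact one_le_padicValNat_of_dvd (p := 2) (by omega) (by have := hn.1; omega)
  · by_cases hb : 1 ≤ (letter n).2
    · exact Or.inl hb
    · right
      have hn3 : n % 3 = 2 := by
        have h3 := hn.2
        have h4 := mt A1_b_pos.2 hb
        omega
      have hb0 : (letter n).2 = 0 := by omega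
      have h := dd_letter_mul_S hn
      unfold dd at h
      rw [hb0, pow_zero, mul_one] at h
      have h5 : 2 ^ (letter n).1 * S n % 3 = 2 := by rw [h]; omega
      rw [Nat.mul_mod, A1_two_pow] at h5
      unfold cl
      rw [decide_eq_true_iff]
      have h6 : S n % 3 < 3 := Nat.mod_lt _ (by norm_num)
      split_ifs at h5 with h7
      · constructor
        · intro _; omega
        · intro _; exact h7
      · constructor
        · intro h8; exact absurd h8 h7
        · intro h8; omega

lemma nx_letter {n : ℕ} (hn : U n) : nx (letter n) = cl n := by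
  unfold nx cl
  exact decide_eq_decide.2 A1_b_pos

/-- One backward step. -/
lemma back_step {Λ m n : ℕ} {l : Let} (hm : U m) (hl : l ∈ L Λ (cl m)) (h : dd l * m = 5 * n + 1) :
    U n ∧ cl n = nx l ∧ S n = m ∧ letter n = l := by
  rw [mem_L] at hl
  obtain ⟨⟨h1, h2, h3⟩, h4⟩ := hl
  have hm2 := hm.2
  have e : 2 ^ l.1 * 3 ^ l.2 * m = 5 * n + 1 := h
  have hlet : letter n = l := by
    unfold letter
    rw [← e, (A1_val hm).1, (A1_val hm).2]
  have hodd : n % 2 = 1 := by
    obtain ⟨a, ha⟩ : ∃ a, l.1 = a + 1 := ⟨l.1 - 1, by omega⟩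
    have h5 : 2 ∣ 5 * n + 1 := by
      rw [← e, ha, pow_succ]
      exact ⟨2 ^ a * 3 ^ l.2 * m, by ring⟩
    omega
  have hmod : n % 3 ≠ 0 := by
    by_cases hb : 1 ≤ l.2
    · have h5 : n % 3 = 1 := A1_b_pos.1 (by rw [hlet]; exact hb)
      omega
    · have hb0 : l.2 = 0 := by omega
      have h6 : (l.1 % 2 = 1 ↔ cl m = true) := by
        rcases h4 with h4 | h4
        · exact absurd h4 hb
        · exact h4
      rw [hb0, pow_zero, mul_one] at e
      unfold cl at h6
      rw [decide_eq_true_iff] at h6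
      have h7 : 2 ^ l.1 * m % 3 = 2 := by
        rw [Nat.mul_mod, A1_two_pow]
        have h9 : m % 3 < 3 := Nat.mod_lt _ (by norm_num)
        split_ifs with h8
        · rw [h6.1 h8]
        · have h10 : m % 3 = 2 := by
            have := mt h6.2 h8
            omega
          rw [h10]
      rw [e] at h7
      omega
  have hU : U n := ⟨hodd, hmod⟩
  refine ⟨hU, ?_, ?_, hlet⟩
  · rw [← nx_letter hU, hlet]
  · unfold S
    rw [hlet, ← h]
    exact Nat.mul_div_cancel_left _ (dd_pos l)

/-- In a backward step integrality mod 5 is the only condition. -/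
lemma dd_mul_pos {m : ℕ} {l : Let} {Λ : ℕ} {c : Bool} (hm : U m) (hl : l ∈ L Λ c) :
    2 ≤ dd l * m := by
  rw [mem_L] at hl
  have h1 := hl.1.1
  have h2 := hm.1
  have h3 : 2 ≤ dd l := by
    unfold dd
    calc 2 = 2 ^ 1 * 1 := by norm_num
      _ ≤ 2 ^ l.1 * 3 ^ l.2 :=
        Nat.mul_le_mul (Nat.pow_le_pow_right (by norm_num) h1) (Nat.one_le_pow _ _ (by norm_num))
  have h4 : 1 ≤ m := by omega
  calc 2 = 2 * 1 := by norm_num
    _ ≤ dd l * m := Nat.mul_le_mul h3 h4

/-- Letters of `n` are not too big: `2^a 3^b ≤ 5 n + 1`. -/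
lemma dd_letter_le {n : ℕ} (hn : U n) : dd (letter n) ≤ 5 * n + 1 :=
  Nat.le_of_dvd (by omega) (A1_dvd n)

end K5
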