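import Mathlib

/-! Definitions for the Kakutani 5x+1 project (MP_a4658c_nt), see /team-store/MP_a4658c_paper.md -/

namespace K5

/-- The Kakutani map. -/
def kak (m : ℕ) : ℕ := if 2 ∣ m then m / 2 else if 3 ∣ m then m / 3 else 5 * m + 1

/-- Letters `(a, b)`, standing for the divisor `2^a 3^b`. -/
abbrev Let := ℕ × ℕ

/-- The divisor of a letter. -/
def dd (l : Let) : ℕ := 2 ^ l.1 * 3 ^ l.2

/-- The letter of `n`: the exponents of 2 and 3 in `5 n + 1`. -/
def letter (n : ℕ) : Let := (padicValNat 2 (5 * n + 1), padicValNat 3 (5 * n + 1))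

/-- The accelerated map. -/
def S (n : ℕ) : ℕ := (5 * n + 1) / dd (letter n)

/-- Integers coprime to 6. -/
def U (n : ℕ) : Prop := n % 2 = 1 ∧ n % 3 ≠ 0

instance : DecidablePred U := fun n => by unfold U; infer_instance

/-- The class of `n`: `true` if `n ≡ 1 mod 3` (class 1), `false` otherwise (class 2). -/
def cl (n : ℕ) : Bool := decide (n % 3 = 1)

/-- The class reached by a letter (going backwards). -/
def nx (l : Let) : Bool := decide (1 ≤ l.2)

/-- Letters valid from class `c` with both exponents at most `Λ`. -/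
def L (Λ : ℕ) (c : Bool) : Finset Let :=
  ((Finset.Icc 1 Λ) ×ˢ (Finset.range (Λ + 1))).filter
    (fun l => 1 ≤ l.2 ∨ (l.1 % 2 = 1 ↔ c = true))

/-- Words of length `k` valid from class `c` (first letter nearest to `m = S^k n`). -/
def W (Λ : ℕ) : ℕ → Bool → Finset (List Let)
  | 0, _ => {[]}
  | k + 1, c => (L Λ c).biUnion (fun l => (W Λ k (nx l)).image (fun w => l :: w))

/-- Product of the divisors. -/
def D : List Let → ℕ
  | [] => 1
  | l :: w => dd l * D w

/-- The affine constant: `5^k n + cnum w = D w * m`. -/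
def cnum : List Let → ℕ
  | [] => 0
  | _ :: w => D w + 5 * cnum w

/-- Total exponent of 2. -/
def sA : List Let → ℕ
  | [] => 0
  | l :: w => l.1 + sA w

/-- Total exponent of 3. -/
def sB : List Let → ℕ
  | [] => 0
  | l :: w => l.2 + sB w

/-- End class of a word. -/
def endc : Bool → List Let → Bool
  | c, [] => c
  | _, l :: w => endc (nx l) w

/-- The real offset `F(w) = cnum w / D w`. -/
noncomputable def Fr (w : List Let) : ℝ := (cnum w : ℝ) / (D w : ℝ)

/-- The word of the first `k` steps of `n`, last step first. -/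
def fword : ℕ → ℕ → List Let
  | 0, _ => []
  | k + 1, n => letter (S^[k] n) :: fword k n

/-- Weight of a letter. -/
noncomputable def kap (l : Let) : ℝ := 1 / (dd l : ℝ)

/-- Harmonic weights. -/
def v (c : Bool) : ℝ := if c then 4 else 3

/-- Integers in `U` all of whose iterates exceed `X`. -/
def G (X : ℝ) (n : ℕ) : Prop := U n ∧ ∀ i : ℕ, X < (S^[i] n : ℝ)

/-- The kernel `κ_x(n) = min (1/x) (x/n^2)`. -/
noncomputable def ker (x : ℝ) (n : ℕ) : ℝ := min (1 / x) (x / (n : ℝ) ^ 2)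

open Classical in
/-- `R_c^N(x)`. -/
noncomputable def RR (X : ℝ) (c : Bool) (N : ℕ) (x : ℝ) : ℝ :=
  ∑ n ∈ (Finset.Icc 1 N).filter (fun n => G X n ∧ cl n = c), ker x n

/-! ### basic lemmas -/

@[simp] lemma D_nil : D [] = 1 := rfl
@[simp] lemma D_cons (l : Let) (w : List Let) : D (l :: w) = dd l * D w := rfl
@[simp] lemma cnum_nil : cnum [] = 0 := rfl
@[simp] lemma cnum_cons (l : Let) (w : List Let) : cnum (l :: w) = D w + 5 * cnum w := rfl
@[simp] lemma sA_nil : sA [] = 0 := rfl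
@[simp] lemma sA_cons (l : Let) (w : List Let) : sA (l :: w) = l.1 + sA w := rfl
@[simp] lemma sB_nil : sB [] = 0 := rfl
@[simp] lemma sB_cons (l : Let) (w : List Let) : sB (l :: w) = l.2 + sB w := rfl
@[simp] lemma endc_nil (c : Bool) : endc c [] = c := rfl
@[simp] lemma endc_cons (c : Bool) (l : Let) (w : List Let) : endc c (l :: w) = endc (nx l) w := rfl
@[simp] lemma fword_zero (n : ℕ) : fword 0 n = [] := rfl
@[simp] lemma fword_succ (k n : ℕ) : fword (k + 1) n = letter (S^[k] n) :: fword k n := rfl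
@[simp] lemma v_true : v true = 4 := rfl
@[simp] lemma v_false : v false = 3 := rfl

lemma v_pos (c : Bool) : 0 < v c := by cases c <;> norm_num [v]
lemma v_ge (c : Bool) : 3 ≤ v c := by cases c <;> norm_num [v]
lemma v_le (c : Bool) : v c ≤ 4 := by cases c <;> norm_num [v]

lemma dd_pos (l : Let) : 0 < dd l := by unfold dd; positivity

lemma D_pos (w : List Let) : 0 < D w := by
  induction w with
  | nil => simp
  | cons l w ih => simp only [D_cons]; exact Nat.mul_pos (dd_pos l) ih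

lemma kap_pos (l : Let) : 0 < kap l := by
  unfold kap; have := dd_pos l; positivity

lemma D_eq (w : List Let) : D w = 2 ^ sA w * 3 ^ sB w := by
  induction w with
  | nil => simp
  | cons l w ih => simp only [D_cons, sA_cons, sB_cons, ih, dd]; ring

lemma D_append (w₁ w₂ : List Let) : D (w₁ ++ w₂) = D w₁ * D w₂ := by
  induction w₁ with
  | nil => simp
  | cons l w ih => simp only [List.cons_append, D_cons, ih]; ring

lemma sA_append (w₁ w₂ : List Let) : sA (w₁ ++ w₂) = sA w₁ + sA w₂ := by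
  induction w₁ with
  | nil => simp
  | cons l w ih => simp only [List.cons_append, sA_cons, ih]; ring

lemma sB_append (w₁ w₂ : List Let) : sB (w₁ ++ w₂) = sB w₁ + sB w₂ := by
  induction w₁ with
  | nil => simp
  | cons l w ih => simp only [List.cons_append, sB_cons, ih]; ring

lemma endc_append (c : Bool) (w₁ w₂ : List Let) : endc c (w₁ ++ w₂) = endc (endc c w₁) w₂ := by
  induction w₁ generalizing c with
  | nil => simp
  | cons l w ih => simp only [List.cons_append, endc_cons, ih]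

lemma cnum_append (w₁ w₂ : List Let) :
    cnum (w₁ ++ w₂) = D w₂ * cnum w₁ + 5 ^ w₁.length * cnum w₂ := by
  induction w₁ with
  | nil => simp
  | cons l w ih =>
    simp only [List.cons_append, cnum_cons, ih, D_append, List.length_cons]; ring

lemma Fr_nil : Fr [] = 0 := by simp [Fr]

lemma Fr_cons (l : Let) (w : List Let) : Fr (l :: w) = kap l * (1 + 5 * Fr w) := by
  unfold Fr kap
  have h1 : (0 : ℝ) < dd l := by exact_mod_cast dd_pos l
  have h2 : (0 : ℝ) < D w := by exact_mod_cast D_pos w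
  simp only [cnum_cons, D_cons]
  push_cast
  field_simp

lemma Fr_append (w₁ w₂ : List Let) :
    Fr (w₁ ++ w₂) = Fr w₁ + 5 ^ w₁.length / D w₁ * Fr w₂ := by
  unfold Fr
  have h1 : (0 : ℝ) < D w₁ := by exact_mod_cast D_pos w₁
  have h2 : (0 : ℝ) < D w₂ := by exact_mod_cast D_pos w₂
  rw [cnum_append, D_append]
  push_cast
  field_simp

lemma Fr_nonneg (w : List Let) : 0 ≤ Fr w := by unfold Fr; positivity

lemma length_fword (k n : ℕ) : (fword k n).length = k := by
  induction k with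
  | zero => rfl
  | succ k ih => simp [ih]

lemma mem_L {Λ : ℕ} {c : Bool} {l : Let} :
    l ∈ L Λ c ↔ (1 ≤ l.1 ∧ l.1 ≤ Λ ∧ l.2 ≤ Λ) ∧ (1 ≤ l.2 ∨ (l.1 % 2 = 1 ↔ c = true)) := by
  unfold L
  simp only [Finset.mem_filter, Finset.mem_product, Finset.mem_Icc, Finset.mem_range]
  constructor
  · rintro ⟨⟨⟨h1, h2⟩, h3⟩, h4⟩; exact ⟨⟨h1, h2, by omega⟩, h4⟩
  · rintro ⟨⟨h1, h2, h3⟩, h4⟩; exact ⟨⟨⟨h1, h2⟩, by omega⟩, h4⟩

lemma mem_W_zero {Λ : ℕ} {c : Bool} {w : List Let} : w ∈ W Λ 0 c ↔ w = [] := by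
  simp [W]

lemma mem_W_succ {Λ k : ℕ} {c : Bool} {w : List Let} :
    w ∈ W Λ (k + 1) c ↔ ∃ l ∈ L Λ c, ∃ w' ∈ W Λ k (nx l), w = l :: w' := by
  simp only [W, Finset.mem_biUnion, Finset.mem_image]
  constructor
  · rintro ⟨l, hl, w', hw', rfl⟩; exact ⟨l, hl, w', hw', rfl⟩
  · rintro ⟨l, hl, w', hw', rfl⟩; exact ⟨l, hl, w', hw', rfl⟩

lemma cons_mem_W {Λ k : ℕ} {c : Bool} {l : Let} {w : List Let} :
    l :: w ∈ W Λ (k + 1) c ↔ l ∈ L Λ c ∧ w ∈ W Λ k (nx l) := by
  rw [mem_W_succ]
  constructor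
  · rintro ⟨l', hl', w', hw', h⟩
    obtain ⟨rfl, rfl⟩ := List.cons.inj h
    exact ⟨hl', hw'⟩
  · rintro ⟨h1, h2⟩; exact ⟨l, h1, w, h2, rfl⟩

lemma length_of_mem_W {Λ k : ℕ} {c : Bool} {w : List Let} (h : w ∈ W Λ k c) : w.length = k := by
  induction k generalizing c w with
  | zero => rw [mem_W_zero] at h; simp [h]
  | succ k ih =>
    rw [mem_W_succ] at h
    obtain ⟨l, _, w', hw', rfl⟩ := h
    simp [ih hw']

lemma sum_W_zero {β : Type*} [AddCommMonoid β] (Λ : ℕ) (c : Bool) (f : List Let → β) :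
    ∑ w ∈ W Λ 0 c, f w = f [] := by
  simp [W]

lemma sum_W_succ {β : Type*} [AddCommMonoid β] (Λ k : ℕ) (c : Bool) (f : List Let → β) :
    ∑ w ∈ W Λ (k + 1) c, f w = ∑ l ∈ L Λ c, ∑ w ∈ W Λ k (nx l), f (l :: w) := by
  rw [W, Finset.sum_biUnion]
  · refine Finset.sum_congr rfl fun l _ => ?_
    rw [Finset.sum_image]
    intro a _ b _ h
    exact (List.cons.inj h).2
  · intro l _ l' _ hne
    rw [Function.onFun, Finset.disjoint_left]
    intro w hw hw'
    rw [Finset.mem_image] at hw hw'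
    obtain ⟨a, _, rfl⟩ := hw
    obtain ⟨b, _, hb⟩ := hw'
    exact hne (List.cons.inj hb).1.symm

/-- Concatenation: sum over words of length `j + r`. -/
lemma sum_W_add {β : Type*} [AddCommMonoid β] (Λ j r : ℕ) (c : Bool) (f : List Let → β) :
    ∑ w ∈ W Λ (j + r) c, f w
      = ∑ w₁ ∈ W Λ j c, ∑ w₂ ∈ W Λ r (endc c w₁), f (w₁ ++ w₂) := by
  induction j generalizing c f with
  | zero => simp only [Nat.zero_add, sum_W_zero, endc_nil, List.nil_append]
  | succ j ih =>
    rw [show j + 1 + r = (j + r) + 1 by ring, sum_W_succ, sum_W_succ]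
    refine Finset.sum_congr rfl fun l _ => ?_
    rw [ih]
    simp only [endc_cons, List.cons_append]

lemma append_mem_W {Λ j r : ℕ} {c : Bool} {w₁ w₂ : List Let} (h1 : w₁.length = j) :
    w₁ ++ w₂ ∈ W Λ (j + r) c ↔ w₁ ∈ W Λ j c ∧ w₂ ∈ W Λ r (endc c w₁) := by
  induction j generalizing c w₁ with
  | zero =>
    have : w₁ = [] := List.eq_nil_of_length_eq_zero h1
    subst this
    simp [mem_W_zero]
  | succ j ih =>
    cases w₁ with
    | nil => simp at h1
    | cons l w =>
      rw [show j + 1 + r = (j + r) + 1 by ring, List.cons_append, cons_mem_W, cons_mem_W,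
        ih (by simpa using h1), endc_cons]
      tauto

lemma take_mem_W {Λ k j : ℕ} {c : Bool} {w : List Let} (h : w ∈ W Λ k c) (hj : j ≤ k) :
    w.take j ∈ W Λ j c ∧ w.drop j ∈ W Λ (k - j) (endc c (w.take j)) := by
  have hl := length_of_mem_W h
  have h1 : (w.take j).length = j := by simp [hl, hj]
  rw [← append_mem_W (r := k - j) h1, List.take_append_drop]
  rwa [Nat.add_sub_cancel' hj]

end K5
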