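import Pool.Agent.Lib.MP_a4658c_nt.K5.F1

/-! Piece F2: the white gain (paper (2.1)). -/

namespace K5

lemma del0_pos : 0 < del0 := by
  have h : Real.cos (Real.pi / 400) < Real.cos 0 :=
    Real.cos_lt_cos_of_nonneg_of_le_pi le_rfl (by linarith [Real.pi_pos]) (by positivity)
  rw [Real.cos_zero] at h
  unfold del0
  linarith

lemma del0_lt : del0 < 1 / 72 := by
  have h : Real.cos (Real.pi / 3) < Real.cos (Real.pi / 400) :=
    Real.cos_lt_cos_of_nonneg_of_le_pi (by positivity) (by linarith [Real.pi_pos])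
      (by linarith [Real.pi_pos])
  rw [Real.cos_pi_div_three] at h
  unfold del0
  linarith

private lemma F2_norm (θ : ℝ) : ‖1 + Complex.exp (θ * Complex.I)‖ ^ 2 = 2 + 2 * Real.cos θ := by
  rw [← Complex.normSq_eq_norm_sq, Complex.exp_mul_I, ← Complex.ofReal_cos, ← Complex.ofReal_sin,
    Complex.normSq_apply]
  simp only [Complex.add_re, Complex.one_re, Complex.ofReal_re, Complex.mul_re, Complex.I_re,
    mul_zero, Complex.ofReal_im, Complex.I_im, mul_one, sub_self, add_zero, Complex.add_im,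
    Complex.one_im, Complex.mul_im, zero_add]
  have := Real.sin_sq_add_cos_sq θ
  nlinarith

/-- For white `y`: `|1 + χ(y)| = 2 |cos (π N / 5^k)| ≤ 2 cos(π/400)`. -/
lemma white_chi {k : ℕ} {y : ZMod (5 ^ k)} (hy : ¬ Black k y) :
    ‖1 + chi k y‖ ≤ 2 * Real.cos (Real.pi / 400) := by
  have hpi := Real.pi_pos
  have hM : (0 : ℝ) < 5 ^ k := by positivity
  set N : ℤ := y.valMinAbs with hN
  have hyN : ((N : ℤ) : ZMod (5 ^ k)) = y := ZMod.coe_valMinAbs y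
  set θ : ℝ := 2 * Real.pi * N / 5 ^ k with hθ
  have hchi : chi k y = Complex.exp (θ * Complex.I) := by
    rw [← hyN, chi_int]
    congr 1
    rw [hθ]
    push_cast
    ring
  have h1 : (5 : ℝ) ^ k ≤ 400 * |(N : ℝ)| := by
    have h2 : (5 : ℤ) ^ k ≤ 400 * |N| := not_lt.mp hy
    exact_mod_cast h2
  have h2 : 2 * |(N : ℝ)| ≤ (5 : ℝ) ^ k := by
    have h3 := ZMod.valMinAbs_mem_Ioc y
    rw [← hN] at h3
    have h4 : 2 * |N| ≤ (5 : ℤ) ^ k := by
      have h5 := h3.1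
      have h6 := h3.2
      push_cast at h5 h6
      rcases abs_cases N with ⟨ha, _⟩ | ⟨ha, _⟩
      · rw [ha]; linarith
      · rw [ha]; linarith
    exact_mod_cast h4
  have habs : |θ| = 2 * Real.pi * |(N : ℝ)| / 5 ^ k := by
    rw [hθ, abs_div, abs_mul, abs_of_pos hM, abs_of_pos (by positivity : (0 : ℝ) < 2 * Real.pi)]
  have h3 : Real.pi / 200 ≤ |θ| := by
    rw [habs, le_div_iff₀ hM]
    have := mul_le_mul_of_nonneg_left h1 hpi.le
    linarith
  have h4 : |θ| ≤ Real.pi := by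
    rw [habs, div_le_iff₀ hM]
    have := mul_le_mul_of_nonneg_left h2 hpi.le
    linarith
  have h5 : Real.cos θ ≤ Real.cos (Real.pi / 200) := by
    rw [← Real.cos_abs θ]
    exact Real.cos_le_cos_of_nonneg_of_le_pi (by positivity) h4 h3
  have h6 : Real.cos (Real.pi / 200) = 2 * Real.cos (Real.pi / 400) ^ 2 - 1 := by
    rw [← Real.cos_two_mul]
    congr 1
    ring
  have h7 : 0 ≤ Real.cos (Real.pi / 400) :=
    Real.cos_nonneg_of_neg_pi_div_two_le_of_le (by linarith) (by linarith)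
  have h8 : ‖1 + chi k y‖ ^ 2 ≤ (2 * Real.cos (Real.pi / 400)) ^ 2 := by
    rw [hchi, F2_norm]
    nlinarith
  exact le_of_sq_le_sq h8 (by positivity)

/-- (2.1). The two-letter words `(1,1)(2,1)` and `(2,1)(1,1)` have the same endpoint, weights
`1/72`, and phases `χ(2y)χ(5y/6)`, `χ(y)χ(5y/6)`. -/
lemma white_gain {Λ k : ℕ} {ψ : Bool → ℕ → ℕ → ℂ} {R : ℕ} {c : Bool} {y : ZMod (5 ^ k)}
    {A B : ℕ} (hΛ : 2 ≤ Λ) (hy : ¬ Black k y) (b : Let → Let → ℝ) {b₀ : ℝ} (hb₀ : 0 ≤ b₀)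
    (hb : ∀ l₁ ∈ L Λ c, ∀ l₂ ∈ L Λ (nx l₁),
      ‖Gam Λ k ψ R (nx l₂) (5 * uu k l₂ * (5 * uu k l₁ * y)) (A + l₁.1 + l₂.1)
        (B + l₁.2 + l₂.2)‖ ≤ v (nx l₂) * b l₁ l₂)
    (h1 : b (1, 1) (2, 1) = b₀) (h2 : b (2, 1) (1, 1) = b₀) :
    ‖Gam Λ k ψ (R + 2) c y A B‖
      ≤ (∑ l₁ ∈ L Λ c, ∑ l₂ ∈ L Λ (nx l₁), kap l₁ * kap l₂ * (v (nx l₂) * b l₁ l₂))
        - 4 * del0 * b₀ := by
  classical
  set P : Finset (Σ _ : Let, Let) := (L Λ c).sigma (fun l₁ => L Λ (nx l₁)) with hP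
  set T : (Σ _ : Let, Let) → ℂ := fun p =>
    (kap p.1 : ℂ) * chi k (12 * uu k p.1 * y) * ((kap p.2 : ℂ) *
      chi k (12 * uu k p.2 * (5 * uu k p.1 * y)) *
      Gam Λ k ψ R (nx p.2) (5 * uu k p.2 * (5 * uu k p.1 * y)) (A + p.1.1 + p.2.1)
        (B + p.1.2 + p.2.2)) with hT
  set M : (Σ _ : Let, Let) → ℝ := fun p => kap p.1 * kap p.2 * (v (nx p.2) * b p.1 p.2) with hM
  have hGam : Gam Λ k ψ (R + 2) c y A B = ∑ p ∈ P, T p := by
    rw [hP, Finset.sum_sigma, Gam_succ]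
    refine Finset.sum_congr rfl fun l₁ _ => ?_
    rw [Gam_succ, Finset.mul_sum]
  have hMs : (∑ l₁ ∈ L Λ c, ∑ l₂ ∈ L Λ (nx l₁), kap l₁ * kap l₂ * (v (nx l₂) * b l₁ l₂)) =
      ∑ p ∈ P, M p := by
    rw [hP, Finset.sum_sigma]
  have hTM : ∀ p ∈ P, ‖T p‖ ≤ M p := by
    rintro ⟨l₁, l₂⟩ hp
    rw [hP, Finset.mem_sigma] at hp
    have h3 := hb l₁ hp.1 l₂ hp.2
    simp only [hT, hM, norm_mul, chi_norm, Complex.norm_real, Real.norm_eq_abs,
      abs_of_pos (kap_pos _), mul_one]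
    have h4 := mul_le_mul_of_nonneg_left h3 (mul_pos (kap_pos l₁) (kap_pos l₂)).le
    linarith [h4]
  set p1 : (Σ _ : Let, Let) := ⟨(1, 1), (2, 1)⟩ with hp1
  set p2 : (Σ _ : Let, Let) := ⟨(2, 1), (1, 1)⟩ with hp2
  have hp1P : p1 ∈ P := by
    rw [hP, Finset.mem_sigma, hp1]
    constructor
    · rw [mem_L]; exact ⟨⟨le_rfl, by simp only; omega, by simp only; omega⟩, Or.inl le_rfl⟩
    · rw [mem_L]; exact ⟨⟨by norm_num, hΛ, by simp only; omega⟩, Or.inl le_rfl⟩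
  have hp2P : p2 ∈ P := by
    rw [hP, Finset.mem_sigma, hp2]
    constructor
    · rw [mem_L]; exact ⟨⟨by norm_num, hΛ, by simp only; omega⟩, Or.inl le_rfl⟩
    · rw [mem_L]; exact ⟨⟨le_rfl, by simp only; omega, by simp only; omega⟩, Or.inl le_rfl⟩
  have hne : p2 ≠ p1 := by
    intro h
    have h3 : ((2, 1) : Let) = (1, 1) := congrArg Sigma.fst h
    exact absurd h3 (by decide)
  have hp2P' : p2 ∈ P.erase p1 := Finset.mem_erase.mpr ⟨hne, hp2P⟩
  have e1 : ∑ p ∈ P, T p = T p1 + T p2 + ∑ p ∈ (P.erase p1).erase p2, T p := by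
    rw [← Finset.add_sum_erase P T hp1P, ← Finset.add_sum_erase (P.erase p1) T hp2P', add_assoc]
  have e2 : ∑ p ∈ P, M p = M p1 + M p2 + ∑ p ∈ (P.erase p1).erase p2, M p := by
    rw [← Finset.add_sum_erase P M hp1P, ← Finset.add_sum_erase (P.erase p1) M hp2P', add_assoc]
  have e3 : ‖∑ p ∈ (P.erase p1).erase p2, T p‖ ≤ ∑ p ∈ (P.erase p1).erase p2, M p := by
    refine (norm_sum_le _ _).trans (Finset.sum_le_sum fun p hp => hTM p ?_)
    exact Finset.mem_of_mem_erase (Finset.mem_of_mem_erase hp)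
  -- the two special words
  have k1 : kap (1, 1) = 1 / 6 := by unfold kap dd; norm_num
  have k2 : kap (2, 1) = 1 / 12 := by unfold kap dd; norm_num
  have u1 : (6 : ZMod (5 ^ k)) * uu k (1, 1) = 1 := by
    have h3 := uu_mul k (1, 1)
    have h4 : ((dd (1, 1) : ℕ) : ZMod (5 ^ k)) = 6 := by
      unfold dd; norm_num
    rw [h4] at h3
    rw [mul_comm]; exact h3
  have u2 : (12 : ZMod (5 ^ k)) * uu k (2, 1) = 1 := by
    have h3 := uu_mul k (2, 1)
    have h4 : ((dd (2, 1) : ℕ) : ZMod (5 ^ k)) = 12 := by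
      unfold dd; norm_num
    rw [h4] at h3
    rw [mul_comm]; exact h3
  have nx1 : nx (1, 1) = true := rfl
  have nx2 : nx (2, 1) = true := rfl
  set g : ℂ := Gam Λ k ψ R true (5 * uu k (2, 1) * (5 * uu k (1, 1) * y)) (A + 1 + 2) (B + 1 + 1)
    with hg
  have hgn : ‖g‖ ≤ 4 * b₀ := by
    have hp := hp1P
    rw [hP, Finset.mem_sigma, hp1] at hp
    have h3 := hb (1, 1) hp.1 (2, 1) hp.2
    rw [h1, nx2, v_true] at h3
    exact h3
  have q1 : T p1 = (1 / 72 : ℂ) * chi k (5 * uu k (1, 1) * y) * chi k y * (chi k y * g) := by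
    have h3 : (12 : ZMod (5 ^ k)) * uu k (1, 1) * y = y + y := by
      calc (12 : ZMod (5 ^ k)) * uu k (1, 1) * y = 2 * (6 * uu k (1, 1)) * y := by ring
        _ = y + y := by rw [u1]; ring
    have h4 : (12 : ZMod (5 ^ k)) * uu k (2, 1) * (5 * uu k (1, 1) * y) =
        5 * uu k (1, 1) * y := by rw [u2, one_mul]
    simp only [hT, hp1, nx2, ← hg]
    rw [h3, h4, k1, k2, chi_add]
    push_cast
    ring
  have q2 : T p2 = (1 / 72 : ℂ) * chi k (5 * uu k (1, 1) * y) * chi k y * g := by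
    have h3 : (12 : ZMod (5 ^ k)) * uu k (2, 1) * y = y := by rw [u2, one_mul]
    have h4 : (12 : ZMod (5 ^ k)) * uu k (1, 1) * (5 * uu k (2, 1) * y) =
        5 * uu k (1, 1) * y := by
      calc (12 : ZMod (5 ^ k)) * uu k (1, 1) * (5 * uu k (2, 1) * y)
          = (12 * uu k (2, 1)) * (5 * uu k (1, 1) * y) := by ring
        _ = 5 * uu k (1, 1) * y := by rw [u2, one_mul]
    have h5 : 5 * uu k (1, 1) * (5 * uu k (2, 1) * y) =
        5 * uu k (2, 1) * (5 * uu k (1, 1) * y) := by ring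
    have h6 : A + 2 + 1 = A + 1 + 2 := by ring
    simp only [hT, hp2, nx1]
    rw [h3, h4, h5, h6, k1, k2, ← hg]
    push_cast
    ring
  have q3 : ‖T p1 + T p2‖ ≤ 1 / 72 * (2 * Real.cos (Real.pi / 400)) * (4 * b₀) := by
    have h3 : T p1 + T p2 =
        (1 / 72 : ℂ) * chi k (5 * uu k (1, 1) * y) * chi k y * ((1 + chi k y) * g) := by
      rw [q1, q2]; ring
    have hcos := white_chi hy
    rw [h3, norm_mul, norm_mul, norm_mul, chi_norm, chi_norm, norm_mul]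
    have h4 : ‖(1 / 72 : ℂ)‖ = 1 / 72 := by norm_num
    rw [h4, mul_one, mul_one]
    have h5 : ‖1 + chi k y‖ * ‖g‖ ≤ 2 * Real.cos (Real.pi / 400) * (4 * b₀) :=
      mul_le_mul hcos hgn (norm_nonneg _) (le_trans (norm_nonneg _) hcos)
    linarith
  have m1 : M p1 = 1 / 72 * (4 * b₀) := by
    simp only [hM, hp1]
    rw [h1, nx2, v_true, k1, k2]
    norm_num
  have m2 : M p2 = 1 / 72 * (4 * b₀) := by
    simp only [hM, hp2]
    rw [h2, nx1, v_true, k1, k2]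
    norm_num
  rw [hGam, hMs, e1, e2, m1, m2]
  have h9 := norm_add_le (T p1 + T p2) (∑ p ∈ (P.erase p1).erase p2, T p)
  have h10 : 4 * del0 * b₀ = 1 / 72 * (2 - 2 * Real.cos (Real.pi / 400)) * (4 * b₀) := by
    unfold del0; ring
  rw [h10]
  linarith

end K5
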