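import Pool.Agent.Lib.MP_a4658c_nt.K5.F1

/-! Piece F3: exits from a black box (paper (2.2)). -/

namespace K5

private lemma F3_ne {k : ℕ} {y : ZMod (5 ^ k)} (hy : y ≠ 0) : y.valMinAbs ≠ 0 := by
  intro h
  exact hy ((ZMod.valMinAbs_eq_zero y).1 h)

/-- divisibility from the valuations -/
private lemma F3_dvd {k : ℕ} {y : ZMod (5 ^ k)} (l : Let)
    (h1 : l.1 ≤ va k y) (h2 : l.2 ≤ vb k y) : (dd l : ℤ) ∣ y.valMinAbs := by
  have e1 : ((2 : ℕ) : ℤ) ^ l.1 ∣ y.valMinAbs := by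
    rw [padicValInt_dvd_iff]
    exact Or.inr h1
  have e2 : ((3 : ℕ) : ℤ) ^ l.2 ∣ y.valMinAbs := by
    rw [padicValInt_dvd_iff]
    exact Or.inr h2
  have hc : IsCoprime (((2 : ℕ) : ℤ) ^ l.1) (((3 : ℕ) : ℤ) ^ l.2) := by
    apply IsCoprime.pow
    exact ⟨-1, 1, by norm_num⟩
  have := hc.mul_dvd e1 e2
  unfold dd
  push_cast at this ⊢
  exact this

private lemma F3_ddpos (l : Let) : (0 : ℤ) < (dd l : ℤ) := by exact_mod_cast dd_pos l

/-- In-box letters: the next frequency is represented by the integer `5 N / d(l)`. -/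
lemma box_step {k : ℕ} {y : ZMod (5 ^ k)} (hb : Black k y) (hy : y ≠ 0) (l : Let)
    (h1 : l.1 ≤ va k y) (h2 : l.2 ≤ vb k y) :
    (5 * uu k l * y).valMinAbs * (dd l : ℤ) = 5 * y.valMinAbs ∧
    va k (5 * uu k l * y) = va k y - l.1 ∧ vb k (5 * uu k l * y) = vb k y - l.2 := by
  obtain ⟨q, hq⟩ := F3_dvd l h1 h2
  have hN := F3_ne hy
  have hdd := F3_ddpos l
  have hq0 : q ≠ 0 := by
    rintro rfl
    rw [mul_zero] at hq
    exact hN hq
  -- the new frequency
  have hcast : (5 * uu k l * y) = (((5 * q : ℤ)) : ZMod (5 ^ k)) := by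
    have e1 : y = ((dd l : ℕ) : ZMod (5 ^ k)) * (q : ZMod (5 ^ k)) := by
      have := congrArg (Int.cast : ℤ → ZMod (5 ^ k)) hq
      rw [ZMod.coe_valMinAbs] at this
      rw [this]
      push_cast
      ring
    have e2 := uu_mul k l
    calc 5 * uu k l * y = 5 * (uu k l * ((dd l : ℕ) : ZMod (5 ^ k))) * (q : ZMod (5 ^ k)) := by
          rw [e1]; ring
      _ = (((5 * q : ℤ)) : ZMod (5 ^ k)) := by rw [e2]; push_cast; ring
  have habs : |q| ≤ |y.valMinAbs| := by
    rw [hq, abs_mul, abs_of_pos hdd]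
    nlinarith [abs_nonneg q]
  have hval : (5 * uu k l * y).valMinAbs = 5 * q := by
    rw [ZMod.valMinAbs_spec]
    refine ⟨hcast, ?_⟩
    unfold Black at hb
    have h3 : 400 * |q| < (5 : ℤ) ^ k := by linarith
    have h4 := abs_lt.1 (show |q| < (5 : ℤ) ^ k / 1 by rw [Int.ediv_one]; linarith [abs_nonneg q])
    have h5 := le_abs_self q
    have h6 := neg_abs_le q
    push_cast
    constructor <;> linarith
  have hva : padicValInt 2 (5 * q) + l.1 = padicValInt 2 y.valMinAbs := by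
    have : Fact (Nat.Prime 2) := ⟨Nat.prime_two⟩
    rw [hq, padicValInt.mul hdd.ne' hq0, padicValInt.mul (by norm_num) hq0]
    have e1 : padicValInt 2 (5 : ℤ) = 0 := padicValInt.eq_zero_of_not_dvd (by norm_num)
    have e2 : padicValInt 2 (dd l : ℤ) = l.1 := by
      unfold dd
      push_cast
      rw [padicValInt.mul (by positivity) (by positivity)]
      have e3 : padicValInt 2 ((2 : ℤ) ^ l.1) = l.1 := by
        have := padicValInt.of_ne_one_ne_zero (p := 2) (z := (2 : ℤ) ^ l.1) (by norm_num)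
          (by positivity)
        rw [padicValInt, Int.natAbs_pow, show (2 : ℤ).natAbs = 2 from rfl]
        exact padicValNat.prime_pow l.1
      have e4 : padicValInt 2 ((3 : ℤ) ^ l.2) = 0 := by
        apply padicValInt.eq_zero_of_not_dvd
        intro h
        have h3 : 2 ∣ 3 ^ l.2 := by exact_mod_cast h
        have := Nat.prime_two.dvd_of_dvd_pow h3
        omega
      rw [e3, e4, add_zero]
    rw [e1, e2]
    ring
  have hvb : padicValInt 3 (5 * q) + l.2 = padicValInt 3 y.valMinAbs := by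
    have : Fact (Nat.Prime 3) := ⟨Nat.prime_three⟩
    rw [hq, padicValInt.mul hdd.ne' hq0, padicValInt.mul (by norm_num) hq0]
    have e1 : padicValInt 3 (5 : ℤ) = 0 := padicValInt.eq_zero_of_not_dvd (by norm_num)
    have e2 : padicValInt 3 (dd l : ℤ) = l.2 := by
      unfold dd
      push_cast
      rw [padicValInt.mul (by positivity) (by positivity)]
      have e3 : padicValInt 3 ((3 : ℤ) ^ l.2) = l.2 := by
        rw [padicValInt, Int.natAbs_pow, show (3 : ℤ).natAbs = 3 from rfl]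
        exact padicValNat.prime_pow l.2
      have e4 : padicValInt 3 ((2 : ℤ) ^ l.1) = 0 := by
        apply padicValInt.eq_zero_of_not_dvd
        intro h
        have h3 : 3 ∣ 2 ^ l.1 := by exact_mod_cast h
        have := Nat.prime_three.dvd_of_dvd_pow h3
        omega
      rw [e3, e4, zero_add]
    rw [e1, e2]
    ring
  refine ⟨?_, ?_, ?_⟩
  · rw [hval, hq]; ring
  · unfold va
    rw [hval]
    omega
  · unfold vb
    rw [hval]
    omega

/-- Good exits are white. -/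
lemma exit_white {k : ℕ} {y : ZMod (5 ^ k)} (hb : Black k y) (hy : y ≠ 0) (l : Let)
    (hex : va k y < l.1 ∨ vb k y < l.2) (h1 : l.1 ≤ va k y + 4) (h2 : l.2 ≤ vb k y + 2) :
    ¬ Black k (5 * uu k l * y) := by
  intro hbl
  -- split of the letter
  obtain ⟨l', hl'⟩ : ∃ l' : Let, l' = (min l.1 (va k y), min l.2 (vb k y)) := ⟨_, rfl⟩
  obtain ⟨r, hr⟩ : ∃ r : Let, r = (l.1 - va k y, l.2 - vb k y) := ⟨_, rfl⟩
  have hl1 : l'.1 + r.1 = l.1 := by rw [hl', hr]; simp only; omega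
  have hl2 : l'.2 + r.2 = l.2 := by rw [hl', hr]; simp only; omega
  obtain ⟨hv, hva, hvb⟩ := box_step hb hy l' (by rw [hl']; exact min_le_right _ _)
    (by rw [hl']; exact min_le_right _ _)
  have hddl : dd l = dd l' * dd r := by
    unfold dd
    rw [← hl1, ← hl2, pow_add, pow_add]
    ring
  have hN := F3_ne hy
  have hdd := F3_ddpos l'
  -- the relation
  have hrel : ((dd r : ℕ) : ZMod (5 ^ k)) * (5 * uu k l * y) = 5 * uu k l' * y := by
    have e1 := uu_mul k l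
    have e2 := uu_mul k l'
    rw [hddl] at e1
    push_cast at e1
    calc ((dd r : ℕ) : ZMod (5 ^ k)) * (5 * uu k l * y)
        = (uu k l' * ((dd l' : ℕ) : ZMod (5 ^ k))) * (((dd r : ℕ) : ZMod (5 ^ k)) *
          (5 * uu k l * y)) := by rw [e2, one_mul]
      _ = 5 * uu k l' * y * (uu k l * (((dd l' : ℕ) : ZMod (5 ^ k)) *
          ((dd r : ℕ) : ZMod (5 ^ k)))) := by ring
      _ = 5 * uu k l' * y := by rw [e1, mul_one]
  have hdvd : ((5 : ℤ) ^ k) ∣ (dd r : ℤ) * (5 * uu k l * y).valMinAbs -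
      (5 * uu k l' * y).valMinAbs := by
    have e1 : ((((dd r : ℤ) * (5 * uu k l * y).valMinAbs -
      (5 * uu k l' * y).valMinAbs : ℤ)) : ZMod (5 ^ k)) = 0 := by
      push_cast
      rw [hrel, sub_self]
    have e2 := (ZMod.intCast_zmod_eq_zero_iff_dvd _ (5 ^ k)).1 e1
    push_cast at e2
    exact e2
  have hr144 : (dd r : ℤ) ≤ 144 := by
    have e1 : 2 ^ r.1 ≤ 2 ^ 4 := Nat.pow_le_pow_right (by norm_num) (by rw [hr]; simp only; omega)
    have e2 : 3 ^ r.2 ≤ 3 ^ 2 := Nat.pow_le_pow_right (by norm_num) (by rw [hr]; simp only; omega)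
    have e3 : dd r ≤ 144 := by
      unfold dd
      calc 2 ^ r.1 * 3 ^ r.2 ≤ 2 ^ 4 * 3 ^ 2 := Nat.mul_le_mul e1 e2
        _ = 144 := by norm_num
    exact_mod_cast e3
  have hN2 : |(5 * uu k l' * y).valMinAbs| ≤ 5 * |y.valMinAbs| := by
    have e1 := congrArg abs hv
    rw [abs_mul, abs_mul, abs_of_pos hdd, abs_of_pos (show (0 : ℤ) < 5 by norm_num)] at e1
    rw [← e1]
    nlinarith [abs_nonneg ((5 * uu k l' * y).valMinAbs)]
  have heq : (dd r : ℤ) * (5 * uu k l * y).valMinAbs = (5 * uu k l' * y).valMinAbs := by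
    have h5 : (0 : ℤ) < 5 ^ k := by positivity
    have h3 : |(dd r : ℤ) * (5 * uu k l * y).valMinAbs - (5 * uu k l' * y).valMinAbs| <
        (5 : ℤ) ^ k := by
      unfold Black at hb hbl
      have h4 : |(dd r : ℤ) * (5 * uu k l * y).valMinAbs| ≤
          144 * |(5 * uu k l * y).valMinAbs| := by
        rw [abs_mul, abs_of_pos (F3_ddpos r)]
        exact mul_le_mul_of_nonneg_right hr144 (abs_nonneg _)
      have h6 := abs_sub ((dd r : ℤ) * (5 * uu k l * y).valMinAbs)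
        ((5 * uu k l' * y).valMinAbs)
      linarith [abs_nonneg ((5 * uu k l * y).valMinAbs), abs_nonneg (y.valMinAbs)]
    have := Int.eq_zero_of_abs_lt_dvd hdvd h3
    linarith
  have hN20 : (5 * uu k l' * y).valMinAbs ≠ 0 := by
    intro h
    rw [h, zero_mul] at hv
    exact hN (by omega)
  rcases hex with hex | hex
  · have e1 : va k (5 * uu k l' * y) = 0 := by
      rw [hva, hl']; simp only; omega
    have e2 : ¬ (((2 : ℕ) : ℤ) ∣ (5 * uu k l' * y).valMinAbs) := by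
      intro h
      have : Fact (Nat.Prime 2) := ⟨Nat.prime_two⟩
      have h3 := (padicValInt_dvd_iff (p := 2) 1 (5 * uu k l' * y).valMinAbs).1
        (by rw [pow_one]; exact h)
      unfold va at e1
      rcases h3 with h3 | h3
      · exact hN20 h3
      · omega
    apply e2
    rw [← heq]
    refine Dvd.dvd.mul_right ?_ _
    have e3 : 2 ∣ dd r := by
      unfold dd
      exact Dvd.dvd.mul_right (dvd_pow_self 2 (by rw [hr]; simp only; omega)) _
    exact_mod_cast e3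
  · have e1 : vb k (5 * uu k l' * y) = 0 := by
      rw [hvb, hl']; simp only; omega
    have e2 : ¬ (((3 : ℕ) : ℤ) ∣ (5 * uu k l' * y).valMinAbs) := by
      intro h
      have : Fact (Nat.Prime 3) := ⟨Nat.prime_three⟩
      have h3 := (padicValInt_dvd_iff (p := 3) 1 (5 * uu k l' * y).valMinAbs).1
        (by rw [pow_one]; exact h)
      unfold vb at e1
      rcases h3 with h3 | h3
      · exact hN20 h3
      · omega
    apply e2
    rw [← heq]
    refine Dvd.dvd.mul_right ?_ _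
    have e3 : 3 ∣ dd r := by
      unfold dd
      exact Dvd.dvd.mul_left (dvd_pow_self 3 (by rw [hr]; simp only; omega)) _
    exact_mod_cast e3

private lemma F3_inj {s t : Finset Let} {f h : Let → ℝ} {g : Let → Let} {q : ℝ} (hq : 0 ≤ q)
    (hst : ∀ l ∈ s, g l ∈ t) (hinj : Set.InjOn g s) (hf : ∀ l ∈ s, h l = q * f (g l))
    (hf0 : ∀ l ∈ t, 0 ≤ f l) : ∑ l ∈ s, h l ≤ q * ∑ l ∈ t, f l := by
  rw [Finset.sum_congr rfl hf, ← Finset.mul_sum]
  refine mul_le_mul_of_nonneg_left ?_ hq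
  rw [← Finset.sum_image (f := f) hinj]
  refine Finset.sum_le_sum_of_subset_of_nonneg ?_ fun l hl _ => hf0 l hl
  intro x hx
  obtain ⟨l, hl, rfl⟩ := Finset.mem_image.1 hx
  exact hst l hl

/-- Overshoot mass, by the injections `(a,b) ↦ (a - ra, b)` and `(a,b) ↦ (a, b - rb)`. -/
lemma exit_mass (Λ a₀ : ℕ) (c : Bool) (α β ra rb : ℕ) (hra : Even ra) :
    ∑ l ∈ (L Λ c).filter (fun l => (l.1 ≤ a₀ ∧ l.2 ≤ a₀) ∧ (α < l.1 ∨ β < l.2) ∧
        ¬ (l.1 ≤ α + ra ∧ l.2 ≤ β + rb)), kap l * v (nx l)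
      ≤ ((1 / 2 : ℝ) ^ ra + (1 / 3 : ℝ) ^ rb) *
        ∑ l ∈ (L Λ c).filter (fun l => (l.1 ≤ a₀ ∧ l.2 ≤ a₀) ∧ (α < l.1 ∨ β < l.2)),
          kap l * v (nx l) := by
  classical
  have h0 : ∀ l : Let, 0 ≤ kap l * v (nx l) := fun l => (mul_pos (kap_pos l) (v_pos _)).le
  have h1 : ∑ l ∈ (L Λ c).filter (fun l => (l.1 ≤ a₀ ∧ l.2 ≤ a₀) ∧ α + ra < l.1),
      kap l * v (nx l) ≤ (1 / 2 : ℝ) ^ ra *
        ∑ l ∈ (L Λ c).filter (fun l => (l.1 ≤ a₀ ∧ l.2 ≤ a₀) ∧ (α < l.1 ∨ β < l.2)),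
          kap l * v (nx l) := by
    refine F3_inj (g := fun l => (l.1 - ra, l.2)) (by positivity) ?_ ?_ ?_ fun l _ => h0 l
    · intro l hl
      rw [Finset.mem_filter, mem_L] at hl ⊢
      obtain ⟨⟨⟨h2, h3, h4⟩, h5⟩, ⟨h6, h7⟩, h8⟩ := hl
      obtain ⟨r, hr⟩ := hra
      simp only
      refine ⟨⟨⟨by omega, by omega, h4⟩, ?_⟩, ⟨by omega, h7⟩, Or.inl (by omega)⟩
      rcases h5 with h5 | h5
      · exact Or.inl h5
      · refine Or.inr (Iff.trans ?_ h5)
        constructor <;> intro h <;> omega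
    · intro l hl l' hl' h
      rw [Finset.mem_coe, Finset.mem_filter] at hl hl'
      have e1 := congrArg Prod.fst h
      have e2 := congrArg Prod.snd h
      simp only at e1 e2
      exact Prod.ext (by omega) e2
    · intro l hl
      rw [Finset.mem_filter] at hl
      have e1 : nx (l.1 - ra, l.2) = nx l := rfl
      rw [e1]
      unfold kap dd
      simp only
      obtain ⟨a, ha⟩ : ∃ a, l.1 = a + ra := ⟨l.1 - ra, by omega⟩
      rw [ha, Nat.add_sub_cancel]
      push_cast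
      rw [pow_add, one_div_pow]
      field_simp
  have h2 : ∑ l ∈ (L Λ c).filter (fun l => (l.1 ≤ a₀ ∧ l.2 ≤ a₀) ∧ β + rb < l.2),
      kap l * v (nx l) ≤ (1 / 3 : ℝ) ^ rb *
        ∑ l ∈ (L Λ c).filter (fun l => (l.1 ≤ a₀ ∧ l.2 ≤ a₀) ∧ (α < l.1 ∨ β < l.2)),
          kap l * v (nx l) := by
    refine F3_inj (g := fun l => (l.1, l.2 - rb)) (by positivity) ?_ ?_ ?_ fun l _ => h0 l
    · intro l hl
      rw [Finset.mem_filter, mem_L] at hl ⊢
      obtain ⟨⟨⟨h2, h3, h4⟩, h5⟩, ⟨h6, h7⟩, h8⟩ := hl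
      simp only
      exact ⟨⟨⟨h2, h3, by omega⟩, Or.inl (by omega)⟩, ⟨h6, by omega⟩, Or.inr (by omega)⟩
    · intro l hl l' hl' h
      rw [Finset.mem_coe, Finset.mem_filter] at hl hl'
      have e1 := congrArg Prod.fst h
      have e2 := congrArg Prod.snd h
      simp only at e1 e2
      exact Prod.ext e1 (by omega)
    · intro l hl
      rw [Finset.mem_filter] at hl
      have e1 : nx (l.1, l.2 - rb) = nx l := by
        unfold nx
        simp only
        rw [decide_eq_decide]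
        constructor <;> intro h <;> omega
      rw [e1]
      unfold kap dd
      simp only
      obtain ⟨b, hb⟩ : ∃ b, l.2 = b + rb := ⟨l.2 - rb, by omega⟩
      rw [hb, Nat.add_sub_cancel]
      push_cast
      rw [pow_add, one_div_pow]
      field_simp
  calc ∑ l ∈ (L Λ c).filter (fun l => (l.1 ≤ a₀ ∧ l.2 ≤ a₀) ∧ (α < l.1 ∨ β < l.2) ∧
        ¬ (l.1 ≤ α + ra ∧ l.2 ≤ β + rb)), kap l * v (nx l)
      ≤ ∑ l ∈ (L Λ c).filter (fun l => (l.1 ≤ a₀ ∧ l.2 ≤ a₀) ∧ α + ra < l.1) ∪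
          (L Λ c).filter (fun l => (l.1 ≤ a₀ ∧ l.2 ≤ a₀) ∧ β + rb < l.2), kap l * v (nx l) := by
        refine Finset.sum_le_sum_of_subset_of_nonneg ?_ fun l _ _ => h0 l
        intro l hl
        rw [Finset.mem_filter] at hl
        rw [Finset.mem_union, Finset.mem_filter, Finset.mem_filter]
        obtain ⟨h3, h4, -, h5⟩ := hl
        rcases not_and_or.1 h5 with h6 | h6
        · exact Or.inl ⟨h3, h4, not_le.1 h6⟩
        · exact Or.inr ⟨h3, h4, not_le.1 h6⟩
    _ ≤ ∑ l ∈ (L Λ c).filter (fun l => (l.1 ≤ a₀ ∧ l.2 ≤ a₀) ∧ α + ra < l.1), kap l * v (nx l) +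
          ∑ l ∈ (L Λ c).filter (fun l => (l.1 ≤ a₀ ∧ l.2 ≤ a₀) ∧ β + rb < l.2),
            kap l * v (nx l) := by
        have := Finset.sum_union_inter (f := fun l => kap l * v (nx l))
          (s₁ := (L Λ c).filter (fun l => (l.1 ≤ a₀ ∧ l.2 ≤ a₀) ∧ α + ra < l.1))
          (s₂ := (L Λ c).filter (fun l => (l.1 ≤ a₀ ∧ l.2 ≤ a₀) ∧ β + rb < l.2))
        rw [← this]
        exact le_add_of_nonneg_right (Finset.sum_nonneg fun l _ => h0 l)
    _ ≤ _ := by
        rw [add_mul]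
        exact add_le_add h1 h2

end K5
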