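import Pool.Agent.Lib.MP_a4658c_nt.K5.FDefs

/-! Piece F4: survival masses (paper (2.4)). -/

namespace K5

private lemma F4_succ (Λ n : ℕ) (c : Bool) (α β : ℕ) :
    surv Λ (n + 1) c α β = ∑ l ∈ (L Λ c).filter (fun l => l.1 ≤ α ∧ l.2 ≤ β),
        kap l * surv Λ n (nx l) (α - l.1) (β - l.2) := rfl

lemma surv_nonneg (Λ n : ℕ) (c : Bool) (α β : ℕ) : 0 ≤ surv Λ n c α β := by
  induction n generalizing c α β with
  | zero => exact (v_pos c).le
  | succ n ih =>
    rw [F4_succ]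
    exact Finset.sum_nonneg fun l _ => mul_nonneg (kap_pos l).le (ih _ _ _)

lemma surv_le_v (Λ n : ℕ) (c : Bool) (α β : ℕ) : surv Λ n c α β ≤ v c := by
  induction n generalizing c α β with
  | zero => exact le_rfl
  | succ n ih =>
    rw [F4_succ]
    refine (Finset.sum_le_sum fun l _ =>
      mul_le_mul_of_nonneg_left (ih (nx l) (α - l.1) (β - l.2)) (kap_pos l).le).trans ?_
    refine (Finset.sum_le_sum_of_subset_of_nonneg (Finset.filter_subset _ _)
      fun l _ _ => mul_nonneg (kap_pos l).le (v_pos _).le).trans (sum_L_v Λ c)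

lemma surv_anti (Λ : ℕ) {n n' : ℕ} (h : n ≤ n') (c : Bool) (α β : ℕ) :
    surv Λ n' c α β ≤ surv Λ n c α β := by
  induction n generalizing n' c α β with
  | zero => exact surv_le_v Λ n' c α β
  | succ n ih =>
    obtain ⟨m, rfl⟩ : ∃ m, n' = m + 1 := ⟨n' - 1, by omega⟩
    rw [F4_succ, F4_succ]
    exact Finset.sum_le_sum fun l _ =>
      mul_le_mul_of_nonneg_left (ih (by omega) (nx l) (α - l.1) (β - l.2)) (kap_pos l).le

lemma surv_eq_zero (Λ n : ℕ) (c : Bool) (α β : ℕ) (h : α < n) : surv Λ n c α β = 0 := by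
  induction n generalizing c α β with
  | zero => exact absurd h (Nat.not_lt_zero _)
  | succ n ih =>
    rw [F4_succ]
    refine Finset.sum_eq_zero fun l hl => ?_
    obtain ⟨h1, h2⟩ := Finset.mem_filter.1 hl
    have h3 := (mem_L.1 h1).1.1
    rw [ih _ _ _ (by omega), mul_zero]

lemma surv_two (Λ n : ℕ) (c : Bool) (α β : ℕ) :
    surv Λ n c α β ≤ v c * 0.7 ^ n * 2 ^ β := by
  induction n generalizing c α β with
  | zero =>
    show v c ≤ _
    have h1 : (1 : ℝ) ≤ 2 ^ β := one_le_pow₀ (by norm_num)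
    have h2 := v_pos c
    rw [pow_zero, mul_one]
    nlinarith
  | succ n ih =>
    rw [F4_succ]
    have h1 : ∀ l ∈ (L Λ c).filter (fun l => l.1 ≤ α ∧ l.2 ≤ β),
        kap l * surv Λ n (nx l) (α - l.1) (β - l.2) ≤
        (0.7 ^ n * 2 ^ β) * (kap l * v (nx l) * (1 / 2) ^ l.2) := by
      intro l hl
      have h2 := (Finset.mem_filter.1 hl).2.2
      have h3 := mul_le_mul_of_nonneg_left (ih (nx l) (α - l.1) (β - l.2)) (kap_pos l).le
      have h4 : (2 : ℝ) ^ (β - l.2) = 2 ^ β * (1 / 2) ^ l.2 := by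
        have h5 : (2 : ℝ) ^ β = 2 ^ (β - l.2) * 2 ^ l.2 := by
          rw [← pow_add]
          congr 1
          omega
        rw [h5, one_div_pow, mul_assoc, mul_one_div_cancel (by positivity), mul_one]
      refine h3.trans (le_of_eq ?_)
      rw [h4]
      ring
    refine (Finset.sum_le_sum h1).trans ?_
    rw [← Finset.mul_sum]
    have h5 : ∑ l ∈ (L Λ c).filter (fun l => l.1 ≤ α ∧ l.2 ≤ β),
        kap l * v (nx l) * (1 / 2) ^ l.2 ≤ 0.7 * v c :=
      (Finset.sum_le_sum_of_subset_of_nonneg (Finset.filter_subset _ _)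
        fun l _ _ => mul_nonneg (mul_nonneg (kap_pos l).le (v_pos _).le) (by positivity)).trans
        (sum_L_two Λ c)
    refine (mul_le_mul_of_nonneg_left h5 (by positivity)).trans (le_of_eq ?_)
    rw [pow_succ]
    ring

lemma surv_half (Λ n : ℕ) (c : Bool) (α β : ℕ) (h : 4 * β + 4 ≤ n) :
    surv Λ n c α β ≤ v c / 2 := by
  refine (surv_anti Λ h c α β).trans ((surv_two Λ _ c α β).trans ?_)
  have h1 : (0.7 : ℝ) ^ (4 * β + 4) * 2 ^ β = 0.4802 ^ β * 0.2401 := by
    rw [pow_add, pow_mul, mul_right_comm, ← mul_pow]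
    norm_num
  have h2 : (0.4802 : ℝ) ^ β ≤ 1 := pow_le_one₀ (by norm_num) (by norm_num)
  have h3 := v_pos c
  rw [mul_assoc, h1]
  nlinarith [mul_le_mul_of_nonneg_left h2 h3.le]

lemma surv_pow (Λ n : ℕ) (c : Bool) (α β : ℕ) :
    surv Λ n c α β ≤ 4 * pv c * (2 ^ α * 3 ^ β) * (0.81 / 5) ^ n := by
  induction n generalizing c α β with
  | zero =>
    show v c ≤ _
    have h1 : (1 : ℝ) ≤ 2 ^ α := one_le_pow₀ (by norm_num)
    have h2 : (1 : ℝ) ≤ 3 ^ β := one_le_pow₀ (by norm_num)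
    have h3 : (1 : ℝ) ≤ 2 ^ α * 3 ^ β := one_le_mul_of_one_le_of_one_le h1 h2
    have h4 : v c ≤ 4 * pv c := by
      cases c <;> norm_num [v, pv]
    have h5 := pv_pos c
    rw [pow_zero, mul_one]
    nlinarith
  | succ n ih =>
    rw [F4_succ]
    have h1 : ∀ l ∈ (L Λ c).filter (fun l => l.1 ≤ α ∧ l.2 ≤ β),
        kap l * surv Λ n (nx l) (α - l.1) (β - l.2) ≤
        (4 * (2 ^ α * 3 ^ β) * (0.81 / 5) ^ n / 5) * (5 * kap l ^ 2 * pv (nx l)) := by
      intro l hl
      have h2 := (Finset.mem_filter.1 hl).2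
      have h3 := mul_le_mul_of_nonneg_left (ih (nx l) (α - l.1) (β - l.2)) (kap_pos l).le
      have h4 : (2 : ℝ) ^ (α - l.1) * 3 ^ (β - l.2) = 2 ^ α * 3 ^ β * kap l := by
        have h5 : (2 : ℝ) ^ α = 2 ^ (α - l.1) * 2 ^ l.1 := by
          rw [← pow_add]
          congr 1
          omega
        have h6 : (3 : ℝ) ^ β = 3 ^ (β - l.2) * 3 ^ l.2 := by
          rw [← pow_add]
          congr 1
          omega
        rw [h5, h6, kap, dd]
        push_cast
        field_simp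
      refine h3.trans (le_of_eq ?_)
      rw [h4]
      ring
    refine (Finset.sum_le_sum h1).trans ?_
    rw [← Finset.mul_sum]
    have h5 : ∑ l ∈ (L Λ c).filter (fun l => l.1 ≤ α ∧ l.2 ≤ β),
        5 * kap l ^ 2 * pv (nx l) ≤ 0.81 * pv c :=
      (Finset.sum_le_sum_of_subset_of_nonneg (Finset.filter_subset _ _)
        fun l _ _ => mul_nonneg (by positivity) (pv_pos _).le).trans (sum_L_p Λ c)
    refine (mul_le_mul_of_nonneg_left h5 (by positivity)).trans (le_of_eq ?_)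
    rw [pow_succ]
    ring

end K5
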