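import Pool.Agent.Lib.MP_a4658c_nt.K5.F2
import Pool.Agent.Lib.MP_a4658c_nt.K5.F3
import Pool.Agent.Lib.MP_a4658c_nt.K5.F4

/-! Piece F5: the component lemma (paper (2.3)) and the short component bound (2.5). -/

namespace K5

/-- The white part of the component lemma. -/
private theorem F5_white {Λ k : ℕ} {ψ : Bool → ℕ → ℕ → ℂ} {a₀ : ℕ} (ha₀ : 2 ≤ a₀) (hΛ : 2 ≤ Λ)
    {ε b q : ℝ} (hb : 0 ≤ b) (hq : 0 ≤ q)
    (hsmall : ∀ c, ∑ l ∈ (L Λ c).filter (fun l => ¬ (l.1 ≤ a₀ ∧ l.2 ≤ a₀)), kap l * v (nx l)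
      ≤ ε * v c)
    {Rs : ℕ} (hQ : QB Λ k ψ Rs q)
    (St : ℕ → Bool → ZMod (5 ^ k) → ℕ → Prop)
    (hSt_ord : ∀ j c y R, St j c y R → Ord k R y ∧ Rs + j ≤ R)
    (hSt_step : ∀ j c y R l, St (j + 1) c y (R + 1) → l ∈ L Λ c → l.1 ≤ a₀ → l.2 ≤ a₀ →
      St j (nx l) (5 * uu k l * y) R)
    (hSt_b : ∀ j c y R A B, St j c y R → ‖Gam Λ k ψ R c y A B‖ ≤ v c * b)
    (n : ℕ) (c : Bool) (y : ZMod (5 ^ k)) (R A B : ℕ) (hs : St (n + 2) c y R)
    (hw : ¬ Black k y) :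
    ‖Gam Λ k ψ R c y A B‖ ≤ v c * ((1 - del0) * b + 2 * ε * q) := by
  obtain ⟨hord, hR⟩ := hSt_ord _ _ _ _ hs
  obtain ⟨R', rfl⟩ : ∃ R', R = R' + 2 := ⟨R - 2, by omega⟩
  have hd := del0_pos
  set bf : Let → Let → ℝ := fun l₁ l₂ =>
    if (l₁.1 ≤ a₀ ∧ l₁.2 ≤ a₀) ∧ (l₂.1 ≤ a₀ ∧ l₂.2 ≤ a₀) then b else q with hbf
  have hkey := white_gain (Λ := Λ) (k := k) (ψ := ψ) (R := R') (c := c) (y := y) (A := A) (B := B)
    hΛ hw bf hb ?_ ?_ ?_
  rotate_left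
  · intro l₁ hl₁ l₂ hl₂
    by_cases h : (l₁.1 ≤ a₀ ∧ l₁.2 ≤ a₀) ∧ (l₂.1 ≤ a₀ ∧ l₂.2 ≤ a₀)
    · have e : bf l₁ l₂ = b := if_pos h
      rw [e]
      have s1 := hSt_step _ _ _ _ l₁ hs hl₁ h.1.1 h.1.2
      have s2 := hSt_step _ _ _ _ l₂ s1 hl₂ h.2.1 h.2.2
      exact hSt_b _ _ _ _ _ _ s2
    · have e : bf l₁ l₂ = q := if_neg h
      rw [e]
      have hQ' : QB Λ k ψ R' q := QB_mono hq (by omega) le_rfl hQ
      exact hQ' _ _ _ _ (Ord_step l₂ (Ord_step l₁ hord))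
  · have : ((1 : ℕ) ≤ a₀ ∧ (1 : ℕ) ≤ a₀) ∧ ((2 : ℕ) ≤ a₀ ∧ (1 : ℕ) ≤ a₀) := by omega
    exact if_pos this
  · have : ((2 : ℕ) ≤ a₀ ∧ (1 : ℕ) ≤ a₀) ∧ ((1 : ℕ) ≤ a₀ ∧ (1 : ℕ) ≤ a₀) := by omega
    exact if_pos this
  refine hkey.trans ?_
  -- the total mass
  have hpt : ∀ l₁ l₂ : Let, kap l₁ * kap l₂ * (v (nx l₂) * bf l₁ l₂) ≤
      b * (kap l₁ * (kap l₂ * v (nx l₂))) +
      q * ((if ¬ (l₁.1 ≤ a₀ ∧ l₁.2 ≤ a₀) then kap l₁ else 0) * (kap l₂ * v (nx l₂))) +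
      q * (kap l₁ * (if ¬ (l₂.1 ≤ a₀ ∧ l₂.2 ≤ a₀) then kap l₂ * v (nx l₂) else 0)) := by
    intro l₁ l₂
    have k1 := kap_pos l₁
    have k2 := kap_pos l₂
    have k3 := v_pos (nx l₂)
    have k4 : 0 ≤ kap l₁ * (kap l₂ * v (nx l₂)) := by positivity
    have k5 : 0 ≤ q * (kap l₁ * (kap l₂ * v (nx l₂))) := by positivity
    have k6 : 0 ≤ b * (kap l₁ * (kap l₂ * v (nx l₂))) := by positivity
    by_cases h1 : (l₁.1 ≤ a₀ ∧ l₁.2 ≤ a₀)
    · by_cases h2 : (l₂.1 ≤ a₀ ∧ l₂.2 ≤ a₀)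
      · have e : bf l₁ l₂ = b := if_pos ⟨h1, h2⟩
        rw [e, if_neg (not_not.2 h1), if_neg (not_not.2 h2)]
        linarith
      · have e : bf l₁ l₂ = q := if_neg (fun h => h2 h.2)
        rw [e, if_neg (not_not.2 h1), if_pos h2]
        linarith
    · have e : bf l₁ l₂ = q := if_neg (fun h => h1 h.1)
      rw [e, if_pos h1]
      by_cases h2 : (l₂.1 ≤ a₀ ∧ l₂.2 ≤ a₀)
      · rw [if_neg (not_not.2 h2)]
        linarith
      · rw [if_pos h2]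
        linarith
  have hsum : (∑ l₁ ∈ L Λ c, ∑ l₂ ∈ L Λ (nx l₁), kap l₁ * kap l₂ * (v (nx l₂) * bf l₁ l₂)) ≤
      b * v c + q * (ε * v c) + q * (ε * v c) := by
    refine (Finset.sum_le_sum fun l₁ _ => Finset.sum_le_sum fun l₂ _ => hpt l₁ l₂).trans ?_
    simp only [Finset.sum_add_distrib, ← Finset.mul_sum]
    have t1 : ∑ l₁ ∈ L Λ c, kap l₁ * ∑ l₂ ∈ L Λ (nx l₁), kap l₂ * v (nx l₂) ≤ v c :=
      (Finset.sum_le_sum fun l₁ _ =>
        mul_le_mul_of_nonneg_left (sum_L_v Λ (nx l₁)) (kap_pos l₁).le).trans (sum_L_v Λ c)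
    have t2 : ∑ l₁ ∈ L Λ c, (if ¬ (l₁.1 ≤ a₀ ∧ l₁.2 ≤ a₀) then kap l₁ else 0) *
        ∑ l₂ ∈ L Λ (nx l₁), kap l₂ * v (nx l₂) ≤ ε * v c := by
      refine le_trans (Finset.sum_le_sum (g := fun l₁ =>
        if ¬ (l₁.1 ≤ a₀ ∧ l₁.2 ≤ a₀) then kap l₁ * v (nx l₁) else 0) fun l₁ _ => ?_) ?_
      · by_cases h1 : (l₁.1 ≤ a₀ ∧ l₁.2 ≤ a₀)
        · rw [if_neg (not_not.2 h1), if_neg (not_not.2 h1), zero_mul]
        · rw [if_pos h1, if_pos h1]
          exact mul_le_mul_of_nonneg_left (sum_L_v Λ (nx l₁)) (kap_pos l₁).le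
      · rw [← Finset.sum_filter]
        exact hsmall c
    have t3 : ∑ l₁ ∈ L Λ c, kap l₁ * ∑ l₂ ∈ L Λ (nx l₁),
        (if ¬ (l₂.1 ≤ a₀ ∧ l₂.2 ≤ a₀) then kap l₂ * v (nx l₂) else 0) ≤ ε * v c := by
      have hε : 0 ≤ ε := by
        have h0 : 0 ≤ ∑ l ∈ (L Λ c).filter (fun l => ¬ (l.1 ≤ a₀ ∧ l.2 ≤ a₀)),
            kap l * v (nx l) :=
          Finset.sum_nonneg fun l _ => mul_nonneg (kap_pos l).le (v_pos _).le
        have h1 := h0.trans (hsmall c)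
        by_contra hneg
        have := mul_neg_of_neg_of_pos (not_le.1 hneg) (v_pos c)
        linarith
      have e : ∀ l₁ ∈ L Λ c, kap l₁ * ∑ l₂ ∈ L Λ (nx l₁),
          (if ¬ (l₂.1 ≤ a₀ ∧ l₂.2 ≤ a₀) then kap l₂ * v (nx l₂) else 0) ≤
          ε * (kap l₁ * v (nx l₁)) := by
        intro l₁ _
        rw [← Finset.sum_filter]
        have := mul_le_mul_of_nonneg_left (hsmall (nx l₁)) (kap_pos l₁).le
        linarith
      refine (Finset.sum_le_sum e).trans ?_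
      rw [← Finset.mul_sum]
      exact mul_le_mul_of_nonneg_left (sum_L_v Λ c) hε
    have r1 := mul_le_mul_of_nonneg_left t1 hb
    have r2 := mul_le_mul_of_nonneg_left t2 hq
    have r3 := mul_le_mul_of_nonneg_left t3 hq
    linarith
  have hv4 : del0 * b * v c ≤ del0 * b * 4 :=
    mul_le_mul_of_nonneg_left (v_le c) (mul_nonneg hd.le hb)
  nlinarith [hsum, hv4]

theorem component {Λ k : ℕ} {ψ : Bool → ℕ → ℕ → ℂ} {a₀ : ℕ} (ha₀ : 2 ≤ a₀) (hΛ : 2 ≤ Λ)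
    {ε b q : ℝ} (hε : 0 ≤ ε) (hb : 0 ≤ b) (hq : 0 ≤ q)
    (hsmall : ∀ c, ∑ l ∈ (L Λ c).filter (fun l => ¬ (l.1 ≤ a₀ ∧ l.2 ≤ a₀)), kap l * v (nx l)
      ≤ ε * v c)
    {Rs : ℕ} (hQ : QB Λ k ψ Rs q)
    (St : ℕ → Bool → ZMod (5 ^ k) → ℕ → Prop)
    (hSt_ord : ∀ j c y R, St j c y R → Ord k R y ∧ Rs + j ≤ R)
    (hSt_step : ∀ j c y R l, St (j + 1) c y (R + 1) → l ∈ L Λ c → l.1 ≤ a₀ → l.2 ≤ a₀ →
      St j (nx l) (5 * uu k l * y) R)
    (hSt_b : ∀ j c y R A B, St j c y R → ‖Gam Λ k ψ R c y A B‖ ≤ v c * b)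
    (n : ℕ) (c : Bool) (y : ZMod (5 ^ k)) (R A B : ℕ) (hs : St (n + 2) c y R) :
    (¬ Black k y → ‖Gam Λ k ψ R c y A B‖ ≤ v c * ((1 - del0) * b + 2 * ε * q)) ∧
    (Black k y → ‖Gam Λ k ψ R c y A B‖
      ≤ b * (v c - 3 / 4 * del0 * (v c - surv Λ n c (va k y) (vb k y)))
        + (n + 2) * ε * q * v c) := by
  refine ⟨F5_white ha₀ hΛ hb hq hsmall hQ St hSt_ord hSt_step hSt_b n c y R A B hs, ?_⟩
  have hd := del0_pos
  have hd1 := del0_lt
  have hεq : 0 ≤ ε * q := mul_nonneg hε hq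
  induction n generalizing c y R A B with
  | zero =>
    intro _
    have h1 := hSt_b _ _ _ _ A B hs
    have h2 : surv Λ 0 c (va k y) (vb k y) = v c := rfl
    rw [h2]
    have h3 := mul_nonneg hεq (v_pos c).le
    push_cast
    nlinarith
  | succ n ih =>
    intro hbl
    obtain ⟨hord, hR⟩ := hSt_ord _ _ _ _ hs
    obtain ⟨R', rfl⟩ : ∃ R', R = R' + 1 := ⟨R - 1, by omega⟩
    have hy0 : y ≠ 0 := Ord_ne hord
    set α := va k y with hα
    set β := vb k y with hβ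
    have hQ' : QB Λ k ψ R' q := QB_mono hq (by omega) le_rfl hQ
    have hn0 : (0 : ℝ) ≤ (n : ℝ) := Nat.cast_nonneg n
    -- pointwise bound
    have hpt : ∀ l ∈ L Λ c, kap l *
        ‖Gam Λ k ψ R' (nx l) (5 * uu k l * y) (A + l.1) (B + l.2)‖ ≤
        q * (if ¬ (l.1 ≤ a₀ ∧ l.2 ≤ a₀) then kap l * v (nx l) else 0) +
        (b * (1 - 3 / 4 * del0) + (n + 2) * (ε * q)) *
          (if (l.1 ≤ a₀ ∧ l.2 ≤ a₀) ∧ (l.1 ≤ α ∧ l.2 ≤ β) then kap l * v (nx l) else 0) +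
        (b * (3 / 4 * del0)) *
          (if (l.1 ≤ a₀ ∧ l.2 ≤ a₀) ∧ (l.1 ≤ α ∧ l.2 ≤ β) then
            kap l * surv Λ n (nx l) (α - l.1) (β - l.2) else 0) +
        ((1 - del0) * b + 2 * (ε * q)) *
          (if (l.1 ≤ a₀ ∧ l.2 ≤ a₀) ∧ (α < l.1 ∨ β < l.2) then kap l * v (nx l) else 0) +
        (del0 * b) *
          (if (l.1 ≤ a₀ ∧ l.2 ≤ a₀) ∧ (α < l.1 ∨ β < l.2) ∧
            ¬ (l.1 ≤ α + 4 ∧ l.2 ≤ β + 2) then kap l * v (nx l) else 0) := by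
      intro l hl
      have k1 := kap_pos l
      have k3 := v_pos (nx l)
      have k4 : 0 ≤ kap l * v (nx l) := by positivity
      by_cases h1 : (l.1 ≤ a₀ ∧ l.2 ≤ a₀)
      · have hs' := hSt_step _ _ _ _ l hs hl h1.1 h1.2
        by_cases h2 : l.1 ≤ α ∧ l.2 ≤ β
        · rw [if_neg (not_not.2 h1), if_pos ⟨h1, h2⟩, if_pos ⟨h1, h2⟩,
            if_neg (fun h => by omega), if_neg (fun h => by omega)]
          have hsn := surv_nonneg Λ n (nx l) (α - l.1) (β - l.2)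
          have hmain : ‖Gam Λ k ψ R' (nx l) (5 * uu k l * y) (A + l.1) (B + l.2)‖ ≤
              b * (v (nx l) - 3 / 4 * del0 * (v (nx l) -
                surv Λ n (nx l) (α - l.1) (β - l.2))) + (n + 2) * ε * q * v (nx l) := by
            by_cases hw : Black k (5 * uu k l * y)
            · have := ih (nx l) (5 * uu k l * y) R' (A + l.1) (B + l.2) hs' hw
              obtain ⟨-, e1, e2⟩ := box_step hbl hy0 l h2.1 h2.2
              rw [e1, e2] at this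
              exact this
            · have := F5_white ha₀ hΛ hb hq hsmall hQ St hSt_ord hSt_step hSt_b n (nx l)
                (5 * uu k l * y) R' (A + l.1) (B + l.2) hs' hw
              refine this.trans ?_
              have p1 : 0 ≤ b * del0 * v (nx l) := by positivity
              have p2 : 0 ≤ b * del0 * surv Λ n (nx l) (α - l.1) (β - l.2) := by positivity
              have p3 : 0 ≤ (n : ℝ) * (ε * q * v (nx l)) := by positivity
              nlinarith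
          have := mul_le_mul_of_nonneg_left hmain k1.le
          refine this.trans (le_of_eq ?_)
          ring
        · have h2' : α < l.1 ∨ β < l.2 := by omega
          rw [if_neg (not_not.2 h1), if_neg (fun h => h2 h.2), if_neg (fun h => h2 h.2),
            if_pos ⟨h1, h2'⟩]
          by_cases h3 : l.1 ≤ α + 4 ∧ l.2 ≤ β + 2
          · rw [if_neg (fun h => h.2.2 h3)]
            have hw := exit_white hbl hy0 l h2' h3.1 h3.2
            have := F5_white ha₀ hΛ hb hq hsmall hQ St hSt_ord hSt_step hSt_b n (nx l)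
                (5 * uu k l * y) R' (A + l.1) (B + l.2) hs' hw
            have := mul_le_mul_of_nonneg_left this k1.le
            refine this.trans (le_of_eq ?_)
            ring
          · rw [if_pos ⟨h1, h2', h3⟩]
            have := hSt_b _ _ _ _ (A + l.1) (B + l.2) hs'
            have := mul_le_mul_of_nonneg_left this k1.le
            refine this.trans ?_
            have p1 : 0 ≤ ε * q * (kap l * v (nx l)) := by positivity
            nlinarith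
      · rw [if_pos h1, if_neg (fun h => h1 h.1), if_neg (fun h => h1 h.1),
          if_neg (fun h => h1 h.1), if_neg (fun h => h1 h.1)]
        have := hQ' (nx l) (5 * uu k l * y) (A + l.1) (B + l.2) (Ord_step l hord)
        have := mul_le_mul_of_nonneg_left this k1.le
        refine this.trans (le_of_eq ?_)
        ring
    have hnorm : ‖Gam Λ k ψ (R' + 1) c y A B‖ ≤ ∑ l ∈ L Λ c, kap l *
        ‖Gam Λ k ψ R' (nx l) (5 * uu k l * y) (A + l.1) (B + l.2)‖ := by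
      rw [Gam_succ]
      refine (norm_sum_le _ _).trans (Finset.sum_le_sum fun l _ => ?_)
      rw [norm_mul, norm_mul, chi_norm, mul_one, Complex.norm_real, Real.norm_eq_abs,
        abs_of_pos (kap_pos l)]
    refine hnorm.trans ((Finset.sum_le_sum hpt).trans ?_)
    simp only [Finset.sum_add_distrib, ← Finset.mul_sum, ← Finset.sum_filter]
    set Sns := ∑ l ∈ (L Λ c).filter (fun l => ¬ (l.1 ≤ a₀ ∧ l.2 ≤ a₀)), kap l * v (nx l)
      with hSns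
    set Sin := ∑ l ∈ (L Λ c).filter (fun l => (l.1 ≤ a₀ ∧ l.2 ≤ a₀) ∧ (l.1 ≤ α ∧ l.2 ≤ β)),
      kap l * v (nx l) with hSin
    set Ssu := ∑ l ∈ (L Λ c).filter (fun l => (l.1 ≤ a₀ ∧ l.2 ≤ a₀) ∧ (l.1 ≤ α ∧ l.2 ≤ β)),
      kap l * surv Λ n (nx l) (α - l.1) (β - l.2) with hSsu
    set Sex := ∑ l ∈ (L Λ c).filter (fun l => (l.1 ≤ a₀ ∧ l.2 ≤ a₀) ∧ (α < l.1 ∨ β < l.2)),
      kap l * v (nx l) with hSex
    set Sbd := ∑ l ∈ (L Λ c).filter (fun l => (l.1 ≤ a₀ ∧ l.2 ≤ a₀) ∧ (α < l.1 ∨ β < l.2) ∧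
      ¬ (l.1 ≤ α + 4 ∧ l.2 ≤ β + 2)), kap l * v (nx l) with hSbd
    have i1 : Sns ≤ ε * v c := hsmall c
    have i2 : Sbd ≤ 1 / 4 * Sex := by
      have h := exit_mass Λ a₀ c α β 4 2 (by decide)
      have h0 : 0 ≤ Sex := Finset.sum_nonneg fun l _ => mul_nonneg (kap_pos l).le (v_pos _).le
      refine h.trans ?_
      exact mul_le_mul_of_nonneg_right (by norm_num) h0
    have i3 : Sin + Sex ≤ v c := by
      refine le_trans ?_ (sum_L_v Λ c)
      rw [hSin, hSex, ← Finset.sum_union]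
      · refine Finset.sum_le_sum_of_subset_of_nonneg ?_ fun l _ _ =>
          mul_nonneg (kap_pos l).le (v_pos _).le
        intro l hl
        rw [Finset.mem_union, Finset.mem_filter, Finset.mem_filter] at hl
        rcases hl with hl | hl
        · exact hl.1
        · exact hl.1
      · rw [Finset.disjoint_left]
        intro l hl hl'
        rw [Finset.mem_filter] at hl hl'
        omega
    have i4 : 0 ≤ Sin := Finset.sum_nonneg fun l _ => mul_nonneg (kap_pos l).le (v_pos _).le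
    have i5 : 0 ≤ Sex := Finset.sum_nonneg fun l _ => mul_nonneg (kap_pos l).le (v_pos _).le
    have i6 : Ssu ≤ surv Λ (n + 1) c α β := by
      show Ssu ≤ ∑ l ∈ (L Λ c).filter (fun l => l.1 ≤ α ∧ l.2 ≤ β),
        kap l * surv Λ n (nx l) (α - l.1) (β - l.2)
      refine Finset.sum_le_sum_of_subset_of_nonneg ?_ fun l _ _ =>
        mul_nonneg (kap_pos l).le (surv_nonneg _ _ _ _ _)
      intro l hl
      rw [Finset.mem_filter] at hl ⊢
      exact ⟨hl.1, hl.2.2⟩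
    have j1 : q * Sns ≤ q * (ε * v c) := mul_le_mul_of_nonneg_left i1 hq
    have j2 : del0 * b * Sbd ≤ del0 * b * (1 / 4 * Sex) :=
      mul_le_mul_of_nonneg_left i2 (by positivity)
    have j3 : b * (3 / 4 * del0) * Ssu ≤ b * (3 / 4 * del0) * surv Λ (n + 1) c α β :=
      mul_le_mul_of_nonneg_left i6 (by positivity)
    have j4 : (b * (1 - 3 / 4 * del0) + (n + 2) * (ε * q)) * (Sin + Sex) ≤
        (b * (1 - 3 / 4 * del0) + (n + 2) * (ε * q)) * v c := by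
      refine mul_le_mul_of_nonneg_left i3 ?_
      have : 0 ≤ 1 - 3 / 4 * del0 := by linarith
      positivity
    have j5 : 2 * (ε * q) * Sex ≤ (n + 2) * (ε * q) * Sex := by
      have : 0 ≤ (n : ℝ) * (ε * q * Sex) := by positivity
      nlinarith
    push_cast
    nlinarith

/-- The data for the short components. -/
private theorem F5_short {Λ k : ℕ} {ψ : Bool → ℕ → ℕ → ℂ} (hΛ : 2 ≤ Λ) {q : ℝ} (hq : 0 ≤ q)
    {Rs R : ℕ} (hQ : QB Λ k ψ Rs q) (n : ℕ) (hR : Rs + n + 2 ≤ R) (c : Bool) (y : ZMod (5 ^ k))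
    (A B : ℕ) (hy : Ord k R y) :
    (¬ Black k y → ‖Gam Λ k ψ R c y A B‖ ≤ v c * ((1 - del0) * q + 2 * 0 * q)) ∧
    (Black k y → ‖Gam Λ k ψ R c y A B‖
      ≤ q * (v c - 3 / 4 * del0 * (v c - surv Λ n c (va k y) (vb k y)))
        + (n + 2) * 0 * q * v c) := by
  refine component (a₀ := Λ) hΛ hΛ le_rfl hq hq ?_ hQ
    (fun j _ y R => Ord k R y ∧ Rs + j ≤ R) (fun _ _ _ _ h => h) ?_ ?_ n c y R A B
    ⟨hy, by omega⟩
  · intro c
    have : (L Λ c).filter (fun l => ¬ (l.1 ≤ Λ ∧ l.2 ≤ Λ)) = ∅ := by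
      rw [Finset.filter_eq_empty_iff]
      intro l hl
      rw [mem_L] at hl
      exact not_not.2 ⟨hl.1.2.1, hl.1.2.2⟩
    rw [this, Finset.sum_empty, zero_mul]
  · intro j _ y R l h _ _ _
    exact ⟨Ord_step l h.1, by have := h.2; omega⟩
  · intro j c y R A B h
    exact QB_mono hq (by have := h.2; omega) le_rfl hQ c y A B h.1

/-- (2.5), white case. -/
theorem white_short {Λ k : ℕ} {ψ : Bool → ℕ → ℕ → ℂ} (hΛ : 2 ≤ Λ) {q : ℝ} (hq : 0 ≤ q)
    {Rs R : ℕ} (hQ : QB Λ k ψ Rs q) (hR : Rs + 2 ≤ R) (c : Bool) (y : ZMod (5 ^ k))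
    (A B : ℕ) (hy : Ord k R y) (hw : ¬ Black k y) :
    ‖Gam Λ k ψ R c y A B‖ ≤ v c * ((1 - del0) * q) := by
  have := (F5_short hΛ hq hQ 0 (by omega) c y A B hy).1 hw
  refine this.trans (le_of_eq ?_)
  ring

/-- (2.5), black case with `n = va + 1` or `n = 4 vb + 4`. -/
theorem black_short {Λ k : ℕ} {ψ : Bool → ℕ → ℕ → ℂ} (hΛ : 2 ≤ Λ) {q : ℝ} (hq : 0 ≤ q)
    {Rs R n : ℕ} (hQ : QB Λ k ψ Rs q) (hR : Rs + n + 2 ≤ R) (c : Bool) (y : ZMod (5 ^ k))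
    (A B : ℕ) (hy : Ord k R y) (hb : Black k y) (hn : va k y + 1 ≤ n ∨ 4 * vb k y + 4 ≤ n) :
    ‖Gam Λ k ψ R c y A B‖ ≤ v c * ((1 - 3 / 8 * del0) * q) := by
  have h := (F5_short hΛ hq hQ n hR c y A B hy).2 hb
  have hs : surv Λ n c (va k y) (vb k y) ≤ v c / 2 := by
    rcases hn with hn | hn
    · rw [surv_eq_zero Λ n c _ _ (by omega)]
      have := v_pos c
      linarith
    · exact surv_half Λ n c _ _ hn
  have hd := del0_pos
  have h2 : q * del0 * surv Λ n c (va k y) (vb k y) ≤ q * del0 * (v c / 2) :=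
    mul_le_mul_of_nonneg_left hs (by positivity)
  refine h.trans ?_
  nlinarith

end K5
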