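import Pool.Agent.Lib.MP_a4658c_nt.K5.F1

/-! Piece F6: the environments (paper (2.6)). -/

namespace K5

private lemma f6_key {k r : ℕ} {y : ZMod (5 ^ k)} {p m N : ℤ} (hp : 0 < p) (hr : 1 ≤ r)
    (hpN : ¬ p ∣ N) (hm : p ^ r ≤ m) (hm2 : 2 ≤ m) (hcop : IsCoprime m (5 : ℤ))
    (h1 : m ∣ y.valMinAbs) (h2 : m ∣ N) (h3 : 4 * |N| ≤ (5 : ℤ) ^ k)
    (hb : Black k y) (hy : (p : ZMod (5 ^ k)) ^ r * y = (N : ZMod (5 ^ k))) : False := by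
  unfold Black at hb
  set N1 : ℤ := y.valMinAbs with hN1
  have hyN : ((N1 : ℤ) : ZMod (5 ^ k)) = y := ZMod.coe_valMinAbs y
  have hM : (0 : ℤ) < 5 ^ k := by positivity
  have hpr : (0 : ℤ) < p ^ r := pow_pos hp r
  -- the congruence
  have hcong : ((5 ^ k : ℕ) : ℤ) ∣ p ^ r * N1 - N := by
    rw [← ZMod.intCast_eq_intCast_iff_dvd_sub]
    rw [← hy, ← hyN]
    push_cast
    rfl
  obtain ⟨j, hj⟩ := hcong
  push_cast at hj
  -- the quotient is not zero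
  have hj0 : j ≠ 0 := by
    rintro rfl
    rw [mul_zero, sub_eq_zero] at hj
    apply hpN
    rw [← hj]
    exact Dvd.dvd.mul_right (dvd_pow_self p (by omega)) N1
  -- it is divisible by m
  have hdvd : m ∣ (5 : ℤ) ^ k * j := by
    rw [← hj]
    exact dvd_sub (Dvd.dvd.mul_left h1 _) h2
  have hmj : m ∣ j := (hcop.pow_right (n := k)).dvd_of_dvd_mul_left hdvd
  have hjm : m ≤ |j| := Int.le_of_dvd (abs_pos.2 hj0) ((dvd_abs m j).2 hmj)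
  -- sizes
  have habs : (5 : ℤ) ^ k * |j| ≤ p ^ r * |N1| + |N| := by
    have e1 : |(5 : ℤ) ^ k * j| = 5 ^ k * |j| := by rw [abs_mul, abs_of_pos hM]
    have e2 : |p ^ r * N1| = p ^ r * |N1| := by rw [abs_mul, abs_of_pos hpr]
    rw [← e1, ← e2, ← hj]
    exact abs_sub _ _
  have h5 : p ^ r * (400 * |N1|) < p ^ r * 5 ^ k := mul_lt_mul_of_pos_left hb hpr
  have h6 : (5 : ℤ) ^ k * m ≤ 5 ^ k * |j| := mul_le_mul_of_nonneg_left hjm hM.le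
  have h7 : p ^ r * (5 : ℤ) ^ k ≤ m * 5 ^ k := mul_le_mul_of_nonneg_right hm hM.le
  have h8 : (2 : ℤ) * 5 ^ k ≤ m * 5 ^ k := mul_le_mul_of_nonneg_right hm2 hM.le
  linarith

lemma EnvA_mono {k r d d' T T' : ℕ} {y : ZMod (5 ^ k)} (hd : d' ≤ d) (hT : T' ≤ T)
    (h : EnvA k r d T y) : EnvA k r d' T' y := by
  obtain ⟨N, h1, h2, h3, h4⟩ := h
  refine ⟨N, h1, (pow_dvd_pow 3 hd).trans h2, le_trans ?_ h3, h4⟩
  have h5 : (5 : ℤ) ^ T' ≤ 5 ^ T := pow_le_pow_right₀ (by norm_num) hT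
  have h6 := abs_nonneg N
  nlinarith

lemma EnvB_mono {k r d d' T T' : ℕ} {y : ZMod (5 ^ k)} (hd : d' ≤ d) (hT : T' ≤ T)
    (h : EnvB k r d T y) : EnvB k r d' T' y := by
  obtain ⟨N, h1, h2, h3, h4⟩ := h
  refine ⟨N, h1, (pow_dvd_pow 2 hd).trans h2, le_trans ?_ h3, h4⟩
  have h5 : (5 : ℤ) ^ T' ≤ 5 ^ T := pow_le_pow_right₀ (by norm_num) hT
  have h6 := abs_nonneg N
  nlinarith

lemma EnvA_step {k r d T : ℕ} {y : ZMod (5 ^ k)} (l : Let) (hl : l.2 ≤ d)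
    (h : EnvA k r d (T + 1) y) : EnvA k (r + l.1) (d - l.2) T (5 * uu k l * y) := by
  obtain ⟨N, h1, h2, h3, h4⟩ := h
  obtain ⟨a, b⟩ := l
  simp only at hl ⊢
  obtain ⟨N0, hN0⟩ := (pow_dvd_pow (3 : ℤ) hl).trans h2
  refine ⟨5 * N0, ?_, ?_, ?_, ?_⟩
  · intro h5
    apply h1
    rw [hN0]
    have h6 : (2 : ℤ) ∣ N0 := by omega
    exact Dvd.dvd.mul_left h6 _
  · have h5 : (3 : ℤ) ^ b * 3 ^ (d - b) ∣ 3 ^ b * N0 := by
      rw [← pow_add, Nat.add_sub_cancel' hl, ← hN0]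
      exact h2
    have h6 : (3 : ℤ) ^ (d - b) ∣ N0 := (mul_dvd_mul_iff_left (by positivity)).1 h5
    exact Dvd.dvd.mul_left h6 _
  · have h5 : |N0| ≤ |N| := by
      rw [hN0, abs_mul, abs_of_pos (by positivity : (0 : ℤ) < 3 ^ b)]
      exact le_mul_of_one_le_left (abs_nonneg _) (one_le_pow₀ (by norm_num))
    rw [abs_mul, show |(5 : ℤ)| = 5 by norm_num]
    calc 4 * 5 ^ T * (5 * |N0|) = 4 * 5 ^ (T + 1) * |N0| := by ring
      _ ≤ 4 * 5 ^ (T + 1) * |N| := mul_le_mul_of_nonneg_left h5 (by positivity)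
      _ ≤ 5 ^ k := h3
  · rw [uu_eq]
    simp only
    have e1 : (2 : ZMod (5 ^ k)) ^ a * (2 : ZMod (5 ^ k))⁻¹ ^ a = 1 := by
      rw [← mul_pow, two_mul_inv, one_pow]
    have e2 : (3 : ZMod (5 ^ k)) ^ b * (3 : ZMod (5 ^ k))⁻¹ ^ b = 1 := by
      rw [← mul_pow, three_mul_inv, one_pow]
    rw [hN0] at h4
    push_cast at h4 ⊢
    calc (2 : ZMod (5 ^ k)) ^ (r + a) *
          (5 * ((2 : ZMod (5 ^ k))⁻¹ ^ a * (3 : ZMod (5 ^ k))⁻¹ ^ b) * y)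
        = 5 * (2 ^ a * (2 : ZMod (5 ^ k))⁻¹ ^ a) * (3 : ZMod (5 ^ k))⁻¹ ^ b * (2 ^ r * y) := by
          rw [pow_add]; ring
      _ = 5 * (3 ^ b * (3 : ZMod (5 ^ k))⁻¹ ^ b) * N0 := by rw [e1, h4]; ring
      _ = 5 * N0 := by rw [e2, mul_one]

lemma EnvB_step {k s d T : ℕ} {y : ZMod (5 ^ k)} (l : Let) (hl : l.1 ≤ d)
    (h : EnvB k s d (T + 1) y) : EnvB k (s + l.2) (d - l.1) T (5 * uu k l * y) := by
  obtain ⟨N, h1, h2, h3, h4⟩ := h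
  obtain ⟨a, b⟩ := l
  simp only at hl ⊢
  obtain ⟨N0, hN0⟩ := (pow_dvd_pow (2 : ℤ) hl).trans h2
  refine ⟨5 * N0, ?_, ?_, ?_, ?_⟩
  · intro h5
    apply h1
    rw [hN0]
    have h6 : (3 : ℤ) ∣ N0 := by omega
    exact Dvd.dvd.mul_left h6 _
  · have h5 : (2 : ℤ) ^ a * 2 ^ (d - a) ∣ 2 ^ a * N0 := by
      rw [← pow_add, Nat.add_sub_cancel' hl, ← hN0]
      exact h2
    have h6 : (2 : ℤ) ^ (d - a) ∣ N0 := (mul_dvd_mul_iff_left (by positivity)).1 h5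
    exact Dvd.dvd.mul_left h6 _
  · have h5 : |N0| ≤ |N| := by
      rw [hN0, abs_mul, abs_of_pos (by positivity : (0 : ℤ) < 2 ^ a)]
      exact le_mul_of_one_le_left (abs_nonneg _) (one_le_pow₀ (by norm_num))
    rw [abs_mul, show |(5 : ℤ)| = 5 by norm_num]
    calc 4 * 5 ^ T * (5 * |N0|) = 4 * 5 ^ (T + 1) * |N0| := by ring
      _ ≤ 4 * 5 ^ (T + 1) * |N| := mul_le_mul_of_nonneg_left h5 (by positivity)
      _ ≤ 5 ^ k := h3
  · rw [uu_eq]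
    simp only
    have e1 : (2 : ZMod (5 ^ k)) ^ a * (2 : ZMod (5 ^ k))⁻¹ ^ a = 1 := by
      rw [← mul_pow, two_mul_inv, one_pow]
    have e2 : (3 : ZMod (5 ^ k)) ^ b * (3 : ZMod (5 ^ k))⁻¹ ^ b = 1 := by
      rw [← mul_pow, three_mul_inv, one_pow]
    rw [hN0] at h4
    push_cast at h4 ⊢
    calc (3 : ZMod (5 ^ k)) ^ (s + b) *
          (5 * ((2 : ZMod (5 ^ k))⁻¹ ^ a * (3 : ZMod (5 ^ k))⁻¹ ^ b) * y)
        = 5 * (3 ^ b * (3 : ZMod (5 ^ k))⁻¹ ^ b) * (2 : ZMod (5 ^ k))⁻¹ ^ a * (3 ^ s * y) := by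
          rw [pow_add]; ring
      _ = 5 * (2 ^ a * (2 : ZMod (5 ^ k))⁻¹ ^ a) * N0 := by rw [e2, h4]; ring
      _ = 5 * N0 := by rw [e1, mul_one]

/-- Black states of environment A have small 3-adic valuation. -/
lemma EnvA_black {k r d T : ℕ} {y : ZMod (5 ^ k)} (hr : 1 ≤ r) (hd : r ≤ d) (hy : y ≠ 0)
    (hb : Black k y) (h : EnvA k r d T y) : vb k y < r := by
  obtain ⟨N, h1, h2, h3, h4⟩ := h
  by_contra hlt
  push Not at hlt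
  have hN1 : y.valMinAbs ≠ 0 := fun h0 => hy ((ZMod.valMinAbs_eq_zero y).1 h0)
  have h5 : (3 : ℤ) ^ r ∣ y.valMinAbs := by
    unfold vb at hlt
    have h6 : ((3 : ℕ) : ℤ) ^ (padicValInt 3 y.valMinAbs) ∣ y.valMinAbs := padicValInt_dvd _
    push_cast at h6
    exact (pow_dvd_pow 3 hlt).trans h6
  have h7 : 4 * |N| ≤ (5 : ℤ) ^ k := by
    refine le_trans ?_ h3
    have h8 : (1 : ℤ) ≤ 5 ^ T := one_le_pow₀ (by norm_num)
    nlinarith [abs_nonneg N]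
  refine f6_key (p := 2) (m := 3 ^ r) (N := N) (by norm_num) hr h1
    (pow_le_pow_left₀ (by norm_num) (by norm_num) r) ?_ ?_ h5 ((pow_dvd_pow 3 hd).trans h2) h7 hb ?_
  · calc (2 : ℤ) ≤ 3 ^ 1 := by norm_num
      _ ≤ 3 ^ r := pow_le_pow_right₀ (by norm_num) hr
  · exact IsCoprime.pow_left (by norm_num)
  · push_cast
    exact h4

/-- Black states of environment B have small 2-adic valuation. -/
lemma EnvB_black {k s d T : ℕ} {y : ZMod (5 ^ k)} (hs : 1 ≤ s) (hd : 2 * s ≤ d) (hy : y ≠ 0)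
    (hb : Black k y) (h : EnvB k s d T y) : va k y < 2 * s := by
  obtain ⟨N, h1, h2, h3, h4⟩ := h
  by_contra hlt
  push Not at hlt
  have hN1 : y.valMinAbs ≠ 0 := fun h0 => hy ((ZMod.valMinAbs_eq_zero y).1 h0)
  have h5 : (2 : ℤ) ^ (2 * s) ∣ y.valMinAbs := by
    unfold va at hlt
    have h6 : ((2 : ℕ) : ℤ) ^ (padicValInt 2 y.valMinAbs) ∣ y.valMinAbs := padicValInt_dvd _
    push_cast at h6
    exact (pow_dvd_pow 2 hlt).trans h6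
  have h7 : 4 * |N| ≤ (5 : ℤ) ^ k := by
    refine le_trans ?_ h3
    have h8 : (1 : ℤ) ≤ 5 ^ T := one_le_pow₀ (by norm_num)
    nlinarith [abs_nonneg N]
  refine f6_key (p := 3) (m := 2 ^ (2 * s)) (N := N) (by norm_num) hs h1 ?_ ?_ ?_ h5
    ((pow_dvd_pow 2 hd).trans h2) h7 hb ?_
  · rw [pow_mul]
    exact pow_le_pow_left₀ (by norm_num) (by norm_num) s
  · calc (2 : ℤ) = 2 ^ 1 := by norm_num
      _ ≤ 2 ^ (2 * s) := pow_le_pow_right₀ (by norm_num) (by omega)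
  · exact IsCoprime.pow_left (by norm_num)
  · push_cast
    exact h4

end K5
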