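import Pool.Agent.Lib.MP_a4658c_nt.K5.F5
import Pool.Agent.Lib.MP_a4658c_nt.K5.F6

/-! Piece F7: the environment lemma (paper (2.7)). -/

namespace K5

private theorem F7_choose (n : ℕ) (κ : ℝ) (hκ : 0 < κ) :
    ∃ a₀ : ℕ, 2 ≤ a₀ ∧ 3 * (1 / 2 : ℝ) ^ a₀ * (n + 2) ≤ κ := by
  have hn : (0 : ℝ) < 3 * ((n : ℝ) + 2) := by positivity
  obtain ⟨a, ha⟩ := exists_pow_lt_of_lt_one (div_pos hκ hn) (by norm_num : (1 / 2 : ℝ) < 1)
  refine ⟨max a 2, le_max_right _ _, ?_⟩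
  have h1 : (1 / 2 : ℝ) ^ (max a 2) ≤ (1 / 2 : ℝ) ^ a :=
    pow_le_pow_of_le_one (by norm_num) (by norm_num) (le_max_left _ _)
  have h2 : (1 / 2 : ℝ) ^ (max a 2) ≤ κ / (3 * ((n : ℝ) + 2)) := h1.trans ha.le
  rw [le_div_iff₀ hn] at h2
  linarith

/-- Common proof for both environments. -/
private theorem F7_gen (Env : (k : ℕ) → ℕ → ℕ → ℕ → ZMod (5 ^ k) → Prop)
    (hmono : ∀ (k r d d' T T' : ℕ) (y : ZMod (5 ^ k)), d' ≤ d → T' ≤ T →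
      Env k r d T y → Env k r d' T' y)
    (hstep : ∀ (k r d T a : ℕ) (y : ZMod (5 ^ k)) (l : Let), l.1 ≤ a → l.2 ≤ a → a ≤ d →
      Env k r d (T + 1) y → ∃ r', r ≤ r' ∧ r' ≤ r + a ∧ Env k r' (d - a) T (5 * uu k l * y))
    (hsurv : ∀ (k r d T Λ n r₁ : ℕ) (c : Bool) (y : ZMod (5 ^ k)), 1 ≤ r → r ≤ r₁ →
      2 * r₁ ≤ d → y ≠ 0 → Black k y → Env k r d T y → 4 * r₁ + 4 ≤ n →
      surv Λ n c (va k y) (vb k y) ≤ v c / 2) (H r₁ : ℕ) :
    ∃ d₁ T₁ : ℕ, ∀ (Λ k : ℕ) (ψ : Bool → ℕ → ℕ → ℂ) (Rs : ℕ)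
    (q : ℝ), 2 ≤ Λ → 0 ≤ q → QB Λ k ψ Rs q →
    ∀ (R r : ℕ) (c : Bool) (y : ZMod (5 ^ k)) (A B : ℕ), Rs + T₁ ≤ R → Ord k R y →
      1 ≤ r → r ≤ r₁ → Env k r d₁ T₁ y →
      ‖Gam Λ k ψ R c y A B‖ ≤ v c * ((1 - del0 / 4) ^ H * q) := by
  have hδ := del0_pos
  have hδ' := del0_lt
  induction H generalizing r₁ with
  | zero =>
    refine ⟨0, 0, ?_⟩
    intro Λ k ψ Rs q _ hq hQ R r c y A B hR hO _ _ _
    have := QB_mono (R' := R) (q' := q) hq (by omega) le_rfl hQ c y A B hO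
    simpa using this
  | succ H ih =>
    have hpos : (0 : ℝ) < 1 - del0 / 4 := by linarith
    have hpH : (0 : ℝ) < (1 - del0 / 4) ^ H := pow_pos hpos H
    set n : ℕ := 4 * r₁ + 4 with hn
    obtain ⟨a₀, ha₀, hε⟩ := F7_choose n (del0 / 8 * (1 - del0 / 4) ^ H) (by positivity)
    obtain ⟨d₂, T₂, hI⟩ := ih (r₁ + (n + 2) * a₀)
    refine ⟨d₂ + (n + 2) * a₀ + 2 * r₁, T₂ + n + 2, ?_⟩
    intro Λ k ψ Rs q hΛ hq hQ R r c y A B hR hO hr hr₁ hE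
    set b : ℝ := (1 - del0 / 4) ^ H * q with hb
    have hb0 : 0 ≤ b := by positivity
    set ε : ℝ := 3 * (1 / 2 : ℝ) ^ a₀ with hεdef
    have hε0 : 0 ≤ ε := by positivity
    have hεq : ((n : ℝ) + 2) * ε * q ≤ del0 / 8 * b := by
      have := mul_le_mul_of_nonneg_right hε hq
      calc ((n : ℝ) + 2) * ε * q = ε * (n + 2) * q := by ring
        _ ≤ del0 / 8 * (1 - del0 / 4) ^ H * q := this
        _ = del0 / 8 * b := by rw [hb]; ring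
    have h2ε : 2 * ε * q ≤ del0 / 8 * b := by
      refine le_trans ?_ hεq
      have h3 : (0 : ℝ) ≤ (n : ℝ) * (ε * q) := by positivity
      nlinarith
    have hcomp := component (Λ := Λ) (k := k) (ψ := ψ) (a₀ := a₀) ha₀ hΛ (ε := ε) (b := b)
      (q := q) hε0 hb0 hq (fun c => sum_L_large Λ a₀ c) (Rs := Rs) hQ
      (fun j _ y R => Ord k R y ∧ Rs + T₂ + j ≤ R ∧ ∃ r d T, 1 ≤ r ∧
        r + j * a₀ ≤ r₁ + (n + 2) * a₀ ∧ d₂ + j * a₀ ≤ d ∧ T₂ + j ≤ T ∧ Env k r d T y)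
      (by
        rintro j c y R ⟨h1, h2, _⟩
        exact ⟨h1, by omega⟩)
      (by
        rintro j c y R l ⟨h1, h2, r, d, T, hr, hrr, hd, hT, hE⟩ _ hl1 hl2
        refine ⟨Ord_step l h1, by omega, ?_⟩
        obtain ⟨T', rfl⟩ : ∃ T', T = T' + 1 := ⟨T - 1, by omega⟩
        have e : (j + 1) * a₀ = j * a₀ + a₀ := by ring
        rw [e] at hrr hd
        obtain ⟨r', hr1, hr2, hE'⟩ := hstep k r d T' a₀ y l hl1 hl2 (by omega) hE
        exact ⟨r', d - a₀, T', by omega, by omega, by omega, by omega, hE'⟩)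
      (by
        rintro j c y R A B ⟨h1, h2, r, d, T, hr, hrr, hd, hT, hE⟩
        exact hI Λ k ψ Rs q hΛ hq hQ R r c y A B (by omega) h1 hr
          (le_trans (Nat.le_add_right _ _) hrr)
          (hmono k r d d₂ T T₂ y (le_trans (Nat.le_add_right _ _) hd) (by omega) hE))
      n c y R A B
      ⟨hO, by omega, r, d₂ + (n + 2) * a₀ + 2 * r₁, T₂ + n + 2, hr, by omega, by omega,
        by omega, hE⟩
    have hv := v_pos c
    have hgoal : v c * ((1 - del0 / 4) * b) = v c * ((1 - del0 / 4) ^ (H + 1) * q) := by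
      rw [hb]; ring
    rw [← hgoal]
    by_cases hbl : Black k y
    · have hy : y ≠ 0 := by
        obtain ⟨R', rfl⟩ : ∃ R', R = R' + 1 := ⟨R - 1, by omega⟩
        exact Ord_ne hO
      have hs := hsurv k r (d₂ + (n + 2) * a₀ + 2 * r₁) (T₂ + n + 2) Λ n r₁ c y hr hr₁
        (by omega) hy hbl hE (by omega)
      refine (hcomp.2 hbl).trans ?_
      have h5 : b * (v c - 3 / 4 * del0 * (v c - surv Λ n c (va k y) (vb k y)))
          ≤ b * (v c - 3 / 8 * del0 * v c) := by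
        refine mul_le_mul_of_nonneg_left ?_ hb0
        nlinarith
      have h6 : ((n : ℝ) + 2) * ε * q * v c ≤ del0 / 8 * b * v c :=
        mul_le_mul_of_nonneg_right hεq hv.le
      calc _ ≤ b * (v c - 3 / 8 * del0 * v c) + del0 / 8 * b * v c := add_le_add h5 h6
        _ = v c * ((1 - del0 / 4) * b) := by ring
    · refine (hcomp.1 hbl).trans ?_
      refine mul_le_mul_of_nonneg_left ?_ hv.le
      have : 0 ≤ del0 * b := by positivity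
      nlinarith

theorem env_lemma_A (H r₁ : ℕ) : ∃ d₁ T₁ : ℕ, ∀ (Λ k : ℕ) (ψ : Bool → ℕ → ℕ → ℂ) (Rs : ℕ)
    (q : ℝ), 2 ≤ Λ → 0 ≤ q → QB Λ k ψ Rs q →
    ∀ (R r : ℕ) (c : Bool) (y : ZMod (5 ^ k)) (A B : ℕ), Rs + T₁ ≤ R → Ord k R y →
      1 ≤ r → r ≤ r₁ → EnvA k r d₁ T₁ y →
      ‖Gam Λ k ψ R c y A B‖ ≤ v c * ((1 - del0 / 4) ^ H * q) := by
  refine F7_gen (fun k r d T y => EnvA k r d T y) ?_ ?_ ?_ H r₁
  · intro k r d d' T T' y hd hT h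
    exact EnvA_mono hd hT h
  · intro k r d T a y l h1 h2 ha h
    exact ⟨r + l.1, by omega, by omega,
      EnvA_mono (by omega) le_rfl (EnvA_step l (by omega) h)⟩
  · intro k r d T Λ n r₁ c y hr hr₁ hd hy hb h hn
    have := EnvA_black hr (by omega) hy hb h
    exact surv_half Λ n c _ _ (by omega)

theorem env_lemma_B (H r₁ : ℕ) : ∃ d₁ T₁ : ℕ, ∀ (Λ k : ℕ) (ψ : Bool → ℕ → ℕ → ℂ) (Rs : ℕ)
    (q : ℝ), 2 ≤ Λ → 0 ≤ q → QB Λ k ψ Rs q →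
    ∀ (R r : ℕ) (c : Bool) (y : ZMod (5 ^ k)) (A B : ℕ), Rs + T₁ ≤ R → Ord k R y →
      1 ≤ r → r ≤ r₁ → EnvB k r d₁ T₁ y →
      ‖Gam Λ k ψ R c y A B‖ ≤ v c * ((1 - del0 / 4) ^ H * q) := by
  refine F7_gen (fun k r d T y => EnvB k r d T y) ?_ ?_ ?_ H r₁
  · intro k r d d' T T' y hd hT h
    exact EnvB_mono hd hT h
  · intro k r d T a y l h1 h2 ha h
    exact ⟨r + l.2, by omega, by omega,
      EnvB_mono (by omega) le_rfl (EnvB_step l (by omega) h)⟩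
  · intro k r d T Λ n r₁ c y hr hr₁ hd hy hb h hn
    have h1 := EnvB_black hr (by omega) hy hb h
    rw [surv_eq_zero Λ n c _ _ (by omega)]
    have := v_pos c
    positivity

end K5
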