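import Pool.Agent.Lib.MP_a4658c_nt.K5.FDefs

/-! Piece F8a: maximal atoms of binomial(N, 2/3) tend to 0. -/

namespace K5

private lemma F8a_central (k : ℕ) : (2 * k + 1) * (Nat.centralBinom k) ^ 2 ≤ 16 ^ k := by
  induction k with
  | zero => simp
  | succ k ih =>
    have h1 := Nat.succ_mul_centralBinom_succ k
    set a := Nat.centralBinom k with ha
    set b := Nat.centralBinom (k + 1) with hb
    have h2 : (k + 1) ^ 2 * ((2 * (k + 1) + 1) * b ^ 2) ≤ (k + 1) ^ 2 * 16 ^ (k + 1) := by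
      calc (k + 1) ^ 2 * ((2 * (k + 1) + 1) * b ^ 2)
          = (2 * k + 3) * ((k + 1) * b) ^ 2 := by ring
        _ = (2 * k + 3) * (2 * (2 * k + 1) * a) ^ 2 := by rw [h1]
        _ = 4 * ((2 * k + 3) * (2 * k + 1)) * ((2 * k + 1) * a ^ 2) := by ring
        _ ≤ 4 * (4 * (k + 1) ^ 2) * 16 ^ k := by
            refine Nat.mul_le_mul (Nat.mul_le_mul_left 4 ?_) ih
            nlinarith
        _ = (k + 1) ^ 2 * 16 ^ (k + 1) := by ring
    exact Nat.le_of_mul_le_mul_left h2 (by positivity)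

/-- `C(n, m) ≤ 2^n / √(n+1)`. -/
lemma choose_le_central (n m : ℕ) : (n.choose m : ℝ) * Real.sqrt (n + 1) ≤ 2 ^ n := by
  have key : (n + 1) * (n.choose m) ^ 2 ≤ 4 ^ n := by
    have hm := Nat.choose_le_middle m n
    have h1 : (n + 1) * (n.choose m) ^ 2 ≤ (n + 1) * (n.choose (n / 2)) ^ 2 :=
      Nat.mul_le_mul_left _ (Nat.pow_le_pow_left hm 2)
    refine h1.trans ?_
    rcases Nat.even_or_odd' n with ⟨k, hk | hk⟩
    · subst hk
      rw [Nat.mul_div_cancel_left k (by norm_num), ← Nat.centralBinom_eq_two_mul_choose,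
        pow_mul]
      exact F8a_central k
    · subst hk
      have e1 : (2 * k + 1) / 2 = k := by omega
      rw [e1]
      have h2 := F8a_central (k + 1)
      have h3 : Nat.centralBinom (k + 1) = 2 * (2 * k + 1).choose k := by
        rw [Nat.centralBinom_eq_two_mul_choose, show 2 * (k + 1) = (2 * k + 1) + 1 by ring,
          Nat.choose_succ_succ, Nat.choose_symm_half]
        ring
      rw [h3] at h2
      have h4 : (4 : ℕ) ^ (2 * k + 1) * 4 = 16 ^ (k + 1) := by
        rw [← pow_succ, show 2 * k + 1 + 1 = 2 * (k + 1) by ring, pow_mul]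
        norm_num
      have h5 : 4 * ((2 * k + 1 + 1) * (2 * k + 1).choose k ^ 2) ≤ 4 * 4 ^ (2 * k + 1) := by
        calc 4 * ((2 * k + 1 + 1) * (2 * k + 1).choose k ^ 2)
            = (2 * k + 1 + 1) * (2 * (2 * k + 1).choose k) ^ 2 := by ring
          _ ≤ (2 * (k + 1) + 1) * (2 * (2 * k + 1).choose k) ^ 2 :=
              Nat.mul_le_mul_right _ (by omega)
          _ ≤ 16 ^ (k + 1) := h2
          _ = 4 * 4 ^ (2 * k + 1) := by rw [← h4]; ring
      exact Nat.le_of_mul_le_mul_left h5 (by norm_num)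
  have h2 : ((n.choose m : ℝ) * Real.sqrt (n + 1)) ^ 2 ≤ (2 ^ n) ^ 2 := by
    rw [mul_pow, Real.sq_sqrt (by positivity)]
    have h3 : (((n + 1) * (n.choose m) ^ 2 : ℕ) : ℝ) ≤ ((4 ^ n : ℕ) : ℝ) := by exact_mod_cast key
    push_cast at h3
    calc (n.choose m : ℝ) ^ 2 * (n + 1) = (n + 1) * (n.choose m : ℝ) ^ 2 := by ring
      _ ≤ 4 ^ n := h3
      _ = (2 ^ n) ^ 2 := by rw [← pow_mul, mul_comm, pow_mul]; norm_num
  exact (pow_le_pow_iff_left₀ (by positivity) (by positivity) (by norm_num)).1 h2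

private lemma F8a_sum1 (N : ℕ) :
    ∑ p ∈ Finset.range (N + 1), (N.choose p : ℝ) * 2 ^ (N - p) = 3 ^ N := by
  have h := add_pow (1 : ℝ) 2 N
  rw [show (1 : ℝ) + 2 = 3 by norm_num] at h
  rw [h]
  refine Finset.sum_congr rfl fun p _ => ?_
  rw [one_pow]
  ring

private lemma F8a_sum2 (N : ℕ) :
    ∑ p ∈ Finset.range (N + 1), (N.choose p : ℝ) * 2 ^ (N - p) / ((N - p : ℕ) + 1) ≤
      3 ^ (N + 1) / (2 * (N + 1)) := by
  have hN : (0 : ℝ) < 2 * (N + 1) := by positivity
  have h1 : ∀ p ∈ Finset.range (N + 1), (N.choose p : ℝ) * 2 ^ (N - p) / ((N - p : ℕ) + 1) =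
      ((N + 1).choose p : ℝ) * 2 ^ (N + 1 - p) / (2 * (N + 1)) := by
    intro p hp
    have hp' : p ≤ N := by have := Finset.mem_range.1 hp; omega
    have h2 := Nat.choose_mul_succ_eq N p
    have h3 : ((N.choose p * (N + 1) : ℕ) : ℝ) = (((N + 1).choose p * (N + 1 - p) : ℕ) : ℝ) := by
      exact_mod_cast h2
    rw [show N + 1 - p = (N - p) + 1 by omega] at h3 ⊢
    push_cast at h3
    have h4 : (0 : ℝ) < ((N - p : ℕ) : ℝ) + 1 := by positivity
    rw [div_eq_div_iff h4.ne' hN.ne', pow_succ]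
    calc (N.choose p : ℝ) * 2 ^ (N - p) * (2 * (N + 1))
        = (N.choose p * (N + 1)) * (2 ^ (N - p) * 2) := by ring
      _ = ((N + 1).choose p * (((N - p : ℕ) : ℝ) + 1)) * (2 ^ (N - p) * 2) := by rw [h3]
      _ = _ := by ring
  rw [Finset.sum_congr rfl h1, ← Finset.sum_div]
  refine div_le_div_of_nonneg_right ?_ hN.le
  rw [← F8a_sum1 (N + 1), Finset.sum_range_succ _ (N + 1)]
  have : (0 : ℝ) ≤ ((N + 1).choose (N + 1) : ℝ) * 2 ^ (N + 1 - (N + 1)) := by positivity
  linarith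

/-- Maximal atom of Binomial(N, 2/3): `C(N,j) 2^j = Σ_p C(N,p) C(N-p, j-p)` and Cauchy-Schwarz,
or any other proof of this bound. -/
lemma atom_le (N j : ℕ) : (N.choose j : ℝ) * 2 ^ j ≤ 3 ^ N * Real.sqrt (3 / (2 * (N + 1))) := by
  rcases Nat.lt_or_ge N j with hj | hj
  · rw [Nat.choose_eq_zero_of_lt hj]
    simp only [Nat.cast_zero, zero_mul]
    positivity
  · have h1 : (N.choose j : ℝ) * 2 ^ j =
        ∑ p ∈ Finset.range (j + 1), (N.choose p : ℝ) * ((N - p).choose (j - p) : ℝ) := by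
      have h2 := Nat.sum_range_choose j
      have h3 : ((2 : ℝ) ^ j) = ∑ p ∈ Finset.range (j + 1), (j.choose p : ℝ) := by
        have : ((2 ^ j : ℕ) : ℝ) = ((∑ p ∈ Finset.range (j + 1), j.choose p : ℕ) : ℝ) := by
          rw [h2]
        push_cast at this
        exact this
      rw [h3, Finset.mul_sum]
      refine Finset.sum_congr rfl fun p hp => ?_
      have hp' : p ≤ j := by have := Finset.mem_range.1 hp; omega
      have h4 := Nat.choose_mul (n := N) hp'
      exact_mod_cast h4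
    have h2 : ∀ p ∈ Finset.range (j + 1), (N.choose p : ℝ) * ((N - p).choose (j - p) : ℝ) ≤
        Real.sqrt ((N.choose p : ℝ) * 2 ^ (N - p)) *
          Real.sqrt ((N.choose p : ℝ) * 2 ^ (N - p) / ((N - p : ℕ) + 1)) := by
      intro p _
      have hpos : (0 : ℝ) < ((N - p : ℕ) : ℝ) + 1 := by positivity
      have hs : 0 < Real.sqrt (((N - p : ℕ) : ℝ) + 1) := Real.sqrt_pos.2 hpos
      have h3 := choose_le_central (N - p) (j - p)
      rw [Real.sqrt_div' _ hpos.le, ← mul_div_assoc, Real.mul_self_sqrt (by positivity),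
        le_div_iff₀ hs, mul_assoc]
      exact mul_le_mul_of_nonneg_left h3 (Nat.cast_nonneg _)
    rw [h1]
    calc ∑ p ∈ Finset.range (j + 1), (N.choose p : ℝ) * ((N - p).choose (j - p) : ℝ)
        ≤ ∑ p ∈ Finset.range (j + 1), Real.sqrt ((N.choose p : ℝ) * 2 ^ (N - p)) *
          Real.sqrt ((N.choose p : ℝ) * 2 ^ (N - p) / ((N - p : ℕ) + 1)) :=
          Finset.sum_le_sum h2
      _ ≤ ∑ p ∈ Finset.range (N + 1), Real.sqrt ((N.choose p : ℝ) * 2 ^ (N - p)) *
          Real.sqrt ((N.choose p : ℝ) * 2 ^ (N - p) / ((N - p : ℕ) + 1)) := by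
          refine Finset.sum_le_sum_of_subset_of_nonneg ?_ (fun p _ _ => by positivity)
          intro p hp
          rw [Finset.mem_range] at hp ⊢
          omega
      _ ≤ Real.sqrt (∑ p ∈ Finset.range (N + 1), (N.choose p : ℝ) * 2 ^ (N - p)) *
          Real.sqrt (∑ p ∈ Finset.range (N + 1),
            (N.choose p : ℝ) * 2 ^ (N - p) / ((N - p : ℕ) + 1)) :=
          Real.sum_sqrt_mul_sqrt_le _ (fun p => by positivity) (fun p => by positivity)
      _ ≤ Real.sqrt (3 ^ N) * Real.sqrt (3 ^ (N + 1) / (2 * (N + 1))) := by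
          rw [F8a_sum1]
          exact mul_le_mul_of_nonneg_left (Real.sqrt_le_sqrt (F8a_sum2 N)) (Real.sqrt_nonneg _)
      _ = 3 ^ N * Real.sqrt (3 / (2 * (N + 1))) := by
          rw [← Real.sqrt_mul (by positivity)]
          have e : (3 : ℝ) ^ N * (3 ^ (N + 1) / (2 * (N + 1))) =
              (3 ^ N) ^ 2 * (3 / (2 * (N + 1))) := by
            rw [pow_succ]
            ring
          rw [e, Real.sqrt_mul (by positivity), Real.sqrt_sq (by positivity)]

end K5
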