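import Pool.Agent.Lib.MP_a4658c_nt.K5.F8a

/-! Piece F8b: the Green function is small far from the origin (paper (2.8)).
Plan: `sk n m c A` (n steps, m letters with b ≥ 1, total 2-exponent A) defined by recursion
`sk 0 m c A = if A = 0 ∧ m = 0 then v c else 0`,
`sk (n+1) m c A = Σ_{1≤a≤min(A,Λ)} 2^-a ((1/2) sk n (m-1) true (A-a) [m ≥ 1] + [parity] sk n m false (A-a))`,
`Kb 0 B = if B = 0 then 1 else 0`, `Kb (m+1) B = Σ_{1≤b≤B} 2·3^-b Kb m (B-b)`; then
`vis Λ n c A B ≤ Σ_m sk n m c A * Kb m B` (induction on n),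
`Σ_n Σ_m sk n m c A ≤ v c`, `Σ_n Σ_m sk n m c A * 2^-m ≤ v c * 1.1^-A` (induction on A, n ≤ A), so
`Σ_n Σ_{m < A/10} sk ≤ 4 * 2^(A/10) * 1.1^-A`, and `Kb m B = 2^m C(B-1,m-1) / 3^B` for m ≥ 1. -/

namespace K5

lemma vis_nonneg (Λ n : ℕ) (c : Bool) (A B : ℕ) : 0 ≤ vis Λ n c A B := by
  induction n generalizing c A B with
  | zero =>
    unfold vis
    split_ifs
    · exact (v_pos c).le
    · exact le_rfl
  | succ n ih =>
    unfold vis
    exact Finset.sum_nonneg fun l _ => mul_nonneg (kap_pos l).le (ih _ _ _)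

lemma vis_eq_zero (Λ n : ℕ) (c : Bool) (A B : ℕ) (h : A < n) : vis Λ n c A B = 0 := by
  induction n generalizing c A B with
  | zero => omega
  | succ n ih =>
    unfold vis
    refine Finset.sum_eq_zero fun l hl => ?_
    rw [Finset.mem_filter, mem_L] at hl
    rw [ih _ _ _ (by omega), mul_zero]

/-- The path functional with a test function on the number of letters `b ≥ 1`. -/
private noncomputable def f8W (Λ : ℕ) : ℕ → Bool → ℕ → (ℕ → ℝ) → ℝ
  | 0, c, A, h => if A = 0 then v c * h 0 else 0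
  | n + 1, c, A, h =>
      ∑ a ∈ Finset.Icc 1 Λ, if a ≤ A then
        (1 / 2 : ℝ) ^ a * ((1 / 2) * f8W Λ n true (A - a) (fun m => h (m + 1)) +
          (if (a % 2 = 1 ↔ c = true) then f8W Λ n false (A - a) h else 0)) else 0

private lemma f8W_mono (Λ n : ℕ) (c : Bool) (A : ℕ) (h h' : ℕ → ℝ) (hh : ∀ m, h m ≤ h' m) :
    f8W Λ n c A h ≤ f8W Λ n c A h' := by
  induction n generalizing c A h h' with
  | zero =>
    unfold f8W
    split_ifs
    · exact mul_le_mul_of_nonneg_left (hh 0) (v_pos c).le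
    · exact le_rfl
  | succ n ih =>
    unfold f8W
    refine Finset.sum_le_sum fun a _ => ?_
    by_cases ha : a ≤ A
    · rw [if_pos ha, if_pos ha]
      refine mul_le_mul_of_nonneg_left (add_le_add ?_ ?_) (by positivity)
      · exact mul_le_mul_of_nonneg_left (ih _ _ _ _ fun m => hh (m + 1)) (by norm_num)
      · split_ifs
        · exact ih _ _ _ _ hh
        · exact le_rfl
    · rw [if_neg ha, if_neg ha]

private lemma f8W_lin (Λ n : ℕ) (c : Bool) (A : ℕ) (x y : ℝ) (h h' : ℕ → ℝ) :
    f8W Λ n c A (fun m => x * h m + y * h' m) = x * f8W Λ n c A h + y * f8W Λ n c A h' := by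
  induction n generalizing c A h h' with
  | zero =>
    unfold f8W
    split_ifs <;> ring
  | succ n ih =>
    unfold f8W
    rw [Finset.mul_sum, Finset.mul_sum, ← Finset.sum_add_distrib]
    refine Finset.sum_congr rfl fun a _ => ?_
    by_cases ha : a ≤ A
    · rw [if_pos ha, if_pos ha, if_pos ha, ih, ih]
      split_ifs <;> ring
    · rw [if_neg ha, if_neg ha, if_neg ha]; ring

private lemma f8W_zero (Λ n : ℕ) (c : Bool) (A : ℕ) : f8W Λ n c A (fun _ => 0) = 0 := by
  have := f8W_lin Λ n c A 0 0 (fun _ => 0) (fun _ => 0)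
  simpa using this

private lemma f8W_smul (Λ n : ℕ) (c : Bool) (A : ℕ) (x : ℝ) (h : ℕ → ℝ) :
    f8W Λ n c A (fun m => x * h m) = x * f8W Λ n c A h := by
  have := f8W_lin Λ n c A x 0 h (fun _ => 0)
  simpa using this

private lemma f8W_sum (Λ n : ℕ) (c : Bool) (A : ℕ) (s : Finset ℕ) (h : ℕ → ℕ → ℝ) :
    f8W Λ n c A (fun m => ∑ b ∈ s, h b m) = ∑ b ∈ s, f8W Λ n c A (h b) := by
  classical
  induction s using Finset.induction_on with
  | empty => simpa using f8W_zero Λ n c A
  | insert b s hb ih =>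
    have := f8W_lin Λ n c A 1 1 (h b) (fun m => ∑ b ∈ s, h b m)
    simp only [one_mul] at this
    rw [Finset.sum_insert hb, ← ih, ← this]
    congr 1
    funext m
    exact Finset.sum_insert hb

/-- The law of a sum of `m` geometric variables. -/
private noncomputable def f8K : ℕ → ℕ → ℝ
  | 0, 0 => 1
  | 0, _ + 1 => 0
  | _ + 1, 0 => 0
  | m + 1, B + 1 => 2 ^ (m + 1) * (B.choose m : ℝ) / 3 ^ (B + 1)

private lemma f8K_nonneg (m B : ℕ) : 0 ≤ f8K m B := by
  unfold f8K
  split <;> first | exact zero_le_one | exact le_rfl | positivity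

private lemma f8K_rec (m B : ℕ) :
    f8K (m + 1) (B + 1) = 2 / 3 * f8K m B + 1 / 3 * f8K (m + 1) B := by
  cases m with
  | zero =>
    cases B with
    | zero => simp only [f8K]; norm_num
    | succ B => simp only [f8K]; norm_num; field_simp; ring
  | succ m =>
    cases B with
    | zero => simp only [f8K]; norm_num
    | succ B =>
      simp only [f8K, Nat.choose_succ_succ]
      push_cast
      field_simp
      ring

private lemma f8K_sum (m B : ℕ) :
    ∑ j ∈ Finset.range B, (1 / 3 : ℝ) ^ (j + 1) * f8K m (B - (j + 1)) = 1 / 2 * f8K (m + 1) B := by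
  induction B with
  | zero => simp [f8K]
  | succ B ih =>
    rw [Finset.sum_range_succ', f8K_rec]
    have e : ∀ j ∈ Finset.range B, (1 / 3 : ℝ) ^ (j + 1 + 1) * f8K m (B + 1 - (j + 1 + 1)) =
        1 / 3 * ((1 / 3 : ℝ) ^ (j + 1) * f8K m (B - (j + 1))) := by
      intro j _
      rw [show B + 1 - (j + 1 + 1) = B - (j + 1) from by omega]
      ring
    rw [Finset.sum_congr rfl e, ← Finset.mul_sum, ih]
    norm_num
    ring

private lemma f8K_sum_le (Λ m B : ℕ) :
    ∑ b ∈ Finset.Icc 1 Λ, (if b ≤ B then (1 / 3 : ℝ) ^ b * f8K m (B - b) else 0)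
      ≤ 1 / 2 * f8K (m + 1) B := by
  rw [← f8K_sum, ← Finset.sum_filter]
  have e : ∑ j ∈ Finset.range B, (1 / 3 : ℝ) ^ (j + 1) * f8K m (B - (j + 1)) =
      ∑ b ∈ Finset.Icc 1 B, (1 / 3 : ℝ) ^ b * f8K m (B - b) := by
    rw [Finset.range_eq_Ico, Finset.sum_Ico_add' (fun b => (1 / 3 : ℝ) ^ b * f8K m (B - b)) 0 B 1]
    rfl
  rw [e]
  refine Finset.sum_le_sum_of_subset_of_nonneg (fun b hb => ?_) fun b _ _ =>
    mul_nonneg (by positivity) (f8K_nonneg _ _)
  rw [Finset.mem_filter, Finset.mem_Icc] at hb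
  exact Finset.mem_Icc.2 ⟨hb.1.1, hb.2⟩

private lemma f8_kap (a b : ℕ) : kap (a, b) = (1 / 2 : ℝ) ^ a * (1 / 3) ^ b := by
  unfold kap dd
  push_cast
  rw [one_div_pow, one_div_pow, one_div_mul_one_div]

private lemma f8_vis_le (Λ n : ℕ) (c : Bool) (A B : ℕ) :
    vis Λ n c A B ≤ f8W Λ n c A (fun m => f8K m B) := by
  induction n generalizing c A B with
  | zero =>
    unfold vis f8W
    by_cases hA : A = 0
    · cases B with
      | zero => simp [hA, f8K]
      | succ B => simp [hA, f8K]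
    · simp [hA]
  | succ n ih =>
    unfold vis f8W
    rw [Finset.sum_filter, sum_L_split, Finset.sum_filter, ← Finset.sum_add_distrib]
    refine Finset.sum_le_sum fun a _ => ?_
    by_cases hA : a ≤ A
    · rw [if_pos hA, mul_add]
      refine add_le_add ?_ ?_
      · have h1 : ∀ b ∈ Finset.Icc 1 Λ,
            (if (a, b).1 ≤ A ∧ (a, b).2 ≤ B then
              kap (a, b) * vis Λ n (nx (a, b)) (A - (a, b).1) (B - (a, b).2) else 0) ≤
            (1 / 2 : ℝ) ^ a * f8W Λ n true (A - a)
              (fun m => if b ≤ B then (1 / 3 : ℝ) ^ b * f8K m (B - b) else 0) := by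
          intro b hb
          rw [Finset.mem_Icc] at hb
          by_cases hB : b ≤ B
          · rw [if_pos ⟨hA, hB⟩, f8_kap, mul_assoc]
            refine mul_le_mul_of_nonneg_left ?_ (by positivity)
            simp only [if_pos hB]
            rw [f8W_smul]
            refine mul_le_mul_of_nonneg_left ?_ (by positivity)
            have : nx (a, b) = true := by simpa [nx] using hb.1
            rw [this]
            exact ih _ _ _
          · rw [if_neg (fun h => hB h.2)]
            simp only [if_neg hB]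
            rw [f8W_zero, mul_zero]
        refine (Finset.sum_le_sum h1).trans ?_
        rw [← Finset.mul_sum, ← f8W_sum Λ n true (A - a) (Finset.Icc 1 Λ)
          (fun b m => if b ≤ B then (1 / 3 : ℝ) ^ b * f8K m (B - b) else 0)]
        have h2 := f8W_mono Λ n true (A - a) _ _ fun m => f8K_sum_le Λ m B
        rw [f8W_smul Λ n true (A - a) (1 / 2) (fun m => f8K (m + 1) B)] at h2
        exact mul_le_mul_of_nonneg_left h2 (show (0 : ℝ) ≤ (1 / 2) ^ a by positivity)
      · by_cases hp : (a % 2 = 1 ↔ c = true)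
        · rw [if_pos hp, if_pos hp, if_pos ⟨hA, Nat.zero_le _⟩, f8_kap]
          have : nx (a, 0) = false := by simp [nx]
          rw [this, pow_zero, mul_one]
          exact mul_le_mul_of_nonneg_left (ih _ _ _) (by positivity)
        · rw [if_neg hp, if_neg hp, mul_zero]
    · have h1 : ∑ b ∈ Finset.Icc 1 Λ,
            (if (a, b).1 ≤ A ∧ (a, b).2 ≤ B then
              kap (a, b) * vis Λ n (nx (a, b)) (A - (a, b).1) (B - (a, b).2) else 0) = 0 :=
        Finset.sum_eq_zero fun b _ => if_neg (fun h => hA h.1)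
      have h2 : (if (a, 0).1 ≤ A ∧ (a, 0).2 ≤ B then
              kap (a, 0) * vis Λ n (nx (a, 0)) (A - (a, 0).1) (B - (a, 0).2) else 0) = 0 :=
        if_neg (fun h => hA h.1)
      rw [if_neg hA, h1, h2]
      simp

private lemma f8_par (c : Bool) (j : ℕ) : ((j + 1) % 2 = 1 ↔ c = true) ↔ (j % 2 = 1 ↔ (!c) = true) := by
  cases c <;> simp <;> omega

private lemma f8_geo (t q : ℝ) (ht : 0 ≤ t) (h1 : t * (2 * q + 3) + t * 3 ≤ 4)
    (h2 : t * (2 * q) + t * 4 ≤ 3) (k : ℕ) (c : Bool) :
    ∑ j ∈ Finset.range k, t ^ (j + 1) * (2 * q + if ((j + 1) % 2 = 1 ↔ c = true) then 3 else 0)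
      ≤ v c := by
  induction k generalizing c with
  | zero => simpa using (v_pos c).le
  | succ k ih =>
    rw [Finset.sum_range_succ']
    have e : ∀ j ∈ Finset.range k,
        t ^ (j + 1 + 1) * (2 * q + if ((j + 1 + 1) % 2 = 1 ↔ c = true) then 3 else 0) =
        t * (t ^ (j + 1) * (2 * q + if ((j + 1) % 2 = 1 ↔ (!c) = true) then 3 else 0)) := by
      intro j _
      simp only [f8_par c (j + 1)]
      ring
    rw [Finset.sum_congr rfl e, ← Finset.mul_sum]
    have h3 := mul_le_mul_of_nonneg_left (ih (!c)) ht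
    cases c with
    | true =>
      have h4 : v (!true) = 3 := rfl
      rw [h4] at h3
      have h5 : (if ((0 + 1) % 2 = 1 ↔ true = true) then (3 : ℝ) else 0) = 3 := by norm_num
      rw [h5, v_true, zero_add, pow_one]
      linarith
    | false =>
      have h4 : v (!false) = 4 := rfl
      rw [h4] at h3
      have h5 : (if ((0 + 1) % 2 = 1 ↔ false = true) then (3 : ℝ) else 0) = 0 := by norm_num
      rw [h5, v_false, zero_add, pow_one]
      linarith

private lemma f8W_geo (Λ : ℕ) (q x : ℝ) (hq : 0 ≤ q) (hx : 0 < x)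
    (h1 : (1 / (2 * x)) * (2 * q + 3) + (1 / (2 * x)) * 3 ≤ 4)
    (h2 : (1 / (2 * x)) * (2 * q) + (1 / (2 * x)) * 4 ≤ 3) (h : ℕ → ℝ) (h0 : h 0 = 1)
    (hh : ∀ m, h (m + 1) = q * h m) (N : ℕ) (c : Bool) (A : ℕ) :
    ∑ i ∈ Finset.range N, f8W Λ i c A h ≤ v c * x ^ A := by
  induction N generalizing c A with
  | zero =>
    have := v_pos c
    simp only [Finset.range_zero, Finset.sum_empty]
    positivity
  | succ N ih =>
    rw [Finset.sum_range_succ']
    have hs : ∑ i ∈ Finset.range N, f8W Λ (i + 1) c A h =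
        ∑ a ∈ Finset.Icc 1 Λ, if a ≤ A then (1 / 2 : ℝ) ^ a *
          (q / 2 * ∑ i ∈ Finset.range N, f8W Λ i true (A - a) h +
            (if (a % 2 = 1 ↔ c = true) then ∑ i ∈ Finset.range N, f8W Λ i false (A - a) h else 0))
          else 0 := by
      simp only [f8W]
      rw [Finset.sum_comm]
      refine Finset.sum_congr rfl fun a _ => ?_
      by_cases ha : a ≤ A
      · simp only [if_pos ha]
        rw [← Finset.mul_sum, Finset.sum_add_distrib]
        congr 2
        · rw [Finset.mul_sum]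
          refine Finset.sum_congr rfl fun i _ => ?_
          have : (fun m => h (m + 1)) = fun m => q * h m := funext hh
          rw [this, f8W_smul]
          ring
        · split_ifs
          · rfl
          · simp
      · simp only [if_neg ha, Finset.sum_const_zero]
    rw [hs]
    rcases Nat.eq_zero_or_pos A with hA | hA
    · subst hA
      rw [Finset.sum_eq_zero]
      · simp [f8W, h0]
      · intro a ha
        rw [Finset.mem_Icc] at ha
        rw [if_neg (by omega)]
    · have e0 : f8W Λ 0 c A h = 0 := by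
        unfold f8W
        rw [if_neg (by omega)]
      rw [e0, add_zero]
      have hle : ∀ a ∈ Finset.Icc 1 Λ, (if a ≤ A then (1 / 2 : ℝ) ^ a *
          (q / 2 * ∑ i ∈ Finset.range N, f8W Λ i true (A - a) h +
            (if (a % 2 = 1 ↔ c = true) then ∑ i ∈ Finset.range N, f8W Λ i false (A - a) h else 0))
          else 0) ≤ x ^ A * ((1 / (2 * x)) ^ a * (2 * q + if (a % 2 = 1 ↔ c = true) then 3 else 0)) := by
        intro a ha
        by_cases haA : a ≤ A
        · rw [if_pos haA]
          have hxa : x ^ A * (1 / (2 * x)) ^ a = (1 / 2 : ℝ) ^ a * x ^ (A - a) := by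
            rw [one_div, mul_inv, mul_pow, one_div, inv_pow x]
            have : x ^ A = x ^ (A - a) * x ^ a := by rw [← pow_add]; congr 1; omega
            rw [this]
            field_simp
          rw [← mul_assoc, hxa, mul_assoc]
          refine mul_le_mul_of_nonneg_left ?_ (by positivity)
          rw [mul_add]
          refine add_le_add ?_ ?_
          · have := mul_le_mul_of_nonneg_left (ih true (A - a)) (show 0 ≤ q / 2 by positivity)
            rw [v_true] at this
            linarith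
          · split_ifs
            · have := ih false (A - a)
              rw [v_false] at this
              linarith
            · simp
        · rw [if_neg haA]
          refine mul_nonneg (by positivity) (mul_nonneg (by positivity) ?_)
          split_ifs <;> linarith
      refine (Finset.sum_le_sum hle).trans ?_
      rw [← Finset.mul_sum, mul_comm (v c)]
      refine mul_le_mul_of_nonneg_left ?_ (by positivity)
      have := f8_geo (1 / (2 * x)) q (by positivity) h1 h2 Λ c
      refine le_trans (le_of_eq ?_) this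
      rw [Finset.range_eq_Ico, Finset.sum_Ico_add' (fun b => (1 / (2 * x)) ^ b *
        (2 * q + if (b % 2 = 1 ↔ c = true) then 3 else 0)) 0 Λ 1]
      rfl

private lemma f8K_le (m B : ℕ) : f8K (m + 1) B ≤ Real.sqrt (3 / (2 * (m + 1))) := by
  cases B with
  | zero => simp only [f8K]; exact Real.sqrt_nonneg _
  | succ B =>
    simp only [f8K]
    rcases lt_or_ge B m with h | h
    · rw [Nat.choose_eq_zero_of_lt h, Nat.cast_zero, mul_zero, zero_div]
      exact Real.sqrt_nonneg _
    · have h1 := atom_le B m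
      have h2 : Real.sqrt (3 / (2 * (B + 1))) ≤ Real.sqrt (3 / (2 * (m + 1))) := by
        apply Real.sqrt_le_sqrt
        apply div_le_div_of_nonneg_left (by norm_num) (by positivity)
        have : (m : ℝ) ≤ B := by exact_mod_cast h
        linarith
      have h3 := Real.sqrt_nonneg (3 / (2 * ((B : ℝ) + 1)))
      rw [div_le_iff₀ (by positivity)]
      calc (2 : ℝ) ^ (m + 1) * (B.choose m : ℝ) = 2 * ((B.choose m : ℝ) * 2 ^ m) := by ring
        _ ≤ 2 * (3 ^ B * Real.sqrt (3 / (2 * (B + 1)))) := by linarith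
        _ ≤ 3 * (3 ^ B * Real.sqrt (3 / (2 * (B + 1)))) := by
            have : 0 ≤ 3 ^ B * Real.sqrt (3 / (2 * (B + 1))) := by positivity
            linarith
        _ = Real.sqrt (3 / (2 * (B + 1))) * 3 ^ (B + 1) := by ring
        _ ≤ Real.sqrt (3 / (2 * (m + 1))) * 3 ^ (B + 1) :=
            mul_le_mul_of_nonneg_right h2 (by positivity)

private lemma f8K_le_one (m B : ℕ) : f8K m B ≤ 2 := by
  cases m with
  | zero => cases B <;> simp [f8K]
  | succ m =>
    refine (f8K_le m B).trans ?_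
    rw [Real.sqrt_le_left (by norm_num)]
    rw [div_le_iff₀ (by positivity)]
    have : (0 : ℝ) ≤ m := Nat.cast_nonneg m
    nlinarith

private lemma f8K_small (δ : ℝ) (hδ : 0 < δ) : ∃ M : ℕ, ∀ m B : ℕ, M ≤ m → f8K m B ≤ δ := by
  obtain ⟨M, hM⟩ := exists_nat_gt (3 / (2 * δ ^ 2))
  refine ⟨M + 1, fun m B hm => ?_⟩
  obtain ⟨m, rfl⟩ : ∃ m', m = m' + 1 := ⟨m - 1, by omega⟩
  refine (f8K_le m B).trans ?_
  rw [Real.sqrt_le_left hδ.le, div_le_iff₀ (by positivity)]
  have h1 : (M : ℝ) ≤ m := by exact_mod_cast (show M ≤ m by omega)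
  rw [div_lt_iff₀ (by positivity)] at hM
  nlinarith [pow_pos hδ 2]

theorem green_small (ε : ℝ) (hε : 0 < ε) : ∃ A₁ : ℕ, ∀ (Λ : ℕ) (c : Bool) (A B n : ℕ),
    A₁ ≤ A → ∑ i ∈ Finset.range n, vis Λ i c A B ≤ ε := by
  obtain ⟨M, hM⟩ := f8K_small (ε / 8) (by positivity)
  obtain ⟨A₁, hA₁⟩ := exists_pow_lt_of_lt_one (show 0 < ε / (16 * 2 ^ M) by positivity)
    (show (10 / 11 : ℝ) < 1 by norm_num)
  refine ⟨A₁, fun Λ c A B n hA => ?_⟩
  have hK : ∀ m, f8K m B ≤ ε / 8 * 1 + (2 * 2 ^ M) * (1 / 2 : ℝ) ^ m := by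
    intro m
    rcases le_or_gt M m with h | h
    · have := hM m B h
      have h2 : (0 : ℝ) ≤ (2 * 2 ^ M) * (1 / 2 : ℝ) ^ m := by positivity
      linarith
    · have h1 := f8K_le_one m B
      have h2 : (1 : ℝ) ≤ 2 ^ M * (1 / 2 : ℝ) ^ m := by
        have : (2 : ℝ) ^ M = 2 ^ (M - m) * 2 ^ m := by rw [← pow_add]; congr 1; omega
        rw [this, mul_assoc, ← mul_pow]
        norm_num
        exact one_le_pow₀ (by norm_num)
      linarith
  have h1 : ∀ i ∈ Finset.range n, vis Λ i c A B ≤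
      ε / 8 * f8W Λ i c A (fun _ => 1) + (2 * 2 ^ M) * f8W Λ i c A (fun m => (1 / 2 : ℝ) ^ m) := by
    intro i _
    refine (f8_vis_le Λ i c A B).trans ((f8W_mono _ _ _ _ _ _ hK).trans ?_)
    rw [← f8W_lin]
  refine (Finset.sum_le_sum h1).trans ?_
  rw [Finset.sum_add_distrib, ← Finset.mul_sum, ← Finset.mul_sum]
  have g1 := f8W_geo Λ 1 1 (by norm_num) (by norm_num) (by norm_num) (by norm_num) (fun _ => 1) rfl
    (fun _ => by norm_num) n c A
  have g2 := f8W_geo Λ (1 / 2) (10 / 11) (by norm_num) (by norm_num) (by norm_num) (by norm_num)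
    (fun m => (1 / 2 : ℝ) ^ m) (pow_zero _) (fun m => by ring) n c A
  have hv := v_le c
  have hp : (10 / 11 : ℝ) ^ A ≤ (10 / 11 : ℝ) ^ A₁ :=
    pow_le_pow_of_le_one (by norm_num) (by norm_num) hA
  have g3 : ∑ i ∈ Finset.range n, f8W Λ i c A (fun _ => 1) ≤ 4 := by
    rw [one_pow] at g1; linarith
  have g4 : ∑ i ∈ Finset.range n, f8W Λ i c A (fun m => (1 / 2 : ℝ) ^ m) ≤
      4 * (ε / (16 * 2 ^ M)) := by
    refine g2.trans ?_
    have : 0 < (10 / 11 : ℝ) ^ A := by positivity
    calc v c * (10 / 11 : ℝ) ^ A ≤ 4 * (10 / 11 : ℝ) ^ A := mul_le_mul_of_nonneg_right hv this.le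
      _ ≤ 4 * (ε / (16 * 2 ^ M)) := by linarith
  have g5 := mul_le_mul_of_nonneg_left g3 (show 0 ≤ ε / 8 by positivity)
  have g6 := mul_le_mul_of_nonneg_left g4 (show (0 : ℝ) ≤ 2 * 2 ^ M by positivity)
  have g7 : (2 * 2 ^ M : ℝ) * (4 * (ε / (16 * 2 ^ M))) = ε / 2 := by
    field_simp
    norm_num
  linarith

end K5
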