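import Pool.Agent.Lib.MP_a4658c_nt.K5.F3
import Pool.Agent.Lib.MP_a4658c_nt.K5.F4

/-! Piece F9a: the first exit functional `Ex` (paper (2.9), bad exits). All by induction on the fuel. -/

namespace K5

private lemma F9a_zero (Λ α₀ β₀ : ℕ) (φ : ℕ → Bool → ℕ → ℕ → ℝ) (σ : ℕ) (c : Bool) (A B : ℕ) :
    Ex Λ α₀ β₀ φ 0 σ c A B = 0 := rfl

private lemma F9a_succ (Λ α₀ β₀ : ℕ) (φ : ℕ → Bool → ℕ → ℕ → ℝ) (n σ : ℕ) (c : Bool) (A B : ℕ) :
    Ex Λ α₀ β₀ φ (n + 1) σ c A B = ∑ l ∈ L Λ c, kap l *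
        (if A + l.1 ≤ α₀ ∧ B + l.2 ≤ β₀ then
          Ex Λ α₀ β₀ φ n (σ + 1) (nx l) (A + l.1) (B + l.2)
        else φ (σ + 1) (nx l) (A + l.1) (B + l.2)) := rfl

lemma Ex_mono (Λ α₀ β₀ : ℕ) {φ φ' : ℕ → Bool → ℕ → ℕ → ℝ}
    (h : ∀ σ c A B, φ σ c A B ≤ φ' σ c A B) (n σ : ℕ) (c : Bool) (A B : ℕ) :
    Ex Λ α₀ β₀ φ n σ c A B ≤ Ex Λ α₀ β₀ φ' n σ c A B := by
  induction n generalizing σ c A B with
  | zero => rw [F9a_zero, F9a_zero]
  | succ n ih =>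
    rw [F9a_succ, F9a_succ]
    refine Finset.sum_le_sum fun l _ => mul_le_mul_of_nonneg_left ?_ (kap_pos l).le
    split_ifs
    · exact ih _ _ _ _
    · exact h _ _ _ _

lemma Ex_add (Λ α₀ β₀ : ℕ) (φ φ' : ℕ → Bool → ℕ → ℕ → ℝ) (n σ : ℕ) (c : Bool) (A B : ℕ) :
    Ex Λ α₀ β₀ (fun σ c A B => φ σ c A B + φ' σ c A B) n σ c A B
      = Ex Λ α₀ β₀ φ n σ c A B + Ex Λ α₀ β₀ φ' n σ c A B := by
  induction n generalizing σ c A B with
  | zero => rw [F9a_zero, F9a_zero, F9a_zero, add_zero]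
  | succ n ih =>
    rw [F9a_succ, F9a_succ, F9a_succ, ← Finset.sum_add_distrib]
    refine Finset.sum_congr rfl fun l _ => ?_
    split_ifs
    · rw [ih]; ring
    · ring

lemma Ex_smul (Λ α₀ β₀ : ℕ) (a : ℝ) (φ : ℕ → Bool → ℕ → ℕ → ℝ) (n σ : ℕ) (c : Bool) (A B : ℕ) :
    Ex Λ α₀ β₀ (fun σ c A B => a * φ σ c A B) n σ c A B = a * Ex Λ α₀ β₀ φ n σ c A B := by
  induction n generalizing σ c A B with
  | zero => rw [F9a_zero, F9a_zero, mul_zero]
  | succ n ih =>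
    rw [F9a_succ, F9a_succ, Finset.mul_sum]
    refine Finset.sum_congr rfl fun l _ => ?_
    split_ifs
    · rw [ih]; ring
    · ring

/-- Finite sums of leaf functions. -/
lemma Ex_sum {ι : Type*} (s : Finset ι) (Λ α₀ β₀ : ℕ) (φ : ι → ℕ → Bool → ℕ → ℕ → ℝ)
    (n σ : ℕ) (c : Bool) (A B : ℕ) :
    Ex Λ α₀ β₀ (fun σ c A B => ∑ i ∈ s, φ i σ c A B) n σ c A B
      = ∑ i ∈ s, Ex Λ α₀ β₀ (φ i) n σ c A B := by
  induction n generalizing σ c A B with
  | zero => simp only [F9a_zero, Finset.sum_const_zero]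
  | succ n ih =>
    simp only [F9a_succ]
    rw [Finset.sum_comm]
    refine Finset.sum_congr rfl fun l _ => ?_
    split_ifs
    · rw [ih, Finset.mul_sum]
    · rw [Finset.mul_sum]

/-- Total exit mass. -/
lemma Ex_v (Λ α₀ β₀ n σ : ℕ) (c : Bool) (A B : ℕ) :
    Ex Λ α₀ β₀ (fun _ c _ _ => v c) n σ c A B ≤ v c := by
  induction n generalizing σ c A B with
  | zero => rw [F9a_zero]; exact (v_pos c).le
  | succ n ih =>
    rw [F9a_succ]
    refine le_trans ?_ (sum_L_v Λ c)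
    refine Finset.sum_le_sum fun l _ => mul_le_mul_of_nonneg_left ?_ (kap_pos l).le
    split_ifs
    · exact ih _ _ _ _
    · exact le_refl _

/-- (b1) large overshoot. -/
lemma Ex_over (Λ α₀ β₀ r₀ : ℕ) (hr : Even r₀) (n σ : ℕ) (c : Bool) (A B : ℕ)
    (hA : A ≤ α₀) (hB : B ≤ β₀) :
    Ex Λ α₀ β₀ (fun _ c A' B' => if α₀ + r₀ < A' ∨ β₀ + r₀ < B' then v c else 0) n σ c A B
      ≤ ((1 / 2 : ℝ) ^ r₀ + (1 / 3 : ℝ) ^ r₀) * v c := by
  set ε : ℝ := (1 / 2 : ℝ) ^ r₀ + (1 / 3 : ℝ) ^ r₀ with hε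
  have hε0 : 0 ≤ ε := by positivity
  induction n generalizing σ c A B with
  | zero =>
    rw [F9a_zero]
    exact mul_nonneg hε0 (v_pos c).le
  | succ n ih =>
    rw [F9a_succ]
    have hm := exit_mass Λ Λ c (α₀ - A) (β₀ - B) r₀ r₀ hr
    rw [← hε] at hm
    rw [← Finset.sum_filter_add_sum_filter_not (L Λ c)
      (fun l => A + l.1 ≤ α₀ ∧ B + l.2 ≤ β₀)]
    have h1 : ∑ l ∈ (L Λ c).filter (fun l => A + l.1 ≤ α₀ ∧ B + l.2 ≤ β₀), kap l *
        (if A + l.1 ≤ α₀ ∧ B + l.2 ≤ β₀ then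
          Ex Λ α₀ β₀ (fun _ c A' B' => if α₀ + r₀ < A' ∨ β₀ + r₀ < B' then v c else 0) n
            (σ + 1) (nx l) (A + l.1) (B + l.2)
        else (if α₀ + r₀ < A + l.1 ∨ β₀ + r₀ < B + l.2 then v (nx l) else 0)) ≤
        ε * ∑ l ∈ (L Λ c).filter (fun l => A + l.1 ≤ α₀ ∧ B + l.2 ≤ β₀), kap l * v (nx l) := by
      rw [Finset.mul_sum]
      refine Finset.sum_le_sum fun l hl => ?_
      have hl2 := (Finset.mem_filter.1 hl).2
      rw [if_pos hl2]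
      have := mul_le_mul_of_nonneg_left (ih (σ + 1) (nx l) (A + l.1) (B + l.2) hl2.1 hl2.2)
        (kap_pos l).le
      linarith
    have h2 : ∑ l ∈ (L Λ c).filter (fun l => ¬ (A + l.1 ≤ α₀ ∧ B + l.2 ≤ β₀)), kap l *
        (if A + l.1 ≤ α₀ ∧ B + l.2 ≤ β₀ then
          Ex Λ α₀ β₀ (fun _ c A' B' => if α₀ + r₀ < A' ∨ β₀ + r₀ < B' then v c else 0) n
            (σ + 1) (nx l) (A + l.1) (B + l.2)
        else (if α₀ + r₀ < A + l.1 ∨ β₀ + r₀ < B + l.2 then v (nx l) else 0)) ≤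
        ε * ∑ l ∈ (L Λ c).filter (fun l => ¬ (A + l.1 ≤ α₀ ∧ B + l.2 ≤ β₀)),
          kap l * v (nx l) := by
      have e1 : (L Λ c).filter (fun l => ¬ (A + l.1 ≤ α₀ ∧ B + l.2 ≤ β₀)) =
          (L Λ c).filter (fun l => (l.1 ≤ Λ ∧ l.2 ≤ Λ) ∧ (α₀ - A < l.1 ∨ β₀ - B < l.2)) := by
        refine Finset.filter_congr fun l hl => ?_
        rw [mem_L] at hl
        omega
      have e2 : (L Λ c).filter (fun l => (l.1 ≤ Λ ∧ l.2 ≤ Λ) ∧ (α₀ - A < l.1 ∨ β₀ - B < l.2) ∧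
          ¬ (l.1 ≤ α₀ - A + r₀ ∧ l.2 ≤ β₀ - B + r₀)) =
          ((L Λ c).filter (fun l => ¬ (A + l.1 ≤ α₀ ∧ B + l.2 ≤ β₀))).filter
            (fun l => α₀ + r₀ < A + l.1 ∨ β₀ + r₀ < B + l.2) := by
        rw [Finset.filter_filter]
        refine Finset.filter_congr fun l hl => ?_
        rw [mem_L] at hl
        omega
      rw [← e1, e2, Finset.sum_filter] at hm
      refine le_trans (le_of_eq ?_) hm
      refine Finset.sum_congr rfl fun l hl => ?_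
      rw [if_neg (Finset.mem_filter.1 hl).2]
      split_ifs
      · rfl
      · rw [mul_zero]
    refine (add_le_add h1 h2).trans ?_
    rw [← mul_add, Finset.sum_filter_add_sum_filter_not (L Λ c)
      (fun l => A + l.1 ≤ α₀ ∧ B + l.2 ≤ β₀) (fun l => kap l * v (nx l))]
    exact mul_le_mul_of_nonneg_left (sum_L_v Λ c) hε0

private lemma F9a_vis_nonneg (Λ n : ℕ) (c : Bool) (A B : ℕ) : 0 ≤ vis Λ n c A B := by
  induction n generalizing c A B with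
  | zero =>
    change 0 ≤ if A = 0 ∧ B = 0 then v c else 0
    split_ifs
    · exact (v_pos c).le
    · exact le_refl _
  | succ n ih =>
    change 0 ≤ ∑ l ∈ (L Λ c).filter (fun l => l.1 ≤ A ∧ l.2 ≤ B),
        kap l * vis Λ n (nx l) (A - l.1) (B - l.2)
    exact Finset.sum_nonneg fun l _ => mul_nonneg (kap_pos l).le (ih _ _ _)

private lemma F9a_point (Λ α₀ β₀ A₁ B₁ n σ : ℕ) (c : Bool) (A B : ℕ) :
    Ex Λ α₀ β₀ (fun _ c A' B' => if A' = A₁ ∧ B' = B₁ then v c else 0) n σ c A B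
      ≤ if A ≤ A₁ ∧ B ≤ B₁ then
          ∑ i ∈ Finset.range (n + 1), vis Λ i c (A₁ - A) (B₁ - B) else 0 := by
  have hS : ∀ (m : ℕ) (c : Bool) (x y : ℕ), 0 ≤ ∑ i ∈ Finset.range m, vis Λ i c x y :=
    fun m c x y => Finset.sum_nonneg fun i _ => F9a_vis_nonneg Λ i c x y
  induction n generalizing σ c A B with
  | zero =>
    rw [F9a_zero]
    split_ifs
    · exact hS _ _ _ _
    · exact le_refl _
  | succ n ih =>
    rw [F9a_succ]
    -- every letter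
    have h1 : ∀ l ∈ L Λ c, kap l * (if A + l.1 ≤ α₀ ∧ B + l.2 ≤ β₀ then
          Ex Λ α₀ β₀ (fun _ c A' B' => if A' = A₁ ∧ B' = B₁ then v c else 0) n (σ + 1) (nx l)
            (A + l.1) (B + l.2)
        else (if A + l.1 = A₁ ∧ B + l.2 = B₁ then v (nx l) else 0)) ≤
        if A + l.1 ≤ A₁ ∧ B + l.2 ≤ B₁ then kap l *
          ∑ i ∈ Finset.range (n + 1), vis Λ i (nx l) (A₁ - (A + l.1)) (B₁ - (B + l.2)) else 0 := by
      intro l _
      have h2 : (if A + l.1 ≤ α₀ ∧ B + l.2 ≤ β₀ then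
          Ex Λ α₀ β₀ (fun _ c A' B' => if A' = A₁ ∧ B' = B₁ then v c else 0) n (σ + 1) (nx l)
            (A + l.1) (B + l.2)
        else (if A + l.1 = A₁ ∧ B + l.2 = B₁ then v (nx l) else 0)) ≤
          if A + l.1 ≤ A₁ ∧ B + l.2 ≤ B₁ then
          ∑ i ∈ Finset.range (n + 1), vis Λ i (nx l) (A₁ - (A + l.1)) (B₁ - (B + l.2)) else 0 := by
        by_cases hb : A + l.1 ≤ α₀ ∧ B + l.2 ≤ β₀
        · rw [if_pos hb]
          exact ih _ _ _ _
        · rw [if_neg hb]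
          by_cases he : A + l.1 = A₁ ∧ B + l.2 = B₁
          · rw [if_pos he, if_pos ⟨he.1.le, he.2.le⟩, he.1, he.2, Nat.sub_self, Nat.sub_self,
              Finset.sum_range_succ']
            have h3 : vis Λ 0 (nx l) 0 0 = v (nx l) := by
              change (if 0 = 0 ∧ 0 = 0 then v (nx l) else 0) = v (nx l)
              rw [if_pos ⟨rfl, rfl⟩]
            rw [h3]
            have h4 : 0 ≤ ∑ i ∈ Finset.range n, vis Λ (i + 1) (nx l) 0 0 :=
              Finset.sum_nonneg fun i _ => F9a_vis_nonneg Λ _ _ _ _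
            linarith
          · rw [if_neg he]
            split_ifs
            · exact hS _ _ _ _
            · exact le_refl _
      refine (mul_le_mul_of_nonneg_left h2 (kap_pos l).le).trans (le_of_eq ?_)
      split_ifs
      · rfl
      · rw [mul_zero]
    refine (Finset.sum_le_sum h1).trans ?_
    by_cases hAB : A ≤ A₁ ∧ B ≤ B₁
    · rw [if_pos hAB, Finset.sum_range_succ']
      have h3 : ∑ l ∈ L Λ c, (if A + l.1 ≤ A₁ ∧ B + l.2 ≤ B₁ then kap l *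
          ∑ i ∈ Finset.range (n + 1), vis Λ i (nx l) (A₁ - (A + l.1)) (B₁ - (B + l.2)) else 0) =
          ∑ i ∈ Finset.range (n + 1), vis Λ (i + 1) c (A₁ - A) (B₁ - B) := by
        rw [← Finset.sum_filter]
        have e1 : ∀ i, vis Λ (i + 1) c (A₁ - A) (B₁ - B) =
            ∑ l ∈ (L Λ c).filter (fun l => l.1 ≤ A₁ - A ∧ l.2 ≤ B₁ - B),
              kap l * vis Λ i (nx l) (A₁ - A - l.1) (B₁ - B - l.2) := fun i => rfl
        simp only [e1]
        rw [Finset.sum_comm]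
        have e2 : (L Λ c).filter (fun l => A + l.1 ≤ A₁ ∧ B + l.2 ≤ B₁) =
            (L Λ c).filter (fun l => l.1 ≤ A₁ - A ∧ l.2 ≤ B₁ - B) := by
          refine Finset.filter_congr fun l _ => ?_
          omega
        rw [e2]
        refine Finset.sum_congr rfl fun l _ => ?_
        rw [Finset.mul_sum]
        refine Finset.sum_congr rfl fun i _ => ?_
        rw [Nat.sub_sub, Nat.sub_sub]
      rw [h3]
      have := F9a_vis_nonneg Λ 0 c (A₁ - A) (B₁ - B)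
      linarith
    · rw [if_neg hAB]
      refine (Finset.sum_eq_zero fun l _ => ?_).le
      rw [if_neg]
      intro h
      apply hAB
      omega

/-- (b2) exit exactly at a given point (for general `(A, B)` prove
`≤ if A ≤ A₁ ∧ B ≤ B₁ then Σ_{i<n+1} vis i c (A₁-A) (B₁-B) else 0`). -/
lemma Ex_point (Λ α₀ β₀ A₁ B₁ n σ : ℕ) (c : Bool) :
    Ex Λ α₀ β₀ (fun _ c A' B' => if A' = A₁ ∧ B' = B₁ then v c else 0) n σ c 0 0
      ≤ ∑ i ∈ Finset.range (n + 1), vis Λ i c A₁ B₁ := by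
  have h := F9a_point Λ α₀ β₀ A₁ B₁ n σ c 0 0
  rw [if_pos ⟨Nat.zero_le _, Nat.zero_le _⟩, Nat.sub_zero, Nat.sub_zero] at h
  exact h

private lemma F9a_small (Λ α₀ β₀ σ₀ n : ℕ) (C₀ : ℝ) (hC : 0 ≤ C₀) (σ : ℕ) (c : Bool) (A B : ℕ) :
    Ex Λ α₀ β₀ (fun σ' c A' B' =>
        if σ₀ ≤ σ' ∧ (2 : ℝ) ^ A' * 3 ^ B' < C₀ * 5 ^ σ' then v c else 0) n σ c A B
      ≤ 4 * C₀ * (5 ^ σ / (2 ^ A * 3 ^ B)) * pv c *
        ∑ i ∈ Finset.range n, if σ₀ ≤ σ + i + 1 then (0.81 : ℝ) ^ (i + 1) else 0 := by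
  induction n generalizing σ c A B with
  | zero => rw [F9a_zero, Finset.sum_range_zero, mul_zero]
  | succ n ih =>
    rw [F9a_succ]
    set S' : ℝ := (if σ₀ ≤ σ + 1 then (1 : ℝ) else 0) +
      ∑ i ∈ Finset.range n, if σ₀ ≤ σ + 1 + i + 1 then (0.81 : ℝ) ^ (i + 1) else 0 with hS'
    have hT : ∀ τ : ℕ, 0 ≤ ∑ i ∈ Finset.range n,
        if σ₀ ≤ τ + i + 1 then (0.81 : ℝ) ^ (i + 1) else 0 := by
      intro τ
      refine Finset.sum_nonneg fun i _ => ?_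
      split_ifs
      · positivity
      · exact le_refl _
    have hS0 : 0 ≤ S' := by
      rw [hS']
      refine add_nonneg ?_ (hT _)
      split_ifs <;> norm_num
    have h1 : ∀ l ∈ L Λ c, kap l * (if A + l.1 ≤ α₀ ∧ B + l.2 ≤ β₀ then
          Ex Λ α₀ β₀ (fun σ' c A' B' =>
            if σ₀ ≤ σ' ∧ (2 : ℝ) ^ A' * 3 ^ B' < C₀ * 5 ^ σ' then v c else 0) n (σ + 1) (nx l)
            (A + l.1) (B + l.2)
        else (if σ₀ ≤ σ + 1 ∧ (2 : ℝ) ^ (A + l.1) * 3 ^ (B + l.2) < C₀ * 5 ^ (σ + 1)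
          then v (nx l) else 0)) ≤
        4 * C₀ * (5 ^ σ / (2 ^ A * 3 ^ B)) * S' * (5 * kap l ^ 2 * pv (nx l)) := by
      intro l _
      have hk : (2 : ℝ) ^ (A + l.1) * 3 ^ (B + l.2) = 2 ^ A * 3 ^ B * (dd l : ℝ) := by
        unfold dd
        push_cast
        ring
      have hdl : (0 : ℝ) < (dd l : ℝ) := by exact_mod_cast dd_pos l
      have hpv := pv_pos (nx l)
      have h2 : (if A + l.1 ≤ α₀ ∧ B + l.2 ≤ β₀ then
          Ex Λ α₀ β₀ (fun σ' c A' B' =>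
            if σ₀ ≤ σ' ∧ (2 : ℝ) ^ A' * 3 ^ B' < C₀ * 5 ^ σ' then v c else 0) n (σ + 1) (nx l)
            (A + l.1) (B + l.2)
        else (if σ₀ ≤ σ + 1 ∧ (2 : ℝ) ^ (A + l.1) * 3 ^ (B + l.2) < C₀ * 5 ^ (σ + 1)
          then v (nx l) else 0)) ≤
          4 * C₀ * (5 ^ (σ + 1) / (2 ^ (A + l.1) * 3 ^ (B + l.2))) * pv (nx l) * S' := by
        have hnn : 0 ≤ 4 * C₀ * ((5 : ℝ) ^ (σ + 1) / (2 ^ (A + l.1) * 3 ^ (B + l.2))) *
            pv (nx l) := by positivity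
        by_cases hb : A + l.1 ≤ α₀ ∧ B + l.2 ≤ β₀
        · rw [if_pos hb]
          refine (ih _ _ _ _).trans (mul_le_mul_of_nonneg_left ?_ hnn)
          rw [hS']
          have : (0 : ℝ) ≤ if σ₀ ≤ σ + 1 then (1 : ℝ) else 0 := by split_ifs <;> norm_num
          linarith
        · rw [if_neg hb]
          by_cases he : σ₀ ≤ σ + 1 ∧ (2 : ℝ) ^ (A + l.1) * 3 ^ (B + l.2) < C₀ * 5 ^ (σ + 1)
          · rw [if_pos he]
            have hS1 : 1 ≤ S' := by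
              rw [hS', if_pos he.1]
              have := hT (σ + 1)
              linarith
            have h3 : 1 ≤ C₀ * ((5 : ℝ) ^ (σ + 1) / (2 ^ (A + l.1) * 3 ^ (B + l.2))) := by
              rw [← mul_div_assoc, le_div_iff₀ (by positivity), one_mul]
              exact he.2.le
            have h4 : (4 : ℝ) ≤ 4 * C₀ * ((5 : ℝ) ^ (σ + 1) / (2 ^ (A + l.1) * 3 ^ (B + l.2))) *
                pv (nx l) := by
              have h5 := mul_le_mul h3 (pv_ge (nx l)) zero_le_one (le_trans zero_le_one h3)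
              linarith
            have h6 := mul_le_mul h4 hS1 zero_le_one hnn
            have := v_le (nx l)
            linarith
          · rw [if_neg he]
            exact mul_nonneg hnn hS0
      refine (mul_le_mul_of_nonneg_left h2 (kap_pos l).le).trans (le_of_eq ?_)
      rw [hk]
      unfold kap
      rw [pow_succ]
      field_simp
    refine (Finset.sum_le_sum h1).trans ?_
    rw [← Finset.mul_sum]
    have hnn : 0 ≤ 4 * C₀ * ((5 : ℝ) ^ σ / (2 ^ A * 3 ^ B)) * S' := by positivity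
    refine (mul_le_mul_of_nonneg_left (sum_L_p Λ c) hnn).trans (le_of_eq ?_)
    have hsum : ∑ i ∈ Finset.range (n + 1), (if σ₀ ≤ σ + i + 1 then (0.81 : ℝ) ^ (i + 1) else 0) =
        0.81 * S' := by
      rw [Finset.sum_range_succ', hS', mul_add, Finset.mul_sum, add_comm]
      congr 1
      · rw [Nat.add_zero, Nat.zero_add, pow_one]
        split_ifs <;> norm_num
      · refine Finset.sum_congr rfl fun i _ => ?_
        have e : σ + (i + 1) + 1 = σ + 1 + i + 1 := by ring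
        rw [e]
        split_ifs
        · rw [pow_succ]
          ring
        · rw [mul_zero]
    rw [hsum]
    ring

private lemma F9a_geom (σ₀ n : ℕ) :
    0.19 * ∑ i ∈ Finset.range n, (if σ₀ ≤ 0 + i + 1 then (0.81 : ℝ) ^ (i + 1) else 0) ≤
      0.81 ^ σ₀ - 0.81 ^ (max σ₀ (n + 1)) := by
  induction n with
  | zero =>
    rw [Finset.sum_range_zero, mul_zero, sub_nonneg]
    exact pow_le_pow_of_le_one (by norm_num) (by norm_num) (le_max_left _ _)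
  | succ n ih =>
    rw [Finset.sum_range_succ, mul_add]
    by_cases h : σ₀ ≤ n + 1
    · rw [if_pos (by omega), max_eq_right (by omega)]
      rw [max_eq_right h] at ih
      have e : (0.81 : ℝ) ^ (n + 1 + 1) = 0.81 * 0.81 ^ (n + 1) := by rw [pow_succ]; ring
      rw [e]
      linarith
    · rw [if_neg (by omega), max_eq_left (by omega)]
      rw [max_eq_left (by omega)] at ih
      linarith

/-- (b3) `D` small at a late exit (for a general state prove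
`≤ 4 C₀ (5^σ/(2^A 3^B)) pv c Σ_{i<n} [σ₀ ≤ σ+i+1] 0.81^(i+1)`). -/
lemma Ex_small (Λ α₀ β₀ σ₀ n : ℕ) (C₀ : ℝ) (hC : 0 ≤ C₀) (c : Bool) :
    Ex Λ α₀ β₀ (fun σ' c A' B' =>
        if σ₀ ≤ σ' ∧ (2 : ℝ) ^ A' * 3 ^ B' < C₀ * 5 ^ σ' then v c else 0) n 0 c 0 0
      ≤ 48 * C₀ * 0.81 ^ σ₀ := by
  refine (F9a_small Λ α₀ β₀ σ₀ n C₀ hC 0 c 0 0).trans ?_
  have h1 := F9a_geom σ₀ n
  set X : ℝ := ∑ i ∈ Finset.range n, (if σ₀ ≤ 0 + i + 1 then (0.81 : ℝ) ^ (i + 1) else 0) with hX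
  have h2 : (0 : ℝ) < 0.81 ^ (max σ₀ (n + 1)) := by positivity
  have h3 : X ≤ 0.81 ^ σ₀ / 0.19 := by
    rw [le_div_iff₀ (by norm_num)]
    linarith
  have hX0 : 0 ≤ X := by
    rw [hX]
    refine Finset.sum_nonneg fun i _ => ?_
    split_ifs
    · positivity
    · exact le_refl _
  have h4 : 4 * C₀ * ((5 : ℝ) ^ 0 / (2 ^ 0 * 3 ^ 0)) * pv c * X ≤
      4 * C₀ * (9 / 4) * (0.81 ^ σ₀ / 0.19) := by
    have e : (5 : ℝ) ^ 0 / (2 ^ 0 * 3 ^ 0) = 1 := by norm_num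
    rw [e, mul_one]
    exact mul_le_mul (mul_le_mul_of_nonneg_left (pv_le c) (by positivity)) h3 hX0 (by positivity)
  refine h4.trans ?_
  have h5 : (0 : ℝ) ≤ C₀ * 0.81 ^ σ₀ := by positivity
  have h6 : 4 * C₀ * (9 / 4) * (0.81 ^ σ₀ / 0.19) = 9 / 0.19 * (C₀ * 0.81 ^ σ₀) := by ring
  have h7 : 48 * C₀ * (0.81 : ℝ) ^ σ₀ = 48 * (C₀ * 0.81 ^ σ₀) := by ring
  rw [h6, h7]
  exact mul_le_mul_of_nonneg_right (by norm_num) h5

end K5
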