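import Pool.Agent.Lib.MP_a4658c_nt.K5.F1
import Pool.Agent.Lib.MP_a4658c_nt.K5.F4

/-! Piece F9b: expansion along in-box words, classification of exits (paper (2.9)). -/

namespace K5

lemma yy_zero (k : ℕ) (y₀ : ZMod (5 ^ k)) : yy k y₀ 0 0 0 = y₀ := by
  simp [yy]

lemma yy_step (k : ℕ) (y₀ : ZMod (5 ^ k)) (σ A B : ℕ) (l : Let) :
    5 * uu k l * yy k y₀ σ A B = yy k y₀ (σ + 1) (A + l.1) (B + l.2) := by
  unfold yy
  rw [uu_eq, pow_succ, pow_add, pow_add]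
  ring

/-- Expansion of `Γ` up to `n` steps inside the box. -/
lemma expand {Λ k : ℕ} {ψ : Bool → ℕ → ℕ → ℂ} (y₀ : ZMod (5 ^ k)) (α₀ β₀ Rt n₀ Rs : ℕ) {q : ℝ}
    (hq : 0 ≤ q) (hQ : QB Λ k ψ Rs q) (hR : n₀ + Rs ≤ Rt) (φ : ℕ → Bool → ℕ → ℕ → ℝ)
    (hφ : ∀ σ c A B A' B', 1 ≤ σ → σ ≤ n₀ → (α₀ < A ∨ β₀ < B) →
      Ord k (Rt - σ) (yy k y₀ σ A B) →
      ‖Gam Λ k ψ (Rt - σ) c (yy k y₀ σ A B) A' B'‖ ≤ φ σ c A B)
    (n σ : ℕ) (c : Bool) (A B A' B' : ℕ) (hn : σ + n ≤ n₀) (hA : A ≤ α₀) (hB : B ≤ β₀)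
    (ho : Ord k (Rt - σ) (yy k y₀ σ A B)) :
    ‖Gam Λ k ψ (Rt - σ) c (yy k y₀ σ A B) A' B'‖
      ≤ Ex Λ α₀ β₀ φ n σ c A B + q * surv Λ n c (α₀ - A) (β₀ - B) := by
  induction n generalizing σ c A B A' B' with
  | zero =>
    have h1 : QB Λ k ψ (Rt - σ) q := QB_mono hq (by omega) le_rfl hQ
    have h2 := h1 c (yy k y₀ σ A B) A' B' ho
    show _ ≤ 0 + q * v c
    rw [zero_add, mul_comm]
    exact h2
  | succ n ih =>
    obtain ⟨R, hR1⟩ : ∃ R, Rt - σ = R + 1 := ⟨Rt - σ - 1, by omega⟩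
    have hR2 : Rt - (σ + 1) = R := by omega
    rw [hR1] at ho ⊢
    rw [Gam_succ]
    have hterm : ∀ l ∈ L Λ c, ‖(kap l : ℂ) * chi k (12 * uu k l * yy k y₀ σ A B) *
        Gam Λ k ψ R (nx l) (5 * uu k l * yy k y₀ σ A B) (A' + l.1) (B' + l.2)‖ ≤
        kap l * (if A + l.1 ≤ α₀ ∧ B + l.2 ≤ β₀ then
          Ex Λ α₀ β₀ φ n (σ + 1) (nx l) (A + l.1) (B + l.2)
        else φ (σ + 1) (nx l) (A + l.1) (B + l.2)) +
        (if l.1 ≤ α₀ - A ∧ l.2 ≤ β₀ - B then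
          q * (kap l * surv Λ n (nx l) (α₀ - A - l.1) (β₀ - B - l.2)) else 0) := by
      intro l _
      have ho' := Ord_step l ho
      rw [yy_step] at ho' ⊢
      rw [norm_mul, norm_mul, chi_norm, mul_one, Complex.norm_real, Real.norm_eq_abs,
        abs_of_pos (kap_pos l)]
      by_cases hin : A + l.1 ≤ α₀ ∧ B + l.2 ≤ β₀
      · rw [if_pos hin, if_pos (by omega)]
        have h3 := ih (σ + 1) (nx l) (A + l.1) (B + l.2) (A' + l.1) (B' + l.2) (by omega) hin.1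
          hin.2 (by rw [hR2]; exact ho')
        rw [hR2, ← Nat.sub_sub, ← Nat.sub_sub] at h3
        have h4 := mul_le_mul_of_nonneg_left h3 (kap_pos l).le
        refine h4.trans (le_of_eq ?_)
        ring
      · rw [if_neg hin, if_neg (by omega), add_zero]
        have h3 := hφ (σ + 1) (nx l) (A + l.1) (B + l.2) (A' + l.1) (B' + l.2) (by omega)
          (by omega) (by omega) (by rw [hR2]; exact ho')
        rw [hR2] at h3
        exact mul_le_mul_of_nonneg_left h3 (kap_pos l).le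
    refine (norm_sum_le _ _).trans ((Finset.sum_le_sum hterm).trans (le_of_eq ?_))
    rw [Finset.sum_add_distrib, ← Finset.sum_filter, ← Finset.mul_sum]
    rfl

private lemma F9b_fac {N : ℤ} (hN : N ≠ 0) : ∃ M : ℤ,
    N = 2 ^ padicValInt 2 N * 3 ^ padicValInt 3 N * M ∧ ¬ (2 : ℤ) ∣ M ∧ ¬ (3 : ℤ) ∣ M := by
  have hp2 : Fact (Nat.Prime 2) := ⟨Nat.prime_two⟩
  have hp3 : Fact (Nat.Prime 3) := ⟨Nat.prime_three⟩
  have d2 : (2 : ℤ) ^ padicValInt 2 N ∣ N := by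
    have := padicValInt_dvd (p := 2) N
    exact_mod_cast this
  have d3 : (3 : ℤ) ^ padicValInt 3 N ∣ N := by
    have := padicValInt_dvd (p := 3) N
    exact_mod_cast this
  have hc : IsCoprime ((2 : ℤ) ^ padicValInt 2 N) ((3 : ℤ) ^ padicValInt 3 N) :=
    IsCoprime.pow (by norm_num)
  obtain ⟨M, hM⟩ := hc.mul_dvd d2 d3
  refine ⟨M, hM, ?_, ?_⟩
  · rintro ⟨M', rfl⟩
    have h1 : ((2 : ℕ) : ℤ) ^ (padicValInt 2 N + 1) ∣ N := by
      refine ⟨3 ^ padicValInt 3 N * M', ?_⟩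
      conv_lhs => rw [hM]
      push_cast
      ring
    have h2 := (padicValInt_dvd_iff (p := 2) (padicValInt 2 N + 1) N).1 h1
    rcases h2 with h2 | h2
    · exact hN h2
    · omega
  · rintro ⟨M', rfl⟩
    have h1 : ((3 : ℕ) : ℤ) ^ (padicValInt 3 N + 1) ∣ N := by
      refine ⟨2 ^ padicValInt 2 N * M', ?_⟩
      conv_lhs => rw [hM]
      push_cast
      ring
    have h2 := (padicValInt_dvd_iff (p := 3) (padicValInt 3 N + 1) N).1 h1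
    rcases h2 with h2 | h2
    · exact hN h2
    · omega

private lemma F9b_valne {k : ℕ} {y : ZMod (5 ^ k)} (hy : y ≠ 0) : y.valMinAbs ≠ 0 := by
  intro h
  exact hy ((ZMod.valMinAbs_eq_zero y).1 h)

private lemma F9b_p2 (k a : ℕ) : (2 : ZMod (5 ^ k)) ^ a * ((2 : ZMod (5 ^ k))⁻¹) ^ a = 1 := by
  rw [← mul_pow, two_mul_inv, one_pow]

private lemma F9b_p3 (k a : ℕ) : (3 : ZMod (5 ^ k)) ^ a * ((3 : ZMod (5 ^ k))⁻¹) ^ a = 1 := by
  rw [← mul_pow, three_mul_inv, one_pow]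

private lemma F9b_odd5 (σ : ℕ) : ¬ (2 : ℤ) ∣ 5 ^ σ := by
  intro h
  have := Int.Prime.dvd_pow' Nat.prime_two (by exact_mod_cast h : ((2 : ℕ) : ℤ) ∣ 5 ^ σ)
  norm_num at this

private lemma F9b_n35 (σ : ℕ) : ¬ (3 : ℤ) ∣ 5 ^ σ := by
  intro h
  have := Int.Prime.dvd_pow' Nat.prime_three (by exact_mod_cast h : ((3 : ℕ) : ℤ) ∣ 5 ^ σ)
  norm_num at this

private lemma F9b_odd3 (σ : ℕ) : ¬ (2 : ℤ) ∣ 3 ^ σ := by
  intro h
  have := Int.Prime.dvd_pow' Nat.prime_two (by exact_mod_cast h : ((2 : ℕ) : ℤ) ∣ 3 ^ σ)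
  norm_num at this

private lemma F9b_n32 (σ : ℕ) : ¬ (3 : ℤ) ∣ 2 ^ σ := by
  intro h
  have := Int.Prime.dvd_pow' Nat.prime_three (by exact_mod_cast h : ((3 : ℕ) : ℤ) ∣ 2 ^ σ)
  norm_num at this

/-- Exit through the 2-face lands in environment A. -/
lemma leaf_A {k : ℕ} {y₀ : ZMod (5 ^ k)} (hb : Black k y₀) (hy : y₀ ≠ 0) (σ A B T : ℕ)
    (hA : va k y₀ < A) (hB : B ≤ vb k y₀) (h : 5 ^ (T + σ) ≤ 100 * (2 ^ va k y₀ * 3 ^ B)) :
    EnvA k (A - va k y₀) (vb k y₀ - B) T (yy k y₀ σ A B) := by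
  obtain ⟨M, hM, h2M, h3M⟩ := F9b_fac (F9b_valne hy)
  have hp2 : Prime (2 : ℤ) := Int.prime_two
  unfold va vb at *
  set N₀ : ℤ := y₀.valMinAbs with hN₀
  set α := padicValInt 2 N₀ with hα
  set β := padicValInt 3 N₀ with hβ
  obtain ⟨e, he⟩ := Nat.exists_eq_add_of_le hB
  obtain ⟨r, hr⟩ := Nat.exists_eq_add_of_lt hA
  have hrA : A - α = r + 1 := by omega
  have hβB : β - B = e := by omega
  have hy₀ : y₀ = (N₀ : ZMod (5 ^ k)) := (ZMod.coe_valMinAbs y₀).symm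
  refine ⟨5 ^ σ * (3 ^ e * M), ?_, ?_, ?_, ?_⟩
  · intro hd
    rcases hp2.dvd_or_dvd hd with hd | hd
    · exact F9b_odd5 σ hd
    · rcases hp2.dvd_or_dvd hd with hd | hd
      · exact F9b_odd3 e hd
      · exact h2M hd
  · rw [hβB]
    exact ⟨5 ^ σ * M, by ring⟩
  · have hbl : 400 * |N₀| < (5 : ℤ) ^ k := hb
    have e1 : |N₀| = 2 ^ α * 3 ^ B * (3 ^ e * |M|) := by
      rw [hM, abs_mul, abs_of_pos (by positivity : (0 : ℤ) < 2 ^ α * 3 ^ β), he, pow_add]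
      ring
    have e2 : |(5 : ℤ) ^ σ * (3 ^ e * M)| = 5 ^ σ * (3 ^ e * |M|) := by
      rw [abs_mul, abs_mul, abs_of_pos (by positivity : (0 : ℤ) < 5 ^ σ),
        abs_of_pos (by positivity : (0 : ℤ) < 3 ^ e)]
    rw [e2]
    have h' : (5 : ℤ) ^ (T + σ) ≤ 100 * (2 ^ α * 3 ^ B) := by exact_mod_cast h
    have e3 : 4 * (5 : ℤ) ^ T * (5 ^ σ * (3 ^ e * |M|)) = 4 * (5 ^ (T + σ) * (3 ^ e * |M|)) := by
      rw [pow_add]
      ring
    rw [e3]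
    have e4 : (5 : ℤ) ^ (T + σ) * (3 ^ e * |M|) ≤ 100 * (2 ^ α * 3 ^ B) * (3 ^ e * |M|) :=
      mul_le_mul_of_nonneg_right h' (by positivity)
    have e5 : 100 * (2 ^ α * 3 ^ B) * (3 ^ e * |M|) = 100 * |N₀| := by
      rw [e1]
      ring
    linarith
  · unfold yy
    rw [hrA, hy₀, hM, hr, he]
    push_cast
    have p2 := F9b_p2 k (α + r + 1)
    have p3 := F9b_p3 k B
    calc (2 : ZMod (5 ^ k)) ^ (r + 1) * (5 ^ σ * (2 : ZMod (5 ^ k))⁻¹ ^ (α + r + 1) *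
          (3 : ZMod (5 ^ k))⁻¹ ^ B * (2 ^ α * 3 ^ (B + e) * (M : ZMod (5 ^ k))))
        = (2 ^ (α + r + 1) * (2 : ZMod (5 ^ k))⁻¹ ^ (α + r + 1)) *
          (3 ^ B * (3 : ZMod (5 ^ k))⁻¹ ^ B) * (5 ^ σ * (3 ^ e * (M : ZMod (5 ^ k)))) := by
          rw [pow_add 3 B e, show α + r + 1 = α + (r + 1) by ring, pow_add 2 α (r + 1)]
          ring
      _ = 5 ^ σ * (3 ^ e * (M : ZMod (5 ^ k))) := by rw [p2, p3, one_mul, one_mul]

/-- Exit through the 3-face lands in environment B. -/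
lemma leaf_B {k : ℕ} {y₀ : ZMod (5 ^ k)} (hb : Black k y₀) (hy : y₀ ≠ 0) (σ A B T : ℕ)
    (hA : A ≤ va k y₀) (hB : vb k y₀ < B) (h : 5 ^ (T + σ) ≤ 100 * (2 ^ A * 3 ^ vb k y₀)) :
    EnvB k (B - vb k y₀) (va k y₀ - A) T (yy k y₀ σ A B) := by
  obtain ⟨M, hM, h2M, h3M⟩ := F9b_fac (F9b_valne hy)
  have hp3 : Prime (3 : ℤ) := Int.prime_three
  unfold va vb at *
  set N₀ : ℤ := y₀.valMinAbs with hN₀
  set α := padicValInt 2 N₀ with hα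
  set β := padicValInt 3 N₀ with hβ
  obtain ⟨e, he⟩ := Nat.exists_eq_add_of_le hA
  obtain ⟨r, hr⟩ := Nat.exists_eq_add_of_lt hB
  have hrB : B - β = r + 1 := by omega
  have hαA : α - A = e := by omega
  have hy₀ : y₀ = (N₀ : ZMod (5 ^ k)) := (ZMod.coe_valMinAbs y₀).symm
  refine ⟨5 ^ σ * (2 ^ e * M), ?_, ?_, ?_, ?_⟩
  · intro hd
    rcases hp3.dvd_or_dvd hd with hd | hd
    · exact F9b_n35 σ hd
    · rcases hp3.dvd_or_dvd hd with hd | hd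
      · exact F9b_n32 e hd
      · exact h3M hd
  · rw [hαA]
    exact ⟨5 ^ σ * M, by ring⟩
  · have hbl : 400 * |N₀| < (5 : ℤ) ^ k := hb
    have e1 : |N₀| = 2 ^ A * 3 ^ β * (2 ^ e * |M|) := by
      rw [hM, abs_mul, abs_of_pos (by positivity : (0 : ℤ) < 2 ^ α * 3 ^ β), he, pow_add]
      ring
    have e2 : |(5 : ℤ) ^ σ * (2 ^ e * M)| = 5 ^ σ * (2 ^ e * |M|) := by
      rw [abs_mul, abs_mul, abs_of_pos (by positivity : (0 : ℤ) < 5 ^ σ),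
        abs_of_pos (by positivity : (0 : ℤ) < 2 ^ e)]
    rw [e2]
    have h' : (5 : ℤ) ^ (T + σ) ≤ 100 * (2 ^ A * 3 ^ β) := by exact_mod_cast h
    have e3 : 4 * (5 : ℤ) ^ T * (5 ^ σ * (2 ^ e * |M|)) = 4 * (5 ^ (T + σ) * (2 ^ e * |M|)) := by
      rw [pow_add]
      ring
    rw [e3]
    have e4 : (5 : ℤ) ^ (T + σ) * (2 ^ e * |M|) ≤ 100 * (2 ^ A * 3 ^ β) * (2 ^ e * |M|) :=
      mul_le_mul_of_nonneg_right h' (by positivity)
    have e5 : 100 * (2 ^ A * 3 ^ β) * (2 ^ e * |M|) = 100 * |N₀| := by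
      rw [e1]
      ring
    linarith
  · unfold yy
    rw [hrB, hy₀, hM, hr, he]
    push_cast
    have p3 := F9b_p3 k (β + r + 1)
    have p2 := F9b_p2 k A
    calc (3 : ZMod (5 ^ k)) ^ (r + 1) * (5 ^ σ * (2 : ZMod (5 ^ k))⁻¹ ^ A *
          (3 : ZMod (5 ^ k))⁻¹ ^ (β + r + 1) * (2 ^ (A + e) * 3 ^ β * (M : ZMod (5 ^ k))))
        = (3 ^ (β + r + 1) * (3 : ZMod (5 ^ k))⁻¹ ^ (β + r + 1)) *
          (2 ^ A * (2 : ZMod (5 ^ k))⁻¹ ^ A) * (5 ^ σ * (2 ^ e * (M : ZMod (5 ^ k)))) := by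
          rw [pow_add 2 A e, show β + r + 1 = β + (r + 1) by ring, pow_add 3 β (r + 1)]
          ring
      _ = 5 ^ σ * (2 ^ e * (M : ZMod (5 ^ k))) := by rw [p2, p3, one_mul, one_mul]

/-- Size bound for the valuations of a black frequency of order `5^R`. -/
lemma val_bound {k R : ℕ} {y : ZMod (5 ^ k)} (ho : Ord k R y) (hb : Black k y) (hy : y ≠ 0) :
    400 * (2 ^ va k y * 3 ^ vb k y) < 5 ^ R := by
  obtain ⟨M, hM, h2M, h3M⟩ := F9b_fac (F9b_valne hy)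
  unfold va vb at *
  set N₀ : ℤ := y.valMinAbs with hN₀
  set α := padicValInt 2 N₀ with hα
  set β := padicValInt 3 N₀ with hβ
  have hy₀ : y = (N₀ : ZMod (5 ^ k)) := (ZMod.coe_valMinAbs y).symm
  have hM0 : M ≠ 0 := by
    rintro rfl
    exact h2M (dvd_zero _)
  have h1 : ((5 ^ k : ℕ) : ℤ) ∣ 5 ^ R * N₀ := by
    rw [← ZMod.intCast_zmod_eq_zero_iff_dvd]
    have := ho.1
    rw [hy₀] at this
    push_cast
    exact this
  have h2 : ((5 : ℤ) ^ k) ∣ (2 ^ α * 3 ^ β) * (5 ^ R * M) := by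
    push_cast at h1
    rw [hM] at h1
    have e1 : (5 : ℤ) ^ R * (2 ^ α * 3 ^ β * M) = (2 ^ α * 3 ^ β) * (5 ^ R * M) := by ring
    rwa [e1] at h1
  have hc : IsCoprime ((5 : ℤ) ^ k) (2 ^ α * 3 ^ β) := by
    apply IsCoprime.mul_right
    · exact IsCoprime.pow (by norm_num)
    · exact IsCoprime.pow (by norm_num)
  have h3 : ((5 : ℤ) ^ k) ∣ 5 ^ R * M := hc.dvd_of_dvd_mul_left h2
  have h4 : (5 : ℤ) ^ k ≤ 5 ^ R * |M| := by
    have h5 := Int.le_of_dvd (by positivity) ((dvd_abs _ _).2 h3)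
    rwa [abs_mul, abs_of_pos (by positivity : (0 : ℤ) < 5 ^ R)] at h5
  have hbl : 400 * |N₀| < (5 : ℤ) ^ k := hb
  have e1 : |N₀| = 2 ^ α * 3 ^ β * |M| := by
    conv_lhs => rw [hM]
    rw [abs_mul, abs_of_pos (by positivity : (0 : ℤ) < 2 ^ α * 3 ^ β)]
  have hMpos : 0 < |M| := abs_pos.2 hM0
  have h6 : (400 * (2 ^ α * 3 ^ β)) * |M| < 5 ^ R * |M| := by
    calc (400 * (2 ^ α * 3 ^ β)) * |M| = 400 * |N₀| := by rw [e1]; ring
      _ < 5 ^ k := hbl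
      _ ≤ 5 ^ R * |M| := h4
  have h7 := lt_of_mul_lt_mul_right h6 hMpos.le
  exact_mod_cast h7

end K5
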