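import Pool.Agent.Lib.MP_a4658c_nt.K5.F7
import Pool.Agent.Lib.MP_a4658c_nt.K5.F8b
import Pool.Agent.Lib.MP_a4658c_nt.K5.F9a
import Pool.Agent.Lib.MP_a4658c_nt.K5.F9b

/-! Piece F9d: the giant lemma (paper (2.9)). Order of choices: `H` with `(1-δ0/4)^H ≤ η/6`, even `r₀`
with `2^-r₀+3^-r₀ ≤ η/6`, `(d₁,T₁)` = max of env_lemma_A, env_lemma_B for `H`, `r₀`; `D₁ = max d₁ r₀`;
`C₀ = 5^T₁ 3^r₀`; `ε = η/(24 (2D₁+1)^2)`, `A₁` from green_small, `R₀` large. Leaf function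
`φ = v η/6 q + q v [overshoot > r₀] + q Σ_{(A₁,B₁) in the square} v [at the point] + q v [σ₀ ≤ σ, D < C₀ 5^σ]`,
`n₀ = ⌊9R/10⌋`, and the survivors by surv_pow and val_bound:
`q surv ≤ 9 q 5^R (0.81/5)^n₀` with `5^0.1 · 0.81^0.9 < 0.972`. -/

namespace K5

/-- the leaf function -/
private noncomputable def F9d_phi (α₀ β₀ r₀ D₁ σ₀ : ℕ) (C₀ q e : ℝ) : ℕ → Bool → ℕ → ℕ → ℝ :=
  fun σ c A B =>
    (((e * q) * v c + q * (if α₀ + r₀ < A ∨ β₀ + r₀ < B then v c else 0))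
    + q * (∑ p ∈ (Finset.Icc (α₀ - D₁) (α₀ + D₁)) ×ˢ (Finset.Icc (β₀ - D₁) (β₀ + D₁)),
        (if A = p.1 ∧ B = p.2 then v c else 0)))
    + q * (if σ₀ ≤ σ ∧ (2 : ℝ) ^ A * 3 ^ B < C₀ * 5 ^ σ then v c else 0)

private lemma F9d_Ex (Λ α₀ β₀ r₀ D₁ σ₀ n : ℕ) (C₀ q e ε : ℝ) (c : Bool) (hq : 0 ≤ q)
    (he : 0 ≤ e) (hC : 0 ≤ C₀) (hr : Even r₀) (hD : D₁ ≤ α₀) (hD' : D₁ ≤ β₀)
    (hg : ∀ A B n, α₀ - D₁ ≤ A → ∑ i ∈ Finset.range n, vis Λ i c A B ≤ ε) :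
    Ex Λ α₀ β₀ (F9d_phi α₀ β₀ r₀ D₁ σ₀ C₀ q e) n 0 c 0 0 ≤
      (e * q) * v c + q * (((1 / 2 : ℝ) ^ r₀ + (1 / 3 : ℝ) ^ r₀) * v c)
        + q * ((2 * (D₁ : ℝ) + 1) ^ 2 * ε) + q * (48 * C₀ * 0.81 ^ σ₀) := by
  unfold F9d_phi
  rw [Ex_add, Ex_add, Ex_add, Ex_smul, Ex_smul, Ex_smul, Ex_smul, Ex_sum]
  have h1 := mul_le_mul_of_nonneg_left (Ex_v Λ α₀ β₀ n 0 c 0 0) (mul_nonneg he hq)
  have h2 := mul_le_mul_of_nonneg_left (Ex_over Λ α₀ β₀ r₀ hr n 0 c 0 0 (Nat.zero_le _)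
    (Nat.zero_le _)) hq
  have h4 := mul_le_mul_of_nonneg_left (Ex_small Λ α₀ β₀ σ₀ n C₀ hC c) hq
  have h3 : ∑ p ∈ (Finset.Icc (α₀ - D₁) (α₀ + D₁)) ×ˢ (Finset.Icc (β₀ - D₁) (β₀ + D₁)),
      Ex Λ α₀ β₀ (fun _ c A B => if A = p.1 ∧ B = p.2 then v c else 0) n 0 c 0 0 ≤
      (2 * (D₁ : ℝ) + 1) ^ 2 * ε := by
    have h5 : ∀ p ∈ (Finset.Icc (α₀ - D₁) (α₀ + D₁)) ×ˢ (Finset.Icc (β₀ - D₁) (β₀ + D₁)),
        Ex Λ α₀ β₀ (fun _ c A B => if A = p.1 ∧ B = p.2 then v c else 0) n 0 c 0 0 ≤ ε := by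
      intro p hp
      rw [Finset.mem_product, Finset.mem_Icc, Finset.mem_Icc] at hp
      exact (Ex_point Λ α₀ β₀ p.1 p.2 n 0 c).trans (hg p.1 p.2 (n + 1) hp.1.1)
    refine (Finset.sum_le_card_nsmul _ _ ε h5).trans ?_
    rw [Finset.card_product, Nat.card_Icc, Nat.card_Icc, nsmul_eq_mul,
      show α₀ + D₁ + 1 - (α₀ - D₁) = 2 * D₁ + 1 by omega,
      show β₀ + D₁ + 1 - (β₀ - D₁) = 2 * D₁ + 1 by omega]
    push_cast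
    apply le_of_eq
    ring
  have h3' := mul_le_mul_of_nonneg_left h3 hq
  exact add_le_add (add_le_add (add_le_add h1 h2) h3') h4

private lemma F9d_phi_terms (α₀ β₀ r₀ D₁ σ₀ : ℕ) (C₀ q e : ℝ) (hq : 0 ≤ q) (he : 0 ≤ e)
    (σ : ℕ) (c : Bool) (A B : ℕ) :
    (e * q) * v c ≤ F9d_phi α₀ β₀ r₀ D₁ σ₀ C₀ q e σ c A B ∧
    ((α₀ + r₀ < A ∨ β₀ + r₀ < B) → q * v c ≤ F9d_phi α₀ β₀ r₀ D₁ σ₀ C₀ q e σ c A B) ∧
    ((α₀ - D₁ ≤ A ∧ A ≤ α₀ + D₁) → (β₀ - D₁ ≤ B ∧ B ≤ β₀ + D₁) →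
      q * v c ≤ F9d_phi α₀ β₀ r₀ D₁ σ₀ C₀ q e σ c A B) ∧
    ((σ₀ ≤ σ ∧ (2 : ℝ) ^ A * 3 ^ B < C₀ * 5 ^ σ) →
      q * v c ≤ F9d_phi α₀ β₀ r₀ D₁ σ₀ C₀ q e σ c A B) := by
  have hv := (v_pos c).le
  have h1 : 0 ≤ (e * q) * v c := mul_nonneg (mul_nonneg he hq) hv
  have h2 : 0 ≤ q * (if α₀ + r₀ < A ∨ β₀ + r₀ < B then v c else 0) :=
    mul_nonneg hq (by split_ifs <;> simp [hv])
  have h30 : ∀ p ∈ (Finset.Icc (α₀ - D₁) (α₀ + D₁)) ×ˢ (Finset.Icc (β₀ - D₁) (β₀ + D₁)),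
      (0 : ℝ) ≤ (if A = p.1 ∧ B = p.2 then v c else 0) := by
    intro p _
    split_ifs <;> simp [hv]
  have h3 : 0 ≤ q * (∑ p ∈ (Finset.Icc (α₀ - D₁) (α₀ + D₁)) ×ˢ
      (Finset.Icc (β₀ - D₁) (β₀ + D₁)), (if A = p.1 ∧ B = p.2 then v c else 0)) :=
    mul_nonneg hq (Finset.sum_nonneg h30)
  have h4 : 0 ≤ q * (if σ₀ ≤ σ ∧ (2 : ℝ) ^ A * 3 ^ B < C₀ * 5 ^ σ then v c else 0) :=
    mul_nonneg hq (by split_ifs <;> simp [hv])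
  unfold F9d_phi
  refine ⟨by linarith, fun h => ?_, fun hA hB => ?_, fun h => ?_⟩
  · rw [if_pos h]
    linarith
  · have h5 : v c ≤ ∑ p ∈ (Finset.Icc (α₀ - D₁) (α₀ + D₁)) ×ˢ
        (Finset.Icc (β₀ - D₁) (β₀ + D₁)), (if A = p.1 ∧ B = p.2 then v c else 0) := by
      have h6 := Finset.single_le_sum h30 (a := (A, B)) (by
        rw [Finset.mem_product, Finset.mem_Icc, Finset.mem_Icc]
        exact ⟨hA, hB⟩)
      rw [if_pos ⟨rfl, rfl⟩] at h6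
      exact h6
    have h7 := mul_le_mul_of_nonneg_left h5 hq
    linarith
  · rw [if_pos h]
    linarith

private lemma F9d_surv (R : ℕ) :
    (5 : ℝ) ^ R * (0.81 / 5) ^ (9 * R / 10) ≤ 5 ^ 9 * 0.76 ^ (R / 10) := by
  have h1 : (0.81 / 5 : ℝ) ^ (9 * R / 10) ≤ (0.81 / 5) ^ (9 * (R / 10)) := by
    apply pow_le_pow_of_le_one (by norm_num) (by norm_num)
    omega
  have h2 : (5 : ℝ) ^ R ≤ 5 ^ (10 * (R / 10) + 9) := by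
    apply pow_le_pow_right₀ (by norm_num)
    omega
  calc (5 : ℝ) ^ R * (0.81 / 5) ^ (9 * R / 10)
      ≤ 5 ^ (10 * (R / 10) + 9) * (0.81 / 5) ^ (9 * (R / 10)) :=
        mul_le_mul h2 h1 (by positivity) (by positivity)
    _ = 5 ^ 9 * (5 ^ 10 * (0.81 / 5) ^ 9) ^ (R / 10) := by
        rw [pow_add, pow_mul, pow_mul, mul_pow]
        ring
    _ ≤ 5 ^ 9 * 0.76 ^ (R / 10) := by
        apply mul_le_mul_of_nonneg_left _ (by norm_num)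
        apply pow_le_pow_left₀ (by norm_num)
        norm_num

theorem giant (η δ : ℝ) (hη : 0 < η) (hδ : 0 < δ) : ∃ R₀ : ℕ, ∀ (Λ k : ℕ)
    (ψ : Bool → ℕ → ℕ → ℂ) (R : ℕ) (q : ℝ), 2 ≤ Λ → R₀ ≤ R → 0 ≤ q → QB Λ k ψ (R / 20) q →
    ∀ (c : Bool) (y : ZMod (5 ^ k)) (A B : ℕ), Ord k R y → Black k y →
      δ * R ≤ va k y → δ * R ≤ vb k y → ‖Gam Λ k ψ R c y A B‖ ≤ v c * (η * q) := by
  -- choices
  obtain ⟨H, hH⟩ : ∃ H : ℕ, (1 - del0 / 4) ^ H < η / 6 := by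
    apply exists_pow_lt_of_lt_one (by positivity)
    have := del0_pos
    linarith
  obtain ⟨m, hm⟩ : ∃ m : ℕ, (1 / 2 : ℝ) ^ m < η / 12 :=
    exists_pow_lt_of_lt_one (by positivity) (by norm_num)
  obtain ⟨r₀, hr₀, hr₁, hr₂⟩ : ∃ r₀ : ℕ, Even r₀ ∧ 1 ≤ r₀ ∧
      (1 / 2 : ℝ) ^ r₀ + (1 / 3 : ℝ) ^ r₀ ≤ η / 6 := by
    refine ⟨2 * m + 2, ⟨m + 1, by ring⟩, by omega, ?_⟩
    have h1 : (1 / 2 : ℝ) ^ (2 * m + 2) ≤ (1 / 2) ^ m :=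
      pow_le_pow_of_le_one (by norm_num) (by norm_num) (by omega)
    have h2 : (1 / 3 : ℝ) ^ (2 * m + 2) ≤ (1 / 2) ^ (2 * m + 2) :=
      pow_le_pow_left₀ (by norm_num) (by norm_num) _
    linarith
  obtain ⟨dA, TA, hEA⟩ := env_lemma_A H r₀
  obtain ⟨dB, TB, hEB⟩ := env_lemma_B H r₀
  obtain ⟨D₁, hDA, hDB, hDr⟩ : ∃ D₁ : ℕ, dA ≤ D₁ ∧ dB ≤ D₁ ∧ r₀ ≤ D₁ :=
    ⟨dA + dB + r₀, by omega, by omega, by omega⟩
  obtain ⟨T₁, hTA, hTB⟩ : ∃ T₁ : ℕ, TA ≤ T₁ ∧ TB ≤ T₁ := ⟨TA + TB, by omega, by omega⟩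
  obtain ⟨A₁, hA₁⟩ := green_small (η / (24 * (2 * (D₁ : ℝ) + 1) ^ 2)) (by positivity)
  obtain ⟨σ₀, hσ₀⟩ : ∃ σ₀ : ℕ, (0.81 : ℝ) ^ σ₀ < η / 6 / (48 * ((5 ^ T₁ * 3 ^ r₀ : ℕ) : ℝ)) :=
    exists_pow_lt_of_lt_one (by positivity) (by norm_num)
  obtain ⟨m₀, hm₀⟩ : ∃ m₀ : ℕ, (0.76 : ℝ) ^ m₀ < η / 6 / (9 * 5 ^ 9) :=
    exists_pow_lt_of_lt_one (by positivity) (by norm_num)
  obtain ⟨N₁, hN₁⟩ := exists_nat_ge (((A₁ + D₁ : ℕ) : ℝ) / δ)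
  obtain ⟨N₂, hN₂⟩ := exists_nat_ge (((5 ^ T₁ * 3 ^ r₀ * 5 ^ σ₀ : ℕ) : ℝ) / δ)
  refine ⟨N₁ + N₂ + 20 * T₁ + 20 + 10 * m₀, ?_⟩
  intro Λ k ψ R q hΛ hR hq hQ c y A B hy hb hva hvb
  have hRN₁ : (N₁ : ℝ) ≤ R := by exact_mod_cast (by omega : N₁ ≤ R)
  have hRN₂ : (N₂ : ℝ) ≤ R := by exact_mod_cast (by omega : N₂ ≤ R)
  have hval : ∀ n : ℕ, δ * R ≤ n → A₁ + D₁ ≤ n ∧ 5 ^ T₁ * 3 ^ r₀ * 5 ^ σ₀ ≤ n := by
    intro n hn
    constructor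
    · have h1 : ((A₁ + D₁ : ℕ) : ℝ) ≤ δ * R := by
        rw [div_le_iff₀ hδ] at hN₁
        nlinarith
      exact_mod_cast h1.trans hn
    · have h1 : ((5 ^ T₁ * 3 ^ r₀ * 5 ^ σ₀ : ℕ) : ℝ) ≤ δ * R := by
        rw [div_le_iff₀ hδ] at hN₂
        nlinarith
      exact_mod_cast h1.trans hn
  obtain ⟨ha1, ha2⟩ := hval _ hva
  obtain ⟨hb1, hb2⟩ := hval _ hvb
  have hy0 : y ≠ 0 := by
    obtain ⟨R', rfl⟩ : ∃ R', R = R' + 1 := ⟨R - 1, by omega⟩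
    exact Ord_ne hy
  set α₀ := va k y with hα₀
  set β₀ := vb k y with hβ₀
  set C₀ : ℝ := ((5 ^ T₁ * 3 ^ r₀ : ℕ) : ℝ) with hC₀
  have hC0 : 0 < C₀ := by
    rw [hC₀]
    positivity
  have hv := v_pos c
  -- the leaves
  have hφ : ∀ (σ : ℕ) (c : Bool) (A B A' B' : ℕ), 1 ≤ σ → σ ≤ 9 * R / 10 → (α₀ < A ∨ β₀ < B) →
      Ord k (R - σ) (yy k y σ A B) →
      ‖Gam Λ k ψ (R - σ) c (yy k y σ A B) A' B'‖
        ≤ F9d_phi α₀ β₀ r₀ D₁ σ₀ C₀ q (η / 6) σ c A B := by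
    intro σ c A B A' B' hσ1 hσ2 hex ho
    obtain ⟨t1, t2, t3, t4⟩ := F9d_phi_terms α₀ β₀ r₀ D₁ σ₀ C₀ q (η / 6) hq (by positivity) σ c A B
    have hQ' : ‖Gam Λ k ψ (R - σ) c (yy k y σ A B) A' B'‖ ≤ q * v c := by
      rw [mul_comm]
      exact QB_mono hq (by omega) le_rfl hQ c _ A' B' ho
    by_cases c1 : α₀ + r₀ < A ∨ β₀ + r₀ < B
    · exact hQ'.trans (t2 c1)
    rw [not_or, not_lt, not_lt] at c1
    by_cases c2 : (α₀ - D₁ ≤ A ∧ A ≤ α₀ + D₁) ∧ (β₀ - D₁ ≤ B ∧ B ≤ β₀ + D₁)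
    · exact hQ'.trans (t3 c2.1 c2.2)
    by_cases c3 : (2 : ℝ) ^ A * 3 ^ B < C₀ * 5 ^ σ
    · refine hQ'.trans (t4 ⟨?_, c3⟩)
      have h1 : (5 ^ T₁ * 3 ^ r₀ * 5 ^ σ₀ : ℕ) ≤ 2 ^ A * 3 ^ B := by
        rcases hex with h | h
        · calc 5 ^ T₁ * 3 ^ r₀ * 5 ^ σ₀ ≤ α₀ := ha2
            _ ≤ A := h.le
            _ ≤ 2 ^ A := Nat.lt_two_pow_self.le
            _ ≤ 2 ^ A * 3 ^ B := Nat.le_mul_of_pos_right _ (by positivity)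
        · calc 5 ^ T₁ * 3 ^ r₀ * 5 ^ σ₀ ≤ β₀ := hb2
            _ ≤ B := h.le
            _ ≤ 3 ^ B := (Nat.lt_pow_self (by norm_num)).le
            _ ≤ 2 ^ A * 3 ^ B := Nat.le_mul_of_pos_left _ (by positivity)
      have h2 : C₀ * 5 ^ σ₀ < C₀ * 5 ^ σ := by
        refine lt_of_le_of_lt ?_ c3
        rw [hC₀]
        exact_mod_cast h1
      have h3 : (5 : ℝ) ^ σ₀ < 5 ^ σ := lt_of_mul_lt_mul_left h2 hC0.le
      exact ((pow_lt_pow_iff_right₀ (by norm_num : (1 : ℝ) < 5)).1 h3).le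
    · rw [not_lt] at c3
      have c3' : 5 ^ T₁ * 3 ^ r₀ * 5 ^ σ ≤ 2 ^ A * 3 ^ B := by
        rw [hC₀] at c3
        exact_mod_cast c3
      have hpow : (1 - del0 / 4) ^ H * q ≤ η / 6 * q := mul_le_mul_of_nonneg_right hH.le hq
      have hvc := (v_pos c).le
      by_cases hA : α₀ < A
      · have hB : B + D₁ < β₀ := by
          by_contra hB
          exact c2 ⟨⟨by omega, by omega⟩, ⟨by omega, by omega⟩⟩
        have hE : EnvA k (A - α₀) (β₀ - B) T₁ (yy k y σ A B) := by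
          refine leaf_A hb hy0 σ A B T₁ hA (by omega) ?_
          have h1 : 5 ^ T₁ * 3 ^ r₀ * 5 ^ σ ≤ 2 ^ r₀ * (2 ^ α₀ * 3 ^ B) := by
            refine c3'.trans ?_
            calc 2 ^ A * 3 ^ B ≤ 2 ^ (r₀ + α₀) * 3 ^ B :=
                  Nat.mul_le_mul_right _ (Nat.pow_le_pow_right (by norm_num) (by omega))
              _ = 2 ^ r₀ * (2 ^ α₀ * 3 ^ B) := by rw [pow_add]; ring
          have h2 : 2 ^ r₀ * 5 ^ (T₁ + σ) ≤ 2 ^ r₀ * (2 ^ α₀ * 3 ^ B) := by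
            refine le_trans ?_ h1
            calc 2 ^ r₀ * 5 ^ (T₁ + σ) ≤ 3 ^ r₀ * 5 ^ (T₁ + σ) :=
                  Nat.mul_le_mul_right _ (Nat.pow_le_pow_left (by norm_num) _)
              _ = 5 ^ T₁ * 3 ^ r₀ * 5 ^ σ := by rw [pow_add]; ring
          have h3 := Nat.le_of_mul_le_mul_left h2 (by positivity)
          exact h3.trans (Nat.le_mul_of_pos_left _ (by norm_num))
        have h4 := hEA Λ k ψ (R / 20) q hΛ hq hQ (R - σ) (A - α₀) c (yy k y σ A B) A' B'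
          (by omega) ho (by omega) (by omega) (EnvA_mono (by omega) hTA hE)
        refine h4.trans (le_trans ?_ t1)
        nlinarith
      · have hB : β₀ < B := by
          rcases hex with h | h
          · exact absurd h hA
          · exact h
        have hA' : A + D₁ < α₀ := by
          by_contra hA'
          exact c2 ⟨⟨by omega, by omega⟩, ⟨by omega, by omega⟩⟩
        have hE : EnvB k (B - β₀) (α₀ - A) T₁ (yy k y σ A B) := by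
          refine leaf_B hb hy0 σ A B T₁ (by omega) hB ?_
          have h1 : 3 ^ r₀ * 5 ^ (T₁ + σ) ≤ 3 ^ r₀ * (2 ^ A * 3 ^ β₀) := by
            calc 3 ^ r₀ * 5 ^ (T₁ + σ) = 5 ^ T₁ * 3 ^ r₀ * 5 ^ σ := by rw [pow_add]; ring
              _ ≤ 2 ^ A * 3 ^ B := c3'
              _ ≤ 2 ^ A * 3 ^ (r₀ + β₀) :=
                  Nat.mul_le_mul_left _ (Nat.pow_le_pow_right (by norm_num) (by omega))
              _ = 3 ^ r₀ * (2 ^ A * 3 ^ β₀) := by rw [pow_add]; ring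
          have h3 := Nat.le_of_mul_le_mul_left h1 (by positivity)
          exact h3.trans (Nat.le_mul_of_pos_left _ (by norm_num))
        have h4 := hEB Λ k ψ (R / 20) q hΛ hq hQ (R - σ) (B - β₀) c (yy k y σ A B) A' B'
          (by omega) ho (by omega) (by omega) (EnvB_mono (by omega) hTB hE)
        refine h4.trans (le_trans ?_ t1)
        nlinarith
  -- expansion
  have hexp := expand (Λ := Λ) (ψ := ψ) y α₀ β₀ R (9 * R / 10) (R / 20) hq hQ (by omega)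
    (F9d_phi α₀ β₀ r₀ D₁ σ₀ C₀ q (η / 6)) hφ (9 * R / 10) 0 c 0 0 A B (by omega)
    (Nat.zero_le _) (Nat.zero_le _) (by rw [yy_zero, Nat.sub_zero]; exact hy)
  rw [yy_zero, Nat.sub_zero, Nat.sub_zero, Nat.sub_zero] at hexp
  have hEx := F9d_Ex Λ α₀ β₀ r₀ D₁ σ₀ (9 * R / 10) C₀ q (η / 6)
    (η / (24 * (2 * (D₁ : ℝ) + 1) ^ 2)) c hq (by positivity) hC0.le hr₀ (by omega) (by omega)
    (fun A' B' n h => hA₁ Λ c A' B' n (by omega))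
  -- survivors
  have hsurv : surv Λ (9 * R / 10) c α₀ β₀ ≤ η / 6 := by
    have h1 := surv_pow Λ (9 * R / 10) c α₀ β₀
    have h2 : ((400 * (2 ^ α₀ * 3 ^ β₀) : ℕ) : ℝ) < ((5 ^ R : ℕ) : ℝ) := by
      exact_mod_cast val_bound hy hb hy0
    push_cast at h2
    have h3 : pv c ≤ 9 / 4 := by
      cases c <;> norm_num [pv]
    have h4 : (0.76 : ℝ) ^ (R / 10) ≤ 0.76 ^ m₀ :=
      pow_le_pow_of_le_one (by norm_num) (by norm_num) (by omega)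
    have h5 := F9d_surv R
    have h6 : 4 * pv c * (2 ^ α₀ * 3 ^ β₀) * (0.81 / 5) ^ (9 * R / 10) ≤
        9 * (5 ^ R * (0.81 / 5) ^ (9 * R / 10)) := by
      rw [← mul_assoc 9]
      apply mul_le_mul_of_nonneg_right _ (by positivity)
      have h7 : (0 : ℝ) ≤ 2 ^ α₀ * 3 ^ β₀ := by positivity
      nlinarith
    have h8 : (9 * 5 ^ 9 : ℝ) * 0.76 ^ m₀ < η / 6 := by
      rw [lt_div_iff₀ (by positivity)] at hm₀
      linarith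
    calc surv Λ (9 * R / 10) c α₀ β₀
        ≤ 9 * (5 ^ R * (0.81 / 5) ^ (9 * R / 10)) := h1.trans h6
      _ ≤ 9 * (5 ^ 9 * 0.76 ^ (R / 10)) := mul_le_mul_of_nonneg_left h5 (by norm_num)
      _ ≤ 9 * (5 ^ 9 * 0.76 ^ m₀) :=
          mul_le_mul_of_nonneg_left (mul_le_mul_of_nonneg_left h4 (by norm_num)) (by norm_num)
      _ = (9 * 5 ^ 9 : ℝ) * 0.76 ^ m₀ := by rw [mul_assoc]
      _ ≤ η / 6 := h8.le
  -- conclusion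
  have hs1 := mul_le_mul_of_nonneg_left hsurv hq
  have hs2 : q * (((1 / 2 : ℝ) ^ r₀ + (1 / 3 : ℝ) ^ r₀) * v c) ≤ q * (η / 6 * v c) :=
    mul_le_mul_of_nonneg_left (mul_le_mul_of_nonneg_right hr₂ hv.le) hq
  have hs3 : q * ((2 * (D₁ : ℝ) + 1) ^ 2 * (η / (24 * (2 * (D₁ : ℝ) + 1) ^ 2))) = q * (η / 24) := by
    congr 1
    field_simp
  have hs4 : q * (48 * C₀ * 0.81 ^ σ₀) ≤ q * (η / 6) := by
    apply mul_le_mul_of_nonneg_left _ hq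
    rw [lt_div_iff₀ (by positivity)] at hσ₀
    linarith
  have hv3 := v_ge c
  rw [hs3] at hEx
  have hx : q * (η / 6) * 1 ≤ q * (η / 6) * (v c / 3) :=
    mul_le_mul_of_nonneg_left (by linarith) (by positivity)
  have hz : 0 ≤ q * (η / 6) * v c := by positivity
  have e1 : η / 6 * q * v c = q * (η / 6) * v c := by ring
  have e2 : q * (η / 6 * v c) = q * (η / 6) * v c := by ring
  have e3 : q * (η / 24) = (q * (η / 6) * 1) / 4 := by ring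
  have e4 : q * (η / 6) = q * (η / 6) * 1 := by ring
  have e5 : q * (η / 6) * (v c / 3) = (q * (η / 6) * v c) / 3 := by ring
  have e6 : v c * (η * q) = 6 * (q * (η / 6) * v c) := by ring
  rw [e6]
  rw [e1] at hEx
  rw [e2] at hs2
  rw [e3] at hEx
  rw [e4] at hs1 hs4
  rw [e5] at hx
  generalize q * (η / 6) * v c = Z at *
  generalize q * (η / 6) * 1 = Y at *
  linarith

end K5
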