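import Pool.Agent.Lib.MP_a4658c_nt.K5.S1

/-! Definitions for the Fourier decay part (paper section 2). -/

namespace K5

instance instNeZeroFivePow (k : ℕ) : NeZero (5 ^ k) := ⟨pow_ne_zero k (by norm_num)⟩

/-- The additive character `x ↦ exp(2πi x / 5^k)` on `ZMod (5^k)`. -/
noncomputable def chi (k : ℕ) (x : ZMod (5 ^ k)) : ℂ := ZMod.stdAddChar x

/-- Inverse of the divisor of a letter. -/
noncomputable def uu (k : ℕ) (l : Let) : ZMod (5 ^ k) := ((dd l : ℕ) : ZMod (5 ^ k))⁻¹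

/-- `y` has additive order exactly `5^R`. -/
def Ord (k R : ℕ) (y : ZMod (5 ^ k)) : Prop :=
  (5 : ZMod (5 ^ k)) ^ R * y = 0 ∧ (R = 0 ∨ (5 : ZMod (5 ^ k)) ^ (R - 1) * y ≠ 0)

/-- The twisted sums `Γ_R(c, y, A, B)` with terminal function `ψ`. -/
noncomputable def Gam (Λ k : ℕ) (ψ : Bool → ℕ → ℕ → ℂ) :
    ℕ → Bool → ZMod (5 ^ k) → ℕ → ℕ → ℂ
  | 0, c, _, A, B => ψ c A B
  | R + 1, c, y, A, B =>
      ∑ l ∈ L Λ c, (kap l : ℂ) * chi k (12 * uu k l * y) *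
        Gam Λ k ψ R (nx l) (5 * uu k l * y) (A + l.1) (B + l.2)

/-- `|Γ_R| ≤ v q` for all frequencies of order exactly `5^R`. -/
def QB (Λ k : ℕ) (ψ : Bool → ℕ → ℕ → ℂ) (R : ℕ) (q : ℝ) : Prop :=
  ∀ (c : Bool) (y : ZMod (5 ^ k)) (A B : ℕ), Ord k R y → ‖Gam Λ k ψ R c y A B‖ ≤ v c * q

/-- Black frequencies: `|y/5^k| < 1/400`. -/
def Black (k : ℕ) (y : ZMod (5 ^ k)) : Prop := 400 * |y.valMinAbs| < (5 : ℤ) ^ k

/-- 2-adic valuation of the integer representing `y`. -/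
def va (k : ℕ) (y : ZMod (5 ^ k)) : ℕ := padicValInt 2 y.valMinAbs

/-- 3-adic valuation of the integer representing `y`. -/
def vb (k : ℕ) (y : ZMod (5 ^ k)) : ℕ := padicValInt 3 y.valMinAbs

/-- The white gain. -/
noncomputable def del0 : ℝ := 1 / 72 * (2 - 2 * Real.cos (Real.pi / 400))

/-- Mass of the words of length `n` staying in the box `[0,α] × [0,β]`. -/
noncomputable def surv (Λ : ℕ) : ℕ → Bool → ℕ → ℕ → ℝ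
  | 0, c, _, _ => v c
  | n + 1, c, α, β =>
      ∑ l ∈ (L Λ c).filter (fun l => l.1 ≤ α ∧ l.2 ≤ β),
        kap l * surv Λ n (nx l) (α - l.1) (β - l.2)

/-- Environment A. -/
def EnvA (k r d T : ℕ) (y : ZMod (5 ^ k)) : Prop :=
  ∃ N : ℤ, ¬ (2 : ℤ) ∣ N ∧ (3 : ℤ) ^ d ∣ N ∧ 4 * 5 ^ T * |N| ≤ (5 : ℤ) ^ k ∧
    (2 : ZMod (5 ^ k)) ^ r * y = (N : ZMod (5 ^ k))

/-- Environment B. -/
def EnvB (k s d T : ℕ) (y : ZMod (5 ^ k)) : Prop :=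
  ∃ N : ℤ, ¬ (3 : ℤ) ∣ N ∧ (2 : ℤ) ^ d ∣ N ∧ 4 * 5 ^ T * |N| ≤ (5 : ℤ) ^ k ∧
    (3 : ZMod (5 ^ k)) ^ s * y = (N : ZMod (5 ^ k))

/-- Mass of the words of length `n` with endpoint exactly `(A, B)`. -/
noncomputable def vis (Λ : ℕ) : ℕ → Bool → ℕ → ℕ → ℝ
  | 0, c, A, B => if A = 0 ∧ B = 0 then v c else 0
  | n + 1, c, A, B =>
      ∑ l ∈ (L Λ c).filter (fun l => l.1 ≤ A ∧ l.2 ≤ B),
        kap l * vis Λ n (nx l) (A - l.1) (B - l.2)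

/-- First exit functional from the box `[0,α₀] × [0,β₀]`: fuel, time, class, accumulated `(A,B)`. -/
noncomputable def Ex (Λ α₀ β₀ : ℕ) (φ : ℕ → Bool → ℕ → ℕ → ℝ) :
    ℕ → ℕ → Bool → ℕ → ℕ → ℝ
  | 0, _, _, _, _ => 0
  | n + 1, σ, c, A, B =>
      ∑ l ∈ L Λ c, kap l *
        (if A + l.1 ≤ α₀ ∧ B + l.2 ≤ β₀ then
          Ex Λ α₀ β₀ φ n (σ + 1) (nx l) (A + l.1) (B + l.2)
        else φ (σ + 1) (nx l) (A + l.1) (B + l.2))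

/-- The frequency after `σ` steps with accumulated `(A,B)`, started from `y₀`. -/
noncomputable def yy (k : ℕ) (y₀ : ZMod (5 ^ k)) (σ A B : ℕ) : ZMod (5 ^ k) :=
  5 ^ σ * ((2 : ZMod (5 ^ k))⁻¹) ^ A * ((3 : ZMod (5 ^ k))⁻¹) ^ B * y₀

/-- The offset `F(w)` in `ZMod (5^k)`. -/
noncomputable def Fm (k : ℕ) (w : List Let) : ZMod (5 ^ k) :=
  (cnum w : ZMod (5 ^ k)) * ((D w : ℕ) : ZMod (5 ^ k))⁻¹

lemma Gam_zero (Λ k : ℕ) (ψ : Bool → ℕ → ℕ → ℂ) (c : Bool) (y : ZMod (5 ^ k)) (A B : ℕ) :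
    Gam Λ k ψ 0 c y A B = ψ c A B := rfl

lemma Gam_succ (Λ k : ℕ) (ψ : Bool → ℕ → ℕ → ℂ) (R : ℕ) (c : Bool) (y : ZMod (5 ^ k)) (A B : ℕ) :
    Gam Λ k ψ (R + 1) c y A B = ∑ l ∈ L Λ c, (kap l : ℂ) * chi k (12 * uu k l * y) *
        Gam Λ k ψ R (nx l) (5 * uu k l * y) (A + l.1) (B + l.2) := rfl

end K5
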