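import Pool.Agent.Lib.MP_a4658c_nt.K5.F1

/-! Piece M1: Parseval for the fine part of a function on `ZMod (5^k)`. With `f̃` the average of `f`
over `{y' : 5^r (y' - y) = 0}` (a coset of a subgroup with `5^r` elements), the Fourier transform of
`f - f̃` is that of `f` restricted to the frequencies `ξ` with `5^(k-r) ξ ≠ 0`. -/

namespace K5

/-- Orthogonality. -/
lemma chi_sum (k : ℕ) (x : ZMod (5 ^ k)) :
    ∑ ξ : ZMod (5 ^ k), chi k (ξ * x) = if x = 0 then (5 ^ k : ℂ) else 0 := by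
  unfold chi
  have h := AddChar.sum_mulShift (ψ := ZMod.stdAddChar (N := 5 ^ k)) x
    (ZMod.isPrimitive_stdAddChar (5 ^ k))
  rw [h]
  split_ifs
  · rw [ZMod.card]; push_cast; rfl
  · simp

private lemma M1_conj (k : ℕ) (x : ZMod (5 ^ k)) :
    (starRingEnd ℂ) (chi k x) = chi k (-x) := by
  have h1 : chi k x * chi k (-x) = 1 := by
    rw [← chi_add, add_neg_cancel, chi_zero]
  have h2 : chi k x * (starRingEnd ℂ) (chi k x) = 1 := by
    rw [Complex.mul_conj, Complex.normSq_eq_norm_sq, chi_norm]; norm_num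
  have h3 : chi k x ≠ 0 := by
    intro h; rw [h, zero_mul] at h1; exact zero_ne_one h1
  exact mul_left_cancel₀ h3 (h2.trans h1.symm)

/-- Parseval. -/
lemma parseval (k : ℕ) (f : ZMod (5 ^ k) → ℂ) :
    ∑ ξ : ZMod (5 ^ k), ‖∑ y : ZMod (5 ^ k), f y * chi k (ξ * y)‖ ^ 2
      = 5 ^ k * ∑ y : ZMod (5 ^ k), ‖f y‖ ^ 2 := by
  have key : ((∑ ξ : ZMod (5 ^ k), ‖∑ y : ZMod (5 ^ k), f y * chi k (ξ * y)‖ ^ 2 : ℝ) : ℂ)
      = ((5 ^ k * ∑ y : ZMod (5 ^ k), ‖f y‖ ^ 2 : ℝ) : ℂ) := by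
    push_cast
    have e1 : ∀ ξ : ZMod (5 ^ k),
        ((‖∑ y : ZMod (5 ^ k), f y * chi k (ξ * y)‖ : ℂ)) ^ 2
          = ∑ y : ZMod (5 ^ k), ∑ y' : ZMod (5 ^ k),
              f y * (starRingEnd ℂ) (f y') * chi k (ξ * (y - y')) := by
      intro ξ
      rw [← Complex.mul_conj', map_sum, Finset.sum_mul_sum]
      refine Finset.sum_congr rfl fun y _ => Finset.sum_congr rfl fun y' _ => ?_
      rw [map_mul, M1_conj]
      have : chi k (ξ * (y - y')) = chi k (ξ * y) * chi k (-(ξ * y')) := by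
        rw [← chi_add]; congr 1; ring
      rw [this]; ring
    rw [Finset.sum_congr rfl fun ξ _ => e1 ξ, Finset.sum_comm, Finset.mul_sum]
    refine Finset.sum_congr rfl fun y _ => ?_
    rw [Finset.sum_comm]
    have e2 : ∀ y' : ZMod (5 ^ k),
        ∑ ξ : ZMod (5 ^ k), f y * (starRingEnd ℂ) (f y') * chi k (ξ * (y - y'))
          = if y = y' then (5 ^ k : ℂ) * (‖f y‖ : ℂ) ^ 2 else 0 := by
      intro y'
      rw [← Finset.mul_sum, chi_sum]
      by_cases h : y = y'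
      · subst h
        rw [sub_self, if_pos rfl, if_pos rfl, Complex.mul_conj']; ring
      · rw [if_neg (sub_ne_zero.mpr h), if_neg h, mul_zero]
    rw [Finset.sum_congr rfl fun y' _ => e2 y', Finset.sum_ite_eq]
    simp
  exact_mod_cast key

private lemma M1_ker (k r : ℕ) (hr : r ≤ k) (z : ZMod (5 ^ k)) :
    (5 : ZMod (5 ^ k)) ^ r * z = 0 ↔ ∃ i < 5 ^ r, z = ((i * 5 ^ (k - r) : ℕ) : ZMod (5 ^ k)) := by
  have hk : (5 : ℕ) ^ k = 5 ^ r * 5 ^ (k - r) := by
    rw [← pow_add]; congr 1; omega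
  constructor
  · intro h
    have h1 : ((5 ^ r * z.val : ℕ) : ZMod (5 ^ k)) = 0 := by
      push_cast
      rw [ZMod.natCast_zmod_val]; exact h
    rw [ZMod.natCast_eq_zero_iff] at h1
    have h3 : z.val < 5 ^ k := ZMod.val_lt z
    have hzv : z = ((z.val : ℕ) : ZMod (5 ^ k)) := (ZMod.natCast_zmod_val z).symm
    generalize z.val = w at h1 h3 hzv
    have h1' : 5 ^ r * 5 ^ (k - r) ∣ 5 ^ r * w := hk ▸ h1
    have h3' : w < 5 ^ r * 5 ^ (k - r) := hk ▸ h3
    have h2 : 5 ^ (k - r) ∣ w := Nat.dvd_of_mul_dvd_mul_left (by positivity) h1'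
    obtain ⟨i, hi⟩ := h2
    refine ⟨i, ?_, ?_⟩
    · rw [hi] at h3'
      by_contra hcon
      push Not at hcon
      have : 5 ^ r * 5 ^ (k - r) ≤ 5 ^ (k - r) * i := by
        rw [mul_comm]; exact Nat.mul_le_mul_left _ hcon
      omega
    · rw [mul_comm, ← hi]; exact hzv
  · rintro ⟨i, _, rfl⟩
    have : (5 : ZMod (5 ^ k)) ^ r * ((i * 5 ^ (k - r) : ℕ) : ZMod (5 ^ k))
        = ((i * 5 ^ k : ℕ) : ZMod (5 ^ k)) := by
      rw [show i * 5 ^ k = 5 ^ r * (i * 5 ^ (k - r)) by rw [hk]; ring]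
      push_cast; ring
    rw [this, ZMod.natCast_eq_zero_iff]
    exact dvd_mul_left _ _

open Classical in
/-- Number of points of a coset. -/
lemma card_coset (k r : ℕ) (hr : r ≤ k) (y : ZMod (5 ^ k)) :
    ((Finset.univ.filter (fun y' : ZMod (5 ^ k) => (5 : ZMod (5 ^ k)) ^ r * (y' - y) = 0)).card : ℝ)
      = 5 ^ r := by
  have hk : (5 : ℕ) ^ k = 5 ^ r * 5 ^ (k - r) := by
    rw [← pow_add]; congr 1; omega
  have h : (Finset.range (5 ^ r)).card =
      (Finset.univ.filter (fun y' : ZMod (5 ^ k) => (5 : ZMod (5 ^ k)) ^ r * (y' - y) = 0)).card := by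
    refine Finset.card_bij (fun i _ => y + ((i * 5 ^ (k - r) : ℕ) : ZMod (5 ^ k))) ?_ ?_ ?_
    · intro i hi
      rw [Finset.mem_filter]
      refine ⟨Finset.mem_univ _, ?_⟩
      rw [add_sub_cancel_left]
      exact (M1_ker k r hr _).mpr ⟨i, Finset.mem_range.mp hi, rfl⟩
    · intro i hi i' hi' h
      have h1 := add_left_cancel h
      rw [ZMod.natCast_eq_natCast_iff'] at h1
      have hlt : ∀ j ∈ Finset.range (5 ^ r), j * 5 ^ (k - r) < 5 ^ k := by
        intro j hj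
        rw [hk]
        exact Nat.mul_lt_mul_of_pos_right (Finset.mem_range.mp hj) (by positivity)
      rw [Nat.mod_eq_of_lt (hlt i hi), Nat.mod_eq_of_lt (hlt i' hi')] at h1
      exact Nat.eq_of_mul_eq_mul_right (by positivity) h1
    · intro y' hy'
      rw [Finset.mem_filter] at hy'
      obtain ⟨i, hi, h1⟩ := (M1_ker k r hr _).mp hy'.2
      refine ⟨i, Finset.mem_range.mpr hi, ?_⟩
      rw [← h1]; ring
  rw [← h, Finset.card_range]
  push_cast; rfl

open Classical in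
/-- Character sum over a coset of the subgroup. -/
lemma chi_coset (k r : ℕ) (hr : r ≤ k) (ξ y : ZMod (5 ^ k)) :
    ∑ y' ∈ Finset.univ.filter (fun y' : ZMod (5 ^ k) => (5 : ZMod (5 ^ k)) ^ r * (y' - y) = 0),
      chi k (ξ * y')
      = if (5 : ZMod (5 ^ k)) ^ (k - r) * ξ = 0 then (5 ^ r : ℂ) * chi k (ξ * y) else 0 := by
  split_ifs with h
  · have h1 : ∀ y' ∈ Finset.univ.filter
        (fun y' : ZMod (5 ^ k) => (5 : ZMod (5 ^ k)) ^ r * (y' - y) = 0),
        chi k (ξ * y') = chi k (ξ * y) := by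
      intro y' hy'
      rw [Finset.mem_filter] at hy'
      obtain ⟨i, _, hi⟩ := (M1_ker k r hr _).mp hy'.2
      have : ξ * y' = ξ * y := by
        have e : y' = y + ((i * 5 ^ (k - r) : ℕ) : ZMod (5 ^ k)) := by rw [← hi]; ring
        rw [e, mul_add]
        have e2 : ξ * ((i * 5 ^ (k - r) : ℕ) : ZMod (5 ^ k))
            = i * ((5 : ZMod (5 ^ k)) ^ (k - r) * ξ) := by push_cast; ring
        rw [e2, h, mul_zero, add_zero]
      rw [this]
    rw [Finset.sum_congr rfl h1, Finset.sum_const, nsmul_eq_mul]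
    have h2 := card_coset k r hr y
    have h3 : ((Finset.univ.filter (fun y' : ZMod (5 ^ k) =>
        (5 : ZMod (5 ^ k)) ^ r * (y' - y) = 0)).card : ℂ) = 5 ^ r := by exact_mod_cast h2
    rw [h3]
  · set z₀ : ZMod (5 ^ k) := 5 ^ (k - r) with hz₀
    have hz : (5 : ZMod (5 ^ k)) ^ r * z₀ = 0 := by
      rw [hz₀, ← pow_add, show r + (k - r) = k by omega]
      have : ((5 ^ k : ℕ) : ZMod (5 ^ k)) = 0 := ZMod.natCast_self _
      push_cast at this; exact this
    have hne : chi k (ξ * z₀) ≠ 1 := by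
      intro hcon
      unfold chi at hcon
      have h0 : ZMod.stdAddChar (ξ * z₀) = ZMod.stdAddChar (0 : ZMod (5 ^ k)) := by
        rw [hcon, AddChar.map_zero_eq_one]
      have := ZMod.injective_stdAddChar h0
      exact h (by rw [mul_comm]; exact this)
    set S := ∑ y' ∈ Finset.univ.filter
      (fun y' : ZMod (5 ^ k) => (5 : ZMod (5 ^ k)) ^ r * (y' - y) = 0), chi k (ξ * y') with hS
    have h1 : S = chi k (ξ * z₀) * S := by
      conv_lhs => rw [hS]
      rw [hS, Finset.mul_sum]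
      refine Finset.sum_bij' (fun y' _ => y' - z₀) (fun y' _ => y' + z₀) ?_ ?_ ?_ ?_ ?_
      · intro a ha
        rw [Finset.mem_filter] at ha ⊢
        refine ⟨Finset.mem_univ _, ?_⟩
        have : (5 : ZMod (5 ^ k)) ^ r * (a - z₀ - y) = 5 ^ r * (a - y) - 5 ^ r * z₀ := by ring
        rw [this, ha.2, hz, sub_zero]
      · intro a ha
        rw [Finset.mem_filter] at ha ⊢
        refine ⟨Finset.mem_univ _, ?_⟩
        have : (5 : ZMod (5 ^ k)) ^ r * (a + z₀ - y) = 5 ^ r * (a - y) + 5 ^ r * z₀ := by ring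
        rw [this, ha.2, hz, add_zero]
      · intro a _; ring
      · intro a _; ring
      · intro a _
        rw [← chi_add]; congr 1; ring
    have h2 : (1 - chi k (ξ * z₀)) * S = 0 := by
      rw [sub_mul, one_mul, ← h1, sub_self]
    rcases mul_eq_zero.mp h2 with h3 | h3
    · exact absurd (sub_eq_zero.mp h3).symm hne
    · exact h3

open Classical in
/-- `L¹` norm of the fine part by Cauchy-Schwarz and Parseval. -/
theorem fine_part (k r : ℕ) (hr : r ≤ k) (f : ZMod (5 ^ k) → ℝ) :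
    (∑ y : ZMod (5 ^ k), |f y - 1 / 5 ^ r *
        ∑ y' ∈ Finset.univ.filter (fun y' : ZMod (5 ^ k) =>
          (5 : ZMod (5 ^ k)) ^ r * (y' - y) = 0), f y'|) ^ 2
      ≤ ∑ ξ ∈ Finset.univ.filter (fun ξ : ZMod (5 ^ k) => (5 : ZMod (5 ^ k)) ^ (k - r) * ξ ≠ 0),
          ‖∑ y : ZMod (5 ^ k), (f y : ℂ) * chi k (ξ * y)‖ ^ 2 := by
  set g : ZMod (5 ^ k) → ℝ := fun y => f y - 1 / 5 ^ r *
        ∑ y' ∈ Finset.univ.filter (fun y' : ZMod (5 ^ k) =>
          (5 : ZMod (5 ^ k)) ^ r * (y' - y) = 0), f y' with hg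
  have hft : ∀ ξ : ZMod (5 ^ k), ∑ y : ZMod (5 ^ k), (g y : ℂ) * chi k (ξ * y)
      = if (5 : ZMod (5 ^ k)) ^ (k - r) * ξ ≠ 0 then
          ∑ y : ZMod (5 ^ k), (f y : ℂ) * chi k (ξ * y) else 0 := by
    intro ξ
    have e1 : ∑ y : ZMod (5 ^ k), (g y : ℂ) * chi k (ξ * y)
        = ∑ y : ZMod (5 ^ k), (f y : ℂ) * chi k (ξ * y)
          - ∑ y : ZMod (5 ^ k), (1 / 5 ^ r : ℂ) * ∑ y' ∈ Finset.univ.filter
              (fun y' : ZMod (5 ^ k) => (5 : ZMod (5 ^ k)) ^ r * (y' - y) = 0),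
                (f y' : ℂ) * chi k (ξ * y) := by
      rw [← Finset.sum_sub_distrib]
      refine Finset.sum_congr rfl fun y _ => ?_
      rw [hg]
      push_cast
      rw [sub_mul, mul_assoc, Finset.sum_mul]
    have e2 : ∑ y : ZMod (5 ^ k), (1 / 5 ^ r : ℂ) * ∑ y' ∈ Finset.univ.filter
              (fun y' : ZMod (5 ^ k) => (5 : ZMod (5 ^ k)) ^ r * (y' - y) = 0),
                (f y' : ℂ) * chi k (ξ * y)
        = ∑ y' : ZMod (5 ^ k), (1 / 5 ^ r : ℂ) * ((f y' : ℂ) *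
            ∑ y ∈ Finset.univ.filter
              (fun y : ZMod (5 ^ k) => (5 : ZMod (5 ^ k)) ^ r * (y - y') = 0),
                chi k (ξ * y)) := by
      rw [← Finset.mul_sum, ← Finset.mul_sum]
      congr 1
      simp_rw [Finset.sum_filter, Finset.mul_sum]
      rw [Finset.sum_comm]
      refine Finset.sum_congr rfl fun y' _ => Finset.sum_congr rfl fun y _ => ?_
      have : ((5 : ZMod (5 ^ k)) ^ r * (y' - y) = 0) ↔ ((5 : ZMod (5 ^ k)) ^ r * (y - y') = 0) := by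
        have e : (5 : ZMod (5 ^ k)) ^ r * (y - y') = -((5 : ZMod (5 ^ k)) ^ r * (y' - y)) := by ring
        rw [e, neg_eq_zero]
      by_cases h : (5 : ZMod (5 ^ k)) ^ r * (y' - y) = 0
      · rw [if_pos h, if_pos (this.mp h)]
      · rw [if_neg h, if_neg (fun h' => h (this.mpr h')), mul_zero]
    rw [e1, e2]
    simp_rw [chi_coset k r hr]
    by_cases h : (5 : ZMod (5 ^ k)) ^ (k - r) * ξ = 0
    · simp only [h, if_true, ne_eq, not_true_eq_false, if_false]
      rw [sub_eq_zero]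
      refine Finset.sum_congr rfl fun y _ => ?_
      have h5 : (5 ^ r : ℂ) ≠ 0 := pow_ne_zero _ (by norm_num)
      field_simp
    · simp only [h, if_false, ne_eq, not_false_eq_true, if_true, mul_zero,
        Finset.sum_const_zero, sub_zero]
  have hcs : (∑ y : ZMod (5 ^ k), |g y|) ^ 2 ≤ 5 ^ k * ∑ y : ZMod (5 ^ k), |g y| ^ 2 := by
    have h := sq_sum_le_card_mul_sum_sq (s := (Finset.univ : Finset (ZMod (5 ^ k))))
      (f := fun y => |g y|)
    rw [Finset.card_univ, ZMod.card] at h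
    push_cast at h
    exact h
  have hpar := parseval k (fun y => (g y : ℂ))
  have hn : ∀ y : ZMod (5 ^ k), ‖(g y : ℂ)‖ ^ 2 = |g y| ^ 2 := by
    intro y; rw [Complex.norm_real, Real.norm_eq_abs]
  simp only [hn] at hpar
  calc (∑ y : ZMod (5 ^ k), |g y|) ^ 2 ≤ 5 ^ k * ∑ y : ZMod (5 ^ k), |g y| ^ 2 := hcs
    _ = ∑ ξ : ZMod (5 ^ k), ‖∑ y : ZMod (5 ^ k), (g y : ℂ) * chi k (ξ * y)‖ ^ 2 := hpar.symm
    _ = ∑ ξ : ZMod (5 ^ k), if (5 : ZMod (5 ^ k)) ^ (k - r) * ξ ≠ 0 then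
          ‖∑ y : ZMod (5 ^ k), (f y : ℂ) * chi k (ξ * y)‖ ^ 2 else 0 := by
        refine Finset.sum_congr rfl fun ξ _ => ?_
        rw [hft ξ]
        split_ifs
        · rfl
        · simp
    _ = _ := by rw [Finset.sum_filter]
    _ ≤ _ := le_refl _

end K5
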