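import Pool.Agent.Lib.MP_a4658c_nt.K5.FDefs

/-! Definitions for the mixing lemma (paper section 3). -/

namespace K5

/-- `l` is the first index with `Y < D (take l w)`. -/
def Stop (Y : ℝ) (w : List Let) (l : ℕ) : Prop :=
  Y < (D (w.take l) : ℝ) ∧ ∀ l' < l, (D (w.take l') : ℝ) ≤ Y

/-- The words have a stopped prefix of length `≤ lmax` with `cnum < 5^k`. -/
def Tm (k lmax : ℕ) (Y : ℝ) (w : List Let) : Prop :=
  ∃ l ≤ lmax, Stop Y w l ∧ cnum (w.take l) < 5 ^ k

open Classical in
/-- Words with given end class and endpoint and a good stopped prefix. -/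
noncomputable def TT (Λ k lmax : ℕ) (Y : ℝ) (c c' : Bool) (A B : ℕ) : Finset (List Let) :=
  (W Λ k c).filter (fun w => endc c w = c' ∧ sA w = A ∧ sB w = B ∧ Tm k lmax Y w)

/-- The density `h` on residues mod `5^k` for a finite set `T` of words of length `k`. -/
noncomputable def hh (k : ℕ) (T : Finset (List Let)) (y : ZMod (5 ^ k)) : ℝ :=
  5 ^ k * ∑ w ∈ T.filter (fun w => Fm k w = y), 1 / (D w : ℝ)

/-- The density coarsened to residues mod `5^(k-r)`. -/
noncomputable def ht (k r : ℕ) (T : Finset (List Let)) (y : ZMod (5 ^ k)) : ℝ :=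
  5 ^ (k - r) * ∑ w ∈ T.filter (fun w => (5 : ZMod (5 ^ k)) ^ r * (Fm k w - y) = 0),
    1 / (D w : ℝ)

end K5
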