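import Pool.Agent.Lib.MP_a4658c_nt.K5.F1
import Pool.Agent.Lib.MP_a4658c_nt.K5.M1
import Pool.Agent.Lib.MP_a4658c_nt.K5.MDefs
import Pool.Agent.Lib.MP_a4658c_nt.K5.A3

/-! Piece M2: the two factors of the Fourier transform in the mixing lemma (paper section 3). -/

namespace K5

private lemma M2_five (k : ℕ) : (5 : ZMod (5 ^ k)) ^ k = 0 := by
  have h := ZMod.natCast_self (5 ^ k)
  push_cast at h
  exact h

/-- Twisted sum over the tail of the word, `n' = k - l` letters: with `12 y = ξ 5^l d` it is a `Gam`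
(Gam_eq_sum); `y` has order `5^R`, `k - r - l < R ≤ n'` (Ord_exists, Ord_lt), apply Gam_reduce. -/
lemma tail_bound {Λ k r l n' : ℕ} (hk : l + n' = k) (hr : r ≤ k) (hl : l ≤ k - r) {q : ℝ}
    (hq : 0 ≤ q)
    (hFD : ∀ ψ : Bool → ℕ → ℕ → ℂ, (∀ c A B, ‖ψ c A B‖ ≤ v c) → ∀ R, k - r - l ≤ R →
      QB Λ k ψ R q)
    (ψ : Bool → ℕ → ℕ → ℂ) (hψ : ∀ c A B, ‖ψ c A B‖ ≤ v c)
    (ξ d : ZMod (5 ^ k)) (hd : IsUnit d) (hξ : (5 : ZMod (5 ^ k)) ^ (k - r) * ξ ≠ 0)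
    (c₀ : Bool) (A₀ B₀ : ℕ) :
    ‖∑ w ∈ W Λ n' c₀, (1 / (D w : ℂ)) * chi k (ξ * 5 ^ l * d * Fm k w) *
      ψ (endc c₀ w) (A₀ + sA w) (B₀ + sB w)‖ ≤ 4 * q := by
  have _ := hr
  set t : ZMod (5 ^ k) := (2 : ZMod (5 ^ k))⁻¹ ^ 2 * (3 : ZMod (5 ^ k))⁻¹ with ht
  have h12 : (12 : ZMod (5 ^ k)) * t = 1 := by
    calc (12 : ZMod (5 ^ k)) * t = (2 * (2 : ZMod (5 ^ k))⁻¹) ^ 2 * (3 * (3 : ZMod (5 ^ k))⁻¹) := by
          rw [ht]; ring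
      _ = 1 := by rw [two_mul_inv, three_mul_inv]; ring
  have htu : IsUnit t := by
    rw [isUnit_iff_exists_inv]
    exact ⟨12, by rw [mul_comm]; exact h12⟩
  set y : ZMod (5 ^ k) := t * (ξ * 5 ^ l * d) with hy
  have hsum : ∑ w ∈ W Λ n' c₀, (1 / (D w : ℂ)) * chi k (ξ * 5 ^ l * d * Fm k w) *
      ψ (endc c₀ w) (A₀ + sA w) (B₀ + sB w) = Gam Λ k ψ n' c₀ y A₀ B₀ := by
    rw [Gam_eq_sum]
    refine Finset.sum_congr rfl fun w _ => ?_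
    have e : 12 * y * Fm k w = ξ * 5 ^ l * d * Fm k w := by
      calc 12 * y * Fm k w = (12 * t) * (ξ * 5 ^ l * d * Fm k w) := by rw [hy]; ring
        _ = _ := by rw [h12, one_mul]
    rw [e]
  rw [hsum]
  obtain ⟨R, _, hR⟩ := Ord_exists k y
  have h1 : k - r - l < R := by
    apply (Ord_lt hR).1
    intro h0
    apply hξ
    have e : (5 : ZMod (5 ^ k)) ^ (k - r - l) * y = t * d * (5 ^ (k - r) * ξ) := by
      calc (5 : ZMod (5 ^ k)) ^ (k - r - l) * y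
          = t * d * ((5 ^ (k - r - l) * 5 ^ l) * ξ) := by rw [hy]; ring
        _ = t * d * (5 ^ (k - r) * ξ) := by rw [← pow_add, Nat.sub_add_cancel hl]
    rw [e] at h0
    exact ((htu.mul hd).mul_right_eq_zero).1 h0
  have h2 : R ≤ n' := by
    apply (Ord_lt hR).2
    calc (5 : ZMod (5 ^ k)) ^ n' * y = t * d * ξ * (5 ^ l * 5 ^ n') := by rw [hy]; ring
      _ = 0 := by rw [← pow_add, hk, M2_five, mul_zero]
  obtain ⟨n, rfl⟩ := Nat.exists_eq_add_of_le h2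
  rw [Gam_reduce R n c₀ y A₀ B₀ hR.1]
  have h3 := hFD (fun c A B => Gam Λ k ψ n c 0 A B) (fun c A B => Gam_norm_le hψ n c 0 A B) R
    h1.le c₀ y A₀ B₀ hR
  exact h3.trans (mul_le_mul_of_nonneg_right (v_le c₀) hq)

/-- Words with the same length, start class and endpoint and `cnum < 5^k` have distinct `Fm`. -/
lemma Fm_inj {Λ k l : ℕ} {c : Bool} {w w' : List Let} (hw : w ∈ W Λ l c) (hw' : w' ∈ W Λ l c)
    (hA : sA w = sA w') (hB : sB w = sB w') (h : cnum w < 5 ^ k) (h' : cnum w' < 5 ^ k)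
    (hF : Fm k w = Fm k w') : w = w' := by
  have hD : D w = D w' := by rw [D_eq, D_eq, hA, hB]
  refine word_inj hw hw' hD ?_
  have e1 : (cnum w : ZMod (5 ^ k)) = (cnum w' : ZMod (5 ^ k)) := by
    unfold Fm at hF
    rw [hD] at hF
    calc (cnum w : ZMod (5 ^ k))
        = (cnum w : ZMod (5 ^ k)) * (((D w' : ℕ) : ZMod (5 ^ k)) *
          ((D w' : ℕ) : ZMod (5 ^ k))⁻¹) := by rw [D_mul_inv, mul_one]
      _ = ((cnum w : ZMod (5 ^ k)) * ((D w' : ℕ) : ZMod (5 ^ k))⁻¹) *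
          ((D w' : ℕ) : ZMod (5 ^ k)) := by ring
      _ = ((cnum w' : ZMod (5 ^ k)) * ((D w' : ℕ) : ZMod (5 ^ k))⁻¹) *
          ((D w' : ℕ) : ZMod (5 ^ k)) := by rw [hF]
      _ = (cnum w' : ZMod (5 ^ k)) * (((D w' : ℕ) : ZMod (5 ^ k)) *
          ((D w' : ℕ) : ZMod (5 ^ k))⁻¹) := by ring
      _ = (cnum w' : ZMod (5 ^ k)) := by rw [D_mul_inv, mul_one]
  rw [ZMod.natCast_eq_natCast_iff'] at e1
  rwa [Nat.mod_eq_of_lt h, Nat.mod_eq_of_lt h'] at e1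

/-- Parseval for a set of words on which `Fm` is injective. -/
lemma head_parseval (k : ℕ) (S₀ : Finset (List Let))
    (hinj : ∀ w ∈ S₀, ∀ w' ∈ S₀, Fm k w = Fm k w' → w = w') :
    ∑ ξ : ZMod (5 ^ k), ‖∑ w ∈ S₀, chi k (ξ * Fm k w)‖ ^ 2 = 5 ^ k * (S₀.card : ℝ) := by
  classical
  set T := S₀.image (Fm k) with hT
  have h1 := parseval k (fun y => if y ∈ T then 1 else 0)
  have h2 : ∀ ξ : ZMod (5 ^ k), ∑ y : ZMod (5 ^ k), (if y ∈ T then (1 : ℂ) else 0) * chi k (ξ * y) =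
      ∑ w ∈ S₀, chi k (ξ * Fm k w) := by
    intro ξ
    have e : ∀ y : ZMod (5 ^ k), (if y ∈ T then (1 : ℂ) else 0) * chi k (ξ * y) =
        if y ∈ T then chi k (ξ * y) else 0 := by
      intro y
      split_ifs <;> simp
    rw [Finset.sum_congr rfl fun y _ => e y, Finset.sum_ite_mem, Finset.univ_inter, hT,
      Finset.sum_image]
    intro a ha b hb hab
    exact hinj a ha b hb hab
  have h3 : ∑ y : ZMod (5 ^ k), ‖(if y ∈ T then (1 : ℂ) else 0)‖ ^ 2 = (S₀.card : ℝ) := by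
    have e : ∀ y : ZMod (5 ^ k), ‖(if y ∈ T then (1 : ℂ) else 0)‖ ^ 2 =
        if y ∈ T then (1 : ℝ) else 0 := by
      intro y
      split_ifs <;> simp
    rw [Finset.sum_congr rfl fun y _ => e y, Finset.sum_ite_mem, Finset.univ_inter,
      Finset.sum_const, nsmul_eq_mul, mul_one, hT, Finset.card_image_of_injOn]
    intro a ha b hb hab
    exact hinj a ha b hb hab
  rw [h3] at h1
  rw [← h1]
  exact Finset.sum_congr rfl fun ξ _ => by rw [h2 ξ]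

/-- One part of the decomposition: prefixes in `S₀` (fixed length `l`, start class `c`, endpoint
`(A₀,B₀)`, end class `c₀`), arbitrary tails with terminal function `ψ` (real, between 0 and v).
`f y = Σ_{w₀ ∈ S₀} Σ_{w'} 1/(D w₀ D w') ψ 1[Fm (w₀ ++ w') = y]`. -/
lemma part_bound {Λ k r l n' : ℕ} (hk : l + n' = k) (hr : r ≤ k) (hl : l ≤ k - r) {q : ℝ}
    (hq : 0 ≤ q)
    (hFD : ∀ ψ : Bool → ℕ → ℕ → ℂ, (∀ c A B, ‖ψ c A B‖ ≤ v c) → ∀ R, k - r - l ≤ R →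
      QB Λ k ψ R q)
    (ψ : Bool → ℕ → ℕ → ℝ) (hψ : ∀ c A B, |ψ c A B| ≤ v c)
    (c c₀ : Bool) (A₀ B₀ : ℕ) (S₀ : Finset (List Let))
    (hS : ∀ w ∈ S₀, w ∈ W Λ l c ∧ endc c w = c₀ ∧ sA w = A₀ ∧ sB w = B₀ ∧ cnum w < 5 ^ k) :
    ∑ ξ ∈ Finset.univ.filter (fun ξ : ZMod (5 ^ k) => (5 : ZMod (5 ^ k)) ^ (k - r) * ξ ≠ 0),
        ‖∑ w₀ ∈ S₀, ∑ w ∈ W Λ n' c₀, ((1 / ((D w₀ : ℝ) * (D w : ℝ)) *
          ψ (endc c₀ w) (A₀ + sA w) (B₀ + sB w) : ℝ) : ℂ) * chi k (ξ * Fm k (w₀ ++ w))‖ ^ 2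
      ≤ (4 * q) ^ 2 * 5 ^ k * (S₀.card : ℝ) / (2 ^ A₀ * 3 ^ B₀) ^ 2 := by
  classical
  -- the common divisor of the heads
  set D₀ : ℕ := 2 ^ A₀ * 3 ^ B₀ with hD₀
  have hD : ∀ w ∈ S₀, D w = D₀ := fun w hw => by
    obtain ⟨_, _, hA, hB, _⟩ := hS w hw
    rw [D_eq, hA, hB]
  have hD₀pos : (0 : ℝ) < D₀ := by rw [hD₀]; positivity
  have hinj : ∀ w ∈ S₀, ∀ w' ∈ S₀, Fm k w = Fm k w' → w = w' := by
    intro w hw w' hw' hF
    obtain ⟨h1, _, h3, h4, h5⟩ := hS w hw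
    obtain ⟨g1, _, g3, g4, g5⟩ := hS w' hw'
    exact Fm_inj h1 g1 (h3.trans g3.symm) (h4.trans g4.symm) h5 g5 hF
  have hpos : ∀ ξ ∈ Finset.univ.filter
      (fun ξ : ZMod (5 ^ k) => (5 : ZMod (5 ^ k)) ^ (k - r) * ξ ≠ 0),
        ‖∑ w₀ ∈ S₀, ∑ w ∈ W Λ n' c₀, ((1 / ((D w₀ : ℝ) * (D w : ℝ)) *
          ψ (endc c₀ w) (A₀ + sA w) (B₀ + sB w) : ℝ) : ℂ) * chi k (ξ * Fm k (w₀ ++ w))‖ ^ 2 ≤
        (4 * q) ^ 2 / (D₀ : ℝ) ^ 2 * ‖∑ w ∈ S₀, chi k (ξ * Fm k w)‖ ^ 2 := by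
    intro ξ hξ
    rw [Finset.mem_filter] at hξ
    have hcop : Nat.Coprime D₀ (5 ^ k) := by
      rw [hD₀]
      apply Nat.Coprime.pow_right
      apply Nat.Coprime.mul_left
      · exact Nat.Coprime.pow_left _ (by norm_num)
      · exact Nat.Coprime.pow_left _ (by norm_num)
    have hu : IsUnit (((D₀ : ℕ) : ZMod (5 ^ k))⁻¹) := by
      rw [isUnit_iff_exists_inv]
      refine ⟨((D₀ : ℕ) : ZMod (5 ^ k)), ?_⟩
      rw [mul_comm]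
      exact ZMod.coe_mul_inv_eq_one _ hcop
    have ht := tail_bound hk hr hl hq hFD (fun c A B => ((ψ c A B : ℝ) : ℂ))
      (fun c A B => by rw [Complex.norm_real, Real.norm_eq_abs]; exact hψ c A B) ξ _ hu hξ.2
      c₀ A₀ B₀
    set g : ℂ := ∑ w ∈ W Λ n' c₀, (1 / (D w : ℂ)) *
      chi k (ξ * 5 ^ l * ((D₀ : ℕ) : ZMod (5 ^ k))⁻¹ * Fm k w) *
      ((ψ (endc c₀ w) (A₀ + sA w) (B₀ + sB w) : ℝ) : ℂ) with hg
    have hfac : ∑ w₀ ∈ S₀, ∑ w ∈ W Λ n' c₀, ((1 / ((D w₀ : ℝ) * (D w : ℝ)) *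
          ψ (endc c₀ w) (A₀ + sA w) (B₀ + sB w) : ℝ) : ℂ) * chi k (ξ * Fm k (w₀ ++ w)) =
        (1 / (D₀ : ℂ)) * g * ∑ w ∈ S₀, chi k (ξ * Fm k w) := by
      rw [Finset.mul_sum]
      refine Finset.sum_congr rfl fun w₀ hw₀ => ?_
      rw [hg, Finset.mul_sum, Finset.sum_mul]
      refine Finset.sum_congr rfl fun w _ => ?_
      have hlen : w₀.length = l := length_of_mem_W (hS w₀ hw₀).1
      have e : chi k (ξ * Fm k (w₀ ++ w)) = chi k (ξ * Fm k w₀) *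
          chi k (ξ * 5 ^ l * ((D₀ : ℕ) : ZMod (5 ^ k))⁻¹ * Fm k w) := by
        rw [← chi_add, Fm_append, hlen, hD w₀ hw₀]
        congr 1
        ring
      rw [e, hD w₀ hw₀]
      push_cast
      rw [← one_div_mul_one_div]
      ring
    rw [hfac, norm_mul, norm_mul, mul_pow, mul_pow]
    have hn : ‖(1 / (D₀ : ℂ))‖ = 1 / (D₀ : ℝ) := by
      rw [norm_div, norm_one, Complex.norm_natCast]
    rw [hn]
    have h3 : ‖g‖ ^ 2 ≤ (4 * q) ^ 2 := pow_le_pow_left₀ (norm_nonneg _) ht 2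
    have h4 : (1 / (D₀ : ℝ)) ^ 2 * ‖g‖ ^ 2 ≤ (4 * q) ^ 2 / (D₀ : ℝ) ^ 2 := by
      rw [one_div, inv_pow, div_eq_inv_mul]
      exact mul_le_mul_of_nonneg_left h3 (by positivity)
    exact mul_le_mul_of_nonneg_right h4 (sq_nonneg _)
  refine (Finset.sum_le_sum hpos).trans ?_
  rw [← Finset.mul_sum]
  have h5 : ∑ ξ ∈ Finset.univ.filter
      (fun ξ : ZMod (5 ^ k) => (5 : ZMod (5 ^ k)) ^ (k - r) * ξ ≠ 0),
        ‖∑ w ∈ S₀, chi k (ξ * Fm k w)‖ ^ 2 ≤ 5 ^ k * (S₀.card : ℝ) := by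
    rw [← head_parseval k S₀ hinj]
    exact Finset.sum_le_sum_of_subset_of_nonneg (Finset.filter_subset _ _)
      fun ξ _ _ => sq_nonneg _
  have h6 : ((D₀ : ℕ) : ℝ) = 2 ^ A₀ * 3 ^ B₀ := by rw [hD₀]; push_cast; ring
  refine (mul_le_mul_of_nonneg_left h5 (by positivity)).trans (le_of_eq ?_)
  rw [h6]
  ring

end K5
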