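import Pool.Agent.Lib.MP_a4658c_nt.K5.NDefs

/-! Piece N1: all asymptotic inequalities of the transfer (pure real analysis, no number theory). -/

namespace K5

private lemma N1_kk {t : ℝ} (ht : 200 ≤ t) :
    (kk t : ℝ) ≤ t / 100 ∧ t ≤ 200 * (kk t : ℝ) ∧ 2 ≤ kk t := by
  have h1 : (kk t : ℝ) ≤ t / 100 := Nat.floor_le (by linarith)
  have h2 : t / 100 < (kk t : ℝ) + 1 := Nat.lt_floor_add_one _
  have h3 : 2 ≤ kk t := by
    unfold kk; rw [Nat.le_floor_iff (by linarith)]; push_cast; linarith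
  have h4 : (2 : ℝ) ≤ kk t := by exact_mod_cast h3
  exact ⟨h1, by linarith, h3⟩

private lemma N1_KK {t : ℝ} (hk : 1 ≤ kk t) : KK t ≤ 36 * (kk t : ℝ) ^ 6 := by
  unfold KK LL
  have h1 : 2 ^ Nat.log 2 (kk t) ≤ kk t := Nat.pow_log_le_self 2 (by omega)
  have h2 : ((2 : ℝ) ^ Nat.log 2 (kk t)) ≤ kk t := by exact_mod_cast h1
  have h3 : (6 : ℝ) ^ (2 * Nat.log 2 (kk t) + 2) = 36 * (36 : ℝ) ^ Nat.log 2 (kk t) := by
    rw [pow_add, pow_mul]; norm_num; ring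
  rw [h3]
  have h4 : (36 : ℝ) ^ Nat.log 2 (kk t) ≤ (kk t : ℝ) ^ 6 := by
    calc (36 : ℝ) ^ Nat.log 2 (kk t) ≤ (64 : ℝ) ^ Nat.log 2 (kk t) := by
          gcongr; norm_num
      _ = ((2 : ℝ) ^ Nat.log 2 (kk t)) ^ 6 := by
          rw [← pow_mul, mul_comm, pow_mul]; norm_num
      _ ≤ (kk t : ℝ) ^ 6 := by gcongr
  linarith

/-- `2^LL ≥ k^2`. -/
private lemma N1_two_LL {t : ℝ} (hk : 1 ≤ kk t) : (kk t : ℝ) ^ 2 ≤ 2 ^ LL t := by
  unfold LL
  have h1 : kk t < 2 ^ (Nat.log 2 (kk t) + 1) := Nat.lt_pow_succ_log_self (by norm_num) _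
  have h2 : (kk t : ℝ) ≤ 2 ^ (Nat.log 2 (kk t) + 1) := by exact_mod_cast h1.le
  calc (kk t : ℝ) ^ 2 ≤ ((2 : ℝ) ^ (Nat.log 2 (kk t) + 1)) ^ 2 := by gcongr
    _ = 2 ^ (2 * Nat.log 2 (kk t) + 2) := by rw [← pow_mul]; ring_nf

private lemma N1_KK_ge {t : ℝ} (hk : 1 ≤ kk t) : (kk t : ℝ) ^ 2 ≤ KK t := by
  refine (N1_two_LL hk).trans ?_
  unfold KK
  gcongr; norm_num

private lemma N1_exp (t : ℝ) (ht : 200 ≤ t) : (5 : ℝ) ^ kk t ≤ Real.exp (t / 50) := by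
  obtain ⟨h1, _, _⟩ := N1_kk ht
  have h5 : (5 : ℝ) ≤ Real.exp 2 := by
    have : (2.7182818283 : ℝ) < Real.exp 1 := Real.exp_one_gt_d9
    have h : Real.exp 2 = Real.exp 1 * Real.exp 1 := by rw [← Real.exp_add]; norm_num
    rw [h]; nlinarith
  calc (5 : ℝ) ^ kk t ≤ (Real.exp 2) ^ kk t := by gcongr
    _ = Real.exp (2 * kk t) := by rw [← Real.exp_nat_mul]; ring_nf
    _ ≤ Real.exp (t / 50) := by
        apply Real.exp_le_exp.mpr; linarith

/-- `t^n ≤ C exp (a t)`. -/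
private lemma N1_pow_exp (n : ℕ) (a : ℝ) (ha : 0 < a) : ∃ C : ℝ, 0 < C ∧ ∀ t : ℝ, 0 ≤ t →
    t ^ n ≤ C * Real.exp (a * t) := by
  refine ⟨n.factorial / a ^ n, by positivity, fun t ht => ?_⟩
  have h := Real.pow_div_factorial_le_exp (a * t) (by positivity) n
  have hn : (0 : ℝ) < n.factorial := by positivity
  rw [div_le_iff₀ hn, mul_pow] at h
  rw [div_mul_eq_mul_div, le_div_iff₀ (by positivity)]
  linarith

/-- `exp (-a t) ≤ C / t`. -/
private lemma N1_exp_neg (a : ℝ) (ha : 0 < a) : ∃ C : ℝ, 0 < C ∧ ∀ t : ℝ, 0 < t →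
    Real.exp (-(a * t)) ≤ C / t := by
  obtain ⟨C, hC, h⟩ := N1_pow_exp 1 a ha
  refine ⟨C, hC, fun t ht => ?_⟩
  have := h t ht.le
  rw [pow_one] at this
  rw [le_div_iff₀ ht, Real.exp_neg, inv_mul_le_iff₀ (Real.exp_pos _)]
  linarith

/-- `6 KK ≤ exp (t/4)`. -/
private lemma N1_KK_exp {t : ℝ} (ht : 200 ≤ t) : 6 * KK t ≤ Real.exp (t / 4) := by
  obtain ⟨h1, h2, h3⟩ := N1_kk ht
  have hK := N1_KK (t := t) (by omega)
  have hk6 : (kk t : ℝ) ^ 6 ≤ (t / 100) ^ 6 := by gcongr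
  have h := Real.pow_div_factorial_le_exp (t / 4) (by positivity) 6
  have h7 : (t / 4) ^ 6 / ((Nat.factorial 6 : ℕ) : ℝ) = t ^ 6 / 2949120 := by
    norm_num [Nat.factorial]; ring
  rw [h7] at h
  have ht6 : 0 ≤ t ^ 6 := by positivity
  calc 6 * KK t ≤ 6 * (36 * (t / 100) ^ 6) := by linarith
    _ = 216 / 10 ^ 12 * t ^ 6 := by ring
    _ ≤ t ^ 6 / 2949120 := by nlinarith
    _ ≤ _ := h

lemma num_basic : ∃ t₀ : ℝ, 0 < t₀ ∧ ∀ t, t₀ ≤ t →
    rr t ≤ kk t ∧ lm t ≤ kk t - rr t ∧ 2 ≤ LL t ∧ 1 ≤ KK t ∧ 1 ≤ YY t ∧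
    KK t * (YY t * 6 ^ LL t) < 5 ^ kk t ∧ 1 ≤ EE t ∧ KK t < Real.exp (t / 2) ∧
    (∀ X : ℝ, X ≤ Real.exp (t / 4) → X < (Real.exp (t / 2) - KK t) / (5 * KK t)) ∧
    5 ^ kk t * Real.exp (5 * t / 4) + KK t ≤ Real.exp (2 * t) := by
  have hlim := tendsto_pow_const_div_const_pow_of_one_lt 18 (r := (5 : ℝ)) (by norm_num)
  have hev : ∀ᶠ n : ℕ in Filter.atTop, (n : ℝ) ^ 18 / 5 ^ n < 1 / 46656 :=
    hlim.eventually_lt_const (by norm_num)
  obtain ⟨n₀, hn₀⟩ := Filter.eventually_atTop.mp hev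
  refine ⟨200 + 100 * (n₀ + 1), by positivity, fun t ht => ?_⟩
  have hn0 : (0 : ℝ) ≤ n₀ := by positivity
  have ht2 : 200 ≤ t := by nlinarith
  obtain ⟨h1, h2, h3⟩ := N1_kk ht2
  have hkn : n₀ ≤ kk t := by
    have h4 : t / 100 < (kk t : ℝ) + 1 := Nat.lt_floor_add_one _
    have : (n₀ : ℝ) < (kk t : ℝ) + 1 := by nlinarith
    have : (n₀ : ℝ) < ((kk t + 1 : ℕ) : ℝ) := by push_cast; exact this
    have := Nat.cast_lt.mp this
    omega
  have hK1 : 1 ≤ KK t := by unfold KK; exact one_le_pow₀ (by norm_num)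
  have hKpos : 0 < KK t := by linarith
  have hK36 : 36 ≤ KK t := by
    unfold KK LL
    calc (36 : ℝ) = 6 ^ 2 := by norm_num
      _ ≤ 6 ^ (2 * Nat.log 2 (kk t) + 2) := by
        apply pow_le_pow_right₀ (by norm_num); omega
  have h5pos : (0 : ℝ) < 5 ^ kk t := by positivity
  have hY : 1 ≤ YY t := by
    unfold YY
    rw [one_le_div (by positivity)]
    have h6 := hn₀ _ hkn
    rw [div_lt_iff₀ h5pos] at h6
    have hK := N1_KK (t := t) (by omega)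
    calc KK t ^ 3 ≤ (36 * (kk t : ℝ) ^ 6) ^ 3 := by gcongr
      _ = 46656 * (kk t : ℝ) ^ 18 := by ring
      _ ≤ 5 ^ kk t := by linarith
  have hE := N1_KK_exp ht2
  have he4 : 1 ≤ Real.exp (t / 4) := Real.one_le_exp (by linarith)
  have hsq : Real.exp (t / 2) = Real.exp (t / 4) * Real.exp (t / 4) := by
    rw [← Real.exp_add]; congr 1; ring
  have hKlt : KK t < Real.exp (t / 2) := by rw [hsq]; nlinarith
  refine ⟨Nat.div_le_self _ _, ?_, by unfold LL; omega, hK1, hY, ?_, ?_, hKlt, ?_, ?_⟩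
  · unfold lm rr; omega
  · have : KK t * (YY t * 6 ^ LL t) = 5 ^ kk t / KK t := by
      unfold YY
      change KK t * (5 ^ kk t / KK t ^ 3 * KK t) = _
      field_simp
    rw [this]
    exact div_lt_self h5pos (by linarith)
  · unfold EE; exact he4
  · intro X hX
    rw [lt_div_iff₀ (by positivity), hsq]
    have h6 : X * (5 * KK t) ≤ Real.exp (t / 4) * (5 * KK t) := by gcongr
    nlinarith
  · have hexp := N1_exp t ht2
    have e1 : (5 : ℝ) ^ kk t * Real.exp (5 * t / 4) ≤ Real.exp (t / 50 + 5 * t / 4) := by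
      rw [Real.exp_add]; gcongr
    have e2 : KK t ≤ Real.exp (t / 50 + 5 * t / 4) := by
      have : Real.exp (t / 4) ≤ Real.exp (t / 50 + 5 * t / 4) := by
        apply Real.exp_le_exp.mpr; nlinarith
      linarith
    have e3 : 2 * Real.exp (t / 50 + 5 * t / 4) ≤ Real.exp (2 * t) := by
      have h8 : Real.exp (2 * t) = Real.exp (t / 50 + 5 * t / 4) * Real.exp (73 / 100 * t) := by
        rw [← Real.exp_add]; congr 1; ring
      have h9 : 2 ≤ Real.exp (73 / 100 * t) := by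
        have := Real.add_one_le_exp (73 / 100 * t)
        nlinarith
      rw [h8]; nlinarith [Real.exp_pos (t / 50 + 5 * t / 4)]
    linarith

/-- deficit of the good words -/
lemma num_deficit : ∃ t₀ C : ℝ, 0 < t₀ ∧ 0 < C ∧ ∀ t, t₀ ≤ t →
    kk t * (2 * (1 / 2 : ℝ) ^ LL t) + 6 * YY t * (0.81 / 5) ^ lm t + 40 / KK t
      + 2 * (5 ^ kk t / Real.sqrt (EE t)) ≤ C / t := by
  obtain ⟨C₄, hC₄, h₄⟩ := N1_exp_neg (1 / 10) (by norm_num)
  have hb := (tendsto_pow_const_mul_const_pow_of_abs_lt_one 10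
    (r := (0.76 : ℝ)) (by rw [abs_lt]; norm_num)).bddAbove_range
  obtain ⟨M, hM⟩ := hb
  have hM' : ∀ n : ℕ, (n : ℝ) ^ 10 * 0.76 ^ n ≤ M := fun n => hM ⟨n, rfl⟩
  have hM1 : 0 < M := lt_of_lt_of_le (by norm_num) (hM' 1)
  set B : ℝ := 1 + M * (5 / 0.81) ^ 9 with hB
  have hB1 : 1 ≤ B := by rw [hB]; have : 0 ≤ M * (5 / 0.81) ^ 9 := by positivity
                         linarith
  refine ⟨200, 400 + 6 * B * 200 + 40 * 200 + 2 * C₄, by norm_num, by positivity,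
    fun t ht => ?_⟩
  obtain ⟨h1, h2, h3⟩ := N1_kk ht
  set k := kk t with hk
  have hk1 : (2 : ℝ) ≤ k := by exact_mod_cast h3
  have hk0 : (0 : ℝ) < k := by linarith
  have ht0 : 0 < t := by linarith
  have hKpos : 0 < KK t := by unfold KK; positivity
  have hinv : 1 / (k : ℝ) ≤ 200 / t := by
    rw [div_le_div_iff₀ hk0 ht0]; linarith
  -- term 1
  have t1 : (k : ℝ) * (2 * (1 / 2 : ℝ) ^ LL t) ≤ 400 / t := by
    have h2L := N1_two_LL (t := t) (by rw [← hk]; omega)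
    rw [← hk] at h2L
    have : (1 / 2 : ℝ) ^ LL t ≤ 1 / (k : ℝ) ^ 2 := by
      rw [one_div_pow]; gcongr
    calc (k : ℝ) * (2 * (1 / 2 : ℝ) ^ LL t) ≤ k * (2 * (1 / (k : ℝ) ^ 2)) := by gcongr
      _ = 2 * (1 / k) := by field_simp
      _ ≤ 2 * (200 / t) := by gcongr
      _ = 400 / t := by ring
  -- term 2
  have t2 : 6 * YY t * (0.81 / 5) ^ lm t ≤ 6 * B * 200 / t := by
    have hYle : YY t ≤ 5 ^ k := by
      unfold YY; rw [← hk]
      apply div_le_self (by positivity)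
      apply one_le_pow₀
      unfold KK; exact one_le_pow₀ (by norm_num)
    have hYpos : 0 ≤ YY t := by unfold YY; positivity
    have hx : (5 : ℝ) ^ k * (0.81 / 5) ^ lm t ≤ B * (1 / k) := by
      have hlm : 9 * k ≤ 10 * lm t + 9 := by unfold lm; rw [← hk]; omega
      rw [← pow_le_pow_iff_left₀ (by positivity) (by positivity) (n := 10) (by norm_num)]
      have e1 : ((5 : ℝ) ^ k * (0.81 / 5) ^ lm t) ^ 10
          = 5 ^ (10 * k) * ((0.81 / 5) ^ (10 * lm t + 9) * (5 / 0.81) ^ 9) := by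
        rw [mul_pow, ← pow_mul, ← pow_mul, mul_comm k 10, mul_comm (lm t) 10, pow_add,
          mul_assoc ((0.81 / 5 : ℝ) ^ (10 * lm t)), ← mul_pow]
        norm_num
      have e2 : ((0.81 / 5 : ℝ)) ^ (10 * lm t + 9) ≤ (0.81 / 5) ^ (9 * k) :=
        pow_le_pow_of_le_one (by norm_num) (by norm_num) hlm
      have e3 : (5 : ℝ) ^ (10 * k) * (0.81 / 5) ^ (9 * k) ≤ 0.76 ^ k := by
        rw [pow_mul, pow_mul, ← mul_pow]
        gcongr; norm_num
      have e4 := hM' k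
      rw [e1, mul_pow]
      have e5 : (0.76 : ℝ) ^ k ≤ M * (1 / (k : ℝ)) ^ 10 := by
        rw [one_div_pow, mul_one_div, le_div_iff₀ (by positivity)]; linarith
      have e6 : M * (5 / 0.81) ^ 9 ≤ B ^ 10 := by
        calc M * (5 / 0.81) ^ 9 ≤ B := by rw [hB]; linarith
          _ = B ^ 1 := (pow_one _).symm
          _ ≤ B ^ 10 := pow_le_pow_right₀ hB1 (by norm_num)
      calc (5 : ℝ) ^ (10 * k) * ((0.81 / 5) ^ (10 * lm t + 9) * (5 / 0.81) ^ 9)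
          ≤ 5 ^ (10 * k) * ((0.81 / 5) ^ (9 * k) * (5 / 0.81) ^ 9) := by gcongr
        _ = (5 ^ (10 * k) * (0.81 / 5) ^ (9 * k)) * (5 / 0.81) ^ 9 := by ring
        _ ≤ 0.76 ^ k * (5 / 0.81) ^ 9 := by gcongr
        _ ≤ (M * (1 / (k : ℝ)) ^ 10) * (5 / 0.81) ^ 9 := by gcongr
        _ = (M * (5 / 0.81) ^ 9) * (1 / (k : ℝ)) ^ 10 := by ring
        _ ≤ B ^ 10 * (1 / (k : ℝ)) ^ 10 := by gcongr
    calc 6 * YY t * (0.81 / 5) ^ lm t ≤ 6 * 5 ^ k * (0.81 / 5) ^ lm t := by gcongr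
      _ = 6 * (5 ^ k * (0.81 / 5) ^ lm t) := by ring
      _ ≤ 6 * (B * (1 / k)) := by gcongr
      _ ≤ 6 * (B * (200 / t)) := by gcongr
      _ = 6 * B * 200 / t := by ring
  -- term 3
  have t3 : 40 / KK t ≤ 40 * 200 / t := by
    have h2K := N1_KK_ge (t := t) (by rw [← hk]; omega)
    rw [← hk] at h2K
    have hkk : (k : ℝ) ≤ KK t := by nlinarith
    calc 40 / KK t ≤ 40 / k := by gcongr
      _ = 40 * (1 / k) := by ring
      _ ≤ 40 * (200 / t) := by gcongr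
      _ = _ := by ring
  -- term 4
  have t4 : 2 * (5 ^ k / Real.sqrt (EE t)) ≤ 2 * C₄ / t := by
    have hs : Real.sqrt (EE t) = Real.exp (t / 8) := by
      unfold EE
      rw [Real.sqrt_eq_iff_mul_self_eq (Real.exp_pos _).le (Real.exp_pos _).le, ← Real.exp_add]
      congr 1; ring
    have hexp := N1_exp t ht
    rw [← hk] at hexp
    rw [hs]
    calc 2 * (5 ^ k / Real.exp (t / 8)) ≤ 2 * (Real.exp (t / 50) / Real.exp (t / 8)) := by gcongr
      _ = 2 * Real.exp (t / 50 - t / 8) := by rw [Real.exp_sub]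
      _ ≤ 2 * Real.exp (-(1 / 10 * t)) := by
          gcongr; linarith
      _ ≤ 2 * (C₄ / t) := by gcongr; exact h₄ t ht0
      _ = _ := by ring
  calc _ ≤ 400 / t + 6 * B * 200 / t + 40 * 200 / t + 2 * C₄ / t := by linarith
    _ = _ := by ring

/-- tails and rounding -/
lemma num_tails : ∃ t₀ C : ℝ, 0 < t₀ ∧ 0 < C ∧ ∀ t, t₀ ≤ t →
    3 * Real.exp (-(t / 4)) + (1 + 8 / 3 * EE t) / Real.exp t ≤ C / t := by
  obtain ⟨C, hC, h⟩ := N1_exp_neg (1 / 4) (by norm_num)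
  refine ⟨1, 7 * C, by norm_num, by positivity, fun t ht => ?_⟩
  have ht0 : 0 < t := by linarith
  have h1 := h t ht0
  have e0 : Real.exp (-(t / 4)) = Real.exp (-(1 / 4 * t)) := by congr 1; ring
  have e1 : 1 / Real.exp t ≤ Real.exp (-(1 / 4 * t)) := by
    rw [one_div, ← Real.exp_neg]; apply Real.exp_le_exp.mpr; linarith
  have e2 : EE t / Real.exp t ≤ Real.exp (-(1 / 4 * t)) := by
    unfold EE; rw [← Real.exp_sub]; apply Real.exp_le_exp.mpr; linarith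
  have e3 : (1 + 8 / 3 * EE t) / Real.exp t = 1 / Real.exp t + 8 / 3 * (EE t / Real.exp t) := by
    ring
  rw [e3, e0]
  have : 7 * C / t = 7 * (C / t) := by ring
  rw [this]
  linarith [Real.exp_pos (-(1 / 4 * t))]

/-- rest of the coarse sum -/
lemma num_rest : ∃ t₀ C : ℝ, 0 < t₀ ∧ 0 < C ∧ ∀ t, t₀ ≤ t →
    54 / KK t * (5 ^ (kk t - rr t) / Real.exp (t / 2)
      + Real.log (Real.exp (2 * t) / Real.exp (t / 2))) ≤ C / t := by
  refine ⟨200, 54 * 301 * 200, by norm_num, by norm_num, fun t ht => ?_⟩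
  obtain ⟨h1, h2, h3⟩ := N1_kk ht
  set k := kk t with hk
  have hk1 : (2 : ℝ) ≤ k := by exact_mod_cast h3
  have hk0 : (0 : ℝ) < k := by linarith
  have ht0 : 0 < t := by linarith
  have hl : Real.log (Real.exp (2 * t) / Real.exp (t / 2)) = 3 / 2 * t := by
    rw [← Real.exp_sub, Real.log_exp]; ring
  have hexp := N1_exp t ht
  rw [← hk] at hexp
  have h5 : (5 : ℝ) ^ (k - rr t) / Real.exp (t / 2) ≤ 1 := by
    rw [div_le_one (Real.exp_pos _)]
    calc (5 : ℝ) ^ (k - rr t) ≤ 5 ^ k := pow_le_pow_right₀ (by norm_num) (Nat.sub_le _ _)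
      _ ≤ Real.exp (t / 50) := hexp
      _ ≤ Real.exp (t / 2) := Real.exp_le_exp.mpr (by linarith)
  have h2K := N1_KK_ge (t := t) (by rw [← hk]; omega)
  rw [← hk] at h2K
  have hKpos : 0 < KK t := by unfold KK; positivity
  rw [hl]
  calc 54 / KK t * (5 ^ (k - rr t) / Real.exp (t / 2) + 3 / 2 * t)
      ≤ 54 / (k : ℝ) ^ 2 * (301 * k) := by
        gcongr
        nlinarith
    _ = 54 * 301 / k := by field_simp
    _ ≤ 54 * 301 * 200 / t := by
        rw [div_le_div_iff₀ hk0 ht0]; nlinarith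

/-- small displacement -/
lemma num_disp : ∃ t₀ C : ℝ, 0 < t₀ ∧ 0 < C ∧ ∀ t, t₀ ≤ t →
    6 * (5 ^ rr t * Real.exp (t / 20000)) * (0.81 / 5) ^ rr t ≤ C / t := by
  have hb := (tendsto_pow_const_mul_const_pow_of_abs_lt_one 1
    (r := (0.9 : ℝ)) (by rw [abs_lt]; norm_num)).bddAbove_range
  obtain ⟨M, hM⟩ := hb
  have hM' : ∀ n : ℕ, (n : ℝ) ^ 1 * 0.9 ^ n ≤ M := fun n => hM ⟨n, rfl⟩
  have hM1 : 0 < M := lt_of_lt_of_le (by norm_num) (hM' 1)
  refine ⟨200, 6 * 2 * (2000 * M + 2100), by norm_num, by positivity, fun t ht => ?_⟩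
  have ht0 : 0 < t := by linarith
  have hkl : t / 100 < (kk t : ℝ) + 1 := Nat.lt_floor_add_one _
  have hr : (kk t : ℝ) ≤ 20 * (rr t : ℝ) + 19 := by
    have : kk t ≤ 20 * rr t + 19 := by unfold rr; omega
    exact_mod_cast this
  set r := rr t with hrr
  have htr : t ≤ 2000 * (r : ℝ) + 2100 := by linarith
  have he : Real.exp (0.1 : ℝ) ≤ 1.11 := by
    rw [← pow_le_pow_iff_left₀ (Real.exp_pos _).le (by norm_num) (n := 10) (by norm_num),
      ← Real.exp_nat_mul]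
    have : Real.exp ((10 : ℕ) * (0.1 : ℝ)) = Real.exp 1 := by norm_num
    rw [this]
    have := Real.exp_one_lt_d9
    norm_num at this ⊢
    linarith
  have he2 : Real.exp (t / 20000) ≤ 2 * 1.11 ^ r := by
    calc Real.exp (t / 20000) ≤ Real.exp ((0.1 : ℝ) * 2 + r * 0.1) := by
          apply Real.exp_le_exp.mpr; norm_num; linarith
      _ = Real.exp (0.1 : ℝ) ^ 2 * Real.exp 0.1 ^ r := by
          rw [Real.exp_add, Real.exp_nat_mul, ← Real.exp_nat_mul _ 2]; norm_num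
      _ ≤ 1.11 ^ 2 * 1.11 ^ r := by gcongr
      _ ≤ 2 * 1.11 ^ r := by gcongr; norm_num
  have h4 := hM' r
  rw [pow_one] at h4
  have h9 : (0.9 : ℝ) ^ r ≤ 1 := pow_le_one₀ (by norm_num) (by norm_num)
  have h9' : (0 : ℝ) < 0.9 ^ r := by positivity
  calc 6 * (5 ^ r * Real.exp (t / 20000)) * (0.81 / 5) ^ r
      ≤ 6 * (5 ^ r * (2 * 1.11 ^ r)) * (0.81 / 5) ^ r := by gcongr
    _ = 6 * 2 * (5 * 1.11 * (0.81 / 5)) ^ r := by rw [mul_pow, mul_pow]; ring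
    _ ≤ 6 * 2 * 0.9 ^ r := by gcongr; norm_num
    _ ≤ 6 * 2 * (2000 * M + 2100) / t := by
        rw [le_div_iff₀ ht0]
        have : (0.9 : ℝ) ^ r * t ≤ 2000 * M + 2100 := by
          calc (0.9 : ℝ) ^ r * t ≤ 0.9 ^ r * (2000 * (r : ℝ) + 2100) := by gcongr
            _ = 2000 * (r * 0.9 ^ r) + 2100 * 0.9 ^ r := by ring
            _ ≤ 2000 * M + 2100 * 1 := by gcongr
            _ = _ := by ring
        nlinarith

/-- the multiplicative factor -/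
lemma num_factor : ∃ t₀ C : ℝ, 0 < t₀ ∧ 0 < C ∧ ∀ t, t₀ ≤ t →
    (1 / (1 - KK t / Real.exp (t / 2))) ^ 3 ≤ 1 + C / t ∧
    0 < 1 - KK t / Real.exp (t / 2) := by
  obtain ⟨C, hC, h⟩ := N1_exp_neg (1 / 4) (by norm_num)
  refine ⟨200, 14 * C, by norm_num, by positivity, fun t ht => ?_⟩
  have ht0 : 0 < t := by linarith
  have hKe := N1_KK_exp ht
  have hKpos : 0 < KK t := by unfold KK; positivity
  have hsq : Real.exp (t / 2) = Real.exp (t / 4) * Real.exp (t / 4) := by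
    rw [← Real.exp_add]; congr 1; ring
  have he4 : 0 < Real.exp (t / 4) := Real.exp_pos _
  have he41 : 1 ≤ Real.exp (t / 4) := Real.one_le_exp (by linarith)
  set d := KK t / Real.exp (t / 2) with hd
  have hd0 : 0 ≤ d := by positivity
  have hd1 : d ≤ Real.exp (-(1 / 4 * t)) := by
    rw [hd, hsq, div_le_iff₀ (by positivity)]
    have : Real.exp (-(1 / 4 * t)) * (Real.exp (t / 4) * Real.exp (t / 4)) = Real.exp (t / 4) := by
      rw [← Real.exp_add, ← Real.exp_add]; congr 1; ring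
    rw [this]; linarith
  have hd2 : d ≤ 1 / 2 := by
    rw [hd, hsq, div_le_iff₀ (by positivity)]
    nlinarith
  have h1d : 0 < 1 - d := by linarith
  refine ⟨?_, h1d⟩
  have e1 : 1 / (1 - d) ≤ 1 + 2 * d := by
    rw [div_le_iff₀ h1d]; nlinarith
  have hdC : d ≤ C / t := hd1.trans (h t ht0)
  have hpos : 0 ≤ 1 / (1 - d) := by positivity
  calc (1 / (1 - d)) ^ 3 ≤ (1 + 2 * d) ^ 3 := by gcongr
    _ ≤ 1 + 14 * d := by nlinarith [mul_nonneg hd0 hd0]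
    _ ≤ 1 + 14 * (C / t) := by gcongr
    _ = 1 + 14 * C / t := by ring

end K5
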