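import Pool.Agent.Lib.MP_a4658c_nt.K5.NDefs

/-! Piece N2: the mixing error is small. -/

namespace K5

private lemma N2_kk {t : ℝ} (ht : 200 ≤ t) :
    (kk t : ℝ) ≤ t / 100 ∧ t ≤ 200 * (kk t : ℝ) ∧ 1 ≤ kk t := by
  have h1 : (kk t : ℝ) ≤ t / 100 := Nat.floor_le (by linarith)
  have h2 : t / 100 < (kk t : ℝ) + 1 := Nat.lt_floor_add_one _
  have h3 : 1 ≤ kk t := by
    unfold kk; rw [Nat.le_floor_iff (by linarith)]; push_cast; linarith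
  have h4 : (1 : ℝ) ≤ kk t := by exact_mod_cast h3
  exact ⟨h1, by linarith, h3⟩

private lemma N2_LL (t : ℝ) : (LL t : ℝ) ≤ 2 * (kk t : ℝ) + 2 := by
  have : LL t ≤ 2 * kk t + 2 := by
    unfold LL
    have := Nat.log_le_self 2 (kk t)
    omega
  exact_mod_cast this

private lemma N2_KK {t : ℝ} (hk : 1 ≤ kk t) : KK t ≤ 36 * (kk t : ℝ) ^ 6 := by
  unfold KK LL
  have h1 : 2 ^ Nat.log 2 (kk t) ≤ kk t := Nat.pow_log_le_self 2 (by omega)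
  have h2 : ((2 : ℝ) ^ Nat.log 2 (kk t)) ≤ kk t := by exact_mod_cast h1
  have h3 : (6 : ℝ) ^ (2 * Nat.log 2 (kk t) + 2) = 36 * (36 : ℝ) ^ Nat.log 2 (kk t) := by
    rw [pow_add, pow_mul]; norm_num; ring
  rw [h3]
  have h4 : (36 : ℝ) ^ Nat.log 2 (kk t) ≤ (kk t : ℝ) ^ 6 := by
    calc (36 : ℝ) ^ Nat.log 2 (kk t) ≤ (64 : ℝ) ^ Nat.log 2 (kk t) := by
          gcongr; norm_num
      _ = ((2 : ℝ) ^ Nat.log 2 (kk t)) ^ 6 := by
          rw [← pow_mul, mul_comm, pow_mul]; norm_num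
      _ ≤ (kk t : ℝ) ^ 6 := by gcongr
  linarith

private lemma N2_exp (t : ℝ) (ht : 200 ≤ t) : (5 : ℝ) ^ kk t ≤ Real.exp (t / 2) := by
  obtain ⟨h1, _, _⟩ := N2_kk ht
  have h5 : (5 : ℝ) ≤ Real.exp 2 := by
    have : (2.7182818283 : ℝ) < Real.exp 1 := Real.exp_one_gt_d9
    have h : Real.exp 2 = Real.exp 1 * Real.exp 1 := by rw [← Real.exp_add]; norm_num
    rw [h]; nlinarith
  calc (5 : ℝ) ^ kk t ≤ (Real.exp 2) ^ kk t := by gcongr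
    _ = Real.exp (2 * kk t) := by rw [← Real.exp_nat_mul]; ring_nf
    _ ≤ Real.exp (t / 2) := by
        apply Real.exp_le_exp.mpr; linarith

/-- mixing error, `q = K₀ / (k-r-lmax+1)^20` -/
lemma num_mix (K₀ : ℝ) (hK₀ : 0 < K₀) : ∃ t₀ C : ℝ, 0 < t₀ ∧ 0 < C ∧ ∀ t, t₀ ≤ t →
    2 * (((kk t : ℝ) * LL t + 1) ^ 2 *
      (5 ^ kk t * (2 * ((lm t : ℝ) + 1) * ((kk t : ℝ) * LL t + 1) ^ 2) *
        (8 * (K₀ / (((kk t - rr t - lm t : ℕ) : ℝ) + 1) ^ 20) *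
          Real.sqrt (5 ^ kk t / YY t))) *
      (1 / Real.exp (t / 2) + Real.log (Real.exp (2 * t) / Real.exp (t / 2)) / 5 ^ kk t))
      ≤ C / t := by
  refine ⟨200, 2 * (25 * (100 * (8 * (K₀ * 20 ^ 20) * 216))) * 301 * 200, by norm_num,
    by positivity, fun t ht => ?_⟩
  obtain ⟨h1, h2, h3⟩ := N2_kk ht
  set k := kk t with hk
  have hk1 : (1 : ℝ) ≤ k := by exact_mod_cast h3
  have hk0 : (0 : ℝ) < k := by linarith
  have ht0 : 0 < t := by linarith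
  -- a
  have ha : (k : ℝ) * LL t + 1 ≤ 5 * (k : ℝ) ^ 2 := by
    have := N2_LL t
    rw [← hk] at this
    nlinarith [mul_le_mul_of_nonneg_left this hk0.le]
  have ha0 : 0 ≤ (k : ℝ) * LL t + 1 := by positivity
  -- lm
  have hlm : (lm t : ℝ) + 1 ≤ 2 * k := by
    have : 10 * lm t ≤ 9 * k := by unfold lm; rw [← hk]; omega
    have h' : 10 * (lm t : ℝ) ≤ 9 * k := by exact_mod_cast this
    linarith
  -- q
  have hq1 : (k : ℝ) / 20 ≤ ((k - rr t - lm t : ℕ) : ℝ) + 1 := by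
    have : k ≤ 20 * (k - rr t - lm t) := by unfold rr lm; rw [← hk]; omega
    have h' : (k : ℝ) ≤ 20 * ((k - rr t - lm t : ℕ) : ℝ) := by exact_mod_cast this
    linarith
  have hq : K₀ / (((k - rr t - lm t : ℕ) : ℝ) + 1) ^ 20 ≤ K₀ * 20 ^ 20 / (k : ℝ) ^ 20 := by
    have h20 : ((k : ℝ) / 20) ^ 20 ≤ (((k - rr t - lm t : ℕ) : ℝ) + 1) ^ 20 := by gcongr
    calc K₀ / (((k - rr t - lm t : ℕ) : ℝ) + 1) ^ 20 ≤ K₀ / ((k : ℝ) / 20) ^ 20 := by gcongr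
      _ = K₀ * 20 ^ 20 / (k : ℝ) ^ 20 := by rw [div_pow, div_div_eq_mul_div]
  -- sqrt
  have hKpos : 0 < KK t := by unfold KK; positivity
  have hs : Real.sqrt (5 ^ k / YY t) ≤ 216 * (k : ℝ) ^ 9 := by
    have e1 : (5 : ℝ) ^ k / YY t = KK t ^ 3 := by
      unfold YY; rw [← hk]; field_simp
    rw [e1]
    apply Real.sqrt_le_iff.mpr
    refine ⟨by positivity, ?_⟩
    have := N2_KK (t := t) (by rw [← hk]; exact h3)
    rw [← hk] at this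
    calc KK t ^ 3 ≤ (36 * (k : ℝ) ^ 6) ^ 3 := by gcongr
      _ = (216 * (k : ℝ) ^ 9) ^ 2 := by ring
  -- last factor
  have hexp := N2_exp t ht
  rw [← hk] at hexp
  have hl : Real.log (Real.exp (2 * t) / Real.exp (t / 2)) = 3 / 2 * t := by
    rw [← Real.exp_sub, Real.log_exp]; ring
  have h5 : (0 : ℝ) < 5 ^ k := by positivity
  have hlast : (5 : ℝ) ^ k * (1 / Real.exp (t / 2)
      + Real.log (Real.exp (2 * t) / Real.exp (t / 2)) / 5 ^ k) ≤ 301 * k := by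
    rw [hl, mul_add]
    have e1 : (5 : ℝ) ^ k * (1 / Real.exp (t / 2)) ≤ 1 := by
      rw [mul_one_div, div_le_one (Real.exp_pos _)]; exact hexp
    have e2 : (5 : ℝ) ^ k * (3 / 2 * t / 5 ^ k) = 3 / 2 * t := by field_simp
    rw [e2]; nlinarith
  have hlast0 : 0 ≤ (5 : ℝ) ^ k * (1 / Real.exp (t / 2)
      + Real.log (Real.exp (2 * t) / Real.exp (t / 2)) / 5 ^ k) := by
    rw [hl]; positivity
  have hq0 : 0 ≤ K₀ / (((k - rr t - lm t : ℕ) : ℝ) + 1) ^ 20 := by positivity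
  calc 2 * (((k : ℝ) * LL t + 1) ^ 2 *
      (5 ^ k * (2 * ((lm t : ℝ) + 1) * ((k : ℝ) * LL t + 1) ^ 2) *
        (8 * (K₀ / (((k - rr t - lm t : ℕ) : ℝ) + 1) ^ 20) *
          Real.sqrt (5 ^ k / YY t))) *
      (1 / Real.exp (t / 2) + Real.log (Real.exp (2 * t) / Real.exp (t / 2)) / 5 ^ k))
      = 2 * (((k : ℝ) * LL t + 1) ^ 2 *
        ((2 * ((lm t : ℝ) + 1) * ((k : ℝ) * LL t + 1) ^ 2) *
        (8 * (K₀ / (((k - rr t - lm t : ℕ) : ℝ) + 1) ^ 20) *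
          Real.sqrt (5 ^ k / YY t)))) *
        (5 ^ k * (1 / Real.exp (t / 2)
          + Real.log (Real.exp (2 * t) / Real.exp (t / 2)) / 5 ^ k)) := by ring
    _ ≤ 2 * ((5 * (k : ℝ) ^ 2) ^ 2 *
        ((2 * (2 * k) * (5 * (k : ℝ) ^ 2) ^ 2) *
        (8 * (K₀ * 20 ^ 20 / (k : ℝ) ^ 20) * (216 * (k : ℝ) ^ 9)))) * (301 * k) := by
        gcongr
    _ = 2 * (25 * (100 * (8 * (K₀ * 20 ^ 20) * 216))) * 301 / k := by
        field_simp; ring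
    _ ≤ 2 * (25 * (100 * (8 * (K₀ * 20 ^ 20) * 216))) * 301 * 200 / t := by
        rw [div_le_div_iff₀ hk0 ht0]
        have hc : 0 ≤ 2 * (25 * (100 * (8 * (K₀ * 20 ^ 20) * 216))) * 301 := by positivity
        nlinarith [mul_le_mul_of_nonneg_left h2 hc]

end K5
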