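import Pool.Agent.Lib.MP_a4658c_nt.K5.R2

/-! Piece R3: replacing the density by its coarse version (paper (4)(iv)). -/

namespace K5

private lemma R3_s_le {Λ k : ℕ} {c : Bool} {w : List Let} (hw : w ∈ W Λ k c) :
    sA w ≤ k * Λ ∧ sB w ≤ k * Λ := by
  induction k generalizing c w with
  | zero => rw [mem_W_zero] at hw; subst hw; simp
  | succ k ih =>
    obtain ⟨l, hl, w', hw', rfl⟩ := mem_W_succ.mp hw
    have := ih hw'
    have hl' := (mem_L.mp hl).1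
    simp only [sA_cons, sB_cons, Nat.succ_mul]
    omega

private lemma R3_split {Λ k lmax : ℕ} {c c' : Bool} {Y E : ℝ} (P : List Let → Prop)
    [DecidablePred P]
    (g : List Let → ℝ) (G₀ : ℕ → ℕ → ℝ) (C₀ : ℝ)
    (hg : ∀ w, g w = C₀ / (D w : ℝ) * G₀ (sA w) (sB w)) :
    ∑ w ∈ (TA Λ k lmax Y E c c').filter P, g w
      = ∑ e ∈ Finset.range (k * Λ + 1) ×ˢ Finset.range (k * Λ + 1),
          if ((2 : ℝ) ^ e.1 * 3 ^ e.2) ≤ E then
            G₀ e.1 e.2 * (C₀ * ∑ w ∈ (TT Λ k lmax Y c c' e.1 e.2).filter P, 1 / (D w : ℝ))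
          else 0 := by
  classical
  rw [← Finset.sum_fiberwise_of_maps_to (s := (TA Λ k lmax Y E c c').filter P)
    (t := Finset.range (k * Λ + 1) ×ˢ Finset.range (k * Λ + 1))
    (g := fun w => (sA w, sB w))]
  · refine Finset.sum_congr rfl fun e _ => ?_
    have hset : ((TA Λ k lmax Y E c c').filter P).filter (fun w => (sA w, sB w) = e)
        = if ((2 : ℝ) ^ e.1 * 3 ^ e.2) ≤ E then (TT Λ k lmax Y c c' e.1 e.2).filter P
          else ∅ := by
      ext w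
      split_ifs with h
      · simp only [TA, TT, Finset.mem_filter, Prod.ext_iff]
        constructor
        · rintro ⟨⟨⟨h1, h2, h3, h4⟩, h5⟩, h6, h7⟩
          exact ⟨⟨h1, h2, h6, h7, h4⟩, h5⟩
        · rintro ⟨⟨h1, h2, h6, h7, h4⟩, h5⟩
          refine ⟨⟨⟨h1, h2, ?_, h4⟩, h5⟩, h6, h7⟩
          rw [D_eq, h6, h7]; push_cast; exact h
      · simp only [TA, Finset.mem_filter, Prod.ext_iff, Finset.notMem_empty, iff_false]
        rintro ⟨⟨⟨h1, h2, h3, h4⟩, h5⟩, h6, h7⟩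
        apply h
        rw [D_eq, h6, h7] at h3; push_cast at h3; exact h3
    rw [hset]
    split_ifs with h
    · rw [Finset.mul_sum, Finset.mul_sum]
      refine Finset.sum_congr rfl fun w hw => ?_
      have hw' := Finset.mem_filter.mp (Finset.mem_filter.mp hw).1
      rw [hg, hw'.2.2.1, hw'.2.2.2.1]
      ring
    · simp
  · intro w hw
    have hw' := Finset.mem_filter.mp (Finset.mem_filter.mp hw).1
    have := R3_s_le hw'.1
    rw [Finset.mem_product, Finset.mem_range, Finset.mem_range]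
    exact ⟨by simpa using Nat.lt_succ_of_le this.1, by simpa using Nat.lt_succ_of_le this.2⟩

open Classical in
lemma mix_apply {Λ k r lmax N₂ : ℕ} {c c' : Bool} {X x Y E z₁ z₂ Mx : ℝ} (hx : 0 < x)
    (hr : r ≤ k) (hz₁ : 1 ≤ z₁) (hz : z₁ ≤ z₂) (hMx : 0 ≤ Mx)
    (hmix : ∀ A B : ℕ, ∑ y : ZMod (5 ^ k),
      |hh k (TT Λ k lmax Y c c' A B) y - ht k r (TT Λ k lmax Y c c' A B) y| ≤ Mx) :
    ∑ m ∈ Mset X c N₂ z₁ z₂, 1 / (m : ℝ) *
        ∑ w ∈ (TA Λ k lmax Y E c c').filter (fun w => Fm k w = (m : ZMod (5 ^ k))),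
          5 ^ k / (D w : ℝ) * kr ((m : ℝ) * D w / 5 ^ k) x
      ≤ (∑ m ∈ Mset X c N₂ z₁ z₂, 1 / (m : ℝ) *
          ∑ w ∈ (TA Λ k lmax Y E c c').filter (fun w =>
            (5 : ZMod (5 ^ k)) ^ r * (Fm k w - (m : ZMod (5 ^ k))) = 0),
            5 ^ (k - r) / (D w : ℝ) * kr ((m : ℝ) * D w / 5 ^ k) x)
        + (k * Λ + 1) ^ 2 * Mx * (1 / z₁ + Real.log (z₂ / z₁) / 5 ^ k) := by
  set ES := Finset.range (k * Λ + 1) ×ˢ Finset.range (k * Λ + 1) with hES
  set dh : ℕ × ℕ → ZMod (5 ^ k) → ℝ := fun e y =>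
    |hh k (TT Λ k lmax Y c c' e.1 e.2) y - ht k r (TT Λ k lmax Y c c' e.1 e.2) y| with hdh
  have hz0 : 0 < z₁ := by linarith
  -- pointwise in m
  have hm : ∀ m ∈ Mset X c N₂ z₁ z₂,
      ∑ w ∈ (TA Λ k lmax Y E c c').filter (fun w => Fm k w = (m : ZMod (5 ^ k))),
          5 ^ k / (D w : ℝ) * kr ((m : ℝ) * D w / 5 ^ k) x
        ≤ (∑ w ∈ (TA Λ k lmax Y E c c').filter (fun w =>
            (5 : ZMod (5 ^ k)) ^ r * (Fm k w - (m : ZMod (5 ^ k))) = 0),
            5 ^ (k - r) / (D w : ℝ) * kr ((m : ℝ) * D w / 5 ^ k) x)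
          + ∑ e ∈ ES, dh e (m : ZMod (5 ^ k)) := by
    intro m hm
    have hm1 : 1 ≤ m := (Finset.mem_Icc.mp (Finset.mem_filter.mp hm).1).1
    have hm0 : (0 : ℝ) < m := by exact_mod_cast hm1
    rw [R3_split (P := fun w => Fm k w = (m : ZMod (5 ^ k)))
        (g := fun w => 5 ^ k / (D w : ℝ) * kr ((m : ℝ) * D w / 5 ^ k) x)
        (G₀ := fun A B => kr ((m : ℝ) * (2 ^ A * 3 ^ B) / 5 ^ k) x) (C₀ := 5 ^ k)
        (fun w => by rw [D_eq]; push_cast; rfl),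
      R3_split (P := fun w => (5 : ZMod (5 ^ k)) ^ r * (Fm k w - (m : ZMod (5 ^ k))) = 0)
        (g := fun w => 5 ^ (k - r) / (D w : ℝ) * kr ((m : ℝ) * D w / 5 ^ k) x)
        (G₀ := fun A B => kr ((m : ℝ) * (2 ^ A * 3 ^ B) / 5 ^ k) x) (C₀ := 5 ^ (k - r))
        (fun w => by rw [D_eq]; push_cast; rfl),
      ← Finset.sum_add_distrib]
    refine Finset.sum_le_sum fun e _ => ?_
    split_ifs with h
    · have hk0 : 0 ≤ kr ((m : ℝ) * (2 ^ e.1 * 3 ^ e.2) / 5 ^ k) x := kr_nonneg (by positivity) hx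
      have hk1 : kr ((m : ℝ) * (2 ^ e.1 * 3 ^ e.2) / 5 ^ k) x ≤ 1 := kr_le_one (by positivity) hx
      have hd : hh k (TT Λ k lmax Y c c' e.1 e.2) (m : ZMod (5 ^ k))
          - ht k r (TT Λ k lmax Y c c' e.1 e.2) (m : ZMod (5 ^ k)) ≤ dh e (m : ZMod (5 ^ k)) :=
        le_abs_self _
      have hd0 : 0 ≤ dh e (m : ZMod (5 ^ k)) := abs_nonneg _
      have e1 : hh k (TT Λ k lmax Y c c' e.1 e.2) (m : ZMod (5 ^ k))
          = 5 ^ k * ∑ w ∈ (TT Λ k lmax Y c c' e.1 e.2).filter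
            (fun w => Fm k w = (m : ZMod (5 ^ k))), 1 / (D w : ℝ) := by
        unfold hh; congr!
      have e2 : ht k r (TT Λ k lmax Y c c' e.1 e.2) (m : ZMod (5 ^ k))
          = 5 ^ (k - r) * ∑ w ∈ (TT Λ k lmax Y c c' e.1 e.2).filter
            (fun w => (5 : ZMod (5 ^ k)) ^ r * (Fm k w - (m : ZMod (5 ^ k))) = 0),
              1 / (D w : ℝ) := by
        unfold ht; congr!
      rw [← e1, ← e2]
      nlinarith
    · simpa using abs_nonneg _
  -- the error term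
  have herr : ∀ e : ℕ × ℕ, ∑ m ∈ Mset X c N₂ z₁ z₂, 1 / (m : ℝ) * dh e (m : ZMod (5 ^ k))
      ≤ Mx * (1 / z₁ + Real.log (z₂ / z₁) / 5 ^ k) := by
    intro e
    rw [← Finset.sum_fiberwise_of_maps_to (s := Mset X c N₂ z₁ z₂)
      (t := (Finset.univ : Finset (ZMod (5 ^ k)))) (g := fun m : ℕ => (m : ZMod (5 ^ k)))
      (fun _ _ => Finset.mem_univ _)]
    have hbd : ∀ y : ZMod (5 ^ k),
        ∑ m ∈ (Mset X c N₂ z₁ z₂).filter (fun m : ℕ => (m : ZMod (5 ^ k)) = y),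
          1 / (m : ℝ) * dh e (m : ZMod (5 ^ k))
        ≤ dh e y * (1 / z₁ + Real.log (z₂ / z₁) / 5 ^ k) := by
      intro y
      have h5 : 1 ≤ 5 ^ k := Nat.one_le_pow _ _ (by norm_num)
      have hch := class_harmonic (5 ^ k) y.val N₂ h5 hz₁ hz
      push_cast at hch
      calc ∑ m ∈ (Mset X c N₂ z₁ z₂).filter (fun m : ℕ => (m : ZMod (5 ^ k)) = y),
          1 / (m : ℝ) * dh e (m : ZMod (5 ^ k))
          = dh e y * ∑ m ∈ (Mset X c N₂ z₁ z₂).filter (fun m : ℕ => (m : ZMod (5 ^ k)) = y),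
            1 / (m : ℝ) := by
            rw [Finset.mul_sum]
            refine Finset.sum_congr rfl fun m hm => ?_
            rw [(Finset.mem_filter.mp hm).2]; ring
        _ ≤ dh e y * ∑ m ∈ (Finset.Icc 1 N₂).filter
              (fun m : ℕ => m % 5 ^ k = y.val ∧ z₁ ≤ (m : ℝ) ∧ (m : ℝ) ≤ z₂), 1 / (m : ℝ) := by
            refine mul_le_mul_of_nonneg_left ?_ (abs_nonneg _)
            refine Finset.sum_le_sum_of_subset_of_nonneg ?_ (fun _ _ _ => by positivity)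
            intro m hm
            obtain ⟨h1, h2⟩ := Finset.mem_filter.mp hm
            obtain ⟨h3, h4, h5, h6, h7⟩ := Finset.mem_filter.mp h1
            refine Finset.mem_filter.mpr ⟨h3, ?_, h6, h7⟩
            rw [← h2, ZMod.val_natCast]
        _ ≤ _ := by gcongr
    calc _ ≤ ∑ y : ZMod (5 ^ k), dh e y * (1 / z₁ + Real.log (z₂ / z₁) / 5 ^ k) :=
          Finset.sum_le_sum fun y _ => hbd y
      _ = (∑ y : ZMod (5 ^ k), dh e y) * (1 / z₁ + Real.log (z₂ / z₁) / 5 ^ k) := by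
          rw [Finset.sum_mul]
      _ ≤ _ := by
          refine mul_le_mul_of_nonneg_right (hmix e.1 e.2) ?_
          have : 0 ≤ Real.log (z₂ / z₁) := Real.log_nonneg (by rw [one_le_div hz0]; exact hz)
          positivity
  calc _ ≤ ∑ m ∈ Mset X c N₂ z₁ z₂, 1 / (m : ℝ) *
        ((∑ w ∈ (TA Λ k lmax Y E c c').filter (fun w =>
            (5 : ZMod (5 ^ k)) ^ r * (Fm k w - (m : ZMod (5 ^ k))) = 0),
            5 ^ (k - r) / (D w : ℝ) * kr ((m : ℝ) * D w / 5 ^ k) x)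
          + ∑ e ∈ ES, dh e (m : ZMod (5 ^ k))) := by
        refine Finset.sum_le_sum fun m hm' => ?_
        exact mul_le_mul_of_nonneg_left (hm m hm') (by positivity)
    _ = (∑ m ∈ Mset X c N₂ z₁ z₂, 1 / (m : ℝ) *
          ∑ w ∈ (TA Λ k lmax Y E c c').filter (fun w =>
            (5 : ZMod (5 ^ k)) ^ r * (Fm k w - (m : ZMod (5 ^ k))) = 0),
            5 ^ (k - r) / (D w : ℝ) * kr ((m : ℝ) * D w / 5 ^ k) x)
        + ∑ e ∈ ES, ∑ m ∈ Mset X c N₂ z₁ z₂, 1 / (m : ℝ) * dh e (m : ZMod (5 ^ k)) := by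
        rw [Finset.sum_comm (s := ES), ← Finset.sum_add_distrib]
        refine Finset.sum_congr rfl fun m _ => ?_
        rw [mul_add, Finset.mul_sum (s := ES)]
    _ ≤ _ := by
        gcongr
        calc ∑ e ∈ ES, ∑ m ∈ Mset X c N₂ z₁ z₂, 1 / (m : ℝ) * dh e (m : ZMod (5 ^ k))
            ≤ ∑ e ∈ ES, Mx * (1 / z₁ + Real.log (z₂ / z₁) / 5 ^ k) :=
              Finset.sum_le_sum fun e _ => herr e
          _ = _ := by
              rw [Finset.sum_const, hES, Finset.card_product, Finset.card_range, nsmul_eq_mul]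
              push_cast; ring

end K5
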