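import Pool.Agent.Lib.MP_a4658c_nt.K5.R1
import Pool.Agent.Lib.MP_a4658c_nt.K5.R3
import Pool.Agent.Lib.MP_a4658c_nt.K5.R4
import Pool.Agent.Lib.MP_a4658c_nt.K5.M3
import Pool.Agent.Lib.MP_a4658c_nt.K5.F10
import Pool.Agent.Lib.MP_a4658c_nt.K5.N1
import Pool.Agent.Lib.MP_a4658c_nt.K5.N2

/-! Piece R5: one step of the transfer (paper section 4, Proposition and (4.2)). Parameters: `x = exp t`,
`k = kk t`, `r = rr t`, `lmax = lm t`, `Λ = LL t`, `K = KK t`, `Y = YY t`, `E = EE t`, `z = x^(3/4)`,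
`z' = x^(5/4)`, `z₁ = x^(1/2)`, `z₂ = x^2`, `A₀ = 20` in FD. If `B > 3` use `RR_le_three`. -/

namespace K5

private lemma R5_ite_nonneg {P : Prop} [Decidable P] {a : ℝ} (ha : 0 ≤ a) :
    0 ≤ if P then a else 0 := by
  split_ifs
  · exact ha
  · exact le_rfl

open Classical in
/-- splitting `R_c^N(x)` -/
private lemma R5_split (Λ k lmax N : ℕ) (c' : Bool) (X x Y K E z z' : ℝ) (hx : 0 < x) :
    RR X c' N x ≤
      (∑ n ∈ (Finset.Icc 1 N).filter (fun n : ℕ => (n : ℝ) < z), ker x n) +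
      (∑ n ∈ (Finset.Icc 1 N).filter (fun n : ℕ => z' < (n : ℝ)), ker x n) +
      (∑ n ∈ (Finset.Icc 1 N).filter (fun n => U n ∧ cl n = c' ∧
        ¬ (fword k n ∈ W Λ k (cl (S^[k] n)) ∧ Pgood lmax Y K E (fword k n))), ker x n) +
      ∑ n ∈ (Finset.Icc 1 N).filter (fun n => G X n ∧ cl n = c' ∧ z ≤ (n : ℝ) ∧ (n : ℝ) ≤ z' ∧
        GoodN Λ k lmax Y K E n), ker x n := by
  unfold RR
  rw [Finset.sum_filter, Finset.sum_filter, Finset.sum_filter, Finset.sum_filter,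
    Finset.sum_filter, ← Finset.sum_add_distrib, ← Finset.sum_add_distrib,
    ← Finset.sum_add_distrib]
  apply Finset.sum_le_sum
  intro n _
  have h0 := ker_nonneg hx n
  have i1 : 0 ≤ if (n : ℝ) < z then ker x n else 0 := R5_ite_nonneg h0
  have i2 : 0 ≤ if z' < (n : ℝ) then ker x n else 0 := R5_ite_nonneg h0
  have i3 : 0 ≤ if U n ∧ cl n = c' ∧ ¬ (fword k n ∈ W Λ k (cl (S^[k] n)) ∧
      Pgood lmax Y K E (fword k n)) then ker x n else 0 := R5_ite_nonneg h0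
  have i4 : 0 ≤ if G X n ∧ cl n = c' ∧ z ≤ (n : ℝ) ∧ (n : ℝ) ≤ z' ∧
      GoodN Λ k lmax Y K E n then ker x n else 0 := R5_ite_nonneg h0
  by_cases hG : G X n ∧ cl n = c'
  · rw [if_pos hG]
    by_cases h1 : (n : ℝ) < z
    · rw [if_pos h1] at i1 ⊢
      linarith
    · by_cases h2 : z' < (n : ℝ)
      · rw [if_pos h2] at i2 ⊢
        linarith
      · by_cases h3 : GoodN Λ k lmax Y K E n
        · have h4 : G X n ∧ cl n = c' ∧ z ≤ (n : ℝ) ∧ (n : ℝ) ≤ z' ∧
            GoodN Λ k lmax Y K E n := ⟨hG.1, hG.2, not_lt.1 h1, not_lt.1 h2, h3⟩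
          rw [if_pos h4] at i4 ⊢
          linarith
        · have h4 : U n ∧ cl n = c' ∧ ¬ (fword k n ∈ W Λ k (cl (S^[k] n)) ∧
            Pgood lmax Y K E (fword k n)) := ⟨hG.1.1, hG.2, h3⟩
          rw [if_pos h4] at i3 ⊢
          linarith
  · rw [if_neg hG]
    linarith

private lemma R5_fsplit {α : Type*} (s : Finset α) (P : α → Prop) (g h : α → ℝ) (K : ℝ)
    [DecidablePred (fun w => P w)] [DecidablePred (fun w => P w ∧ g w ≤ K)]
    [DecidablePred (fun w => P w ∧ K < g w)] :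
    ∑ w ∈ s.filter (fun w => P w), h w = (∑ w ∈ s.filter (fun w => P w ∧ g w ≤ K), h w) +
      ∑ w ∈ s.filter (fun w => P w ∧ K < g w), h w := by
  rw [Finset.sum_filter, Finset.sum_filter, Finset.sum_filter, ← Finset.sum_add_distrib]
  apply Finset.sum_congr rfl
  intro w _
  by_cases hP : P w
  · rcases le_or_gt (g w) K with h1 | h1
    · rw [if_pos hP, if_pos ⟨hP, h1⟩, if_neg (fun h2 => absurd h2.2 (not_lt.2 h1)), add_zero]
    · rw [if_pos hP, if_neg (fun h2 => absurd h2.2 (not_le.2 h1)), if_pos ⟨hP, h1⟩, zero_add]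
  · rw [if_neg hP, if_neg (fun h2 => hP h2.1), if_neg (fun h2 => hP h2.1), add_zero]

open Classical in
/-- the main term, (4.2) -/
private lemma R5_main {t X B E : ℝ} (Λ r N' : ℕ) (c' : Bool) (hB : 0 ≤ B)
    (hE : E ≤ Real.exp t)
    (hIH : ∀ (c : Bool) (N : ℕ) (s : ℝ), 0 ≤ s → s ≤ (1 - 1 / 20000) * t →
      RR X c N (Real.exp s) ≤ B) :
    ∑ c₁ : Bool, ∑ w₂ ∈ (W Λ r c₁).filter (fun w₂ => endc c₁ w₂ = c' ∧ (D w₂ : ℝ) ≤ E),
      1 / (D w₂ : ℝ) * RR X c₁ N' (Real.exp t * 5 ^ r / D w₂) ≤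
      B + 3 * (6 * (5 ^ r * Real.exp (t / 20000)) * (0.81 / 5) ^ r) := by
  set Y' : ℝ := 5 ^ r * Real.exp (t / 20000) with hY'
  have hY'0 : 0 < Y' := by positivity
  have hone : ∀ c₁ : Bool, ∑ w₂ ∈ (W Λ r c₁).filter (fun w₂ => endc c₁ w₂ = c' ∧
      (D w₂ : ℝ) ≤ E), 1 / (D w₂ : ℝ) * RR X c₁ N' (Real.exp t * 5 ^ r / D w₂) ≤
      B * (∑ w ∈ (W Λ r c₁).filter (fun w => endc c₁ w = c'), 1 / (D w : ℝ)) +
      3 * ∑ w ∈ (W Λ r c₁).filter (fun w => (D (w.take r) : ℝ) ≤ Y'), 1 / (D w : ℝ) := by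
    intro c₁
    rw [Finset.sum_filter, Finset.sum_filter, Finset.sum_filter, Finset.mul_sum, Finset.mul_sum,
      ← Finset.sum_add_distrib]
    apply Finset.sum_le_sum
    intro w hw
    have hlen := length_of_mem_W hw
    have htake : w.take r = w := by rw [← hlen, List.take_length]
    rw [htake]
    have hD : (0 : ℝ) < D w := by exact_mod_cast D_pos w
    have hD1 : 0 < 1 / (D w : ℝ) := by positivity
    have i1 : 0 ≤ if endc c₁ w = c' then 1 / (D w : ℝ) else 0 := R5_ite_nonneg hD1.le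
    have i2 : 0 ≤ if (D w : ℝ) ≤ Y' then 1 / (D w : ℝ) else 0 := R5_ite_nonneg hD1.le
    by_cases hc : endc c₁ w = c' ∧ (D w : ℝ) ≤ E
    · rw [if_pos hc, if_pos hc.1]
      by_cases hs : (D w : ℝ) ≤ Y'
      · rw [if_pos hs]
        have h3 := RR_le_three X c₁ N' (x := Real.exp t * 5 ^ r / D w) (by positivity)
        have h4 : 1 / (D w : ℝ) * RR X c₁ N' (Real.exp t * 5 ^ r / D w) ≤
            1 / (D w : ℝ) * 3 := mul_le_mul_of_nonneg_left h3 hD1.le
        have h5 : 0 ≤ B * (1 / (D w : ℝ)) := by positivity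
        linarith
      · rw [if_neg hs]
        push Not at hs
        have hx0 : 0 < Real.exp t * 5 ^ r / D w := by positivity
        have h3 := hIH c₁ N' (Real.log (Real.exp t * 5 ^ r / D w)) (by
          apply Real.log_nonneg
          rw [le_div_iff₀ hD, one_mul]
          have h6 : (1 : ℝ) ≤ 5 ^ r := one_le_pow₀ (by norm_num)
          calc (D w : ℝ) ≤ E := hc.2
            _ ≤ Real.exp t := hE
            _ = Real.exp t * 1 := by ring
            _ ≤ Real.exp t * 5 ^ r := mul_le_mul_of_nonneg_left h6 (Real.exp_pos t).le) (by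
          rw [Real.log_le_iff_le_exp hx0, div_le_iff₀ hD]
          have h6 : Real.exp t * 5 ^ r = Real.exp ((1 - 1 / 20000) * t) * Y' := by
            rw [hY', mul_left_comm, ← Real.exp_add, mul_comm]
            congr 2
            ring
          rw [h6]
          exact mul_le_mul_of_nonneg_left hs.le (Real.exp_pos _).le)
        rw [Real.exp_log hx0] at h3
        have h4 : 1 / (D w : ℝ) * RR X c₁ N' (Real.exp t * 5 ^ r / D w) ≤
            1 / (D w : ℝ) * B := mul_le_mul_of_nonneg_left h3 hD1.le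
        linarith
    · rw [if_neg hc]
      have h5 : 0 ≤ B * (if endc c₁ w = c' then 1 / (D w : ℝ) else 0) := mul_nonneg hB i1
      linarith
  refine (Finset.sum_le_sum fun c₁ _ => hone c₁).trans ?_
  rw [Finset.sum_add_distrib, ← Finset.mul_sum, ← Finset.mul_sum]
  have h1 := mul_le_mul_of_nonneg_left (col_le Λ r c') hB
  have h2 : ∑ c₁ : Bool, ∑ w ∈ (W Λ r c₁).filter (fun w => (D (w.take r) : ℝ) ≤ Y'),
      1 / (D w : ℝ) ≤ 2 * (3 * Y' * (0.81 / 5) ^ r) := by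
    have h3 : ∀ c₁ : Bool, ∑ w ∈ (W Λ r c₁).filter (fun w => (D (w.take r) : ℝ) ≤ Y'),
        1 / (D w : ℝ) ≤ 3 * Y' * (0.81 / 5) ^ r := fun c₁ => mass_small Λ r r le_rfl c₁ hY'0.le
    rw [Fintype.sum_bool]
    have a1 := h3 true
    have a2 := h3 false
    linarith
  rw [mul_one] at h1
  linarith

open Classical in
/-- the good part -/
private lemma R5_good {Λ k r lmax N : ℕ} {c' : Bool} {t X B Y K E Mx : ℝ}
    (hr : r ≤ k) (hK : 1 ≤ K) (hE : E = Real.exp (t / 4)) (htp : 0 < t) (hY : 1 ≤ Y)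
    (hKY : K * (Y * 6 ^ Λ) < 5 ^ k) (hKz : K < Real.exp (t / 2))
    (hX : X < (Real.exp (t / 2) - K) / (5 * K))
    (h2 : 5 ^ k * Real.exp (5 * t / 4) + K ≤ Real.exp (2 * t)) (hB : 0 ≤ B)
    (hIH : ∀ (c : Bool) (N : ℕ) (s : ℝ), 0 ≤ s → s ≤ (1 - 1 / 20000) * t →
      RR X c N (Real.exp s) ≤ B) (hMx : 0 ≤ Mx)
    (hmix : ∀ (c : Bool) (A B : ℕ), ∑ y : ZMod (5 ^ k),
      |hh k (TT Λ k lmax Y c c' A B) y - ht k r (TT Λ k lmax Y c c' A B) y| ≤ Mx) :
    ∑ n ∈ (Finset.Icc 1 N).filter (fun n => G X n ∧ cl n = c' ∧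
        Real.exp (3 * t / 4) ≤ (n : ℝ) ∧ (n : ℝ) ≤ Real.exp (5 * t / 4) ∧
        GoodN Λ k lmax Y K E n), ker (Real.exp t) n ≤
      (1 / (1 - K / Real.exp (t / 2))) ^ 2 *
        ((1 / (1 - K / Real.exp (t / 2))) *
          (B + 3 * (6 * (5 ^ r * Real.exp (t / 20000)) * (0.81 / 5) ^ r)) +
        54 / K * (5 ^ (k - r) / Real.exp (t / 2)
          + Real.log (Real.exp (2 * t) / Real.exp (t / 2))) +
        2 * ((k * Λ + 1) ^ 2 * Mx * (1 / Real.exp (t / 2) +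
          Real.log (Real.exp (2 * t) / Real.exp (t / 2)) / 5 ^ k))) := by
  have hx : 0 < Real.exp t := Real.exp_pos t
  have hz₁ : 0 < Real.exp (t / 2) := Real.exp_pos _
  have hz₁1 : 1 ≤ Real.exp (t / 2) := Real.one_le_exp (by linarith)
  have hz12 : Real.exp (t / 2) ≤ Real.exp (2 * t) := Real.exp_le_exp.2 (by linarith)
  have hE1 : 1 ≤ E := by rw [hE]; exact Real.one_le_exp (by linarith)
  have hEt : E ≤ Real.exp t := by rw [hE]; exact Real.exp_le_exp.2 (by linarith)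
  obtain ⟨N₂, hN₂⟩ : ∃ N₂ : ℕ, Real.exp (2 * t) ≤ N₂ := exists_nat_ge _
  obtain ⟨N', hN'⟩ : ∃ N' : ℕ, Real.exp (2 * t) * E ≤ N' := exists_nat_ge _
  have h1 : Real.exp (t / 2) * E ≤ Real.exp (3 * t / 4) := by
    rw [hE, ← Real.exp_add]
    apply Real.exp_le_exp.2
    linarith
  have hpush := push (Λ := Λ) (k := k) (lmax := lmax) (N := N) (N₂ := N₂) (c' := c') (X := X)
    (x := Real.exp t) (Y := Y) (K := K) (E := E) (z := Real.exp (3 * t / 4))
    (z' := Real.exp (5 * t / 4)) (z₁ := Real.exp (t / 2)) (z₂ := Real.exp (2 * t)) hx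
    (by linarith) hE1 hz₁ hKz h1 h2 hN₂
    (fun c w hw hg => good_Tm hw hY (by linarith) hKY hg)
  refine hpush.trans ?_
  have hfrac : 0 < 1 - K / Real.exp (t / 2) := by
    rw [sub_pos, div_lt_one hz₁]
    exact hKz
  apply mul_le_mul_of_nonneg_left _ (by positivity)
  have hmx : ∀ c : Bool, _ := fun c => mix_apply (Λ := Λ) (k := k) (r := r) (lmax := lmax)
    (N₂ := N₂) (c := c) (c' := c') (X := X) (x := Real.exp t) (Y := Y) (E := E)
    (z₁ := Real.exp (t / 2)) (z₂ := Real.exp (2 * t)) (Mx := Mx) hx hr hz₁1 hz12 hMx (hmix c)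
  refine (Finset.sum_le_sum fun c _ => hmx c).trans ?_
  rw [Finset.sum_add_distrib, Finset.sum_const, Finset.card_univ, Fintype.card_bool, nsmul_eq_mul,
    Nat.cast_ofNat]
  apply add_le_add _ le_rfl
  have hmain := coarse_main (Λ := Λ) (k := k) (r := r) (lmax := lmax) (N₂ := N₂) (N' := N') hr
    (c' := c') (X := X) (x := Real.exp t) (Y := Y) (K := K) (E := E)
    (z₁ := Real.exp (t / 2)) (z₂ := Real.exp (2 * t)) hx hK hE1 hKz hX hN'
  have hrest := coarse_rest (Λ := Λ) (k := k) (r := r) (lmax := lmax) (N₂ := N₂) hr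
    (c' := c') (X := X) (x := Real.exp t) (Y := Y) (K := K) (E := E)
    (z₁ := Real.exp (t / 2)) (z₂ := Real.exp (2 * t)) hx hK hz₁1 hz12
  have hsplit : ∀ c : Bool, ∑ m ∈ Mset X c N₂ (Real.exp (t / 2)) (Real.exp (2 * t)),
      1 / (m : ℝ) * ∑ w ∈ (TA Λ k lmax Y E c c').filter (fun w =>
            (5 : ZMod (5 ^ k)) ^ r * (Fm k w - (m : ZMod (5 ^ k))) = 0),
            5 ^ (k - r) / (D w : ℝ) * kr ((m : ℝ) * D w / 5 ^ k) (Real.exp t) =
      (∑ m ∈ Mset X c N₂ (Real.exp (t / 2)) (Real.exp (2 * t)), 1 / (m : ℝ) *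
        ∑ w ∈ (TA Λ k lmax Y E c c').filter (fun w =>
          (5 : ZMod (5 ^ k)) ^ r * (Fm k w - (m : ZMod (5 ^ k))) = 0 ∧ Fr (w.take (k - r)) ≤ K),
          5 ^ (k - r) / (D w : ℝ) * kr ((m : ℝ) * D w / 5 ^ k) (Real.exp t)) +
      ∑ m ∈ Mset X c N₂ (Real.exp (t / 2)) (Real.exp (2 * t)), 1 / (m : ℝ) *
        ∑ w ∈ (TA Λ k lmax Y E c c').filter (fun w =>
          (5 : ZMod (5 ^ k)) ^ r * (Fm k w - (m : ZMod (5 ^ k))) = 0 ∧ K < Fr (w.take (k - r))),
          5 ^ (k - r) / (D w : ℝ) * kr ((m : ℝ) * D w / 5 ^ k) (Real.exp t) := by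
    intro c
    rw [← Finset.sum_add_distrib]
    apply Finset.sum_congr rfl
    intro m _
    rw [← mul_add]
    congr 1
    exact R5_fsplit (TA Λ k lmax Y E c c') (fun w =>
      (5 : ZMod (5 ^ k)) ^ r * (Fm k w - (m : ZMod (5 ^ k))) = 0) (fun w => Fr (w.take (k - r)))
      (fun w => 5 ^ (k - r) / (D w : ℝ) * kr ((m : ℝ) * D w / 5 ^ k) (Real.exp t)) K
  rw [Finset.sum_congr rfl fun c _ => hsplit c, Finset.sum_add_distrib]
  apply add_le_add _ hrest
  refine hmain.trans ?_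
  apply mul_le_mul_of_nonneg_left _ (by positivity)
  exact R5_main Λ r N' c' hB hEt hIH

theorem one_step : ∃ t₀ C : ℝ, 0 < t₀ ∧ 0 < C ∧ ∀ (t X B : ℝ), t₀ ≤ t → 1 ≤ X →
    X ≤ Real.exp (t / 4) → 0 ≤ B →
    (∀ (c : Bool) (N : ℕ) (s : ℝ), 0 ≤ s → s ≤ (1 - 1 / 20000) * t →
      RR X c N (Real.exp s) ≤ B) →
    ∀ (c : Bool) (N : ℕ), RR X c N (Real.exp t) ≤ B + C / t := by
  classical
  obtain ⟨K₀, hK₀, hFD⟩ := FD 20
  obtain ⟨t1, ht1, H1⟩ := num_basic
  obtain ⟨t2, C2, ht2, hC2, H2⟩ := num_deficit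
  obtain ⟨t3, C3, ht3, hC3, H3⟩ := num_tails
  obtain ⟨t4, C4, ht4, hC4, H4⟩ := num_rest
  obtain ⟨t5, C5, ht5, hC5, H5⟩ := num_disp
  obtain ⟨t6, C6, ht6, hC6, H6⟩ := num_factor
  obtain ⟨t7, C7, ht7, hC7, H7⟩ := num_mix K₀ hK₀
  obtain ⟨Dc, hDc⟩ : ∃ Dc, Dc = 3 * C5 + C4 + C7 := ⟨_, rfl⟩
  have hDc0 : 0 < Dc := by linarith
  refine ⟨1 + t1 + t2 + t3 + t4 + t5 + t6 + t7, C3 + C2 / 2 + (3 * C6 + Dc + C6 * Dc),
    by linarith, by positivity, ?_⟩
  intro t X B htt hX1 hXt hB hIH c' N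
  have htpos : 0 < t := by linarith
  have ht1' : 1 ≤ t := by linarith
  obtain ⟨b1, b2, b3, b4, b5, b6, b7, b8, b9, b10⟩ := H1 t (by linarith)
  have h2 := H2 t (by linarith)
  have h3 := H3 t (by linarith)
  have h4 := H4 t (by linarith)
  have h5 := H5 t (by linarith)
  obtain ⟨h6, h6'⟩ := H6 t (by linarith)
  have h7 := H7 t (by linarith)
  rcases lt_or_ge 3 B with hB3 | hB3
  · have e1 := RR_le_three X c' N (Real.exp_pos t)
    have e2 : 0 ≤ (C3 + C2 / 2 + (3 * C6 + Dc + C6 * Dc)) / t := by positivity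
    linarith
  -- the parts
  have hx : 0 < Real.exp t := Real.exp_pos t
  have hsp := R5_split (LL t) (kk t) (lm t) N c' X (Real.exp t) (YY t) (KK t) (EE t)
    (Real.exp (3 * t / 4)) (Real.exp (5 * t / 4)) hx
  have hlow := ker_sum_low hx (Real.exp_pos (3 * t / 4)).le N
  have hhigh := ker_sum_high hx (Real.one_le_exp (by linarith : 0 ≤ 5 * t / 4)) N
  have hbad := bad_mass (LL t) (kk t) N c' (Pgood (lm t) (YY t) (KK t) (EE t)) (E := EE t)
    (x := Real.exp t) (by linarith) hx (fun w hw => hw.2.2)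
  have hdef := good_deficit (LL t) (kk t) (lm t) (by omega) (by omega) (Y := YY t) (K := KK t)
    (E := EE t) (by linarith) (by linarith) (by linarith) c'
  obtain ⟨q, hq⟩ : ∃ q, q = K₀ / (((kk t - rr t - lm t : ℕ) : ℝ) + 1) ^ 20 := ⟨_, rfl⟩
  have hq0 : 0 ≤ q := by rw [hq]; positivity
  have hYpos : 0 < YY t := by linarith
  have hmix : ∀ (c : Bool) (A B : ℕ), ∑ y : ZMod (5 ^ kk t),
      |hh (kk t) (TT (LL t) (kk t) (lm t) (YY t) c c' A B) y -
        ht (kk t) (rr t) (TT (LL t) (kk t) (lm t) (YY t) c c' A B) y| ≤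
      5 ^ kk t * (2 * ((lm t : ℝ) + 1) * ((kk t : ℝ) * LL t + 1) ^ 2) *
        (8 * q * Real.sqrt (5 ^ kk t / YY t)) := by
    intro c A B
    refine mixing b1 b2 hYpos hq0 ?_ c c' A B
    intro ψ hψ R hR
    refine QB_mono (by positivity) le_rfl ?_ (hFD (LL t) (kk t) ψ b3 hψ R)
    rw [hq]
    apply div_le_div_of_nonneg_left hK₀.le (by positivity)
    apply pow_le_pow_left₀ (by positivity)
    have : ((kk t - rr t - lm t : ℕ) : ℝ) ≤ R := by exact_mod_cast hR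
    linarith
  have hgood := R5_good (Λ := LL t) (k := kk t) (r := rr t) (lmax := lm t) (N := N) (c' := c')
    (t := t) (X := X) (B := B) (Y := YY t) (K := KK t) (E := EE t) b1 b4 rfl htpos b5 b6 b8
    (b9 X hXt) b10 hB hIH (by positivity) hmix
  rw [hq] at hgood
  -- tails
  have e1 : Real.exp (3 * t / 4) / Real.exp t = Real.exp (-(t / 4)) := by
    rw [← Real.exp_sub]
    congr 1
    ring
  have e2 : 2 * Real.exp t / Real.exp (5 * t / 4) = 2 * Real.exp (-(t / 4)) := by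
    rw [mul_div_assoc, ← Real.exp_sub]
    congr 2
    ring
  rw [e1] at hlow
  rw [e2] at hhigh
  obtain ⟨F, hF⟩ : ∃ F, F = 1 / (1 - KK t / Real.exp (t / 2)) := ⟨_, rfl⟩
  rw [← hF] at hgood h6
  have hF1 : 1 ≤ F := by
    rw [hF, le_div_iff₀ h6', one_mul]
    have : 0 ≤ KK t / Real.exp (t / 2) := by positivity
    linarith
  have hF0 : 0 < F := by linarith
  -- the final estimate of the good part
  have hg2 : F ^ 2 * (F * (B + 3 * (6 * (5 ^ rr t * Real.exp (t / 20000)) * (0.81 / 5) ^ rr t)) +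
        54 / KK t * (5 ^ (kk t - rr t) / Real.exp (t / 2)
          + Real.log (Real.exp (2 * t) / Real.exp (t / 2))) +
        2 * (((kk t : ℝ) * LL t + 1) ^ 2 * (5 ^ kk t * (2 * ((lm t : ℝ) + 1) *
          ((kk t : ℝ) * LL t + 1) ^ 2) *
          (8 * (K₀ / (((kk t - rr t - lm t : ℕ) : ℝ) + 1) ^ 20) *
            Real.sqrt (5 ^ kk t / YY t))) * (1 / Real.exp (t / 2) +
          Real.log (Real.exp (2 * t) / Real.exp (t / 2)) / 5 ^ kk t))) ≤
      B + (3 * C6 + Dc + C6 * Dc) / t := by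
    have g1 : F * (B + 3 * (6 * (5 ^ rr t * Real.exp (t / 20000)) * (0.81 / 5) ^ rr t)) ≤
        F * (B + 3 * (C5 / t)) := by
      apply mul_le_mul_of_nonneg_left _ hF0.le
      linarith
    have g2 : C4 / t ≤ F * (C4 / t) := le_mul_of_one_le_left (by positivity) hF1
    have g3 : C7 / t ≤ F * (C7 / t) := le_mul_of_one_le_left (by positivity) hF1
    have g4 : F * (B + 3 * (C5 / t)) + F * (C4 / t) + F * (C7 / t) = F * (B + Dc / t) := by
      rw [hDc]
      ring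
    have g5 : 0 ≤ B + Dc / t := by positivity
    have g6 : F ^ 3 * (B + Dc / t) ≤ (1 + C6 / t) * (B + Dc / t) :=
      mul_le_mul_of_nonneg_right h6 g5
    have g7 : (1 + C6 / t) * (B + Dc / t) ≤ B + (3 * C6 + Dc + C6 * Dc) / t := by
      have g8 : C6 / t * B ≤ C6 / t * 3 := mul_le_mul_of_nonneg_left hB3 (by positivity)
      have g9 : C6 / t * (Dc / t) ≤ C6 * Dc / t := by
        rw [div_mul_div_comm]
        apply div_le_div_of_nonneg_left (by positivity) htpos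
        exact le_mul_of_one_le_left htpos.le ht1'
      have g10 : (3 * C6 + Dc + C6 * Dc) / t = C6 / t * 3 + Dc / t + C6 * Dc / t := by ring
      have g12 : (1 + C6 / t) * (B + Dc / t) =
          B + Dc / t + C6 / t * B + C6 / t * (Dc / t) := by ring
      rw [g10, g12]
      linarith
    refine le_trans ?_ (g6.trans g7)
    have g11 : F ^ 3 * (B + Dc / t) = F ^ 2 * (F * (B + Dc / t)) := by ring
    rw [g11]
    apply mul_le_mul_of_nonneg_left _ (by positivity)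
    rw [← g4]
    linarith
  have hgood' := hgood.trans hg2
  have hfin : (C3 + C2 / 2 + (3 * C6 + Dc + C6 * Dc)) / t =
      C3 / t + C2 / t / 2 + (3 * C6 + Dc + C6 * Dc) / t := by ring
  rw [hfin]
  have hdef' := hdef.trans h2
  linarith

end K5
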