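import Pool.Agent.Lib.MP_a4658c_nt.K5.TDefs
import Pool.Agent.Lib.MP_a4658c_nt.K5.A2

/-! Piece T1b: paper (1.2), the multiplicity lemma. -/

namespace K5

private lemma T1b_card (s : Finset ℕ) (x l : ℝ) (hl : 0 ≤ l)
    (h : ∀ n ∈ s, x - l ≤ (n : ℝ) ∧ (n : ℝ) ≤ x) : (s.card : ℝ) ≤ l + 1 := by
  rcases s.eq_empty_or_nonempty with rfl | hs
  · simp only [Finset.card_empty, Nat.cast_zero]
    linarith
  · have hsub : s ⊆ Finset.Icc (s.min' hs) (s.max' hs) := fun n hn =>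
      Finset.mem_Icc.2 ⟨s.min'_le n hn, s.le_max' n hn⟩
    have h1 := Finset.card_le_card hsub
    rw [Nat.card_Icc] at h1
    have h2 := (h _ (s.min'_mem hs)).1
    have h3 := (h _ (s.max'_mem hs)).2
    have h4 : s.min' hs ≤ s.max' hs := s.min'_le _ (s.max'_mem hs)
    have h5 : (s.card : ℝ) ≤ (s.max' hs : ℝ) + 1 - (s.min' hs : ℝ) := by
      have h6 : s.card + s.min' hs ≤ s.max' hs + 1 := by omega
      have h7 : ((s.card + s.min' hs : ℕ) : ℝ) ≤ ((s.max' hs + 1 : ℕ) : ℝ) := by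
        exact_mod_cast h6
      push_cast at h7
      linarith
    linarith

private lemma T1b_prod {n τ : ℕ} {z : ℝ} (hz : 1 ≤ z) (h : ∀ j < τ, z < (S^[j] n : ℝ)) :
    1 ≤ ∏ i ∈ Finset.range τ, (1 + 1 / (5 * (S^[i] n : ℝ))) ∧
    ∏ i ∈ Finset.range τ, (1 + 1 / (5 * (S^[i] n : ℝ))) ≤ Real.exp (τ / (5 * z)) := by
  constructor
  · have h0 : (∏ _i ∈ Finset.range τ, (1 : ℝ)) = 1 := by simp
    refine h0.symm.le.trans ?_
    refine Finset.prod_le_prod (fun i _ => zero_le_one) fun i hi => ?_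
    have h1 := h i (Finset.mem_range.1 hi)
    have h2 : (0 : ℝ) ≤ 1 / (5 * (S^[i] n : ℝ)) := by positivity
    linarith
  · have h1 : Real.exp (τ / (5 * z)) = ∏ _i ∈ Finset.range τ, Real.exp (1 / (5 * z)) := by
      rw [Finset.prod_const, Finset.card_range, ← Real.exp_nat_mul]
      congr 1
      ring
    rw [h1]
    refine Finset.prod_le_prod (fun i _ => by positivity) fun i hi => ?_
    have h2 := h i (Finset.mem_range.1 hi)
    have h3 : 1 / (5 * (S^[i] n : ℝ)) ≤ 1 / (5 * z) :=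
      one_div_le_one_div_of_le (by linarith) (by linarith)
    have h4 := Real.add_one_le_exp (1 / (5 * z))
    linarith

private lemma T1b_exp {t τ : ℕ} {z : ℝ} (hz : 1 ≤ z) (ht : (t : ℝ) ≤ z) (hτ : τ ≤ t) :
    Real.exp (τ / (5 * z)) ≤ 2 := by
  have h1 : (τ : ℝ) ≤ t := by exact_mod_cast hτ
  have h2 : (τ : ℝ) / (5 * z) ≤ 1 / 5 := by
    rw [div_le_iff₀ (by linarith)]
    linarith
  have h3 : Real.exp (τ / (5 * z)) ≤ Real.exp (1 / 5) := Real.exp_le_exp.2 h2
  have h4 := Real.add_one_le_exp (-(1 / 5 : ℝ))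
  have h5 : Real.exp (-(1 / 5 : ℝ)) * Real.exp (1 / 5) = 1 := by
    rw [← Real.exp_add]
    simp
  have h6 := Real.exp_pos (1 / 5 : ℝ)
  nlinarith

open Classical in
/-- (1.2) -/
lemma mult_card (t N a₀ m : ℕ) (z : ℝ) (hz : 1 ≤ z) (ht : (t : ℝ) ≤ z)
    (ha : 2 * N * 5 ^ t ≤ 2 ^ a₀) :
    (((Finset.Icc 1 N).filter (fun n => U n ∧ ∃ τ ≤ t, S^[τ] n = m ∧
        ∀ j < τ, z < (S^[j] n : ℝ))).card : ℝ)
      ≤ (t + 1) * (a₀ + 1) ^ 2 * (N * t / z + 1) := by
  have hz0 : (0 : ℝ) < z := by linarith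
  set F : ℕ × ℕ × ℕ → Finset ℕ := fun p => (Finset.Icc 1 N).filter (fun n => U n ∧
    S^[p.1] n = m ∧ (∀ j < p.1, z < (S^[j] n : ℝ)) ∧
      D (fword p.1 n) = 2 ^ p.2.1 * 3 ^ p.2.2) with hF
  set I : Finset (ℕ × ℕ × ℕ) :=
    Finset.range (t + 1) ×ˢ (Finset.range (a₀ + 1) ×ˢ Finset.range (a₀ + 1)) with hI
  -- the covering
  have hcov : (Finset.Icc 1 N).filter (fun n => U n ∧ ∃ τ ≤ t, S^[τ] n = m ∧
      ∀ j < τ, z < (S^[j] n : ℝ)) ⊆ I.biUnion F := by
    intro n hn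
    rw [Finset.mem_filter, Finset.mem_Icc] at hn
    obtain ⟨⟨hn1, hnN⟩, hU, τ, hτ, hS, hj⟩ := hn
    rw [Finset.mem_biUnion]
    obtain ⟨p1, p2⟩ := T1b_prod hz hj
    have p3 := T1b_exp hz ht hτ
    have hpf := prod_formula hU τ
    have hm1 : 1 ≤ m := by
      rw [← hS]
      have := (U_iter hU τ).1
      omega
    have hDle : D (fword τ n) ≤ 2 ^ a₀ := by
      have h1 : (D (fword τ n) : ℝ) ≤ ((2 ^ a₀ : ℕ) : ℝ) := by
        have h2 : (D (fword τ n) : ℝ) ≤ (D (fword τ n) : ℝ) * (S^[τ] n : ℝ) := by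
          have h3 : (1 : ℝ) ≤ (S^[τ] n : ℝ) := by rw [hS]; exact_mod_cast hm1
          have h4 : (0 : ℝ) ≤ D (fword τ n) := Nat.cast_nonneg _
          nlinarith
        have h5 : (5 : ℝ) ^ τ ≤ 5 ^ t := pow_le_pow_right₀ (by norm_num) hτ
        have h6 : (n : ℝ) ≤ N := by exact_mod_cast hnN
        calc (D (fword τ n) : ℝ) ≤ (D (fword τ n) : ℝ) * (S^[τ] n : ℝ) := h2
          _ = 5 ^ τ * (n : ℝ) * ∏ i ∈ Finset.range τ, (1 + 1 / (5 * (S^[i] n : ℝ))) := hpf
          _ ≤ 5 ^ t * (N : ℝ) * 2 := by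
              refine mul_le_mul (mul_le_mul h5 h6 (by positivity) (by positivity))
                (p2.trans p3) (by linarith) (by positivity)
          _ = ((2 * N * 5 ^ t : ℕ) : ℝ) := by push_cast; ring
          _ ≤ ((2 ^ a₀ : ℕ) : ℝ) := by exact_mod_cast ha
      exact_mod_cast h1
    have hD := D_eq (fword τ n)
    have hA : sA (fword τ n) ≤ a₀ := by
      have h1 : 2 ^ sA (fword τ n) ≤ 2 ^ a₀ := by
        refine le_trans ?_ hDle
        rw [hD]
        exact Nat.le_mul_of_pos_right _ (by positivity)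
      exact (Nat.pow_le_pow_iff_right (by norm_num)).1 h1
    have hB : sB (fword τ n) ≤ a₀ := by
      have h1 : 2 ^ sB (fword τ n) ≤ 2 ^ a₀ := by
        calc 2 ^ sB (fword τ n) ≤ 3 ^ sB (fword τ n) := Nat.pow_le_pow_left (by norm_num) _
          _ ≤ D (fword τ n) := by
              rw [hD]
              exact Nat.le_mul_of_pos_left _ (by positivity)
          _ ≤ 2 ^ a₀ := hDle
      exact (Nat.pow_le_pow_iff_right (by norm_num)).1 h1
    refine ⟨(τ, (sA (fword τ n), sB (fword τ n))), ?_, ?_⟩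
    · rw [hI, Finset.mem_product, Finset.mem_product, Finset.mem_range, Finset.mem_range,
        Finset.mem_range]
      exact ⟨by simpa using Nat.lt_succ_of_le hτ, by simpa using Nat.lt_succ_of_le hA,
        by simpa using Nat.lt_succ_of_le hB⟩
    · rw [hF]
      simp only [Finset.mem_filter, Finset.mem_Icc]
      exact ⟨⟨hn1, hnN⟩, hU, hS, hj, hD⟩
  -- every piece
  have hpc : ∀ p ∈ I, ((F p).card : ℝ) ≤ N * t / z + 1 := by
    intro p hp
    rw [hI, Finset.mem_product, Finset.mem_range] at hp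
    have hτ : p.1 ≤ t := by have := hp.1; omega
    have hτ' : (p.1 : ℝ) ≤ t := by exact_mod_cast hτ
    refine T1b_card (F p) ((2 ^ p.2.1 * 3 ^ p.2.2 : ℕ) * m / 5 ^ p.1) (N * t / z)
      (by positivity) fun n hn => ?_
    rw [hF] at hn
    simp only [Finset.mem_filter, Finset.mem_Icc] at hn
    obtain ⟨⟨hn1, hnN⟩, hU, hS, hj, hD⟩ := hn
    obtain ⟨p1, p2⟩ := T1b_prod hz hj
    have p3 := T1b_exp hz ht hτ
    have hpf := prod_formula hU p.1
    rw [hS, hD] at hpf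
    set P := ∏ i ∈ Finset.range p.1, (1 + 1 / (5 * (S^[i] n : ℝ))) with hP
    have h5 : (0 : ℝ) < 5 ^ p.1 := by positivity
    have hR : ((2 ^ p.2.1 * 3 ^ p.2.2 : ℕ) : ℝ) * m / 5 ^ p.1 = n * P := by
      rw [hpf]
      field_simp
    rw [hR]
    have hn0 : (0 : ℝ) ≤ n := Nat.cast_nonneg n
    have hN0 : (n : ℝ) ≤ N := by exact_mod_cast hnN
    constructor
    · have e1 : Real.exp (-(p.1 / (5 * z))) * P ≤ 1 := by
        calc Real.exp (-(p.1 / (5 * z))) * P ≤
            Real.exp (-(p.1 / (5 * z))) * Real.exp (p.1 / (5 * z)) :=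
              mul_le_mul_of_nonneg_left p2 (Real.exp_pos _).le
          _ = 1 := by rw [← Real.exp_add]; simp
      have e2 := Real.add_one_le_exp (-((p.1 : ℝ) / (5 * z)))
      have e3 : (1 - (p.1 : ℝ) / (5 * z)) * P ≤ 1 := by
        refine le_trans (mul_le_mul_of_nonneg_right ?_ (by linarith)) e1
        linarith
      have e4 : (n : ℝ) * P * ((p.1 : ℝ) / (5 * z)) ≤ N * t / z := by
        have e5 : (n : ℝ) * P ≤ N * 2 :=
          mul_le_mul hN0 (p2.trans p3) (by linarith) (by positivity)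
        have e6 : (p.1 : ℝ) / (5 * z) ≤ t / (5 * z) := by gcongr
        calc (n : ℝ) * P * ((p.1 : ℝ) / (5 * z)) ≤ N * 2 * (t / (5 * z)) :=
              mul_le_mul e5 e6 (by positivity) (by positivity)
          _ = (2 / 5) * (N * t / z) := by field_simp
          _ ≤ N * t / z := by
              have : (0 : ℝ) ≤ N * t / z := by positivity
              linarith
      have e7 : (n : ℝ) * ((1 - (p.1 : ℝ) / (5 * z)) * P) ≤ n * 1 :=
        mul_le_mul_of_nonneg_left e3 hn0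
      have e8 : (n : ℝ) * ((1 - (p.1 : ℝ) / (5 * z)) * P) =
          n * P - n * P * ((p.1 : ℝ) / (5 * z)) := by ring
      rw [e8] at e7
      linarith
    · nlinarith
  have hcard : I.card = (t + 1) * ((a₀ + 1) * (a₀ + 1)) := by
    rw [hI, Finset.card_product, Finset.card_product, Finset.card_range, Finset.card_range]
  calc (((Finset.Icc 1 N).filter (fun n => U n ∧ ∃ τ ≤ t, S^[τ] n = m ∧
        ∀ j < τ, z < (S^[j] n : ℝ))).card : ℝ) ≤ ((I.biUnion F).card : ℝ) := by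
        exact_mod_cast Finset.card_le_card hcov
    _ ≤ ((∑ p ∈ I, (F p).card : ℕ) : ℝ) := by exact_mod_cast Finset.card_biUnion_le
    _ = ∑ p ∈ I, ((F p).card : ℝ) := by push_cast; rfl
    _ ≤ ∑ _p ∈ I, ((N : ℝ) * t / z + 1) := Finset.sum_le_sum hpc
    _ = (t + 1) * (a₀ + 1) ^ 2 * (N * t / z + 1) := by
        rw [Finset.sum_const, hcard, nsmul_eq_mul]
        push_cast
        ring

end K5
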