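import Pool.Agent.Lib.MP_a4658c_nt.K5.T1a
import Pool.Agent.Lib.MP_a4658c_nt.K5.T1b

/-! Piece T1c: paper (1.3), the first passage argument. -/

namespace K5

private lemma T1c_z_succ (N i : ℕ) :
    ((N : ℝ) ^ ((0.9 : ℝ) ^ i)) ^ (0.9 : ℝ) = (N : ℝ) ^ ((0.9 : ℝ) ^ (i + 1)) := by
  rw [← Real.rpow_mul (Nat.cast_nonneg N), pow_succ]

private lemma T1c_q9 {N : ℕ} (hN : 1 ≤ N) (i : ℕ) :
    (q9 ((N : ℝ) ^ ((0.9 : ℝ) ^ i)) : ℝ) ≤ 0.9 * (0.9 ^ i * Real.logb 5 N) := by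
  have hN' : (1 : ℝ) ≤ N := by exact_mod_cast hN
  have h1 : Real.logb 5 ((N : ℝ) ^ ((0.9 : ℝ) ^ i)) = 0.9 ^ i * Real.logb 5 N :=
    Real.logb_rpow_eq_mul_logb_of_pos (by linarith)
  have h2 : 0 ≤ Real.logb 5 (N : ℝ) := Real.logb_nonneg (by norm_num) hN'
  unfold q9
  rw [h1]
  exact Nat.floor_le (by positivity)

/-- Every `n ≤ N` in `G` passes through a bad point at some scale `z_i = N^(0.9^i) > X`, at the
first passage below `z_i`, within `9 log_5 N` steps. -/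
lemma first_passage {N n : ℕ} {X : ℝ} (hX : 1 < X) (hn : 1 ≤ n) (hnN : n ≤ N) (hG : G X n) :
    ∃ i τ : ℕ, X < (N : ℝ) ^ ((0.9 : ℝ) ^ i) ∧ (τ : ℝ) ≤ 9 * Real.logb 5 N ∧
      Bad ((N : ℝ) ^ ((0.9 : ℝ) ^ i)) (S^[τ] n) ∧
      ∀ j < τ, (N : ℝ) ^ ((0.9 : ℝ) ^ i) < (S^[j] n : ℝ) := by
  classical
  have hN : 1 ≤ N := hn.trans hnN
  have hN' : (1 : ℝ) ≤ N := by exact_mod_cast hN
  have hlg : 0 ≤ Real.logb 5 (N : ℝ) := Real.logb_nonneg (by norm_num) hN'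
  set lg := Real.logb 5 (N : ℝ) with hlgd
  let P : ℕ → Prop := fun i => ∃ τ : ℕ, (τ : ℝ) ≤ 9 * (1 - 0.9 ^ i) * lg ∧
    (S^[τ] n : ℝ) ≤ (N : ℝ) ^ ((0.9 : ℝ) ^ i) ∧
    ∀ j < τ, (N : ℝ) ^ ((0.9 : ℝ) ^ i) < (S^[j] n : ℝ)
  have h0 : P 0 := by
    refine ⟨0, by simp, ?_, fun j hj => absurd hj (Nat.not_lt_zero j)⟩
    have : (n : ℝ) ≤ N := by exact_mod_cast hnN
    simpa using this
  have hlim : Filter.Tendsto (fun i : ℕ => (N : ℝ) ^ ((0.9 : ℝ) ^ i)) Filter.atTop (nhds 1) := by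
    have h1 : Filter.Tendsto (fun i : ℕ => (0.9 : ℝ) ^ i) Filter.atTop (nhds 0) :=
      tendsto_pow_atTop_nhds_zero_of_lt_one (by norm_num) (by norm_num)
    have h2 := (tendsto_const_nhds (x := (N : ℝ)) (f := Filter.atTop (α := ℕ))).rpow h1
      (Or.inl (by positivity))
    simpa using h2
  obtain ⟨i0, hi0⟩ := (hlim.eventually (gt_mem_nhds hX)).exists
  have hP0 : ¬ P i0 := by
    rintro ⟨τ, -, hle, -⟩
    have := hG.2 τ
    linarith
  have hex : ∃ i, P i ∧ ¬ P (i + 1) := by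
    by_contra hcon
    push Not at hcon
    have hall : ∀ i, P i := by
      intro i
      induction i with
      | zero => exact h0
      | succ i ih => exact hcon i ih
    exact hP0 (hall i0)
  obtain ⟨i, ⟨τ, hτ, hle, hlt⟩, hnot⟩ := hex
  refine ⟨i, τ, (hG.2 τ).trans_le hle, ?_, ⟨U_iter hG.1 τ, hle, ?_⟩, hlt⟩
  · have h1 : (0 : ℝ) ≤ 0.9 ^ i * lg := by positivity
    nlinarith
  · intro k hk
    by_contra hcon
    push Not at hcon
    rw [← Function.iterate_add_apply, T1c_z_succ] at hcon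
    apply hnot
    have hex2 : ∃ k' : ℕ, (S^[k'] n : ℝ) ≤ (N : ℝ) ^ ((0.9 : ℝ) ^ (i + 1)) := ⟨k + τ, hcon⟩
    refine ⟨Nat.find hex2, ?_, Nat.find_spec hex2, fun j hj => not_le.mp (Nat.find_min hex2 hj)⟩
    have h1 : Nat.find hex2 ≤ k + τ := Nat.find_min' hex2 hcon
    have h2 : (Nat.find hex2 : ℝ) ≤ k + τ := by exact_mod_cast h1
    have h3 : (k : ℝ) ≤ q9 ((N : ℝ) ^ ((0.9 : ℝ) ^ i)) := by exact_mod_cast hk
    have h4 := T1c_q9 hN i
    have e : 9 * (1 - (0.9 : ℝ) ^ (i + 1)) * lg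
        = 9 * (1 - 0.9 ^ i) * lg + 0.9 * (0.9 ^ i * lg) := by
      rw [pow_succ]
      ring
    rw [e]
    linarith

private lemma T1c_index {N i : ℕ} {X : ℝ} (hN : 1 ≤ N) (hX : 2 < X)
    (h : X < (N : ℝ) ^ ((0.9 : ℝ) ^ i)) : (i : ℝ) ≤ 13 * Real.log N := by
  have hN' : (1 : ℝ) ≤ N := by exact_mod_cast hN
  have hl : 0 ≤ Real.log (N : ℝ) := Real.log_nonneg hN'
  have h1 : Real.log 2 < 0.9 ^ i * Real.log N := by
    rw [← Real.log_rpow (by linarith)]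
    exact Real.log_lt_log (by norm_num) (by linarith)
  have h2 : 1 + (i : ℝ) * (1 / 9) ≤ (1 + 1 / 9) ^ i :=
    one_add_mul_le_pow (by norm_num) i
  have h3 : ((1 : ℝ) + 1 / 9) ^ i * 0.9 ^ i = 1 := by
    rw [← mul_pow]
    norm_num
  have h4 : (0 : ℝ) < (1 + 1 / 9) ^ i := by positivity
  have h5 : ((1 : ℝ) + 1 / 9) ^ i * Real.log 2 ≤ Real.log N := by
    calc ((1 : ℝ) + 1 / 9) ^ i * Real.log 2 ≤ (1 + 1 / 9) ^ i * (0.9 ^ i * Real.log N) :=
          mul_le_mul_of_nonneg_left h1.le h4.le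
      _ = ((1 + 1 / 9) ^ i * 0.9 ^ i) * Real.log N := by ring
      _ = Real.log N := by rw [h3, one_mul]
  have h6 := Real.log_two_gt_d9
  have h7 : (1 + (i : ℝ) * (1 / 9)) * Real.log 2 ≤ Real.log N :=
    (mul_le_mul_of_nonneg_right h2 (by linarith)).trans h5
  have h8 : (0 : ℝ) ≤ i := Nat.cast_nonneg i
  nlinarith

private lemma T1c_term {N t a₀ : ℕ} {X z l C0 : ℝ} (hN : 1 ≤ N) (hz : 1 ≤ z) (hzN : z ≤ N)
    (hX : 0 < X) (hXz : X ≤ z) (hl : 0 ≤ l) (hC0 : 0 ≤ C0) (ht : (t : ℝ) + 1 ≤ 9 * (1 + l))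
    (ha : (a₀ : ℝ) + 1 ≤ 15 * (1 + l)) :
    C0 * z ^ (0.983 : ℝ) * ((t + 1) * (a₀ + 1) ^ 2 * (N * t / z + 1)) ≤
      C0 * 81 * 225 * (N * (1 + l) ^ 4 * X ^ (-(0.017 : ℝ))) := by
  have hz0 : 0 < z := by linarith
  have hN' : (1 : ℝ) ≤ N := by exact_mod_cast hN
  have ht0 : (0 : ℝ) ≤ t := Nat.cast_nonneg t
  have ha0 : (0 : ℝ) ≤ a₀ := Nat.cast_nonneg a₀
  have h1 : (N : ℝ) * t / z + 1 ≤ (t + 1) * (N / z) := by
    have e : (t + 1) * ((N : ℝ) / z) = N * t / z + N / z := by ring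
    have h2 : 1 ≤ (N : ℝ) / z := by rwa [one_le_div hz0]
    rw [e]
    linarith
  have h2 : z ^ (0.983 : ℝ) * (N / z) = N * z ^ (-(0.017 : ℝ)) := by
    have e : (-(0.017 : ℝ)) = 0.983 - 1 := by norm_num
    rw [e, Real.rpow_sub_one hz0.ne']
    ring
  have h3 : z ^ (-(0.017 : ℝ)) ≤ X ^ (-(0.017 : ℝ)) :=
    Real.rpow_le_rpow_of_nonpos hX hXz (by norm_num)
  have hzp : 0 < z ^ (0.983 : ℝ) := Real.rpow_pos_of_pos hz0 _
  have hzq : 0 < z ^ (-(0.017 : ℝ)) := Real.rpow_pos_of_pos hz0 _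
  have hXq : 0 < X ^ (-(0.017 : ℝ)) := Real.rpow_pos_of_pos hX _
  calc C0 * z ^ (0.983 : ℝ) * ((t + 1) * (a₀ + 1) ^ 2 * (N * t / z + 1))
      ≤ C0 * z ^ (0.983 : ℝ) * ((t + 1) * (a₀ + 1) ^ 2 * ((t + 1) * (N / z))) := by
        refine mul_le_mul_of_nonneg_left ?_ (by positivity)
        exact mul_le_mul_of_nonneg_left h1 (by positivity)
    _ = C0 * ((t + 1) ^ 2 * (a₀ + 1) ^ 2) * (z ^ (0.983 : ℝ) * (N / z)) := by ring
    _ = C0 * ((t + 1) ^ 2 * (a₀ + 1) ^ 2) * (N * z ^ (-(0.017 : ℝ))) := by rw [h2]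
    _ ≤ C0 * ((9 * (1 + l)) ^ 2 * (15 * (1 + l)) ^ 2) * (N * X ^ (-(0.017 : ℝ))) := by
        gcongr
    _ = C0 * 81 * 225 * (N * (1 + l) ^ 4 * X ^ (-(0.017 : ℝ))) := by ring

open Classical in
/-- (T1) -/
theorem T1 : ∃ C : ℝ, 0 < C ∧ ∀ (N : ℕ) (X : ℝ), 1 ≤ N → 1 ≤ X →
    (((Finset.Icc 1 N).filter (fun n => G X n)).card : ℝ)
      ≤ C * N * (1 + Real.log N) ^ 5 * X ^ (-(0.017 : ℝ)) := by
  obtain ⟨C0, hC0, hbad⟩ := bad_card
  refine ⟨9 + C0 * 81 * 225 * 13, by positivity, ?_⟩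
  intro N X hN hX
  have hN' : (1 : ℝ) ≤ N := by exact_mod_cast hN
  have hl0 : 0 ≤ Real.log (N : ℝ) := Real.log_nonneg hN'
  have hlg0 : 0 ≤ Real.logb 5 (N : ℝ) := Real.logb_nonneg (by norm_num) hN'
  have hlgl : Real.logb 5 (N : ℝ) ≤ Real.log N := by
    rw [Real.logb]
    refine div_le_self hl0 ?_
    rw [Real.le_log_iff_exp_le (by norm_num)]
    have := Real.exp_one_lt_d9
    linarith
  set l := Real.log (N : ℝ) with hl
  set lg := Real.logb 5 (N : ℝ) with hlg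
  have hX0 : 0 < X := by linarith
  have hXq : 0 < X ^ (-(0.017 : ℝ)) := Real.rpow_pos_of_pos hX0 _
  set W : ℝ := N * (1 + l) ^ 5 * X ^ (-(0.017 : ℝ)) with hW
  have hW0 : 0 ≤ W := by positivity
  have hgoal : (9 + C0 * 81 * 225 * 13) * N * (1 + l) ^ 5 * X ^ (-(0.017 : ℝ))
      = 9 * W + C0 * 81 * 225 * 13 * W := by
    rw [hW]
    ring
  rw [hgoal]
  by_cases hcase : X ≤ 9 * lg + 2
  · have hcard : (((Finset.Icc 1 N).filter (fun n => G X n)).card : ℝ) ≤ N := by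
      have : ((Finset.Icc 1 N).filter (fun n => G X n)).card ≤ N :=
        (Finset.card_filter_le _ _).trans (by simp)
      exact_mod_cast this
    have hX17 : X ^ (0.017 : ℝ) ≤ X := by
      calc X ^ (0.017 : ℝ) ≤ X ^ (1 : ℝ) := Real.rpow_le_rpow_of_exponent_le hX (by norm_num)
        _ = X := Real.rpow_one X
    have h15 : 1 + l ≤ (1 + l) ^ 5 := le_self_pow₀ (by linarith) (by norm_num)
    have h9 : X ≤ 9 * (1 + l) ^ 5 := by linarith
    have h1 : 1 ≤ 9 * (1 + l) ^ 5 * X ^ (-(0.017 : ℝ)) := by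
      rw [Real.rpow_neg hX0.le, ← div_eq_mul_inv, one_le_div (Real.rpow_pos_of_pos hX0 _)]
      linarith
    have h2 : (N : ℝ) ≤ 9 * W := by
      calc (N : ℝ) ≤ N * (9 * (1 + l) ^ 5 * X ^ (-(0.017 : ℝ))) :=
            le_mul_of_one_le_right (by linarith) h1
        _ = 9 * W := by rw [hW]; ring
    have h3 : 0 ≤ C0 * 81 * 225 * 13 * W := by positivity
    linarith
  · push Not at hcase
    have hX2 : 2 < X := by linarith
    set t : ℕ := ⌊9 * lg⌋₊ with htd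
    have ht1 : (t : ℝ) ≤ 9 * lg := Nat.floor_le (by positivity)
    have ht9 : (t : ℝ) + 1 ≤ 9 * (1 + l) := by linarith
    set c2 : ℕ := Nat.log 2 N + 1 with hc2
    set a₀ : ℕ := 1 + 10 * c2 with ha₀
    have ha : 2 * N * 5 ^ t ≤ 2 ^ a₀ := by
      have h5 : (5 : ℝ) ^ t ≤ (N : ℝ) ^ 9 := by
        calc (5 : ℝ) ^ t = (5 : ℝ) ^ (t : ℝ) := (Real.rpow_natCast 5 t).symm
          _ ≤ 5 ^ (9 * lg) := Real.rpow_le_rpow_of_exponent_le (by norm_num) ht1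
          _ = (N : ℝ) ^ 9 := by
              rw [mul_comm, Real.rpow_mul (by norm_num), hlg,
                Real.rpow_logb (by norm_num) (by norm_num) (by linarith)]
              exact_mod_cast Real.rpow_natCast (N : ℝ) 9
      have h5' : 5 ^ t ≤ N ^ 9 := by exact_mod_cast h5
      have hc : N ≤ 2 ^ c2 := (Nat.lt_pow_succ_log_self (by norm_num) N).le
      calc 2 * N * 5 ^ t ≤ 2 * N * N ^ 9 := Nat.mul_le_mul_left _ h5'
        _ = 2 * N ^ 10 := by ring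
        _ ≤ 2 * (2 ^ c2) ^ 10 := Nat.mul_le_mul_left _ (Nat.pow_le_pow_left hc 10)
        _ = 2 ^ a₀ := by rw [← pow_mul, ha₀, pow_add, pow_one, mul_comm c2 10]
    have hc2l : (c2 : ℝ) ≤ 1.5 * l + 1 := by
      have h1 : ((2 : ℝ)) ^ (Nat.log 2 N) ≤ N := by
        exact_mod_cast Nat.pow_log_le_self 2 (by omega : N ≠ 0)
      have h2 := Real.log_le_log (by positivity) h1
      rw [Real.log_pow] at h2
      have h3 := Real.log_two_gt_d9
      have h4 : (0 : ℝ) ≤ (Nat.log 2 N : ℕ) := Nat.cast_nonneg _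
      rw [hc2]
      push_cast
      nlinarith
    have ha15 : (a₀ : ℝ) + 1 ≤ 15 * (1 + l) := by
      rw [ha₀]
      push_cast
      linarith
    set z : ℕ → ℝ := fun i => (N : ℝ) ^ ((0.9 : ℝ) ^ i) with hz
    have hz1 : ∀ i, 1 ≤ z i := fun i => Real.one_le_rpow hN' (by positivity)
    have hzN : ∀ i, z i ≤ N := by
      intro i
      calc z i ≤ (N : ℝ) ^ (1 : ℝ) := Real.rpow_le_rpow_of_exponent_le hN'
            (pow_le_one₀ (by norm_num) (by norm_num))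
        _ = N := Real.rpow_one _
    set I : Finset ℕ := (Finset.range (⌊13 * l⌋₊ + 1)).filter (fun i => X < z i) with hI
    set F : ℕ → ℕ → Finset ℕ := fun i m => (Finset.Icc 1 N).filter (fun n => U n ∧
      ∃ τ ≤ t, S^[τ] n = m ∧ ∀ j < τ, z i < (S^[j] n : ℝ)) with hF
    have hcov : (Finset.Icc 1 N).filter (fun n => G X n) ⊆
        I.biUnion (fun i => ((Finset.Icc 1 ⌊z i⌋₊).filter (fun m => Bad (z i) m)).biUnion
          (F i)) := by
      intro n hn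
      rw [Finset.mem_filter, Finset.mem_Icc] at hn
      obtain ⟨i, τ, hXi, hτ, hB, hj⟩ := first_passage (by linarith : 1 < X) hn.1.1 hn.1.2 hn.2
      rw [Finset.mem_biUnion]
      refine ⟨i, ?_, ?_⟩
      · rw [hI, Finset.mem_filter, Finset.mem_range]
        exact ⟨Nat.lt_succ_of_le (Nat.le_floor (T1c_index hN hX2 hXi)), hXi⟩
      · rw [Finset.mem_biUnion]
        refine ⟨S^[τ] n, ?_, ?_⟩
        · rw [Finset.mem_filter, Finset.mem_Icc]
          refine ⟨⟨?_, Nat.le_floor hB.2.1⟩, hB⟩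
          have := hB.1.1
          omega
        · rw [hF]
          simp only [Finset.mem_filter, Finset.mem_Icc]
          exact ⟨hn.1, hn.2.1, τ, Nat.le_floor hτ, rfl, hj⟩
    have hone : ∀ i ∈ I, ((((Finset.Icc 1 ⌊z i⌋₊).filter (fun m => Bad (z i) m)).biUnion
        (F i)).card : ℝ) ≤ C0 * 81 * 225 * (N * (1 + l) ^ 4 * X ^ (-(0.017 : ℝ))) := by
      intro i hi
      rw [hI, Finset.mem_filter] at hi
      have hXz := hi.2
      have htz : (t : ℝ) ≤ z i := by linarith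
      have hm : ∀ m, ((F i m).card : ℝ) ≤ (t + 1) * (a₀ + 1) ^ 2 * (N * t / z i + 1) :=
        fun m => mult_card t N a₀ m (z i) (hz1 i) htz ha
      have hM0 : (0 : ℝ) ≤ (t + 1) * (a₀ + 1) ^ 2 * (N * t / z i + 1) := by
        have := hz1 i
        positivity
      calc ((((Finset.Icc 1 ⌊z i⌋₊).filter (fun m => Bad (z i) m)).biUnion (F i)).card : ℝ)
          ≤ ((∑ m ∈ (Finset.Icc 1 ⌊z i⌋₊).filter (fun m => Bad (z i) m), (F i m).card : ℕ) : ℝ) := by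
            exact_mod_cast Finset.card_biUnion_le
        _ = ∑ m ∈ (Finset.Icc 1 ⌊z i⌋₊).filter (fun m => Bad (z i) m), ((F i m).card : ℝ) := by
            push_cast
            rfl
        _ ≤ ∑ _m ∈ (Finset.Icc 1 ⌊z i⌋₊).filter (fun m => Bad (z i) m),
              ((t + 1) * (a₀ + 1) ^ 2 * (N * t / z i + 1) : ℝ) :=
            Finset.sum_le_sum fun m _ => hm m
        _ = (((Finset.Icc 1 ⌊z i⌋₊).filter (fun m => Bad (z i) m)).card : ℝ) *
              ((t + 1) * (a₀ + 1) ^ 2 * (N * t / z i + 1)) := by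
            rw [Finset.sum_const, nsmul_eq_mul]
        _ ≤ C0 * (z i) ^ (0.983 : ℝ) * ((t + 1) * (a₀ + 1) ^ 2 * (N * t / z i + 1)) :=
            mul_le_mul_of_nonneg_right (hbad (z i) (hz1 i)) hM0
        _ ≤ C0 * 81 * 225 * (N * (1 + l) ^ 4 * X ^ (-(0.017 : ℝ))) :=
            T1c_term hN (hz1 i) (hzN i) hX0 hXz.le hl0 hC0.le ht9 ha15
    have hIcard : (I.card : ℝ) ≤ 13 * (1 + l) := by
      have h1 : I.card ≤ ⌊13 * l⌋₊ + 1 := (Finset.card_filter_le _ _).trans (by simp)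
      have h2 : ((⌊13 * l⌋₊ : ℕ) : ℝ) ≤ 13 * l := Nat.floor_le (by positivity)
      have h3 : (I.card : ℝ) ≤ (⌊13 * l⌋₊ : ℕ) + 1 := by exact_mod_cast h1
      linarith
    set V : ℝ := C0 * 81 * 225 * (N * (1 + l) ^ 4 * X ^ (-(0.017 : ℝ))) with hV
    have hV0 : 0 ≤ V := by positivity
    calc (((Finset.Icc 1 N).filter (fun n => G X n)).card : ℝ)
        ≤ ((I.biUnion (fun i => ((Finset.Icc 1 ⌊z i⌋₊).filter (fun m => Bad (z i) m)).biUnion
          (F i))).card : ℝ) := by exact_mod_cast Finset.card_le_card hcov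
      _ ≤ ((∑ i ∈ I, (((Finset.Icc 1 ⌊z i⌋₊).filter (fun m => Bad (z i) m)).biUnion
          (F i)).card : ℕ) : ℝ) := by exact_mod_cast Finset.card_biUnion_le
      _ = ∑ i ∈ I, ((((Finset.Icc 1 ⌊z i⌋₊).filter (fun m => Bad (z i) m)).biUnion
          (F i)).card : ℝ) := by
          push_cast
          rfl
      _ ≤ ∑ _i ∈ I, V := Finset.sum_le_sum hone
      _ = I.card * V := by rw [Finset.sum_const, nsmul_eq_mul]
      _ ≤ 13 * (1 + l) * V := mul_le_mul_of_nonneg_right hIcard hV0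
      _ = C0 * 81 * 225 * 13 * W := by rw [hV, hW]; ring
      _ ≤ 9 * W + C0 * 81 * 225 * 13 * W := by linarith

end K5
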