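import Pool.Agent.Lib.MP_a4658c_nt.K5.R5
import Pool.Agent.Lib.MP_a4658c_nt.K5.T1c
import Pool.Agent.Lib.MP_a4658c_nt.K5.A4

/-! Piece R6: iteration (paper (4.3)) and the main counting theorem. -/

namespace K5

private lemma R6_aux {T₀ t C : ℝ} (hT₀ : 1 ≤ T₀) (ht : T₀ ≤ t) (hC : 0 ≤ C) (B₀ : ℝ) :
    B₀ + 20000 * C * (2 / T₀ - 1 / ((1 - 1 / 20000) * t)) + C / t ≤
      B₀ + 20000 * C * (2 / T₀ - 1 / t) := by
  have h0 : 0 < t := by linarith
  have e : 1 / ((1 - 1 / 20000) * t) = (1 / t) * (20000 / 19999) := by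
    field_simp
    norm_num
  have e2 : C / t = C * (1 / t) := by ring
  rw [e, e2]
  have h1 : 0 ≤ C * (1 / t) := mul_nonneg hC (by positivity)
  nlinarith

/-- Abstract iteration: if `f ≤ B₀` on `[0, T₀]` and every `t ≥ T₀` satisfies the one-step inequality,
then `f t ≤ B₀ + C₃ (2/T₀ - 1/t)` for `t ≥ T₀`, `C₃ = 20000 C`; in particular `f ≤ B₀ + 40000 C/T₀`. -/
lemma iteration {T₀ B₀ C : ℝ} (hT₀ : 1 ≤ T₀) (hB : 0 ≤ B₀) (hC : 0 ≤ C) (P : ℝ → ℝ → Prop)
    (hmono : ∀ s B B', P s B → B ≤ B' → P s B')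
    (hbase : ∀ s, 0 ≤ s → s ≤ T₀ → P s B₀)
    (hstep : ∀ t B, T₀ ≤ t → 0 ≤ B → (∀ s, 0 ≤ s → s ≤ (1 - 1 / 20000) * t → P s B) →
      P t (B + C / t)) :
    ∀ t, 0 ≤ t → P t (B₀ + 40000 * C / T₀) := by
  have hT0 : 0 < T₀ := by linarith
  have main : ∀ n : ℕ, ∀ t : ℝ, T₀ ≤ t → t ≤ T₀ + n * (1 / 20000) →
      P t (B₀ + 20000 * C * (2 / T₀ - 1 / t)) := by
    intro n
    induction n with
    | zero =>
      intro t h1 h2
      have h3 : t = T₀ := by
        have : ((0 : ℕ) : ℝ) = 0 := Nat.cast_zero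
        rw [this] at h2
        linarith
      refine hmono t B₀ _ (hbase t (by linarith) h3.le) ?_
      rw [h3]
      have h4 : 0 ≤ 20000 * C * (2 / T₀ - 1 / T₀) := by
        apply mul_nonneg (by linarith)
        rw [← sub_div]
        apply div_nonneg <;> linarith
      linarith
    | succ n ih =>
      intro t h1 h2
      have ht0 : 0 < t := by linarith
      set t' : ℝ := (1 - 1 / 20000) * t with ht'
      have ht'0 : 0 < t' := by rw [ht']; nlinarith
      have hhalf : T₀ / 2 ≤ t' := by rw [ht']; nlinarith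
      have h5 : 1 / t' ≤ 2 / T₀ := by
        rw [div_le_div_iff₀ ht'0 hT0]
        linarith
      set B : ℝ := B₀ + 20000 * C * (2 / T₀ - 1 / t') with hBdef
      have hB0 : B₀ ≤ B := by
        have : 0 ≤ 20000 * C * (2 / T₀ - 1 / t') := mul_nonneg (by linarith) (by linarith)
        linarith
      have hP : ∀ s, 0 ≤ s → s ≤ t' → P s B := by
        intro s hs0 hs
        rcases le_or_gt s T₀ with h6 | h6
        · exact hmono s B₀ B (hbase s hs0 h6) hB0
        · have h7 : s ≤ T₀ + n * (1 / 20000) := by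
            push_cast at h2
            have : t' ≤ t - 1 / 20000 := by rw [ht']; nlinarith
            linarith
          refine hmono s _ B (ih s h6.le h7) ?_
          have h8 : 1 / t' ≤ 1 / s := one_div_le_one_div_of_le (by linarith) hs
          have h9 : 20000 * C * (2 / T₀ - 1 / s) ≤ 20000 * C * (2 / T₀ - 1 / t') :=
            mul_le_mul_of_nonneg_left (by linarith) (by linarith)
          linarith
      exact hmono t _ _ (hstep t B h1 (by linarith) hP) (R6_aux hT₀ h1 hC B₀)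
  intro t ht
  have hCT : 0 ≤ 40000 * C / T₀ := by positivity
  rcases le_or_gt t T₀ with h | h
  · exact hmono t B₀ _ (hbase t ht h) (by linarith)
  · obtain ⟨n, hn⟩ := exists_nat_ge ((t - T₀) * 20000)
    refine hmono t _ _ (main n t h.le (by linarith)) ?_
    have h1 : 0 ≤ 20000 * C * (1 / t) := by
      have : 0 < t := by linarith
      positivity
    have h2 : 20000 * C * (2 / T₀ - 1 / t) = 40000 * C / T₀ - 20000 * C * (1 / t) := by ring
    linarith

/-- `RR ≤ C X^{-c}` for all `x ≥ 1`. -/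
theorem RR_bound : ∃ C c : ℝ, 0 < C ∧ 0 < c ∧ ∀ (X : ℝ), 1 ≤ X → ∀ (b : Bool) (N : ℕ) (x : ℝ),
    1 ≤ x → RR X b N x ≤ C * X ^ (-c) := by
  obtain ⟨t₀, C₅, ht₀, hC₅, hone⟩ := one_step
  obtain ⟨C₀, hC₀, hT1⟩ := T1
  obtain ⟨C₁, hC₁, hRR⟩ := RR_of_count
  -- the threshold for `X`
  have hev : ∀ᶠ X : ℝ in Filter.atTop, t₀ ≤ X ^ (0.0017 : ℝ) ∧
      Real.log X ≤ (1 / 4) * X ^ (0.0017 : ℝ) := by
    have h1 := (tendsto_rpow_atTop (y := (0.0017 : ℝ)) (by norm_num)).eventually_ge_atTop t₀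
    have h2 := (isLittleO_log_rpow_atTop (r := (0.0017 : ℝ)) (by norm_num)).bound
      (show (0 : ℝ) < 1 / 4 by norm_num)
    filter_upwards [h1, h2, Filter.eventually_ge_atTop 1] with X h1 h2 h3
    refine ⟨h1, ?_⟩
    rw [Real.norm_of_nonneg (Real.log_nonneg h3),
      Real.norm_of_nonneg (Real.rpow_nonneg (by linarith) _)] at h2
    exact h2
  obtain ⟨X₁, hX₁⟩ := Filter.eventually_atTop.1 hev
  set X₀ : ℝ := max X₁ 1 with hX₀
  have hX₀1 : 1 ≤ X₀ := le_max_right _ _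
  have hX₀0 : 0 < X₀ := by linarith
  refine ⟨3 * X₀ ^ (0.0017 : ℝ) + (32 * (C₁ * C₀) + 40000 * C₅), 0.0017, by positivity,
    by norm_num, ?_⟩
  intro X hX b N x hx
  have hX0 : 0 < X := by linarith
  have hXp : 0 < X ^ (-(0.0017 : ℝ)) := Real.rpow_pos_of_pos hX0 _
  rcases le_or_gt X₀ X with hXX | hXX
  · obtain ⟨hA, hB⟩ := hX₁ X ((le_max_left _ _).trans hXX)
    set T₀ : ℝ := X ^ (0.0017 : ℝ) with hT₀
    have hT₀1 : 1 ≤ T₀ := Real.one_le_rpow hX (by norm_num)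
    have hbase : ∀ s, 0 ≤ s → s ≤ T₀ → ∀ (c : Bool) (N : ℕ),
        RR X c N (Real.exp s) ≤ 32 * (C₁ * C₀) * X ^ (-(0.0017 : ℝ)) := by
      intro s hs0 hs c N
      have h1 := hRR X C₀ (X ^ (-(0.017 : ℝ))) hC₀.le (Real.rpow_nonneg hX0.le _)
        (fun N hN => hT1 N X hN hX) c N (Real.exp s) (Real.one_le_exp hs0)
      rw [Real.log_exp] at h1
      refine h1.trans ?_
      have h2 : (1 + s) ^ 5 ≤ 32 * T₀ ^ 5 := by
        calc (1 + s) ^ 5 ≤ (2 * T₀) ^ 5 := pow_le_pow_left₀ (by linarith) (by linarith) 5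
          _ = 32 * T₀ ^ 5 := by ring
      have h3 : T₀ ^ 5 = X ^ (0.0085 : ℝ) := by
        rw [hT₀, ← Real.rpow_natCast, ← Real.rpow_mul hX0.le]
        norm_num
      have h4 : X ^ (0.0085 : ℝ) * X ^ (-(0.017 : ℝ)) ≤ X ^ (-(0.0017 : ℝ)) := by
        rw [← Real.rpow_add hX0]
        exact Real.rpow_le_rpow_of_exponent_le hX (by norm_num)
      have h5 : 0 ≤ X ^ (-(0.017 : ℝ)) := Real.rpow_nonneg hX0.le _
      calc C₁ * C₀ * (1 + s) ^ 5 * X ^ (-(0.017 : ℝ))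
          ≤ C₁ * C₀ * (32 * T₀ ^ 5) * X ^ (-(0.017 : ℝ)) := by gcongr
        _ = 32 * (C₁ * C₀) * (X ^ (0.0085 : ℝ) * X ^ (-(0.017 : ℝ))) := by rw [h3]; ring
        _ ≤ 32 * (C₁ * C₀) * X ^ (-(0.0017 : ℝ)) :=
            mul_le_mul_of_nonneg_left h4 (by positivity)
    have hit := iteration (T₀ := T₀) (B₀ := 32 * (C₁ * C₀) * X ^ (-(0.0017 : ℝ))) (C := C₅)
      hT₀1 (by positivity) hC₅.le
      (fun t B => ∀ (c : Bool) (N : ℕ), RR X c N (Real.exp t) ≤ B)
      (fun s B B' h hBB c N => (h c N).trans hBB) hbase (by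
        intro t B ht hB0 hs c N
        refine hone t X B (hA.trans ht) hX ?_ hB0 ?_ c N
        · have h1 : Real.log X ≤ t / 4 := by linarith
          rw [← Real.exp_log hX0]
          exact Real.exp_le_exp.2 h1
        · intro c N s hs0 hs1
          exact hs s hs0 hs1 c N)
    have h1 := hit (Real.log x) (Real.log_nonneg hx) b N
    simp only [Real.exp_log (show 0 < x by linarith)] at h1
    refine h1.trans ?_
    have h2 : 40000 * C₅ / T₀ = 40000 * C₅ * X ^ (-(0.0017 : ℝ)) := by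
      rw [hT₀, Real.rpow_neg hX0.le]
      rfl
    rw [h2]
    have h3 : 0 ≤ 3 * X₀ ^ (0.0017 : ℝ) * X ^ (-(0.0017 : ℝ)) := by positivity
    have h4 : (3 * X₀ ^ (0.0017 : ℝ) + (32 * (C₁ * C₀) + 40000 * C₅)) * X ^ (-(0.0017 : ℝ)) =
      3 * X₀ ^ (0.0017 : ℝ) * X ^ (-(0.0017 : ℝ)) + (32 * (C₁ * C₀) * X ^ (-(0.0017 : ℝ)) +
        40000 * C₅ * X ^ (-(0.0017 : ℝ))) := by ring
    rw [h4]
    linarith
  · have h1 := RR_le_three X b N (show 0 < x by linarith)
    refine h1.trans ?_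
    have h2 : 1 ≤ X₀ ^ (0.0017 : ℝ) * X ^ (-(0.0017 : ℝ)) := by
      rw [Real.rpow_neg hX0.le, ← div_eq_mul_inv, one_le_div (Real.rpow_pos_of_pos hX0 _)]
      exact Real.rpow_le_rpow hX0.le hXX.le (by norm_num)
    have h3 : 0 ≤ (32 * (C₁ * C₀) + 40000 * C₅) * X ^ (-(0.0017 : ℝ)) := by positivity
    have h4 : (3 * X₀ ^ (0.0017 : ℝ) + (32 * (C₁ * C₀) + 40000 * C₅)) * X ^ (-(0.0017 : ℝ)) =
      3 * (X₀ ^ (0.0017 : ℝ) * X ^ (-(0.0017 : ℝ))) +
        (32 * (C₁ * C₀) + 40000 * C₅) * X ^ (-(0.0017 : ℝ)) := by ring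
    rw [h4]
    linarith

open Classical in
/-- Counting theorem for the accelerated map. -/
theorem count_G : ∃ C c : ℝ, 0 < C ∧ 0 < c ∧ ∀ (X : ℝ), 1 ≤ X → ∀ N : ℕ,
    (((Finset.Icc 1 N).filter (fun n => G X n)).card : ℝ) ≤ C * X ^ (-c) * N := by
  obtain ⟨C, c, hC, hc, h⟩ := RR_bound
  refine ⟨2 * C, c, by positivity, hc, ?_⟩
  intro X hX N
  rcases Nat.eq_zero_or_pos N with h0 | h0
  · subst h0
    simp
  · have hN : (1 : ℝ) ≤ N := by exact_mod_cast h0
    have h1 := count_le_RR X N h0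
    have h2 := h X hX true N N hN
    have h3 := h X hX false N N hN
    refine h1.trans ?_
    calc (N : ℝ) * (RR X true N N + RR X false N N) ≤ N * (C * X ^ (-c) + C * X ^ (-c)) := by
          gcongr
      _ = 2 * C * X ^ (-c) * N := by ring

open Classical in
/-- Counting theorem for the Kakutani map. -/
theorem count_kak : ∃ C c : ℝ, 0 < C ∧ 0 < c ∧ ∀ (X : ℝ), 1 ≤ X → ∀ N : ℕ,
    (((Finset.Icc 1 N).filter (fun n => ∀ k : ℕ, X < (kak^[k] n : ℝ))).card : ℝ)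
      ≤ C * X ^ (-c) * N := by
  obtain ⟨C, c, hC, hc, h⟩ := count_G
  refine ⟨3 * C, c, by positivity, hc, ?_⟩
  intro X hX N
  have hXp : 0 < X ^ (-c) := Real.rpow_pos_of_pos (by linarith) _
  have h1 := kak_count (X := X) (C := C * X ^ (-c)) hX (by positivity) (fun N => h X hX N) N
  refine h1.trans (le_of_eq ?_)
  ring

open Classical in
/-- Natural density one for every `f → ∞`. -/
theorem density_kak (f : ℕ → ℝ) (hf : Filter.Tendsto f Filter.atTop Filter.atTop) :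
    Filter.Tendsto (fun N : ℕ =>
      (((Finset.Icc 1 N).filter (fun n => ∃ k : ℕ, (kak^[k] n : ℝ) ≤ f n)).card : ℝ) / N)
      Filter.atTop (nhds 1) := by
  obtain ⟨C, c, hC, hc, h⟩ := count_kak
  rw [Metric.tendsto_atTop]
  intro ε hε
  -- the choice of `X`
  have hlim : Filter.Tendsto (fun X : ℝ => C * X ^ (-c)) Filter.atTop (nhds (C * 0)) :=
    (tendsto_rpow_neg_atTop hc).const_mul C
  rw [mul_zero] at hlim
  obtain ⟨X, hX1, hXε⟩ : ∃ X : ℝ, 1 ≤ X ∧ C * X ^ (-c) < ε / 2 := by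
    have h1 := (hlim.eventually (gt_mem_nhds (show (0 : ℝ) < ε / 2 by linarith))).and
      (Filter.eventually_ge_atTop (1 : ℝ))
    obtain ⟨X, hX⟩ := h1.exists
    exact ⟨X, hX.2, hX.1⟩
  obtain ⟨n₀, hn₀⟩ := Filter.eventually_atTop.1 (hf.eventually_ge_atTop X)
  obtain ⟨N₁, hN₁⟩ := exists_nat_gt ((n₀ : ℝ) / (ε / 2))
  refine ⟨max N₁ 1, ?_⟩
  intro N hN
  have hN1 : 1 ≤ N := (le_max_right _ _).trans hN
  have hN0 : (0 : ℝ) < N := by exact_mod_cast hN1
  have hNN : (n₀ : ℝ) < (ε / 2) * N := by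
    have h1 : (N₁ : ℝ) ≤ N := by exact_mod_cast (le_max_left _ _).trans hN
    have h2 : (n₀ : ℝ) / (ε / 2) < N := lt_of_lt_of_le hN₁ h1
    rw [div_lt_iff₀ (by linarith)] at h2
    linarith
  set A : Finset ℕ := (Finset.Icc 1 N).filter (fun n => ∃ k : ℕ, (kak^[k] n : ℝ) ≤ f n) with hA
  have hcompl : (Finset.Icc 1 N) \ A ⊆ Finset.range n₀ ∪
      (Finset.Icc 1 N).filter (fun n => ∀ k : ℕ, X < (kak^[k] n : ℝ)) := by
    intro n hn
    rw [Finset.mem_sdiff, hA, Finset.mem_filter] at hn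
    rw [Finset.mem_union, Finset.mem_range, Finset.mem_filter]
    by_cases hlt : n < n₀
    · exact Or.inl hlt
    · right
      refine ⟨hn.1, fun k => ?_⟩
      by_contra hcon
      push Not at hcon
      exact hn.2 ⟨hn.1, k, hcon.trans (hn₀ n (by omega))⟩
  have hcard : (((Finset.Icc 1 N) \ A).card : ℝ) ≤ n₀ + C * X ^ (-c) * N := by
    have h1 := (Finset.card_le_card hcompl).trans (Finset.card_union_le _ _)
    rw [Finset.card_range] at h1
    have h2 : (((Finset.Icc 1 N) \ A).card : ℝ) ≤ n₀ +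
        (((Finset.Icc 1 N).filter (fun n => ∀ k : ℕ, X < (kak^[k] n : ℝ))).card : ℝ) := by
      exact_mod_cast h1
    linarith [h X hX1 N]
  have hAsub : A ⊆ Finset.Icc 1 N := Finset.filter_subset _ _
  have hsum : (A.card : ℝ) + (((Finset.Icc 1 N) \ A).card : ℝ) = N := by
    have h1 := Finset.card_sdiff_add_card_eq_card hAsub
    rw [Nat.card_Icc, Nat.add_sub_cancel] at h1
    have h2 : A.card + ((Finset.Icc 1 N) \ A).card = N := by omega
    exact_mod_cast h2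
  have hAle : (A.card : ℝ) / N ≤ 1 := by
    rw [div_le_one hN0]
    have : (0 : ℝ) ≤ (((Finset.Icc 1 N) \ A).card : ℝ) := Nat.cast_nonneg _
    linarith
  have hAge : 1 - ε < (A.card : ℝ) / N := by
    rw [lt_div_iff₀ hN0]
    have h1 : C * X ^ (-c) * N ≤ (ε / 2) * N := mul_le_mul_of_nonneg_right hXε.le hN0.le
    nlinarith
  rw [Real.dist_eq, abs_lt]
  constructor <;> linarith

end K5
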