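import Pool.Agent.Lib.MP_a4658c_nt.K5.MDefs

/-! Definitions for the transfer (paper section 4). -/

namespace K5

/-- `kr y x = min (x/y) (y/x)`, so that `ker x n = (1/n) kr n x`. -/
noncomputable def kr (y x : ℝ) : ℝ := min (x / y) (y / x)

/-- Good words. -/
def Pgood (lmax : ℕ) (Y K E : ℝ) (w : List Let) : Prop :=
  Y < (D (w.take lmax) : ℝ) ∧ Fr w ≤ K ∧ (D w : ℝ) ≤ E

/-- `n` has a good word of length `k`. -/
def GoodN (Λ k lmax : ℕ) (Y K E : ℝ) (n : ℕ) : Prop :=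
  fword k n ∈ W Λ k (cl (S^[k] n)) ∧ Pgood lmax Y K E (fword k n)

open Classical in
/-- All words with given end class, bounded divisor and a good stopped prefix. -/
noncomputable def TA (Λ k lmax : ℕ) (Y E : ℝ) (c c' : Bool) : Finset (List Let) :=
  (W Λ k c).filter (fun w => endc c w = c' ∧ (D w : ℝ) ≤ E ∧ Tm k lmax Y w)

open Classical in
/-- The points `m ∈ G` of class `c` in `[z₁, z₂]`. -/
noncomputable def Mset (X : ℝ) (c : Bool) (N₂ : ℕ) (z₁ z₂ : ℝ) : Finset ℕ :=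
  (Finset.Icc 1 N₂).filter (fun m => G X m ∧ cl m = c ∧ z₁ ≤ (m : ℝ) ∧ (m : ℝ) ≤ z₂)

end K5
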