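import Pool.Agent.Lib.MP_a4658c_nt.K5.TDefs
import Pool.Agent.Lib.MP_a4658c_nt.K5.A2
import Pool.Agent.Lib.MP_a4658c_nt.K5.S2

/-! Piece T1a: paper (1.1), `|Bad(z)| ≤ C z^0.983`. -/

namespace K5

private lemma T1a_five {z : ℝ} (hz : 1 ≤ z) : (5 : ℝ) ^ (q9 z) ≤ z ^ (0.9 : ℝ) := by
  have hz0 : 0 < z := by linarith
  have hl : 0 ≤ (0.9 : ℝ) * Real.logb 5 z :=
    mul_nonneg (by norm_num) (Real.logb_nonneg (by norm_num) hz)
  have h1 : (q9 z : ℝ) ≤ (0.9 : ℝ) * Real.logb 5 z := Nat.floor_le hl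
  have h2 : (5 : ℝ) ^ (q9 z) = (5 : ℝ) ^ ((q9 z : ℕ) : ℝ) := (Real.rpow_natCast 5 (q9 z)).symm
  have h3 : (5 : ℝ) ^ ((0.9 : ℝ) * Real.logb 5 z) = z ^ (0.9 : ℝ) := by
    rw [mul_comm, Real.rpow_mul (by norm_num), Real.rpow_logb (by norm_num) (by norm_num) hz0]
  rw [h2, ← h3]
  exact Real.rpow_le_rpow_of_exponent_le (by norm_num) h1

private lemma T1a_q_le {z : ℝ} (hz : 1 ≤ z) : (q9 z : ℝ) ≤ z ^ (0.9 : ℝ) := by
  refine le_trans ?_ (T1a_five hz)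
  have h1 : q9 z < 5 ^ (q9 z) := Nat.lt_pow_self (by norm_num)
  exact_mod_cast h1.le

private lemma T1a_prod {z : ℝ} (hz : 1 ≤ z) {m : ℕ} (h : Bad z m) :
    ∏ i ∈ Finset.range (q9 z), (1 + 1 / (5 * (S^[i] m : ℝ))) ≤ 2 := by
  have hz0 : 0 < z := by linarith
  have hy : 0 < z ^ (0.9 : ℝ) := Real.rpow_pos_of_pos hz0 _
  set y : ℝ := z ^ (0.9 : ℝ) with hydef
  calc ∏ i ∈ Finset.range (q9 z), (1 + 1 / (5 * (S^[i] m : ℝ)))
      ≤ ∏ _i ∈ Finset.range (q9 z), Real.exp (1 / (5 * y)) := by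
        refine Finset.prod_le_prod (fun i _ => by positivity) fun i hi => ?_
        have h1 := h.2.2 i (Finset.mem_range.1 hi).le
        have h2 : 1 / (5 * (S^[i] m : ℝ)) ≤ 1 / (5 * y) :=
          one_div_le_one_div_of_le (by positivity) (by linarith)
        have h3 := Real.add_one_le_exp (1 / (5 * y))
        linarith
    _ = Real.exp (q9 z * (1 / (5 * y))) := by
        rw [Finset.prod_const, Finset.card_range, Real.exp_nat_mul]
    _ ≤ Real.exp (Real.log 2) := by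
        refine Real.exp_le_exp.2 ?_
        have h1 := T1a_q_le hz
        have h2 : (q9 z : ℝ) * (1 / (5 * y)) ≤ y * (1 / (5 * y)) :=
          mul_le_mul_of_nonneg_right h1 (by positivity)
        have h3 : y * (1 / (5 * y)) = 1 / 5 := by field_simp
        have h4 := Real.log_two_gt_d9
        rw [h3] at h2
        linarith
    _ = 2 := Real.exp_log (by norm_num)

private lemma T1a_split {z : ℝ} (hz0 : 0 < z) : z ^ (0.1 : ℝ) * z ^ (0.9 : ℝ) = z := by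
  rw [← Real.rpow_add hz0]
  norm_num

private lemma T1a_bad {z : ℝ} (hz : 1 ≤ z) {m : ℕ} (h : Bad z m) :
    (D (fword (q9 z) m) : ℝ) ≤ 2 * 5 ^ (q9 z) * z ^ (0.1 : ℝ) ∧
    (D (fword (q9 z) m) : ℝ) ≤ 2 * z := by
  have hz0 : 0 < z := by linarith
  have hy : 0 < z ^ (0.9 : ℝ) := Real.rpow_pos_of_pos hz0 _
  have hx : 0 < z ^ (0.1 : ℝ) := Real.rpow_pos_of_pos hz0 _
  have h1 := prod_formula h.1 (q9 z)
  have h2 := T1a_prod hz h
  have h3 := h.2.2 (q9 z) le_rfl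
  have h4 := T1a_split hz0
  have h5 := T1a_five hz
  have hD : (0 : ℝ) < D (fword (q9 z) m) := by exact_mod_cast D_pos _
  have h6 : (D (fword (q9 z) m) : ℝ) * z ^ (0.9 : ℝ) ≤ 5 ^ (q9 z) * z * 2 := by
    calc (D (fword (q9 z) m) : ℝ) * z ^ (0.9 : ℝ)
        ≤ (D (fword (q9 z) m) : ℝ) * (S^[q9 z] m : ℝ) :=
          mul_le_mul_of_nonneg_left h3.le hD.le
      _ = 5 ^ (q9 z) * (m : ℝ) * ∏ i ∈ Finset.range (q9 z), (1 + 1 / (5 * (S^[i] m : ℝ))) := h1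
      _ ≤ 5 ^ (q9 z) * z * 2 := by
          refine mul_le_mul (mul_le_mul_of_nonneg_left h.2.1 (by positivity)) h2 ?_ (by positivity)
          exact Finset.prod_nonneg fun i _ => by positivity
  have h7 : (D (fword (q9 z) m) : ℝ) ≤ 2 * 5 ^ (q9 z) * z ^ (0.1 : ℝ) := by
    refine le_of_mul_le_mul_right ?_ hy
    refine h6.trans (le_of_eq ?_)
    calc 5 ^ (q9 z) * z * 2 = 2 * 5 ^ (q9 z) * (z ^ (0.1 : ℝ) * z ^ (0.9 : ℝ)) := by
          rw [h4]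
          ring
      _ = 2 * 5 ^ (q9 z) * z ^ (0.1 : ℝ) * z ^ (0.9 : ℝ) := by ring
  refine ⟨h7, h7.trans ?_⟩
  calc 2 * 5 ^ (q9 z) * z ^ (0.1 : ℝ) ≤ 2 * z ^ (0.9 : ℝ) * z ^ (0.1 : ℝ) :=
        mul_le_mul_of_nonneg_right (mul_le_mul_of_nonneg_left h5 (by norm_num)) hx.le
    _ = 2 * (z ^ (0.1 : ℝ) * z ^ (0.9 : ℝ)) := by ring
    _ = 2 * z := by rw [h4]

/-- For a bad `m` with word `w`: `D w ≤ 2 · 5^q z^0.1 ≤ 2 z` (z large enough that `q ≤ z^0.9`). -/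
lemma bad_D : ∃ z₀ : ℝ, 1 ≤ z₀ ∧ ∀ z : ℝ, z₀ ≤ z → ∀ m : ℕ, Bad z m →
    (D (fword (q9 z) m) : ℝ) ≤ 2 * 5 ^ (q9 z) * z ^ (0.1 : ℝ) ∧
    (D (fword (q9 z) m) : ℝ) ≤ 2 * z :=
  ⟨1, le_rfl, fun _ hz _ h => T1a_bad hz h⟩

private lemma T1a_coprime (w : List Let) (q : ℕ) : Nat.Coprime (D w) (5 ^ q) := by
  rw [D_eq]
  exact Nat.Coprime.mul_left (Nat.Coprime.pow _ _ (by norm_num)) (Nat.Coprime.pow _ _ (by norm_num))

open Classical in
private lemma T1a_class (n q : ℕ) (w : List Let) :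
    ((Finset.Icc 1 n).filter (fun m => U m ∧ fword q m = w)).card ≤ n / D w + 1 := by
  have h := Finset.card_le_card_of_injOn
    (s := (Finset.Icc 1 n).filter (fun m => U m ∧ fword q m = w))
    (t := Finset.range (n / D w + 1)) (fun m => m / D w) (by
      intro m hm
      have h1 := (Finset.mem_filter.1 hm).1
      refine Finset.mem_coe.2 (Finset.mem_range.2 (Nat.lt_succ_of_le ?_))
      exact Nat.div_le_div_right (Finset.mem_Icc.1 h1).2) (by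
      intro m hm m' hm' he
      obtain ⟨-, hU, hw⟩ := Finset.mem_filter.1 (Finset.mem_coe.1 hm)
      obtain ⟨-, hU', hw'⟩ := Finset.mem_filter.1 (Finset.mem_coe.1 hm')
      have e1 := fword_eq hU q
      have e2 := fword_eq hU' q
      rw [hw] at e1
      rw [hw'] at e2
      have h1 : 5 ^ q * m + cnum w ≡ 5 ^ q * m' + cnum w [MOD D w] := by
        rw [e1, e2]
        exact (Nat.modEq_zero_iff_dvd.2 (dvd_mul_right _ _)).trans
          (Nat.modEq_zero_iff_dvd.2 (dvd_mul_right _ _)).symm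
      have h2 : 5 ^ q * m ≡ 5 ^ q * m' [MOD D w] := Nat.ModEq.add_right_cancel' _ h1
      have h3 : m ≡ m' [MOD D w] := Nat.ModEq.cancel_left_of_coprime (T1a_coprime w q) h2
      have h4 := Nat.div_add_mod m (D w)
      have h5 := Nat.div_add_mod m' (D w)
      have h6 : m / D w = m' / D w := he
      rw [← h4, ← h5, h6]
      congr 1)
  rwa [Finset.card_range] at h

private lemma T1a_count {z E : ℝ} (hz : 1 ≤ z) (hE : E ≤ 2 * z) {w : List Let}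
    (hw : (D w : ℝ) ≤ E) : ((⌊z⌋₊ / D w + 1 : ℕ) : ℝ) ≤ 3 * z * E * (1 / (D w : ℝ) ^ 2) := by
  have hD : (0 : ℝ) < D w := by exact_mod_cast D_pos w
  have hz0 : 0 < z := by linarith
  have h1 : ((⌊z⌋₊ / D w : ℕ) : ℝ) ≤ z / D w :=
    Nat.cast_div_le.trans (div_le_div_of_nonneg_right (Nat.floor_le hz0.le) hD.le)
  have h2 : 1 ≤ 2 * z / D w := by
    rw [one_le_div hD]
    linarith
  have h3 : ((⌊z⌋₊ / D w + 1 : ℕ) : ℝ) ≤ 3 * z / D w := by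
    push_cast
    have e : 3 * z / (D w : ℝ) = z / D w + 2 * z / D w := by ring
    rw [e]
    linarith
  refine h3.trans ?_
  have h4 : 1 ≤ E / D w := by rwa [one_le_div hD]
  have e : 3 * z * E * (1 / (D w : ℝ) ^ 2) = 3 * z / D w * (E / D w) := by
    field_simp
  rw [e]
  exact le_mul_of_one_le_right (by positivity) h4

private lemma T1a_rate : (0.81 : ℝ) ≤ 5 ^ (-0.13 : ℝ) := by
  have h0 : (0 : ℝ) ≤ 5 ^ (-0.13 : ℝ) := Real.rpow_nonneg (by norm_num) _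
  refine (pow_le_pow_iff_left₀ (by norm_num) h0 (n := 100) (by norm_num)).1 ?_
  have e : ((5 : ℝ) ^ (-0.13 : ℝ)) ^ (100 : ℕ) = 1 / 5 ^ (13 : ℕ) := by
    rw [← Real.rpow_natCast, ← Real.rpow_mul (by norm_num)]
    have e1 : (-0.13 : ℝ) * ((100 : ℕ) : ℝ) = -((13 : ℕ) : ℝ) := by norm_num
    rw [e1, Real.rpow_neg (by norm_num), Real.rpow_natCast, one_div]
  rw [e]
  norm_num

private lemma T1a_decay {z : ℝ} (hz : 1 ≤ z) :
    (0.81 : ℝ) ^ (q9 z) ≤ 1 / 0.81 * z ^ (-0.117 : ℝ) := by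
  have hz0 : 0 < z := by linarith
  set y : ℝ := (0.9 : ℝ) * Real.logb 5 z with hy
  have hy0 : 0 ≤ y := mul_nonneg (by norm_num) (Real.logb_nonneg (by norm_num) hz)
  have h1 : y - 1 ≤ (q9 z : ℝ) := by
    have := Nat.lt_floor_add_one y
    have h2 : (q9 z : ℝ) = (⌊y⌋₊ : ℝ) := rfl
    linarith
  have h2 : (0.81 : ℝ) ^ (q9 z) = (0.81 : ℝ) ^ ((q9 z : ℕ) : ℝ) := (Real.rpow_natCast _ _).symm
  rw [h2]
  have h3 : (0.81 : ℝ) ^ ((q9 z : ℕ) : ℝ) ≤ (0.81 : ℝ) ^ (y - 1) :=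
    Real.rpow_le_rpow_of_exponent_ge (by norm_num) (by norm_num) h1
  have h4 : (0.81 : ℝ) ^ (y - 1) = 1 / 0.81 * (0.81 : ℝ) ^ y := by
    rw [Real.rpow_sub (by norm_num), Real.rpow_one]
    ring
  have h5 : (0.81 : ℝ) ^ y ≤ (5 ^ (-0.13 : ℝ)) ^ y :=
    Real.rpow_le_rpow (by norm_num) T1a_rate hy0
  have h6 : ((5 : ℝ) ^ (-0.13 : ℝ)) ^ y = z ^ (-0.117 : ℝ) := by
    rw [← Real.rpow_mul (by norm_num), hy]
    have e : (-0.13 : ℝ) * (0.9 * Real.logb 5 z) = Real.logb 5 z * (-0.117) := by ring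
    rw [e, Real.rpow_mul (by norm_num), Real.rpow_logb (by norm_num) (by norm_num) hz0]
  rw [h6] at h5
  rw [h4] at h3
  exact h3.trans (mul_le_mul_of_nonneg_left h5 (by norm_num))

open Classical in
/-- (1.1) -/
lemma bad_card : ∃ C : ℝ, 0 < C ∧ ∀ z : ℝ, 1 ≤ z →
    (((Finset.Icc 1 ⌊z⌋₊).filter (fun m => Bad z m)).card : ℝ) ≤ C * z ^ (0.983 : ℝ) := by
  refine ⟨27 / 0.81, by norm_num, ?_⟩
  intro z hz
  have hz0 : 0 < z := by linarith
  have hx : 0 < z ^ (0.1 : ℝ) := Real.rpow_pos_of_pos hz0 _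
  set q : ℕ := q9 z with hq
  set Λ : ℕ := ⌊2 * z⌋₊ with hΛ
  set E : ℝ := 2 * 5 ^ q * z ^ (0.1 : ℝ) with hEdef
  have hE0 : 0 ≤ E := by positivity
  have hE : E ≤ 2 * z := by
    have h4 := T1a_split hz0
    have h5 := T1a_five hz
    calc E ≤ 2 * z ^ (0.9 : ℝ) * z ^ (0.1 : ℝ) :=
          mul_le_mul_of_nonneg_right (mul_le_mul_of_nonneg_left h5 (by norm_num)) hx.le
      _ = 2 * (z ^ (0.1 : ℝ) * z ^ (0.9 : ℝ)) := by ring
      _ = 2 * z := by rw [h4]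
  have hsub : (Finset.Icc 1 ⌊z⌋₊).filter (fun m => Bad z m) ⊆
      (Finset.univ : Finset Bool).biUnion fun c =>
        ((W Λ q c).filter fun w => (D w : ℝ) ≤ E).biUnion fun w =>
          (Finset.Icc 1 ⌊z⌋₊).filter (fun m => U m ∧ fword q m = w) := by
    intro m hm
    obtain ⟨hm1, hm2⟩ := Finset.mem_filter.1 hm
    obtain ⟨h1, h2⟩ := T1a_bad hz hm2
    refine Finset.mem_biUnion.2 ⟨cl (S^[q] m), Finset.mem_univ _, Finset.mem_biUnion.2
      ⟨fword q m, Finset.mem_filter.2 ⟨?_, h1⟩, Finset.mem_filter.2 ⟨hm1, hm2.1, rfl⟩⟩⟩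
    refine fword_mem_W hm2.1 q fun l hl => ?_
    obtain ⟨h3, h4⟩ := letter_le_D hl
    have key : ∀ a : ℕ, 2 ^ a ≤ D (fword q m) → a ≤ Λ := by
      intro a ha
      rw [hΛ, Nat.le_floor_iff (by positivity)]
      have h5 : a ≤ D (fword q m) := (Nat.lt_pow_self (by norm_num)).le.trans ha
      have h6 : (a : ℝ) ≤ (D (fword q m) : ℝ) := by exact_mod_cast h5
      exact h6.trans h2
    exact ⟨key _ h3, key _ h4⟩
  have hcard : (((Finset.Icc 1 ⌊z⌋₊).filter (fun m => Bad z m)).card : ℝ) ≤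
      ∑ c : Bool, ∑ w ∈ (W Λ q c).filter (fun w => (D w : ℝ) ≤ E),
        ((⌊z⌋₊ / D w + 1 : ℕ) : ℝ) := by
    have h1 : ((Finset.Icc 1 ⌊z⌋₊).filter (fun m => Bad z m)).card ≤
        ∑ c : Bool, ∑ w ∈ (W Λ q c).filter (fun w => (D w : ℝ) ≤ E), (⌊z⌋₊ / D w + 1) := by
      refine (Finset.card_le_card hsub).trans (Finset.card_biUnion_le.trans ?_)
      refine Finset.sum_le_sum fun c _ => Finset.card_biUnion_le.trans ?_
      exact Finset.sum_le_sum fun w _ => T1a_class _ q w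
    have h2 : (((Finset.Icc 1 ⌊z⌋₊).filter (fun m => Bad z m)).card : ℝ) ≤
        ((∑ c : Bool, ∑ w ∈ (W Λ q c).filter (fun w => (D w : ℝ) ≤ E), (⌊z⌋₊ / D w + 1) : ℕ) :
          ℝ) := by exact_mod_cast h1
    rw [Nat.cast_sum] at h2
    refine h2.trans (le_of_eq (Finset.sum_congr rfl fun c _ => ?_))
    rw [Nat.cast_sum]
  have hone : ∀ c : Bool, ∑ w ∈ (W Λ q c).filter (fun w => (D w : ℝ) ≤ E),
      ((⌊z⌋₊ / D w + 1 : ℕ) : ℝ) ≤ 3 * z * E * (9 / 4 * (0.81 / 5) ^ q) := by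
    intro c
    calc ∑ w ∈ (W Λ q c).filter (fun w => (D w : ℝ) ≤ E), ((⌊z⌋₊ / D w + 1 : ℕ) : ℝ)
        ≤ ∑ w ∈ (W Λ q c).filter (fun w => (D w : ℝ) ≤ E), 3 * z * E * (1 / (D w : ℝ) ^ 2) :=
          Finset.sum_le_sum fun w hw => T1a_count hz hE (Finset.mem_filter.1 hw).2
      _ ≤ ∑ w ∈ W Λ q c, 3 * z * E * (1 / (D w : ℝ) ^ 2) :=
          Finset.sum_le_sum_of_subset_of_nonneg (Finset.filter_subset _ _) fun w _ _ => by
            positivity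
      _ = 3 * z * E * ∑ w ∈ W Λ q c, 1 / (D w : ℝ) ^ 2 := by rw [Finset.mul_sum]
      _ ≤ 3 * z * E * (9 / 4 * (0.81 / 5) ^ q) :=
          mul_le_mul_of_nonneg_left (sum_W_sq Λ q c) (by positivity)
  refine hcard.trans ((Finset.sum_le_sum fun c _ => hone c).trans ?_)
  rw [Finset.sum_const, Finset.card_univ, Fintype.card_bool, nsmul_eq_mul]
  have hd := T1a_decay hz
  have e5 : (5 : ℝ) ^ q * (0.81 / 5) ^ q = 0.81 ^ q := by
    rw [← mul_pow]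
    norm_num
  calc ((2 : ℕ) : ℝ) * (3 * z * E * (9 / 4 * (0.81 / 5) ^ q))
      = 27 * (z * z ^ (0.1 : ℝ)) * (5 ^ q * (0.81 / 5) ^ q) := by
        rw [hEdef]
        push_cast
        ring
    _ = 27 * (z * z ^ (0.1 : ℝ)) * 0.81 ^ q := by rw [e5]
    _ ≤ 27 * (z * z ^ (0.1 : ℝ)) * (1 / 0.81 * z ^ (-0.117 : ℝ)) :=
        mul_le_mul_of_nonneg_left hd (by positivity)
    _ = 27 / 0.81 * (z ^ (1 : ℝ) * z ^ (0.1 : ℝ) * z ^ (-0.117 : ℝ)) := by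
        rw [Real.rpow_one]
        ring
    _ = 27 / 0.81 * z ^ (0.983 : ℝ) := by
        rw [← Real.rpow_add hz0, ← Real.rpow_add hz0]
        norm_num

end K5
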