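import Pool.Agent.Lib.MP_a4658c_nt.K5.Defs

/-! Definitions for (T1). -/

namespace K5

/-- `q(z) = ⌊0.9 log_5 z⌋`. -/
noncomputable def q9 (z : ℝ) : ℕ := ⌊(0.9 : ℝ) * Real.logb 5 z⌋₊

/-- Bad points at scale `z`. -/
def Bad (z : ℝ) (m : ℕ) : Prop :=
  U m ∧ (m : ℝ) ≤ z ∧ ∀ i ≤ q9 z, z ^ (0.9 : ℝ) < (S^[i] m : ℝ)

end K5
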